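import Pool.Agent.Lib.MP_31386d_pr_POTTS.AvgStep

/-!
# Dirichlet energy of a function separating two long connected sets

Pure analysis on the lattice (project RQ): a function equal to `1` at a point of each of `m`
consecutive hyperplanes and equal to `0` at a point of each of `m` consecutive hyperplanes (maybe
of another direction) of a box of side `N` in dimension at least three has energy at least
`c m / (log N) ^ 2`.
-/

set_option autoImplicit false

namespace Pool.Agent.Lib.MP_31386d_pr_RQ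

open Finset
open Pool.Agent.Lib.MP_31386d_pr
open Pool.Agent.Lib.MP_31386d_pr_POTTS

section point

variable {d : ℕ}

private theorem bxR (c : Pt d) (l : ℕ) : ((bx c l).card : ℝ) = (l : ℝ) ^ d := by
  rw [card_bx]
  push_cast
  ring

/-- Averages over a box of side `l` and over a sub-box of side `l'`, `l ≤ 2 l'`. -/
theorem ArmEnergy_step (hd : 2 ≤ d) (h : Pt d → ℝ) {c c' : Pt d} {l l' : ℕ} (hl' : 1 ≤ l')
    (hll : l' ≤ l) (hl : l ≤ 2 * l') (hc : bx c' l' ⊆ bx c l) :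
    (avg h c' l' - avg h c l) ^ 2 ≤ 2 ^ d * d * En h (bx c l) := by
  have hlR' : (1 : ℝ) ≤ (l' : ℝ) := by exact_mod_cast hl'
  have hlR : (l : ℝ) ≤ 2 * l' := by exact_mod_cast hl
  have hl0 : (0 : ℝ) < (l : ℝ) := by
    have : 1 ≤ l := le_trans hl' hll
    exact_mod_cast this
  have ha : (0 : ℝ) < (l' : ℝ) ^ d := pow_pos (by linarith) d
  have hA : (0 : ℝ) < (l : ℝ) ^ d := pow_pos hl0 d
  have hD : (l' : ℝ) ^ d * (l : ℝ) ^ d * (avg h c' l' - avg h c l) =
      ∑ x ∈ bx c' l', ∑ y ∈ bx c l, (h x - h y) := by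
    have h1 : ∑ x ∈ bx c' l', ∑ y ∈ bx c l, (h x - h y) =
        ((bx c l).card : ℝ) * ∑ x ∈ bx c' l', h x - ((bx c' l').card : ℝ) * ∑ y ∈ bx c l, h y := by
      simp only [sum_sub_distrib, sum_const, nsmul_eq_mul, mul_sum]
    rw [h1, bxR, bxR]
    unfold avg
    field_simp
  have hcs := sq_sum_le_card_mul_sum_sq (s := bx c' l' ×ˢ bx c l)
    (f := fun p : Pt d × Pt d => h p.1 - h p.2)
  rw [sum_product, sum_product, card_product] at hcs
  push_cast at hcs
  rw [bxR, bxR, ← hD] at hcs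
  have hsub : ∑ x ∈ bx c' l', ∑ y ∈ bx c l, (h x - h y) ^ 2 ≤
      ∑ x ∈ bx c l, ∑ y ∈ bx c l, (h x - h y) ^ 2 :=
    sum_le_sum_of_subset_of_nonneg hc fun _ _ _ => sum_nonneg fun _ _ => sq_nonneg _
  have hS := hsub.trans (poincare h c l)
  have hE0 : 0 ≤ En h (bx c l) := En_nonneg h _
  set a : ℝ := (l' : ℝ) ^ d with hadef
  set A : ℝ := (l : ℝ) ^ d with hAdef
  set Δ : ℝ := avg h c' l' - avg h c l with hΔdef
  set E : ℝ := En h (bx c l) with hEdef
  have h1 : (a * A) * ((a * A) * Δ ^ 2) ≤ (a * A) * (d * (l : ℝ) ^ (d + 2) * E) := by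
    calc (a * A) * ((a * A) * Δ ^ 2) = (a * A * Δ) ^ 2 := by ring
      _ ≤ (a * A) * ∑ x ∈ bx c' l', ∑ y ∈ bx c l, (h x - h y) ^ 2 := hcs
      _ ≤ _ := mul_le_mul_of_nonneg_left hS (mul_pos ha hA).le
  have h2 : (a * A) * Δ ^ 2 ≤ d * (l : ℝ) ^ (d + 2) * E :=
    le_of_mul_le_mul_left h1 (mul_pos ha hA)
  have h3 : (l : ℝ) ^ 2 ≤ 2 ^ d * a := by
    calc (l : ℝ) ^ 2 ≤ (2 * l') ^ 2 := pow_le_pow_left₀ hl0.le hlR 2
      _ ≤ (2 * (l' : ℝ)) ^ d := pow_le_pow_right₀ (by linarith) hd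
      _ = 2 ^ d * a := by rw [mul_pow]
  have h4 : (a * A) * Δ ^ 2 ≤ (a * A) * (2 ^ d * d * E) := by
    calc (a * A) * Δ ^ 2 ≤ d * (l : ℝ) ^ (d + 2) * E := h2
      _ = (l : ℝ) ^ 2 * (A * (d * E)) := by rw [pow_add]; ring
      _ ≤ (2 ^ d * a) * (A * (d * E)) := by
        refine mul_le_mul_of_nonneg_right h3 ?_
        positivity
      _ = _ := by ring
  exact le_of_mul_le_mul_left h4 (mul_pos ha hA)

/-- The value at a point and the average over a box. -/
theorem ArmEnergy_point (hd : 2 ≤ d) (h : Pt d → ℝ) (k : ℕ) :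
    ∀ {c z : Pt d} {l : ℕ}, 1 ≤ l → l ≤ 2 ^ k → z ∈ bx c l →
      |h z - avg h c l| ≤ k * Real.sqrt (2 ^ d * d * En h (bx c l)) := by
  induction k with
  | zero =>
    intro c z l hl hl1 hz
    have e : l = 1 := by
      rw [pow_zero] at hl1
      omega
    subst e
    have e1 : bx c 1 = {c} := by
      ext x
      rw [mem_bx, mem_singleton]
      constructor
      · intro hx
        funext i
        have := hx i
        push_cast at this
        omega
      · rintro rfl i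
        push_cast
        omega
    have e2 : z = c := by
      rw [e1, mem_singleton] at hz
      exact hz
    unfold avg
    rw [e1, sum_singleton, e2]
    simp
  | succ k ih =>
    intro c z l hl hl1 hz
    by_cases hlk : l ≤ 2 ^ k
    · refine (ih hl hlk hz).trans ?_
      push_cast
      exact mul_le_mul_of_nonneg_right (by linarith) (Real.sqrt_nonneg _)
    · have hz' := mem_bx.1 hz
      set l' : ℕ := (l + 1) / 2 with hl'
      have hl'1 : 1 ≤ l' := by omega
      have hl'l : l' ≤ l := by omega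
      have hl2 : l ≤ 2 * l' := by omega
      have hl'k : l' ≤ 2 ^ k := by
        rw [pow_succ] at hl1
        omega
      set c' : Pt d := fun i => min (z i) (c i + l - l') with hc'
      have hsub : bx c' l' ⊆ bx c l := by
        intro x hx
        rw [mem_bx] at hx ⊢
        intro i
        have h1 := hx i
        have h2 := hz' i
        have h3 : c' i = min (z i) (c i + l - l') := rfl
        rw [h3] at h1
        constructor
        · rcases le_total (z i) (c i + l - l') with h4 | h4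
          · rw [min_eq_left h4] at h1
            linarith [h1.1, h2.1]
          · rw [min_eq_right h4] at h1
            have h5 : (l' : ℤ) ≤ l := by exact_mod_cast hl'l
            linarith [h1.1]
        · have h4 : min (z i) (c i + l - l') ≤ c i + l - l' := min_le_right _ _
          linarith [h1.2]
      have hzc : z ∈ bx c' l' := by
        rw [mem_bx]
        intro i
        have h2 := hz' i
        have h3 : c' i = min (z i) (c i + l - l') := rfl
        rw [h3]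
        refine ⟨min_le_left _ _, ?_⟩
        rcases le_total (z i) (c i + l - l') with h4 | h4
        · rw [min_eq_left h4]
          have h5 : (1 : ℤ) ≤ l' := by exact_mod_cast hl'1
          linarith
        · rw [min_eq_right h4]
          linarith [h2.2]
      have h1 := ih hl'1 hl'k hzc
      have h2 := ArmEnergy_step hd h hl'1 hl'l hl2 hsub
      have h3 : |avg h c' l' - avg h c l| ≤ Real.sqrt (2 ^ d * d * En h (bx c l)) :=
        Real.abs_le_sqrt h2
      have h4 : Real.sqrt (2 ^ d * d * En h (bx c' l')) ≤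
          Real.sqrt (2 ^ d * d * En h (bx c l)) :=
        Real.sqrt_le_sqrt (mul_le_mul_of_nonneg_left (En_mono h hsub) (by positivity))
      have h5 : |h z - avg h c l| ≤ |h z - avg h c' l'| + |avg h c' l' - avg h c l| :=
        abs_sub_le _ _ _
      have h6 : (k : ℝ) * Real.sqrt (2 ^ d * d * En h (bx c' l')) ≤
          k * Real.sqrt (2 ^ d * d * En h (bx c l)) :=
        mul_le_mul_of_nonneg_left h4 (Nat.cast_nonneg k)
      push_cast
      linarith

end point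

/-! ### Slices -/

section slices

variable {D : ℕ}

theorem ArmEnergy_insert_mem {a : Pt (D + 1)} {N : ℕ} {i : Fin (D + 1)} {s : ℤ} {y : Pt D} :
    (i.insertNth s y : Pt (D + 1)) ∈ bx a N ↔
      (a i ≤ s ∧ s < a i + N) ∧ y ∈ bx (i.removeNth a) N := by
  rw [mem_bx, mem_bx, Fin.forall_iff_succAbove i]
  simp [Fin.removeNth]

theorem ArmEnergy_insert_add (i : Fin (D + 1)) (s : ℤ) (y : Pt D) (m : Fin D) :
    (i.insertNth s y : Pt (D + 1)) + Pi.single (i.succAbove m) 1 =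
      i.insertNth s (y + Pi.single m 1) := by
  funext j
  refine Fin.succAboveCases i ?_ (fun j => ?_) j
  · simp
  · by_cases h : j = m
    · subst h
      simp
    · have h' : i.succAbove j ≠ i.succAbove m := fun h2 => h (Fin.succAbove_right_injective h2)
      simp [Pi.single_eq_of_ne h, Pi.single_eq_of_ne h']

/-- Energies of the slices. -/
theorem ArmEnergy_slices (h : Pt (D + 1) → ℝ) (a : Pt (D + 1)) (N : ℕ) (i : Fin (D + 1))
    (T : Finset ℤ) (hT : ∀ s ∈ T, a i ≤ s ∧ s < a i + N) :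
    ∑ s ∈ T, En (fun y => h (i.insertNth s y)) (bx (i.removeNth a) N) ≤ En h (bx a N) := by
  classical
  unfold En
  rw [← sum_product']
  let φ : ℤ × Ed D → Ed (D + 1) := fun p => (i.insertNth p.1 p.2.1, i.succAbove p.2.2)
  have hφ : ∀ p : ℤ × Ed D, tgt (φ p) = i.insertNth p.1 (tgt p.2) := by
    intro p
    exact ArmEnergy_insert_add i p.1 p.2.1 p.2.2
  have hinj : Set.InjOn φ (↑(T ×ˢ EI (bx (i.removeNth a) N))) := by
    rintro ⟨s, y, m⟩ _ ⟨s', y', m'⟩ _ heq
    have h1 : (i.insertNth s y : Pt (D + 1)) = i.insertNth s' y' := congrArg Prod.fst heq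
    have h2 : i.succAbove m = i.succAbove m' := congrArg Prod.snd heq
    have h3 : m = m' := Fin.succAbove_right_injective h2
    have h4 : s = s' := by
      have := congrFun h1 i
      simpa using this
    have h5 : y = y' := by
      funext j
      have := congrFun h1 (i.succAbove j)
      simpa using this
    rw [h3, h4, h5]
  have h1 : ∑ p ∈ T ×ˢ EI (bx (i.removeNth a) N),
      (h (i.insertNth p.1 p.2.1) - h (i.insertNth p.1 (tgt p.2))) ^ 2 =
      ∑ e ∈ (T ×ˢ EI (bx (i.removeNth a) N)).image φ, (h e.1 - h (tgt e)) ^ 2 := by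
    rw [sum_image hinj]
    refine sum_congr rfl fun p _ => ?_
    rw [hφ]
  rw [h1]
  refine sum_le_sum_of_subset_of_nonneg ?_ fun _ _ _ => sq_nonneg _
  intro e he
  rw [mem_image] at he
  obtain ⟨p, hp, rfl⟩ := he
  rw [mem_product, mem_EI] at hp
  rw [mem_EI]
  refine ⟨ArmEnergy_insert_mem.2 ⟨hT _ hp.1, hp.2.1⟩, ?_⟩
  rw [hφ]
  exact ArmEnergy_insert_mem.2 ⟨hT _ hp.1, hp.2.2⟩

/-- Sum over a slice as a sum over the box. -/
theorem ArmEnergy_sum (F : Pt (D + 1) → ℝ) (a : Pt (D + 1)) (N : ℕ) (i : Fin (D + 1)) (s : ℤ) :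
    ∑ x ∈ bx a N, F (Function.update x i s) =
      N * ∑ y ∈ bx (i.removeNth a) N, F (i.insertNth s y) := by
  classical
  have h1 : (N : ℝ) * ∑ y ∈ bx (i.removeNth a) N, F (i.insertNth s y) =
      ∑ p ∈ Ico (a i) (a i + N) ×ˢ bx (i.removeNth a) N, F (i.insertNth s p.2) := by
    rw [sum_product]
    rw [show (∑ x ∈ Ico (a i) (a i + (N : ℤ)), ∑ y ∈ bx (i.removeNth a) N,
      F (i.insertNth s (x, y).2)) = ∑ _x ∈ Ico (a i) (a i + (N : ℤ)),
        ∑ y ∈ bx (i.removeNth a) N, F (i.insertNth s y) from rfl, sum_const, nsmul_eq_mul]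
    congr 1
    rw [Int.card_Ico]
    simp
  rw [h1]
  symm
  refine sum_nbij' (fun p => (i.insertNth p.1 p.2 : Pt (D + 1)))
    (fun x => (x i, i.removeNth x)) ?_ ?_ ?_ ?_ ?_
  · rintro ⟨t, y⟩ hp
    rw [mem_product, mem_Ico] at hp
    exact ArmEnergy_insert_mem.2 hp
  · intro x hx
    rw [mem_product, mem_Ico]
    have h2 := mem_bx.1 hx
    refine ⟨h2 i, mem_bx.2 fun j => ?_⟩
    exact h2 (i.succAbove j)
  · rintro ⟨t, y⟩ _
    simp
  · intro x _
    simp
  · rintro ⟨t, y⟩ _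
    simp

private theorem ArmEnergy_dir (h : Pt (D + 1) → ℝ) (Q : Finset (Pt (D + 1))) (i : Fin (D + 1)) :
    ∑ w ∈ Q with w + Pi.single i 1 ∈ Q, (h w - h (w + Pi.single i 1)) ^ 2 ≤ En h Q := by
  rw [Poincare_En]
  let G : Fin (D + 1) → ℝ := fun m => ∑ w ∈ Q with w + Pi.single m 1 ∈ Q,
    (h w - h (w + Pi.single m 1)) ^ 2
  have h0 : ∀ m ∈ (univ : Finset (Fin (D + 1))), 0 ≤ G m := fun m _ =>
    sum_nonneg fun w _ => sq_nonneg (h w - h (w + Pi.single m 1))
  exact single_le_sum h0 (mem_univ i)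

/-- Average over a slice and average over the box. -/
theorem ArmEnergy_avg (hD : 2 ≤ D) (h : Pt (D + 1) → ℝ) (a : Pt (D + 1)) {N : ℕ} (hN : 1 ≤ N)
    (i : Fin (D + 1)) {s : ℤ} (hs : a i ≤ s ∧ s < a i + N) :
    (avg (fun y => h (i.insertNth s y)) (i.removeNth a) N - avg h a N) ^ 2 * N ≤
      En h (bx a N) := by
  have hNR : (1 : ℝ) ≤ (N : ℝ) := by exact_mod_cast hN
  have hN0 : (0 : ℝ) < (N : ℝ) := by linarith
  set A : ℝ := avg h a N with hA
  set As : ℝ := avg (fun y => h (i.insertNth s y)) (i.removeNth a) N with hAs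
  have h1 : (N : ℝ) ^ (D + 1) * (A - As) = ∑ x ∈ bx a N, (h x - h (Function.update x i s)) := by
    rw [sum_sub_distrib, ArmEnergy_sum h a N i s, hA, hAs]
    unfold avg
    rw [pow_succ]
    field_simp
  have h2 := sq_sum_le_card_mul_sum_sq (s := bx a N)
    (f := fun x => h x - h (Function.update x i s))
  rw [bxR, ← h1] at h2
  have hg : ∀ x ∈ bx a N, (h x - h (Function.update x i s)) ^ 2 ≤
      N * ∑ t ∈ range (N - 1), (fun w => (h w - h (w + Pi.single i 1)) ^ 2)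
        (Function.update x i (a i + t)) := by
    intro x hx
    have hx' : Function.update x i s ∈ bx a N := by
      rw [mem_bx] at hx ⊢
      intro j
      by_cases hj : j = i
      · subst hj
        rw [Function.update_self]
        exact hs
      · rw [Function.update_of_ne hj]
        exact hx j
    have h3 := Poincare_pt a N i h (fun w => (h w - h (w + Pi.single i 1)) ^ 2) (fun _ => rfl)
      hx hx'
    rw [Function.update_self] at h3
    exact h3
  have h3 : ∑ x ∈ bx a N, (h x - h (Function.update x i s)) ^ 2 ≤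
      (N : ℝ) * (N * En h (bx a N)) := by
    refine (sum_le_sum hg).trans ?_
    have h4 := Poincare_lines a N i (fun w => (h w - h (w + Pi.single i 1)) ^ 2)
    beta_reduce at h4 ⊢
    rw [← mul_sum, h4]
    refine mul_le_mul_of_nonneg_left (mul_le_mul_of_nonneg_left ?_ hN0.le) hN0.le
    exact ArmEnergy_dir h (bx a N) i
  have hE0 : 0 ≤ En h (bx a N) := En_nonneg h _
  set E : ℝ := En h (bx a N) with hE
  have hP : (0 : ℝ) < (N : ℝ) ^ (D + 1) := pow_pos hN0 _
  have h4 : (N : ℝ) ^ (D + 1) * ((N : ℝ) ^ (D + 1) * (A - As) ^ 2) ≤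
      (N : ℝ) ^ (D + 1) * ((N : ℝ) * (N * E)) := by
    calc (N : ℝ) ^ (D + 1) * ((N : ℝ) ^ (D + 1) * (A - As) ^ 2) =
        ((N : ℝ) ^ (D + 1) * (A - As)) ^ 2 := by ring
      _ ≤ _ := h2
      _ ≤ _ := mul_le_mul_of_nonneg_left h3 hP.le
  have h5 : (N : ℝ) ^ (D + 1) * (A - As) ^ 2 ≤ (N : ℝ) * (N * E) :=
    le_of_mul_le_mul_left h4 hP
  have h6 : (N : ℝ) ^ 3 * (A - As) ^ 2 ≤ (N : ℝ) ^ (D + 1) * (A - As) ^ 2 :=
    mul_le_mul_of_nonneg_right (pow_le_pow_right₀ hNR (by omega)) (sq_nonneg _)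
  have h7 : (N : ℝ) ^ 2 * ((As - A) ^ 2 * N) ≤ (N : ℝ) ^ 2 * E := by
    calc (N : ℝ) ^ 2 * ((As - A) ^ 2 * N) = (N : ℝ) ^ 3 * (A - As) ^ 2 := by ring
      _ ≤ (N : ℝ) * (N * E) := h6.trans h5
      _ = _ := by ring
  exact le_of_mul_le_mul_left h7 (pow_pos hN0 2)

/-- One family of slices: either the energy is large or some slice has a large average. -/
theorem ArmEnergy_family (hD : 2 ≤ D) (h : Pt (D + 1) → ℝ) (a : Pt (D + 1)) {N m : ℕ}
    (hm : 1 ≤ m) (hmN : m ≤ N) (i : Fin (D + 1)) (s : ℤ) (v : ℝ)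
    (hK : ∀ k : ℕ, k < m → ∃ x ∈ bx a N, x i = s + k ∧ h x = v) :
    (m : ℝ) ≤ 16 * (2 ^ D * D) * (Nat.clog 2 N) ^ 2 * En h (bx a N) ∨
      ∃ s' : ℤ, (a i ≤ s' ∧ s' < a i + N) ∧
        |v - avg (fun y => h (i.insertNth s' y)) (i.removeNth a) N| < 1 / 4 := by
  classical
  by_contra hcon
  push Not at hcon
  obtain ⟨h1, h2⟩ := hcon
  have hN : 1 ≤ N := le_trans hm hmN
  have hk : N ≤ 2 ^ Nat.clog 2 N := Nat.le_pow_clog (by norm_num) N
  set M : ℝ := 2 ^ D * D with hM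
  have hM0 : 0 ≤ M := by positivity
  set κ : ℕ := Nat.clog 2 N with hκ
  have key : ∀ k < m, (1 : ℝ) / 16 ≤
      (κ : ℝ) ^ 2 * (M * En (fun y => h (i.insertNth (s + (k : ℤ)) y)) (bx (i.removeNth a) N)) ∧
        (a i ≤ s + (k : ℤ) ∧ s + (k : ℤ) < a i + N) := by
    intro k hkm
    obtain ⟨x, hx, hxi, hxv⟩ := hK k hkm
    have hin := mem_bx.1 hx i
    rw [hxi] at hin
    have hx' : i.removeNth x ∈ bx (i.removeNth a) N :=
      mem_bx.2 fun j => mem_bx.1 hx (i.succAbove j)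
    have hxe : (i.insertNth (s + (k : ℤ)) (i.removeNth x) : Pt (D + 1)) = x := by
      rw [← hxi]
      simp
    have h3 := ArmEnergy_point hD (fun y => h (i.insertNth (s + (k : ℤ)) y)) κ hN hk hx'
    beta_reduce at h3
    rw [hxe, hxv] at h3
    have h4 := h2 (s + k) hin
    have h5 : (1 : ℝ) / 4 ≤ κ * Real.sqrt (2 ^ D * D *
        En (fun y => h (i.insertNth (s + (k : ℤ)) y)) (bx (i.removeNth a) N)) := h4.trans h3
    refine ⟨?_, hin⟩
    have h6 : ((1 : ℝ) / 4) ^ 2 ≤ (κ * Real.sqrt (2 ^ D * D *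
        En (fun y => h (i.insertNth (s + (k : ℤ)) y)) (bx (i.removeNth a) N))) ^ 2 :=
      pow_le_pow_left₀ (by norm_num) h5 2
    rw [mul_pow, Real.sq_sqrt (mul_nonneg hM0 (En_nonneg _ _))] at h6
    norm_num at h6 ⊢
    exact h6
  have h3 := ArmEnergy_slices h a N i ((range m).image (fun k : ℕ => s + (k : ℤ))) (by
    intro s' hs'
    rw [mem_image] at hs'
    obtain ⟨k, hk', rfl⟩ := hs'
    exact (key k (mem_range.1 hk')).2)
  rw [sum_image (fun x _ y _ hxy => by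
    have : (x : ℤ) = y := by
      have h0 : s + (x : ℤ) = s + y := hxy
      linarith
    exact_mod_cast this)] at h3
  have h4 : ∑ _k ∈ range m, (1 : ℝ) / 16 ≤ ∑ k ∈ range m, (κ : ℝ) ^ 2 *
      (M * En (fun y => h (i.insertNth (s + (k : ℤ)) y)) (bx (i.removeNth a) N)) :=
    sum_le_sum fun k hk' => (key k (mem_range.1 hk')).1
  rw [← mul_sum, ← mul_sum, sum_const, card_range, nsmul_eq_mul] at h4
  have h5 : (κ : ℝ) ^ 2 * (M * ∑ k ∈ range m,
      En (fun y => h (i.insertNth (s + (k : ℤ)) y)) (bx (i.removeNth a) N)) ≤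
      (κ : ℝ) ^ 2 * (M * En h (bx a N)) :=
    mul_le_mul_of_nonneg_left (mul_le_mul_of_nonneg_left h3 hM0) (sq_nonneg _)
  have h6 := h4.trans h5
  have h7 : 16 * M * (κ : ℝ) ^ 2 * En h (bx a N) = 16 * ((κ : ℝ) ^ 2 * (M * En h (bx a N))) := by
    ring
  rw [h7] at h1
  linarith

/-- **Energy of a function separating two long sets.** -/
theorem arm_energy (hD : 2 ≤ D) (h : Pt (D + 1) → ℝ) (a : Pt (D + 1)) {N m : ℕ} (hm : m ≤ N)
    (i j : Fin (D + 1)) (s t : ℤ)
    (hK : ∀ k : ℕ, k < m → ∃ x ∈ bx a N, x i = s + k ∧ h x = 1)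
    (hH : ∀ k : ℕ, k < m → ∃ x ∈ bx a N, x j = t + k ∧ h x = 0) :
    (m : ℝ) / (16 * (D * 2 ^ D) * ((Nat.clog 2 N : ℝ) + 1) ^ 2) ≤ En h (bx a N) := by
  have hE0 : 0 ≤ En h (bx a N) := En_nonneg h _
  rcases Nat.eq_zero_or_pos m with hm0 | hm0
  · rw [hm0, Nat.cast_zero, zero_div]
    exact hE0
  have hD1 : (1 : ℝ) ≤ (D : ℝ) := by
    have : 1 ≤ D := by omega
    exact_mod_cast this
  have h2D : (1 : ℝ) ≤ 2 ^ D := one_le_pow₀ (by norm_num)
  have hM1 : (1 : ℝ) ≤ D * 2 ^ D := one_le_mul_of_one_le_of_one_le hD1 h2D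
  have hκ0 : (0 : ℝ) ≤ (Nat.clog 2 N : ℝ) := Nat.cast_nonneg _
  have hden : (0 : ℝ) < 16 * (D * 2 ^ D) * ((Nat.clog 2 N : ℝ) + 1) ^ 2 := by positivity
  rw [div_le_iff₀ hden]
  have hbig : ∀ X : ℝ, (m : ℝ) ≤ 16 * (2 ^ D * D) * (Nat.clog 2 N) ^ 2 * X → 0 ≤ X →
      (m : ℝ) ≤ X * (16 * (D * 2 ^ D) * ((Nat.clog 2 N : ℝ) + 1) ^ 2) := by
    intro X hX hX0
    refine hX.trans ?_
    have h1 : ((Nat.clog 2 N : ℕ) : ℝ) ^ 2 ≤ ((Nat.clog 2 N : ℝ) + 1) ^ 2 :=
      pow_le_pow_left₀ hκ0 (by linarith) 2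
    calc 16 * (2 ^ D * (D : ℝ)) * ((Nat.clog 2 N : ℕ) : ℝ) ^ 2 * X
        = (16 * (D * 2 ^ D) * X) * ((Nat.clog 2 N : ℕ) : ℝ) ^ 2 := by ring
      _ ≤ (16 * (D * 2 ^ D) * X) * ((Nat.clog 2 N : ℝ) + 1) ^ 2 :=
        mul_le_mul_of_nonneg_left h1 (by positivity)
      _ = _ := by ring
  rcases ArmEnergy_family hD h a hm0 hm i s 1 hK with h1 | ⟨s', hs', h1⟩
  · exact hbig _ h1 hE0
  rcases ArmEnergy_family hD h a hm0 hm j t 0 hH with h2 | ⟨t', ht', h2⟩
  · exact hbig _ h2 hE0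
  have hN : 1 ≤ N := le_trans hm0 hm
  have hN0 : (0 : ℝ) < (N : ℝ) := by exact_mod_cast hN
  have h3 := ArmEnergy_avg hD h a hN i hs'
  have h4 := ArmEnergy_avg hD h a hN j ht'
  set A₁ : ℝ := avg (fun y => h (i.insertNth s' y)) (i.removeNth a) N with hA₁
  set A₂ : ℝ := avg (fun y => h (j.insertNth t' y)) (j.removeNth a) N with hA₂
  set A : ℝ := avg h a N with hA
  rw [abs_lt] at h1 h2
  have h5 : (1 : ℝ) / 2 < A₁ - A₂ := by linarith
  have h6 : (A₁ - A₂) ^ 2 ≤ 2 * ((A₁ - A) ^ 2 + (A₂ - A) ^ 2) := by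
    nlinarith [sq_nonneg ((A₁ - A) + (A₂ - A))]
  have h7 : (1 : ℝ) / 4 ≤ (A₁ - A₂) ^ 2 := by nlinarith
  have h8 : (1 : ℝ) / 4 * N ≤ 4 * En h (bx a N) := by
    have h9 : (1 : ℝ) / 4 * N ≤ (2 * ((A₁ - A) ^ 2 + (A₂ - A) ^ 2)) * N :=
      mul_le_mul_of_nonneg_right (h7.trans h6) hN0.le
    linarith
  have h9 : (m : ℝ) ≤ N := by exact_mod_cast hm
  have h10 : (1 : ℝ) ≤ (D * 2 ^ D) * ((Nat.clog 2 N : ℝ) + 1) ^ 2 :=
    one_le_mul_of_one_le_of_one_le hM1 (one_le_pow₀ (by linarith))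
  calc (m : ℝ) ≤ 16 * En h (bx a N) * 1 := by linarith
    _ ≤ 16 * En h (bx a N) * ((D * 2 ^ D) * ((Nat.clog 2 N : ℝ) + 1) ^ 2) :=
      mul_le_mul_of_nonneg_left h10 (by positivity)
    _ = _ := by ring

end slices

/-! ### Paths -/

section paths

variable {d : ℕ}

/-- A path in `Q` visits all the hyperplanes between its end points. -/
theorem conn_visits {Q : Finset (Pt d)} {ω : Finset (Ed d)} (hω : ω ⊆ EI Q) {x y : Pt d}
    (hx : x ∈ Q) (h : Conn ω x y) {i : Fin d} {v : ℤ} (h1 : x i ≤ v) (h2 : v ≤ y i) :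
    ∃ z ∈ Q, Conn ω x z ∧ z i = v := by
  induction h generalizing v with
  | refl => exact ⟨x, hx, Conn.refl _ _, le_antisymm h1 h2⟩
  | @tail b c hxb hbc ih =>
    by_cases h3 : v ≤ b i
    · exact ih h1 h3
    · obtain ⟨e, he, hbc'⟩ := hbc
      have heQ := mem_EI.1 (hω he)
      have hcQ : c ∈ Q := by
        rcases hbc' with ⟨_, h4⟩ | ⟨h4, _⟩
        · rw [← h4]; exact heQ.2
        · rw [← h4]; exact heQ.1
      refine ⟨c, hcQ, Conn.trans hxb (Relation.ReflTransGen.single ⟨e, he, hbc'⟩), ?_⟩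
      have h4 : c i ≤ b i + 1 := by
        rcases hbc' with ⟨h5, h6⟩ | ⟨h5, h6⟩
        · rw [← h5, ← h6]
          unfold tgt
          by_cases h7 : i = e.2
          · rw [h7]
            simp
          · simp [Pi.single_eq_of_ne h7]
        · rw [← h5, ← h6]
          unfold tgt
          by_cases h7 : i = e.2
          · rw [h7]
            simp only [Pi.add_apply, Pi.single_eq_same]
            linarith
          · simp [Pi.single_eq_of_ne h7]
      omega

theorem conn_mem {Q : Finset (Pt d)} {ω : Finset (Ed d)} (hω : ω ⊆ EI Q) {x y : Pt d}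
    (hx : x ∈ Q) (h : Conn ω x y) : y ∈ Q := by
  induction h with
  | refl => exact hx
  | @tail b c _ hbc _ =>
    obtain ⟨e, he, hbc'⟩ := hbc
    have heQ := mem_EI.1 (hω he)
    rcases hbc' with ⟨_, h4⟩ | ⟨h4, _⟩
    · rw [← h4]; exact heQ.2
    · rw [← h4]; exact heQ.1

/-- The hyperplanes visited by a path with distant end points. -/
theorem conn_family {Q : Finset (Pt d)} {ω : Finset (Ed d)} (hω : ω ⊆ EI Q) {x y : Pt d}
    (hx : x ∈ Q) (h : Conn ω x y) {i : Fin d} {m : ℕ} (hi : (m : ℤ) ≤ |y i - x i|) :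
    ∃ s : ℤ, ∀ k : ℕ, k < m → ∃ z ∈ Q, Conn ω x z ∧ z i = s + k := by
  rcases le_total (x i) (y i) with h1 | h1
  · refine ⟨x i, fun k hk => ?_⟩
    rw [abs_of_nonneg (by linarith)] at hi
    have hk' : (k : ℤ) < m := by exact_mod_cast hk
    have hk0 : (0 : ℤ) ≤ k := Int.natCast_nonneg k
    exact conn_visits hω hx h (by linarith) (by linarith)
  · refine ⟨y i, fun k hk => ?_⟩
    rw [abs_of_nonpos (by linarith)] at hi
    have hk' : (k : ℤ) < m := by exact_mod_cast hk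
    have hk0 : (0 : ℤ) ≤ k := Int.natCast_nonneg k
    obtain ⟨z, hz, hyz, hzi⟩ := conn_visits hω (conn_mem hω hx h) h.symm (i := i) (v := y i + k)
      (by linarith) (by linarith)
    exact ⟨z, hz, h.trans hyz, hzi⟩

end paths

/-- **Energy of a function equal to one on a long cluster and to zero on another one.** -/
theorem arm_energy_conn {D : ℕ} (hD : 2 ≤ D) (h : Pt (D + 1) → ℝ) (a : Pt (D + 1)) {N m : ℕ}
    {ω ω' : Finset (Ed (D + 1))} (hω : ω ⊆ EI (bx a N)) (hω' : ω' ⊆ EI (bx a N))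
    {x x' y y' : Pt (D + 1)} (hx : x ∈ bx a N) (hxx : Conn ω x x') (hy : y ∈ bx a N)
    (hyy : Conn ω' y y') {i j : Fin (D + 1)} (hi : (m : ℤ) ≤ |x' i - x i|)
    (hj : (m : ℤ) ≤ |y' j - y j|) (h1 : ∀ z, Conn ω x z → h z = 1)
    (h0 : ∀ z, Conn ω' y z → h z = 0) :
    (m : ℝ) / (16 * (D * 2 ^ D) * ((Nat.clog 2 N : ℝ) + 1) ^ 2) ≤ En h (bx a N) := by
  obtain ⟨s, hs⟩ := conn_family hω hx hxx hi
  obtain ⟨t, ht⟩ := conn_family hω' hy hyy hj
  have hm : m ≤ N := by
    have a1 := mem_bx.1 hx i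
    have a2 := mem_bx.1 (conn_mem hω hx hxx) i
    have a3 : |x' i - x i| ≤ N := by
      rw [abs_le]
      constructor <;> linarith
    exact_mod_cast hi.trans a3
  refine arm_energy hD h a hm i j s t (fun k hk => ?_) (fun k hk => ?_)
  · obtain ⟨z, hz, hc, hzi⟩ := hs k hk
    exact ⟨z, hz, hzi, h1 z hc⟩
  · obtain ⟨z, hz, hc, hzi⟩ := ht k hk
    exact ⟨z, hz, hzi, h0 z hc⟩

end Pool.Agent.Lib.MP_31386d_pr_RQ
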