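import Pool.Agent.Lib.MP_31386d_pr_RQ.ArmEnergy

/-!
# A path visits consecutive hyperplanes
-/

set_option autoImplicit false

namespace Pool.Agent.Lib.MP_31386d_pr_RQ

open Finset
open Pool.Agent.Lib.MP_31386d_pr
open Pool.Agent.Lib.MP_31386d_pr_POTTS

variable {d : ℕ}

/-- A path inside `W` with end points at distance `m` in direction `t` visits `m` consecutive
hyperplanes. -/
theorem arm_levels {W : Finset (Pt d)} {ω : Finset (Ed d)} {x y : Pt d} (hx : x ∈ W)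
    (h : Conn (ω ∩ EI W) x y) {m : ℕ} {t : Fin d} (hm : (m : ℤ) ≤ |y t - x t|) :
    ∃ s : ℤ, ∀ k : ℕ, k < m → ∃ z ∈ W, z t = s + k ∧ Conn ω x z := by
  obtain ⟨s, hs⟩ := conn_family (ω := ω ∩ EI W) inter_subset_right hx h hm
  refine ⟨s, fun k hk => ?_⟩
  obtain ⟨z, hz, hc, hzt⟩ := hs k hk
  exact ⟨z, hz, hzt, hc.mono inter_subset_left⟩

end Pool.Agent.Lib.MP_31386d_pr_RQ
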