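import Pool.Agent.Lib.MP_31386d_pr_RQ.Defs

/-!
# Points of an arm
-/

set_option autoImplicit false

namespace Pool.Agent.Lib.MP_31386d_pr_RQ

open Finset
open Pool.Agent.Lib.MP_31386d_pr
open Pool.Agent.Lib.MP_31386d_pr_POTTS

variable {d : ℕ}

theorem mem_cub {c x : Pt d} {m : ℕ} : x ∈ cub c m ↔ ∀ i, |x i - c i| ≤ m := by
  rw [cub, mem_shV, mem_cube]
  refine forall_congr' fun i => ?_
  rw [Pi.sub_apply, abs_le]

private theorem cub_mono {c x : Pt d} {m m' : ℕ} (h : m ≤ m') (hx : x ∈ cub c m) :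
    x ∈ cub c m' := by
  rw [mem_cub] at hx ⊢
  intro i
  have h1 := hx i
  have h2 : (m : ℤ) ≤ m' := by exact_mod_cast h
  exact h1.trans h2

private theorem cub_step {w : Finset (Ed d)} {c z z' : Pt d} {m : ℕ} (hz : z ∈ cub c m)
    (h : Adj w z z') : z' ∈ cub c (m + 1) := by
  rw [mem_cub] at hz ⊢
  intro i
  have h1 := abs_le.mp (hz i)
  rw [abs_le]
  push_cast
  obtain ⟨j, h2 | h2⟩ := h.lat
  · have h3 := congrFun h2 i
    rw [Pi.add_apply] at h3
    by_cases hij : i = j
    · subst hij
      rw [Pi.single_eq_same] at h3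
      constructor <;> linarith [h1.1, h1.2]
    · rw [Pi.single_eq_of_ne hij] at h3
      constructor <;> linarith [h1.1, h1.2]
  · have h3 := congrFun h2 i
    rw [Pi.add_apply] at h3
    by_cases hij : i = j
    · subst hij
      rw [Pi.single_eq_same] at h3
      constructor <;> linarith [h1.1, h1.2]
    · rw [Pi.single_eq_of_ne hij] at h3
      constructor <;> linarith [h1.1, h1.2]

/-- An arm contains a point at every distance. -/
theorem arm_points {w : Finset (Ed d)} {c x y : Pt d} {r m : ℕ} (hx : x ∈ cub c r)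
    (hy : y ∉ cub c m) (h : Conn w x y) {t : ℕ} (ht : r < t) (htm : t ≤ m) :
    ∃ z ∈ cub c t, z ∉ cub c (t - 1) ∧ Conn w x z := by
  have key : ∀ z, Conn w x z →
      z ∈ cub c (t - 1) ∨ ∃ z ∈ cub c t, z ∉ cub c (t - 1) ∧ Conn w x z := by
    intro z hz
    induction hz with
    | refl => exact Or.inl (cub_mono (by omega) hx)
    | @tail b z hxb hbz ih =>
      rcases ih with ih | ih
      · by_cases hz' : z ∈ cub c (t - 1)
        · exact Or.inl hz'
        · refine Or.inr ⟨z, ?_, hz', Relation.ReflTransGen.tail hxb hbz⟩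
          have h1 := cub_step ih hbz
          have h2 : t - 1 + 1 = t := by omega
          rwa [h2] at h1
      · exact Or.inr ih
  rcases key y h with h1 | h1
  · exact absurd (cub_mono (by omega) h1) hy
  · exact h1

end Pool.Agent.Lib.MP_31386d_pr_RQ
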