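import Pool.Agent.Lib.MP_31386d_pr_POTTS.CondSplit
import Pool.Agent.Lib.MP_31386d_pr_POTTS.SeedFacts
import Pool.Agent.Lib.MP_31386d_pr.Arm

/-!
# Long arms from many seeds

Decreasing events in disjoint regions for the conditioned measure; probability that none of the
seeds of a family has an arm of length `m`.
-/

set_option autoImplicit false

namespace Pool.Agent.Lib.MP_31386d_pr_RQ

open Finset
open Pool.Agent.Lib.MP_31386d_pr
open Pool.Agent.Lib.MP_31386d_pr_POTTS

variable {d : ℕ} {u q : ℝ}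

/-- Complementary event for the conditioned measure. -/
theorem PbB_not (hu : 0 < u) (hq : 1 ≤ q) {V : Finset (Pt d)} {E b : Finset (Ed d)} (hb : b ⊆ E)
    (P : Finset (Ed d) → Prop) :
    PbB u q V E b (fun ω => ¬ P ω) = 1 - PbB u q V E b P := by
  have h1 : PbB u q V E b (fun ω => ¬ P ω) + PbB u q V E b P = 1 := by
    unfold PbB
    rw [← ExB_add]
    have h2 : ExB u q V E b (fun ω => ind (¬ P ω) + ind (P ω)) = ExB u q V E b (fun _ => 1) := by
      refine ExB_congr fun ω _ _ => ?_
      by_cases h : P ω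
      · rw [ind_of h, ind_not (fun h' : ¬ P ω => h' h), zero_add]
      · rw [ind_not h, ind_of h, add_zero]
    rw [h2, ExB_const hu hq hb]
  linarith

theorem PbB_mono' (hu : 0 < u) (hq : 1 ≤ q) {V : Finset (Pt d)} {E b : Finset (Ed d)}
    {P Q : Finset (Ed d) → Prop} (h : ∀ ω, b ⊆ ω → ω ⊆ E → P ω → Q ω) :
    PbB u q V E b P ≤ PbB u q V E b Q :=
  ExB_mono hu hq fun ω h1 h2 => ind_mono (h ω h1 h2)

/-- Decreasing events depending on disjoint regions. -/
theorem PbB_prod (hu : 0 < u) (hq : 1 ≤ q) {κ : Type*} [DecidableEq κ] (R : κ → Finset (Pt d))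
    (P : κ → Finset (Ed d) → Prop) {δ : ℝ} (b : Finset (Ed d)) (S : Finset κ)
    (hdec : ∀ k ∈ S, ∀ s t, s ⊆ t → P k t → P k s)
    (hloc : ∀ k ∈ S, ∀ ω, P k (ω ∩ EI (R k)) ↔ P k ω)
    (hδ : ∀ k ∈ S, PbB u q (R k) (EI (R k)) (b ∩ EI (R k)) (P k) ≤ δ)
    (hdis : ∀ j ∈ S, ∀ k ∈ S, j ≠ k → Disjoint (R j) (R k)) :
    ∀ V : Finset (Pt d), (∀ k ∈ S, R k ⊆ V) →
      PbB u q V (EI V) (b ∩ EI V) (fun ω => ∀ k ∈ S, P k ω) ≤ δ ^ S.card := by
  revert hdec hloc hδ hdis
  induction S using Finset.induction_on with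
  | empty =>
    intro _ _ _ _ V _
    rw [Finset.card_empty, pow_zero]
    exact PbB_le_one hu hq _
  | insert k S hk ih =>
    intro hdec hloc hδ hdis V hV
    have hmem : ∀ j ∈ S, j ∈ insert k S := fun j hj => Finset.mem_insert_of_mem hj
    have hkm : k ∈ insert k S := Finset.mem_insert_self k S
    have hsub : ∀ j ∈ S, R j ⊆ V \ R k := by
      intro j hj x hx
      rw [Finset.mem_sdiff]
      refine ⟨hV j (hmem j hj) hx, fun hx' => ?_⟩
      have hjk : j ≠ k := fun h => hk (h ▸ hj)
      exact Finset.disjoint_left.mp (hdis j (hmem j hj) k hkm hjk) hx hx'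
    have h0 : PbB u q V (EI V) (b ∩ EI V) (fun ω => ∀ j ∈ insert k S, P j ω) =
        ExB u q V (EI V) (b ∩ EI V) (fun ω => ind (P k ω) * ind (∀ j ∈ S, P j ω)) := by
      refine ExB_congr fun ω _ _ => ?_
      have h1 : (∀ j ∈ insert k S, P j ω) ↔ (P k ω ∧ ∀ j ∈ S, P j ω) :=
        Finset.forall_mem_insert k S fun j => P j ω
      by_cases h2 : P k ω
      · by_cases h3 : ∀ j ∈ S, P j ω
        · rw [ind_of h2, ind_of h3, ind_of (h1.2 ⟨h2, h3⟩), one_mul]
        · rw [ind_not h3, ind_not (fun h => h3 (h1.1 h).2), mul_zero]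
      · rw [ind_not h2, ind_not (fun h => h2 (h1.1 h).1), zero_mul]
    rw [h0]
    have h3 := ExB_split (u := u) (q := q) hu hq (hV k hkm) (b := b ∩ EI V) inter_subset_right
      (f := fun ω => ind (P k ω)) (g := fun ω => ind (∀ j ∈ S, P j ω))
      (fun ω => ind_nonneg _) (fun ω => ind_nonneg _)
      (fun s t hst => ind_mono (hdec k hkm s t hst))
      (fun s t hst => ind_mono (fun h j hj => hdec j (hmem j hj) s t hst (h j hj)))
      (fun ω => by rw [propext (hloc k hkm ω)])
      (fun ω => by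
        have h4 : (∀ j ∈ S, P j (ω ∩ EI (V \ R k))) ↔ ∀ j ∈ S, P j ω := by
          refine forall₂_congr fun j hj => ?_
          rw [← hloc j (hmem j hj) (ω ∩ EI (V \ R k)), inter_assoc,
            inter_eq_right.mpr (EI_mono (hsub j hj)), hloc j (hmem j hj)]
        rw [propext h4])
    have e1 : b ∩ EI V ∩ EI (R k) = b ∩ EI (R k) := by
      rw [inter_assoc, inter_eq_right.mpr (EI_mono (hV k hkm))]
    have e2 : b ∩ EI V ∩ EI (V \ R k) = b ∩ EI (V \ R k) := by
      rw [inter_assoc, inter_eq_right.mpr (EI_mono sdiff_subset)]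
    rw [e1, e2] at h3
    have h6 := ih (fun j hj => hdec j (hmem j hj)) (fun j hj => hloc j (hmem j hj))
      (fun j hj => hδ j (hmem j hj))
      (fun i hi j hj hij => hdis i (hmem i hi) j (hmem j hj) hij) (V \ R k) hsub
    have h7 : 0 ≤ δ := (PbB_nonneg hu hq (P k)).trans (hδ k hkm)
    refine h3.trans ?_
    rw [Finset.card_insert_of_notMem hk, pow_succ, mul_comm (δ ^ S.card)]
    exact mul_le_mul (hδ k hkm) h6 (PbB_nonneg hu hq _) h7

/-- Translate by `r'` in all the directions: the middle of a seed. -/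
def sctr (r' : ℕ) (x : Pt d) : Pt d := fun t => x t + (r' : ℤ)

/-- A box is connected by its edges. -/
theorem conn_bx {c x y : Pt d} {l : ℕ} (hx : x ∈ bx c l) (hy : y ∈ bx c l) :
    Conn (EI (bx c l)) x y := by
  refine Slab.conn_Icc (a := c) (b := fun i => c i + (l : ℤ) - 1) ?_ hx hy
  intro z
  rw [mem_bx, Grid.mem_Icc']
  refine forall_congr' fun i => ?_
  constructor
  · intro h
    exact ⟨h.1, by have := h.2; omega⟩
  · intro h
    exact ⟨h.1, by have := h.2; omega⟩

/-- The points of a chosen seed are connected to its corner by marked edges of the seed. -/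
theorem conn_seed {r l : ℕ} (hr : 1 ≤ r) {b : Finset (Ed d)} {i x : Pt d}
    (h : (seeds r l b i).Nonempty) (hx : x ∈ bx (sd r l b i) r) :
    Conn (b ∩ EI (bx (sd r l b i) r)) (sd r l b i) x := by
  have h1 : sd r l b i ∈ bx (sd r l b i) r := by
    rw [mem_bx]
    intro t
    constructor
    · exact le_rfl
    · have : (1 : ℤ) ≤ (r : ℤ) := by exact_mod_cast hr
      linarith
  have h2 : EI (bx (sd r l b i) r) ⊆ b := (sd_spec h).2
  refine (conn_bx h1 hx).mono ?_
  rw [inter_eq_right.mpr h2]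

/-- The whole seed is in its block. -/
theorem seed_mem {r l : ℕ} (hr : 1 ≤ r) {b : Finset (Ed d)} {i : Pt d}
    (h : (seeds r l b i).Nonempty) (t : Fin d) :
    ((r * 2 ^ l : ℕ) : ℤ) * i t ≤ sd r l b i t ∧
      sd r l b i t + r ≤ ((r * 2 ^ l : ℕ) : ℤ) * i t + ((r * 2 ^ l : ℕ) : ℤ) := by
  obtain ⟨h1, -⟩ := sd_spec h
  rw [mem_bx] at h1
  obtain ⟨h2, h3⟩ := h1 t
  have hr' : (1 : ℤ) ≤ r := by exact_mod_cast hr
  have hd : sd r l b i t = (r : ℤ) * pick (seeds r l b i) t := rfl
  rw [hd]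
  generalize pick (seeds r l b i) t = k at *
  push_cast at h2 h3 ⊢
  generalize (2 : ℤ) ^ l = A at *
  have hr0 : (0 : ℤ) < r := by omega
  constructor
  · calc (r : ℤ) * A * i t = r * (A * i t) := by ring
      _ ≤ r * k := mul_le_mul_of_nonneg_left h2 hr0.le
  · have e1 : k + 1 ≤ A * i t + A := h3
    calc (r : ℤ) * k + r = r * (k + 1) := by ring
      _ ≤ r * (A * i t + A) := mul_le_mul_of_nonneg_left e1 hr0.le
      _ = _ := by ring

/-- Free boxes around the seeds of two different blocks of the same parity class are disjoint. -/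
private theorem SeedArms_disj {r l R r' : ℕ} (hr : 1 ≤ r) (hR : 2 * R + 1 ≤ r * 2 ^ l)
    {b : Finset (Ed d)} {i i' : Pt d} (hi : (seeds r l b i).Nonempty)
    (hi' : (seeds r l b i').Nonempty) (hne : i ≠ i') (hp : ∀ t, (2 : ℤ) ∣ i t - i' t) :
    Disjoint (shV (sctr r' (sd r l b i)) (cube d R)) (shV (sctr r' (sd r l b i')) (cube d R)) := by
  rw [Finset.disjoint_left]
  intro z hz hz'
  rw [mem_shV_cube] at hz hz'
  apply hne
  funext t
  have h1 := hz t
  have h2 := hz' t
  unfold sctr at h1 h2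
  rw [abs_le] at h1 h2
  have h3 := seed_mem hr hi t
  have h4 := seed_mem hr hi' t
  obtain ⟨a, ha⟩ := hp t
  have hR' : (2 * (R : ℤ) + 1) ≤ ((r * 2 ^ l : ℕ) : ℤ) := by exact_mod_cast hR
  generalize ((r * 2 ^ l : ℕ) : ℤ) = ρ at *
  have hρ : 0 < ρ := by
    have : (0 : ℤ) ≤ R := Int.natCast_nonneg R
    omega
  have hr0 : (1 : ℤ) ≤ r := by exact_mod_cast hr
  have h5 : ρ * (i t - i' t) < 2 * ρ := by nlinarith
  have h6 : -(2 * ρ) < ρ * (i t - i' t) := by nlinarith
  have h7 : i t - i' t < 2 := by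
    by_contra hc
    push Not at hc
    nlinarith
  have h8 : -2 < i t - i' t := by
    by_contra hc
    push Not at hc
    nlinarith
  omega

open Classical in
/-- **None of the seeds of a large family has a long arm: exponentially small probability.** -/
theorem seed_arms (hu : 0 < u) (hq : 1 ≤ q) {r l k₀ R m r' n : ℕ} {δ : ℝ} (hr' : 2 * r' + 1 ≤ r)
    (hmR : m + 1 ≤ R) (hrR : r ≤ R) (hRl : 2 * R + 1 ≤ r * 2 ^ l)
    (hN : ∀ (x : Pt d) (V : Finset (Pt d)), shV x (cube d R) ⊆ V →
      1 - δ ≤ Pb u q V (EI V) (fun ω => ∃ y ∈ shV x (cube d r'), Out (shV x (cube d m)) ω y))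
    {V : Finset (Pt d)} {b : Finset (Ed d)} (hb : b ⊆ EI V) {j : Pt d} (hfull : FullF r l k₀ j b)
    {I : Finset (Pt d)} (hI : I ⊆ blocks k₀ j)
    (hV : ∀ i ∈ I, shV (sctr r' (sd r l b i)) (cube d R) ⊆ V) (hn : 2 ^ d * n ≤ I.card) :
    PbB u q V (EI V) b (fun ω => ∀ i ∈ I,
      ¬ Out (shV (sctr r' (sd r l b i)) (cube d m)) ω (sd r l b i)) ≤ δ ^ n := by
  have hr : 1 ≤ r := by omega
  have hδ0 : 0 ≤ δ := by
    have h1 := hN 0 (shV 0 (cube d R)) (subset_refl _)
    have h2 := Pb_le_one (V := shV 0 (cube d R)) (E := EI (shV 0 (cube d R))) hu hq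
      (fun ω => ∃ y ∈ shV 0 (cube d r'), Out (shV 0 (cube d m)) ω y)
    linarith
  -- a parity class
  obtain ⟨c, -, hc⟩ := exists_le_card_fiber_of_mul_le_card_of_maps_to
    (s := I) (t := (univ : Finset (Fin d → ZMod 2))) (f := fun i t => ((i t : ℤ) : ZMod 2)) (n := n)
    (fun _ _ => mem_univ _) ⟨0, mem_univ _⟩
    (by rw [card_univ, Fintype.card_fun, ZMod.card, Fintype.card_fin]; exact hn)
  set I' := I.filter (fun i => (fun t => ((i t : ℤ) : ZMod 2)) = c) with hI'
  have hI'I : I' ⊆ I := filter_subset _ _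
  have hsd : ∀ i ∈ I', (seeds r l b i).Nonempty := fun i hi => hfull i (hI (hI'I hi))
  have hpar : ∀ i ∈ I', ∀ i' ∈ I', ∀ t, (2 : ℤ) ∣ i t - i' t := by
    intro i hi i' hi' t
    rw [hI', mem_filter] at hi hi'
    have h1 : ((i t : ℤ) : ZMod 2) = ((i' t : ℤ) : ZMod 2) :=
      (congrFun hi.2 t).trans (congrFun hi'.2 t).symm
    have h2 : ((i t - i' t : ℤ) : ZMod 2) = 0 := by
      rw [Int.cast_sub, h1, sub_self]
    exact (ZMod.intCast_zmod_eq_zero_iff_dvd _ 2).1 h2
  have hprod := PbB_prod (u := u) (q := q) hu hq (fun i => shV (sctr r' (sd r l b i)) (cube d R))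
    (fun i ω => ¬ Out (shV (sctr r' (sd r l b i)) (cube d m)) ω (sd r l b i)) (δ := δ) b I'
    (fun i _ s t hst h h' => h (h'.mono hst (subset_refl _)))
    (fun i _ ω => by
      refine not_congr ⟨fun h => h.mono inter_subset_left (subset_refl _), fun h => ?_⟩
      refine h.restrict.mono ?_ (subset_refl _)
      refine inter_subset_inter_left ?_
      intro e he
      rw [mem_EB] at he
      rw [mem_EI]
      have hm : ∀ z, z ∈ shV (sctr r' (sd r l b i)) (cube d m) → ∀ z', Lat z z' →
          z' ∈ shV (sctr r' (sd r l b i)) (cube d R) := by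
        intro z hz z' hzz
        rw [mem_shV_cube] at hz ⊢
        intro t
        have h1 := hz t
        obtain ⟨s, hs⟩ := hzz
        have h2 : |z' t - z t| ≤ 1 := by
          rcases hs with hs | hs
          · rw [hs]
            simp only [Pi.add_apply, add_sub_cancel_left]
            by_cases hts : t = s
            · subst hts; simp
            · rw [Pi.single_eq_of_ne hts]; simp
          · rw [hs]
            simp only [Pi.add_apply, sub_add_cancel_left, abs_neg]
            by_cases hts : t = s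
            · subst hts; simp
            · rw [Pi.single_eq_of_ne hts]; simp
        rw [abs_le] at h1 h2 ⊢
        have h3 : (m : ℤ) + 1 ≤ R := by exact_mod_cast hmR
        constructor <;> linarith
      have hself : shV (sctr r' (sd r l b i)) (cube d m) ⊆
          shV (sctr r' (sd r l b i)) (cube d R) := by
        intro z hz
        rw [mem_shV] at hz ⊢
        exact cube_mono (by omega) hz
      have hlat : Lat e.1 (tgt e) := ⟨e.2, Or.inl rfl⟩
      rcases he with he | he
      · exact ⟨hself he, hm _ he _ hlat⟩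
      · exact ⟨hm _ he _ hlat.symm, hself he⟩)
    (fun i hi => ?_) (fun i hi i' hi' hne => SeedArms_disj hr hRl (hsd i hi) (hsd i' hi') hne
      (hpar i hi i' hi')) V (fun i hi => hV i (hI'I hi))
  · rw [inter_eq_left.mpr hb] at hprod
    have hle : PbB u q V (EI V) b (fun ω => ∀ i ∈ I,
        ¬ Out (shV (sctr r' (sd r l b i)) (cube d m)) ω (sd r l b i)) ≤
        PbB u q V (EI V) b (fun ω => ∀ i ∈ I',
        ¬ Out (shV (sctr r' (sd r l b i)) (cube d m)) ω (sd r l b i)) :=
      PbB_mono' hu hq fun ω _ _ h i hi => h i (hI'I hi)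
    rcases le_or_gt δ 1 with h | h
    · exact hle.trans (hprod.trans (pow_le_pow_of_le_one hδ0 h hc))
    · exact (PbB_le_one hu hq _).trans (one_le_pow₀ h.le)
  · -- one seed
    have hfi := hsd i hi
    have hbR : b ∩ EI (shV (sctr r' (sd r l b i)) (cube d R)) ⊆
        EI (shV (sctr r' (sd r l b i)) (cube d R)) := inter_subset_right
    have h1 := (hN (sctr r' (sd r l b i)) _ (subset_refl _)).trans
      (Pb_le_PbB (V := shV (sctr r' (sd r l b i)) (cube d R)) hu hq hbR
        (P := fun ω => ∃ y ∈ shV (sctr r' (sd r l b i)) (cube d r'),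
          Out (shV (sctr r' (sd r l b i)) (cube d m)) ω y)
        (fun s t hst ⟨y, hy, h⟩ => ⟨y, hy, h.mono hst (subset_refl _)⟩))
    have hseed : bx (sd r l b i) r ⊆ shV (sctr r' (sd r l b i)) (cube d R) := by
      intro z hz
      rw [mem_bx] at hz
      rw [mem_shV_cube]
      intro t
      unfold sctr
      have h2 := hz t
      have h3 : (r : ℤ) ≤ R := by exact_mod_cast hrR
      have h4 : (2 * (r' : ℤ) + 1) ≤ r := by exact_mod_cast hr'
      have h5 : (0 : ℤ) ≤ r' := Int.natCast_nonneg r'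
      rw [abs_le]
      constructor <;> linarith [h2.1, h2.2]
    have h2 : PbB u q (shV (sctr r' (sd r l b i)) (cube d R))
        (EI (shV (sctr r' (sd r l b i)) (cube d R)))
        (b ∩ EI (shV (sctr r' (sd r l b i)) (cube d R)))
        (fun ω => ∃ y ∈ shV (sctr r' (sd r l b i)) (cube d r'),
          Out (shV (sctr r' (sd r l b i)) (cube d m)) ω y) ≤
        PbB u q (shV (sctr r' (sd r l b i)) (cube d R))
        (EI (shV (sctr r' (sd r l b i)) (cube d R)))
        (b ∩ EI (shV (sctr r' (sd r l b i)) (cube d R)))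
        (fun ω => Out (shV (sctr r' (sd r l b i)) (cube d m)) ω (sd r l b i)) := by
      refine PbB_mono' hu hq fun ω hbω _ h => ?_
      obtain ⟨y, hy, z, hz, hyz⟩ := h
      refine ⟨z, hz, Conn.trans ?_ hyz⟩
      have hyb : y ∈ bx (sd r l b i) r := by
        rw [mem_shV_cube] at hy
        rw [mem_bx]
        intro t
        have h3 := hy t
        unfold sctr at h3
        rw [abs_le] at h3
        have h4 : (2 * (r' : ℤ) + 1) ≤ r := by exact_mod_cast hr'
        constructor <;> linarith [h3.1, h3.2]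
      refine (conn_seed hr hfi hyb).mono ?_
      exact (inter_subset_inter_left (EI_mono hseed)).trans hbω
    rw [PbB_not hu hq hbR]
    linarith

end Pool.Agent.Lib.MP_31386d_pr_RQ
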