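import Pool.Agent.Lib.MP_31386d_pr_RQ.Defs
import Pool.Agent.Lib.MP_31386d_pr_RQ.SeedArms
import Pool.Agent.Lib.MP_31386d_pr_POTTS.CondSplit

/-!
# Several disjoint boxes without arms
-/

set_option autoImplicit false

namespace Pool.Agent.Lib.MP_31386d_pr_RQ

open Finset
open Pool.Agent.Lib.MP_31386d_pr
open Pool.Agent.Lib.MP_31386d_pr_POTTS

variable {d : ℕ}

private theorem Arms_mono {ω ω' : Finset (Ed d)} (hω : ω ⊆ ω') {Y : Finset (Pt d)} {c : Pt d}
    {m : ℕ} (h : Arm ω Y c m) : Arm ω' Y c m := by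
  obtain ⟨x, hx, y, hy, h⟩ := h
  exact ⟨x, hx, y, hy, h.mono hω⟩

private theorem Arms_sh {ω : Finset (Ed d)} {c : Pt d} {r m : ℕ} :
    Arm (shE c ω) (cub c r) c m ↔ Arm ω (cube d r) 0 m := by
  have h0 : ∀ k : ℕ, ∀ y : Pt d, y ∈ cub c k ↔ y - c ∈ cube d k := fun k y => mem_shV
  have h1 : cub (0 : Pt d) m = cube d m := by
    ext y
    unfold cub
    rw [mem_shV, sub_zero]
  constructor
  · rintro ⟨x, hx, y, hy, h⟩
    refine ⟨x - c, (h0 r x).mp hx, y - c, ?_, ?_⟩
    · rw [h1]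
      exact fun h2 => hy ((h0 m y).mpr h2)
    · rw [← MP_31386d_pr.conn_shE (t := c)]
      simpa using h
  · rintro ⟨x, hx, y, hy, h⟩
    rw [h1] at hy
    refine ⟨x + c, (h0 r _).mpr (by simpa using hx), y + c, ?_, ?_⟩
    · exact fun h2 => hy (by simpa using (h0 m _).mp h2)
    · exact MP_31386d_pr.conn_shE.mpr h

theorem arms_prod {u q : ℝ} (hu : 0 < u) (hq : 1 ≤ q) {V : Finset (Pt d)} {b : Finset (Ed d)}
    (hb : b ⊆ EI V) {r m N : ℕ} {δ : ℝ}
    (h : Pb u q (cube d N) (EI (cube d N)) (fun ω => ¬ Arm ω (cube d r) 0 m) ≤ δ)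
    (T : Finset (Pt d)) (hT : ∀ c ∈ T, cub c N ⊆ V)
    (hdis : ∀ c ∈ T, ∀ c' ∈ T, c ≠ c' → Disjoint (cub c N) (cub c' N)) :
    PbB u q V (EI V) b (fun ω => ∀ c ∈ T, ¬ Arm ω (cub c r) c m) ≤ δ ^ T.card := by
  classical
  have key := PbB_prod hu hq (fun c : Pt d => cub c N)
    (fun c ω => ¬ Arm (ω ∩ EI (cub c N)) (cub c r) c m) (δ := δ) b T
    (fun c _ s t hst h1 h2 => h1 (Arms_mono (inter_subset_inter_right hst) h2))
    (fun c _ ω => by rw [inter_assoc, inter_self])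
    (fun c _ => ?_) hdis V hT
  · rw [inter_eq_left.mpr hb] at key
    refine le_trans (PbB_mono' hu hq fun ω _ _ h1 c hc h2 => ?_) key
    exact h1 c hc (Arms_mono inter_subset_left h2)
  · have h1 : b ∩ EI (cub c N) ⊆ EI (cub c N) := inter_subset_right
    have h2 := Pb_le_PbB (V := cub c N) hu hq h1
      (P := fun ω => Arm (ω ∩ EI (cub c N)) (cub c r) c m)
      (fun s t hst h3 => Arms_mono (inter_subset_inter_right hst) h3)
    have h3 := PbB_not hu hq h1 (V := cub c N)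
      (fun ω => Arm (ω ∩ EI (cub c N)) (cub c r) c m)
    have h4 := Pb_not (V := cub c N) (E := EI (cub c N)) hu hq
      (fun ω => Arm (ω ∩ EI (cub c N)) (cub c r) c m)
    have h5 : Pb u q (cub c N) (EI (cub c N))
        (fun ω => ¬ Arm (ω ∩ EI (cub c N)) (cub c r) c m) ≤ δ := by
      refine le_trans (le_of_eq ?_) h
      unfold Pb
      have h6 : EI (cub c N) = shE c (EI (cube d N)) := EI_shV c (cube d N)
      rw [h6]
      show Ex u q (shV c (cube d N)) (shE c (EI (cube d N))) _ = _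
      rw [Ex_shV]
      refine Ex_congr fun ω hω => ?_
      have h7 : shE c ω ∩ shE c (EI (cube d N)) = shE c ω := by
        rw [inter_eq_left]
        intro e he
        rw [mem_shE] at he ⊢
        exact hω he
      have h8 : Arm (shE c ω ∩ shE c (EI (cube d N))) (cub c r) c m ↔ Arm ω (cube d r) 0 m := by
        rw [h7]
        exact Arms_sh
      by_cases h9 : Arm ω (cube d r) 0 m
      · rw [if_neg (fun h' => h' (h8.mpr h9)), if_neg (fun h' => h' h9)]
      · rw [if_pos (fun h' => h9 (h8.mp h')), if_pos h9]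
    linarith

end Pool.Agent.Lib.MP_31386d_pr_RQ
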