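import Pool.Agent.Lib.MP_31386d_pr_RQ.Defs

/-!
# The Hamming distance to the event that the closed distance is large
-/

set_option autoImplicit false

namespace Pool.Agent.Lib.MP_31386d_pr_RQ

open Finset
open Pool.Agent.Lib.MP_31386d_pr
open Pool.Agent.Lib.MP_31386d_pr_POTTS

variable {d : ℕ}

private theorem lv_mono {E ω : Finset (Ed d)} {i j : ℕ} (hij : i ≤ j) {Y Z : Finset (Pt d)}
    (h : TD E ω i Y Z) : TD E ω j Y Z := by
  obtain ⟨S, hS, hc, h⟩ := h
  exact ⟨S, hS, hc.trans hij, h⟩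

private theorem lv_step {E ω : Finset (Ed d)} {i : ℕ} {Y : Finset (Pt d)} {x y : Pt d}
    {e : Ed d} (he : e ∈ E) (hxy : (e.1 = x ∧ tgt e = y) ∨ (e.1 = y ∧ tgt e = x))
    (h : TD E ω i Y {x}) : TD E ω (i + 1) Y {y} := by
  classical
  obtain ⟨S, hS, hc, a, ha, z, hz, hconn⟩ := h
  rw [mem_singleton] at hz
  subst hz
  refine ⟨insert e S, ?_, ?_, a, ha, y, mem_singleton_self y, ?_⟩
  · intro f hf
    rcases mem_insert.1 hf with h | h
    · rw [h]
      exact he
    · exact hS h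
  · exact (card_insert_le _ _).trans (Nat.succ_le_succ hc)
  · have h1 : Conn (ω ∪ insert e S) a z := by
      refine hconn.mono ?_
      exact union_subset_union_right (subset_insert _ _)
    refine h1.trans ?_
    refine Adj.conn ⟨e, ?_, hxy⟩
    exact mem_union_right _ (mem_insert_self _ _)

private theorem lv_edge {E ω : Finset (Ed d)} {i : ℕ} {Y : Finset (Pt d)} {e : Ed d}
    (he : e ∈ ω) : TD E ω i Y {e.1} ↔ TD E ω i Y {tgt e} := by
  constructor
  · rintro ⟨S, hS, hc, a, ha, z, hz, hconn⟩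
    rw [mem_singleton] at hz
    subst hz
    exact ⟨S, hS, hc, a, ha, tgt e, mem_singleton_self _,
      hconn.trans (Adj.conn ⟨e, mem_union_left _ he, Or.inl ⟨rfl, rfl⟩⟩)⟩
  · rintro ⟨S, hS, hc, a, ha, z, hz, hconn⟩
    rw [mem_singleton] at hz
    subst hz
    exact ⟨S, hS, hc, a, ha, e.1, mem_singleton_self _,
      hconn.trans (Adj.conn ⟨e, mem_union_left _ he, Or.inr ⟨rfl, rfl⟩⟩)⟩

theorem levels {E ω ω' : Finset (Ed d)} (hω : ω ⊆ E) (hω' : ω' ⊆ ω) {Y Z : Finset (Pt d)}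
    {k R : ℕ} (hT : ¬ TD E ω' k Y Z) (hF : Fl ω R Y Z) : (k + 1) * R ≤ (ω \ ω').card := by
  classical
  let S : ℕ → Finset (Ed d) := fun j =>
    ω.filter fun e => ¬ (TD E ω' j Y {e.1} ↔ TD E ω' j Y {tgt e})
  have hSmem : ∀ j e, e ∈ S j ↔ e ∈ ω ∧ ¬ (TD E ω' j Y {e.1} ↔ TD E ω' j Y {tgt e}) := by
    intro j e
    exact mem_filter
  -- (a)
  have ha : ∀ j, S j ⊆ ω \ ω' := by
    intro j e he
    rw [hSmem] at he
    rw [mem_sdiff]
    exact ⟨he.1, fun h => he.2 (lv_edge h)⟩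
  -- (b)
  have hb : ∀ j, j ≤ k → R ≤ (S j).card := by
    intro j hj
    by_contra hlt
    obtain ⟨y, hy, z, hz, hconn⟩ := hF (S j) (not_le.1 hlt)
    have h1 := hconn.const (g := fun z => TD E ω' j Y {z}) (by
      intro e he
      rw [mem_sdiff] at he
      by_contra hne
      exact he.2 ((hSmem j e).2 ⟨he.1, fun hiff => hne (propext hiff)⟩))
    have h2 : TD E ω' j Y {y} := ⟨∅, empty_subset _, by simp, y, hy, y, mem_singleton_self y,
      Conn.refl _ _⟩
    have h3 : TD E ω' j Y {z} := by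
      have h4 : TD E ω' j Y {y} = TD E ω' j Y {z} := h1
      rw [← h4]
      exact h2
    obtain ⟨T, hTE, hTc, a, ha', z', hz', hc⟩ := h3
    rw [mem_singleton] at hz'
    subst hz'
    exact hT ⟨T, hTE, hTc.trans hj, a, ha', z', hz, hc⟩
  -- (c)
  have hc : ∀ i j, i < j → Disjoint (S i) (S j) := by
    intro i j hij
    rw [disjoint_left]
    intro e hei hej
    rw [hSmem] at hei hej
    have heE := hω hei.1
    have hkey : TD E ω' j Y {e.1} ∧ TD E ω' j Y {tgt e} := by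
      by_cases h1 : TD E ω' i Y {e.1}
      · exact ⟨lv_mono hij.le h1, lv_mono hij (lv_step heE (Or.inl ⟨rfl, rfl⟩) h1)⟩
      · by_cases h2 : TD E ω' i Y {tgt e}
        · exact ⟨lv_mono hij (lv_step heE (Or.inr ⟨rfl, rfl⟩) h2), lv_mono hij.le h2⟩
        · exact absurd (iff_of_false h1 h2) hei.2
    exact hej.2 (iff_of_true hkey.1 hkey.2)
  have hpd : (((range (k + 1) : Finset ℕ) : Set ℕ)).PairwiseDisjoint S := by
    intro i _ j _ hij
    rcases lt_or_gt_of_ne hij with h | h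
    · exact hc i j h
    · exact (hc j i h).symm
  have hsub : (range (k + 1)).biUnion S ⊆ ω \ ω' := by
    intro e he
    obtain ⟨j, _, hj⟩ := mem_biUnion.1 he
    exact ha j hj
  calc (k + 1) * R = ∑ _j ∈ range (k + 1), R := by rw [sum_const, card_range, smul_eq_mul]
    _ ≤ ∑ j ∈ range (k + 1), (S j).card :=
        sum_le_sum fun j hj => hb j (Nat.lt_succ_iff.1 (mem_range.1 hj))
    _ = ((range (k + 1)).biUnion S).card := (card_biUnion hpd).symm
    _ ≤ _ := card_le_card hsub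

end Pool.Agent.Lib.MP_31386d_pr_RQ
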