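import Pool.Agent.Lib.MP_31386d_pr_RQ.Defs

/-!
# Thinning
-/

set_option autoImplicit false

namespace Pool.Agent.Lib.MP_31386d_pr_RQ

open Finset
open Pool.Agent.Lib.MP_31386d_pr
open Pool.Agent.Lib.MP_31386d_pr_POTTS

variable {d : ℕ}

/-- The law of the thinned configuration (not normalised). -/
private noncomputable def nu (u q ε : ℝ) (V : Finset (Pt d)) (E s : Finset (Ed d)) : ℝ :=
  ∑ c ∈ (E \ s).powerset, (1 - ε) ^ s.card * ε ^ c.card * wt u q V (s ∪ c)

private theorem nu_nonneg {u q ε : ℝ} (hu : 0 < u) (hq : 1 ≤ q) (hε : 0 < ε) (hε1 : ε < 1)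
    (V : Finset (Pt d)) (E s : Finset (Ed d)) : 0 ≤ nu u q ε V E s := by
  unfold nu
  refine Finset.sum_nonneg fun c _ => ?_
  have h1 : 0 < 1 - ε := by linarith
  have h2 := wt_pos hu hq V (s ∪ c)
  positivity

/-- The sum over the pairs `s ⊆ w`, in the two orders. -/
private theorem sum_nu (u q ε : ℝ) (V : Finset (Pt d)) (E : Finset (Ed d))
    (g : Finset (Ed d) → ℝ) :
    ∑ s ∈ E.powerset, nu u q ε V E s * g s =
      ∑ w ∈ E.powerset, wt u q V w *
        ∑ s ∈ w.powerset, (1 - ε) ^ s.card * ε ^ (w.card - s.card) * g s := by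
  have h1 : ∀ s ∈ E.powerset, nu u q ε V E s * g s =
      ∑ w ∈ E.powerset with s ⊆ w,
        wt u q V w * ((1 - ε) ^ s.card * ε ^ (w.card - s.card) * g s) := by
    intro s hs
    rw [mem_powerset] at hs
    unfold nu
    rw [sum_mul]
    refine sum_nbij' (fun c => s ∪ c) (fun w => w \ s) ?_ ?_ ?_ ?_ ?_
    · intro c hc
      rw [mem_powerset] at hc
      rw [mem_filter, mem_powerset]
      exact ⟨union_subset hs (hc.trans sdiff_subset), subset_union_left⟩
    · intro w hw
      rw [mem_filter, mem_powerset] at hw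
      rw [mem_powerset]
      exact sdiff_subset_sdiff hw.1 (subset_refl s)
    · intro c hc
      rw [mem_powerset] at hc
      have hd : Disjoint s c := disjoint_of_subset_right hc disjoint_sdiff
      rw [union_sdiff_cancel_left hd]
    · intro w hw
      rw [mem_filter] at hw
      exact union_sdiff_of_subset hw.2
    · intro c hc
      rw [mem_powerset] at hc
      have hd : Disjoint s c := disjoint_of_subset_right hc disjoint_sdiff
      have hc' : (s ∪ c).card - s.card = c.card := by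
        rw [card_union_of_disjoint hd]
        omega
      rw [hc']
      ring
  rw [sum_congr rfl h1]
  have h2 : ∀ w ∈ E.powerset, wt u q V w *
      ∑ s ∈ w.powerset, (1 - ε) ^ s.card * ε ^ (w.card - s.card) * g s =
      ∑ s ∈ w.powerset, wt u q V w * ((1 - ε) ^ s.card * ε ^ (w.card - s.card) * g s) :=
    fun w _ => mul_sum _ _ _
  rw [sum_congr rfl h2]
  refine sum_comm' ?_
  intro s w
  simp only [mem_powerset, mem_filter]
  constructor
  · rintro ⟨_, h3, h4⟩
    exact ⟨h4, h3⟩
  · rintro ⟨h3, h4⟩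
    exact ⟨h3.trans h4, h4, h3⟩

/-- The total mass. -/
private theorem sum_nu_one (u q ε : ℝ) (V : Finset (Pt d)) (E : Finset (Ed d)) :
    ∑ s ∈ E.powerset, nu u q ε V E s = Z u q V E := by
  have h := sum_nu u q ε V E (fun _ => 1)
  simp only [mul_one] at h
  rw [h]
  unfold Z
  refine sum_congr rfl fun w _ => ?_
  rw [Finset.sum_pow_mul_eq_add_pow (1 - ε) ε w, sub_add_cancel, one_pow, mul_one]

/-- The probability that the thinned configuration is in `D`. -/
private theorem inner_ge {ε : ℝ} (hε : 0 < ε) (hε1 : ε < 1) {D : Finset (Ed d) → Prop}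
    (hD : ∀ s t, s ⊆ t → D t → D s) (R : ℕ) (w : Finset (Ed d)) :
    ε ^ R * ind (∃ S : Finset (Ed d), S.card < R ∧ D (w \ S)) ≤
      ∑ s ∈ w.powerset, (1 - ε) ^ s.card * ε ^ (w.card - s.card) * ind (D s) := by
  have h1 : 0 < 1 - ε := by linarith
  by_cases h : ∃ S : Finset (Ed d), S.card < R ∧ D (w \ S)
  · rw [ind_of h, mul_one]
    obtain ⟨S, hS, hDS⟩ := h
    have h2 : ∑ s ∈ (w \ S).powerset, (1 - ε) ^ s.card * ε ^ (w.card - s.card) * ind (D s) ≤
        ∑ s ∈ w.powerset, (1 - ε) ^ s.card * ε ^ (w.card - s.card) * ind (D s) := by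
      refine sum_le_sum_of_subset_of_nonneg (powerset_mono.2 sdiff_subset) fun s _ _ => ?_
      have := ind_nonneg (D s)
      positivity
    refine le_trans ?_ h2
    have h3 : ∀ s ∈ (w \ S).powerset,
        (1 - ε) ^ s.card * ε ^ (w.card - s.card) * ind (D s) =
        ε ^ (w ∩ S).card * ((1 - ε) ^ s.card * ε ^ ((w \ S).card - s.card)) := by
      intro s hs
      rw [mem_powerset] at hs
      rw [ind_of (hD _ _ hs hDS), mul_one]
      have h4 : s.card ≤ (w \ S).card := card_le_card hs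
      have h5 : (w \ S).card + (w ∩ S).card = w.card := card_sdiff_add_card_inter w S
      have h6 : w.card - s.card = (w ∩ S).card + ((w \ S).card - s.card) := by omega
      rw [h6, pow_add]
      ring
    rw [sum_congr rfl h3, ← mul_sum, Finset.sum_pow_mul_eq_add_pow (1 - ε) ε (w \ S),
      sub_add_cancel, one_pow, mul_one]
    refine pow_le_pow_of_le_one hε.le hε1.le ?_
    exact (card_le_card inter_subset_right).trans hS.le
  · rw [ind_not h, mul_zero]
    refine sum_nonneg fun s _ => ?_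
    have := ind_nonneg (D s)
    positivity

/-- The comparison used in the four functions theorem. -/
private theorem nu_wt {u u' q ε : ℝ} (hu : 0 < u) (hu' : 0 < u') (hq : 1 ≤ q) (hε : 0 < ε)
    (hε1 : ε < 1) (h : u' * (1 + u * ε) ≤ u * (1 - ε)) (V : Finset (Pt d))
    {E s t : Finset (Ed d)} (ht : t ⊆ E) :
    nu u q ε V E s * wt u' q V t ≤ wt u' q V (s ∩ t) * nu u q ε V E (s ∪ t) := by
  have hq0 : 0 < q := by linarith
  have h1 : 0 < 1 - ε := by linarith
  have hsplit : E \ s = (E \ (s ∪ t)) ∪ (t \ s) := by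
    ext e
    simp only [mem_sdiff, mem_union]
    constructor
    · rintro ⟨h3, h4⟩
      by_cases h5 : e ∈ t
      · exact Or.inr ⟨h5, h4⟩
      · exact Or.inl ⟨h3, fun h6 => h6.elim h4 h5⟩
    · rintro (⟨h3, h4⟩ | ⟨h3, h4⟩)
      · exact ⟨h3, fun h5 => h4 (Or.inl h5)⟩
      · exact ⟨ht h3, h4⟩
  have hdisj : Disjoint (E \ (s ∪ t)) (t \ s) := by
    rw [disjoint_left]
    intro e he he'
    rw [mem_sdiff] at he he'
    exact he.2 (mem_union_right _ he'.1)
  have hnu : nu u q ε V E s = ∑ c ∈ (E \ (s ∪ t)).powerset, ∑ b ∈ (t \ s).powerset,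
      (1 - ε) ^ s.card * ε ^ (c ∪ b).card * wt u q V (s ∪ (c ∪ b)) := by
    unfold nu
    rw [hsplit]
    exact sum_powerset_union hdisj _
  rw [hnu]
  unfold nu
  rw [sum_mul, mul_sum]
  refine sum_le_sum fun c hc => ?_
  rw [mem_powerset] at hc
  rw [sum_mul]
  have hcs : Disjoint (s ∪ t) c := disjoint_of_subset_right hc disjoint_sdiff
  -- the terms
  have hterm : ∀ b ∈ (t \ s).powerset,
      (1 - ε) ^ s.card * ε ^ (c ∪ b).card * wt u q V (s ∪ (c ∪ b)) * wt u' q V t ≤
      (wt u' q V (s ∩ t) * ((1 - ε) ^ s.card * u' ^ (t \ s).card * ε ^ c.card *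
        (u ^ (s.card + c.card) * q ^ kap V (s ∪ t ∪ c)))) * (u * ε) ^ b.card := by
    intro b hb
    rw [mem_powerset] at hb
    have hbt : b ⊆ t := hb.trans sdiff_subset
    have hcb : Disjoint c b := disjoint_of_subset_left hc (disjoint_of_subset_right hb hdisj)
    have hsb : Disjoint s b := disjoint_of_subset_right hb disjoint_sdiff
    have hsc : Disjoint s c := disjoint_of_subset_left subset_union_left hcs
    have c1 : (c ∪ b).card = c.card + b.card := card_union_of_disjoint hcb
    have c2 : (s ∪ (c ∪ b)).card = s.card + (c.card + b.card) := by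
      rw [card_union_of_disjoint (disjoint_union_right.2 ⟨hsc, hsb⟩), c1]
    have c3 : t.card = (s ∩ t).card + (t \ s).card := by
      rw [inter_comm, add_comm]
      exact (card_sdiff_add_card_inter t s).symm
    have hk : kap V (s ∪ (c ∪ b)) + kap V t ≤ kap V (s ∩ t) + kap V (s ∪ t ∪ c) := by
      have k1 := kap_inf_sup' V V (s ∪ (c ∪ b)) t
      rw [union_self, inter_self] at k1
      have k2 : kap V ((s ∪ (c ∪ b)) ∩ t) ≤ kap V (s ∩ t) :=
        kap_mono (subset_refl V) (inter_subset_inter subset_union_left (subset_refl t))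
      have k3 : (s ∪ (c ∪ b)) ∪ t = s ∪ t ∪ c := by
        ext e
        simp only [mem_union]
        constructor
        · rintro ((h3 | h3 | h3) | h3)
          · exact Or.inl (Or.inl h3)
          · exact Or.inr h3
          · exact Or.inl (Or.inr (hbt h3))
          · exact Or.inl (Or.inr h3)
        · rintro ((h3 | h3) | h3)
          · exact Or.inl (Or.inl h3)
          · exact Or.inr h3
          · exact Or.inl (Or.inr (Or.inl h3))
      rw [k3] at k1
      omega
    have hpow : q ^ kap V (s ∪ (c ∪ b)) * q ^ kap V t ≤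
        q ^ kap V (s ∩ t) * q ^ kap V (s ∪ t ∪ c) := by
      rw [← pow_add, ← pow_add]
      exact pow_le_pow_right₀ hq hk
    unfold wt
    rw [c1, c2, c3]
    have e1 : (1 - ε) ^ s.card * ε ^ (c.card + b.card) *
        (u ^ (s.card + (c.card + b.card)) * q ^ kap V (s ∪ (c ∪ b))) *
        (u' ^ ((s ∩ t).card + (t \ s).card) * q ^ kap V t) =
        ((1 - ε) ^ s.card * ε ^ (c.card + b.card) * u ^ (s.card + (c.card + b.card)) *
          u' ^ ((s ∩ t).card + (t \ s).card)) *
          (q ^ kap V (s ∪ (c ∪ b)) * q ^ kap V t) := by ring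
    have e2 : u' ^ (s ∩ t).card * q ^ kap V (s ∩ t) * ((1 - ε) ^ s.card * u' ^ (t \ s).card *
        ε ^ c.card * (u ^ (s.card + c.card) * q ^ kap V (s ∪ t ∪ c))) * (u * ε) ^ b.card =
        ((1 - ε) ^ s.card * ε ^ (c.card + b.card) * u ^ (s.card + (c.card + b.card)) *
          u' ^ ((s ∩ t).card + (t \ s).card)) *
          (q ^ kap V (s ∩ t) * q ^ kap V (s ∪ t ∪ c)) := by
      rw [mul_pow, pow_add, pow_add, pow_add, pow_add, pow_add]
      ring
    rw [e1, e2]
    exact mul_le_mul_of_nonneg_left hpow (by positivity)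
  refine (sum_le_sum hterm).trans ?_
  rw [← mul_sum, sum_pow_card (t \ s) (u * ε)]
  have h2 : u' ^ (t \ s).card * (1 + u * ε) ^ (t \ s).card ≤
      (u * (1 - ε)) ^ (t \ s).card := by
    rw [← mul_pow]
    exact pow_le_pow_left₀ (by positivity) h _
  have c4 : (s ∪ t).card = s.card + (t \ s).card := by
    rw [← union_sdiff_self_eq_union, card_union_of_disjoint disjoint_sdiff]
  have c5 : (s ∪ t ∪ c).card = s.card + (t \ s).card + c.card := by
    rw [card_union_of_disjoint hcs, c4]
  have e3 : wt u q V (s ∪ t ∪ c) =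
      u ^ (s.card + (t \ s).card + c.card) * q ^ kap V (s ∪ t ∪ c) := by
    unfold wt
    rw [c5]
  rw [e3, c4]
  have hw := wt_pos hu' hq V (s ∩ t)
  have hA : 0 ≤ wt u' q V (s ∩ t) * (1 - ε) ^ s.card * ε ^ c.card * u ^ (s.card + c.card) *
      q ^ kap V (s ∪ t ∪ c) := by positivity
  calc wt u' q V (s ∩ t) * ((1 - ε) ^ s.card * u' ^ (t \ s).card * ε ^ c.card *
        (u ^ (s.card + c.card) * q ^ kap V (s ∪ t ∪ c))) * (1 + u * ε) ^ (t \ s).card
      = (wt u' q V (s ∩ t) * (1 - ε) ^ s.card * ε ^ c.card * u ^ (s.card + c.card) *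
          q ^ kap V (s ∪ t ∪ c)) * (u' ^ (t \ s).card * (1 + u * ε) ^ (t \ s).card) := by ring
    _ ≤ (wt u' q V (s ∩ t) * (1 - ε) ^ s.card * ε ^ c.card * u ^ (s.card + c.card) *
          q ^ kap V (s ∪ t ∪ c)) * (u * (1 - ε)) ^ (t \ s).card :=
        mul_le_mul_of_nonneg_left h2 hA
    _ = _ := by
        rw [mul_pow, pow_add, pow_add, pow_add, pow_add]
        ring

/-- The measure with parameter `u'` is smaller than the measure with parameter `u` in which every
open edge is closed with probability `ε`. -/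
theorem thin {u u' q ε : ℝ} (hu : 0 < u) (hu' : 0 < u') (hq : 1 ≤ q) (hε : 0 < ε) (hε1 : ε < 1)
    (h : u' * (1 + u * ε) ≤ u * (1 - ε)) (V : Finset (Pt d)) (E : Finset (Ed d))
    {D : Finset (Ed d) → Prop} (hD : ∀ s t, s ⊆ t → D t → D s) (R : ℕ) :
    ε ^ R * Pb u q V E (fun ω => ∃ S : Finset (Ed d), S.card < R ∧ D (ω \ S)) ≤
      Pb u' q V E D := by
  have hZ := Z_pos hu hq V E
  have hZ' := Z_pos hu' hq V E
  have hP : ∀ (v : ℝ) (P : Finset (Ed d) → Prop),
      Pb v q V E P = (∑ ω ∈ E.powerset, wt v q V ω * ind (P ω)) / Z v q V E :=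
    fun v P => rfl
  rw [hP, hP]
  -- lower bound for the mass of `D` in the thinned configuration
  have h1 : ε ^ R * ∑ w ∈ E.powerset, wt u q V w *
      ind (∃ S : Finset (Ed d), S.card < R ∧ D (w \ S)) ≤
      ∑ s ∈ E.powerset, nu u q ε V E s * ind (D s) := by
    rw [sum_nu, mul_sum]
    refine sum_le_sum fun w _ => ?_
    have h2 := inner_ge hε hε1 hD R w
    have h3 := wt_pos hu hq V w
    calc ε ^ R * (wt u q V w * ind (∃ S : Finset (Ed d), S.card < R ∧ D (w \ S)))
        = wt u q V w * (ε ^ R * ind (∃ S : Finset (Ed d), S.card < R ∧ D (w \ S))) := by ring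
      _ ≤ _ := mul_le_mul_of_nonneg_left h2 h3.le
  -- the four functions theorem
  have h4 : (∑ s ∈ E.powerset, nu u q ε V E s * ind (D s)) * ∑ t ∈ E.powerset, wt u' q V t ≤
      (∑ s ∈ E.powerset, wt u' q V s * ind (D s)) * ∑ t ∈ E.powerset, nu u q ε V E t := by
    refine four_fun E (fun s => mul_nonneg (nu_nonneg hu hq hε hε1 V E s) (ind_nonneg _))
      (fun t => (wt_pos hu' hq V t).le)
      (fun s => mul_nonneg (wt_pos hu' hq V s).le (ind_nonneg _))
      (fun t => nu_nonneg hu hq hε hε1 V E t) (fun s _ t ht => ?_)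
    have h5 := nu_wt hu hu' hq hε hε1 h V (s := s) ht
    have h6 : ind (D s) ≤ ind (D (s ∩ t)) := ind_mono (hD _ _ inter_subset_left)
    have h7 : 0 ≤ nu u q ε V E s * wt u' q V t :=
      mul_nonneg (nu_nonneg hu hq hε hε1 V E s) (wt_pos hu' hq V t).le
    have h8 : 0 ≤ wt u' q V (s ∩ t) * nu u q ε V E (s ∪ t) := h7.trans h5
    calc nu u q ε V E s * ind (D s) * wt u' q V t
        = (nu u q ε V E s * wt u' q V t) * ind (D s) := by ring
      _ ≤ (wt u' q V (s ∩ t) * nu u q ε V E (s ∪ t)) * ind (D (s ∩ t)) :=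
          mul_le_mul h5 h6 (ind_nonneg _) h8
      _ = _ := by ring
  rw [sum_nu_one] at h4
  have h9 : (∑ t ∈ E.powerset, wt u' q V t) = Z u' q V E := rfl
  rw [h9] at h4
  rw [mul_div_assoc', div_le_div_iff₀ hZ hZ']
  calc ε ^ R * (∑ w ∈ E.powerset, wt u q V w *
        ind (∃ S : Finset (Ed d), S.card < R ∧ D (w \ S))) * Z u' q V E
      ≤ (∑ s ∈ E.powerset, nu u q ε V E s * ind (D s)) * Z u' q V E :=
        mul_le_mul_of_nonneg_right h1 hZ'.le
    _ ≤ _ := h4

end Pool.Agent.Lib.MP_31386d_pr_RQ
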