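import Pool.Agent.Lib.MP_31386d_pr_RQ.Ham
import Pool.Agent.Lib.MP_31386d_pr_RQ.Levels
import Pool.Agent.Lib.MP_31386d_pr_RQ.Thin

/-!
# Large deviations for the closed distance
-/

set_option autoImplicit false

namespace Pool.Agent.Lib.MP_31386d_pr_RQ

open Finset
open Pool.Agent.Lib.MP_31386d_pr
open Pool.Agent.Lib.MP_31386d_pr_POTTS

variable {d : ℕ}

private theorem cs_mono {ω ω' : Finset (Ed d)} (h : ω ⊆ ω') {Y Z : Finset (Pt d)}
    (hc : CS ω Y Z) : CS ω' Y Z := by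
  obtain ⟨y, hy, z, hz, hyz⟩ := hc
  exact ⟨y, hy, z, hz, hyz.mono h⟩

/-- If `Y` and `Z` are connected with probability close to one at the parameter `ua`, then at the
larger parameter `uc` the closed distance between `Y` and `Z` has an exponential tail with a large
rate. -/
theorem closed_dist {ua ub uc q ε : ℝ} (hua : 0 < ua) (hub : 0 < ub) (hq : 1 ≤ q) (hε : 0 < ε)
    (hε1 : ε < 1)
    (hab : ua * (1 + ub * ε) ≤ ub * (1 - ε)) (hbc : ub ≤ uc) (V : Finset (Pt d))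
    (E : Finset (Ed d)) {Y Z : Finset (Pt d)} {k R : ℕ}
    (hη : Pb ua q V E (fun ω => ¬ CS ω Y Z) ≤ ε ^ R / 2) :
    Pb uc q V E (fun ω => ¬ TD E ω k Y Z) ≤ 2 * (ub / uc) ^ ((k + 1) * R) := by
  have huc : 0 < uc := lt_of_lt_of_le hub hbc
  have h1 := thin hub hua hq hε hε1 hab V E (D := fun ω => ¬ CS ω Y Z)
    (fun s t hst ht hs => ht (cs_mono hst hs)) R
  have h2 : ε ^ R * Pb ub q V E (fun ω => ∃ S : Finset (Ed d), S.card < R ∧
      ¬ CS (ω \ S) Y Z) ≤ ε ^ R * (1 / 2) := by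
    refine (h1.trans hη).trans (le_of_eq ?_)
    ring
  have hεR : 0 < ε ^ R := pow_pos hε R
  have h3 := le_of_mul_le_mul_left h2 hεR
  have h4 : Pb ub q V E (fun ω => ¬ Fl ω R Y Z) ≤ 1 / 2 := by
    refine (Pb_mono hub hq fun ω _ hω => ?_).trans h3
    unfold Fl at hω
    push Not at hω
    exact hω
  rw [Pb_not hub hq] at h4
  have h5 : 1 / 2 ≤ Pb ub q V E (fun ω => Fl ω R Y Z) := by linarith
  have hlam : 1 ≤ uc / ub := by
    rw [le_div_iff₀ hub, one_mul]
    exact hbc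
  have h6 := ham hub hlam hq V E (D := fun ω => ¬ TD E ω k Y Z) (G := fun ω => Fl ω R Y Z)
    (R := (k + 1) * R)
    (by
      rintro s t hst ht ⟨S, hS, hSk, hc⟩
      exact ht ⟨S, hS, hSk, cs_mono (union_subset_union_left hst) hc⟩)
    (by
      intro s t hst hs S hS
      exact cs_mono (sdiff_subset_sdiff hst (Subset.refl S)) (hs S hS))
    (fun ω hω hG ω' hω' hD => levels hω hω' hD hG)
  rw [div_mul_cancel₀ _ hub.ne'] at h6
  have hp : 0 < (uc / ub) ^ ((k + 1) * R) := by positivity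
  have h7 := Pb_nonneg (V := V) (E := E) huc hq (fun ω => ¬ TD E ω k Y Z)
  have h8 : Pb uc q V E (fun ω => ¬ TD E ω k Y Z) * ((uc / ub) ^ ((k + 1) * R) * (1 / 2)) ≤ 1 := by
    refine le_trans ?_ h6
    refine mul_le_mul_of_nonneg_left ?_ h7
    exact mul_le_mul_of_nonneg_left h5 hp.le
  have h9 : 2 * (ub / uc) ^ ((k + 1) * R) = 1 / ((uc / ub) ^ ((k + 1) * R) * (1 / 2)) := by
    rw [← inv_div uc ub, inv_pow]
    field_simp
  rw [h9, le_div_iff₀ (by positivity)]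
  exact h8

end Pool.Agent.Lib.MP_31386d_pr_RQ
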