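import Pool.Agent.Lib.MP_31386d_pr_RQ.Defs

/-!
# Parameters
-/

set_option autoImplicit false

namespace Pool.Agent.Lib.MP_31386d_pr_RQ

/-- Dyadic exponent of the side of the blocks. -/
def lQ (k₀ : ℕ) : ℕ := 2 ^ k₀ - k₀

/-- Dyadic exponent of the small boxes; the arms have length `2 * 4 ^ pQ`. -/
def pQ (D k₀ : ℕ) : ℕ := lQ k₀ / (2 * D + 6)

/-- The margin of the coarse blocks. -/
def gQ (C c KB k₀ : ℕ) : ℕ := (KB + 1) * 2 ^ ((2 ^ k₀ + c) * C)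

end Pool.Agent.Lib.MP_31386d_pr_RQ
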