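import Pool.Agent.Lib.MP_31386d_pr_RQ.FineQ
import Pool.Agent.Lib.MP_31386d_pr_RQ.CoarseQ
import Pool.Agent.Lib.MP_31386d_pr_RQ.ParDefs

/-!
# Bad coarse blocks with the chosen parameters
-/

set_option autoImplicit false

namespace Pool.Agent.Lib.MP_31386d_pr_RQ

open Finset
open Pool.Agent.Lib.MP_31386d_pr
open Pool.Agent.Lib.MP_31386d_pr_POTTS

variable {D : ℕ}

theorem coarse_main (hD : 2 ≤ D) {q : ℝ} (hq : 1 ≤ q) {u₀ u₁ o v₀ om : ℝ} (hu₀ : 0 < u₀)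
    (hv₀ : 0 < v₀) (hv : v₀ ≤ o) (hsp : u₀ * (1 + o) + o * q ≤ u₁) (hom : 0 < om)
    {r C c KA KB k₀ kk : ℕ} {δ₁ δ₂ : ℝ} (hC : 1 ≤ C) (hKB : 1 ≤ KB)
    (hc : 4 * (2 * r + 1) ≤ 2 ^ c) (hk : k₀ ≤ 2 ^ k₀) (hp : pQ D k₀ ≤ 2 ^ k₀)
    (hr : r < 2 ^ pQ D k₀)
    (hN : 2 * (KA * (2 * 4 ^ pQ D k₀) ^ (D + 2)) < (2 * r + 1) * 2 ^ lQ k₀)
    (h4 : 4 * 4 ^ pQ D k₀ ≤ 2 ^ 2 ^ k₀) (hδ₁ : δ₁ ≤ 1)
    (h1 : Pb u₀ q (cube (D + 1) (KA * (2 * 4 ^ pQ D k₀) ^ (D + 2)))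
      (EI (cube (D + 1) (KA * (2 * 4 ^ pQ D k₀) ^ (D + 2))))
      (fun ω => ¬ Arm ω (cube (D + 1) r) 0 (2 * 4 ^ pQ D k₀)) ≤ δ₁)
    (h2 : ∀ (V : Finset (Pt (D + 1))) (x z : Pt (D + 1)),
      cub x (KB * (2 ^ (2 ^ k₀ + c)) ^ C) ⊆ V → cub z (KB * (2 ^ (2 ^ k₀ + c)) ^ C) ⊆ V →
      (∀ i, |z i - x i| ≤ ((2 ^ (2 ^ k₀ + c) : ℕ) : ℤ)) →
      Pb u₀ q V (EI V) (fun ω => ¬ TD (EI V) ω kk {x} {z}) ≤ δ₂)
    (k : Pt D) :
    JP om u₁ q (reg ((2 * r + 1) * 2 ^ lQ k₀ * 2 ^ k₀) (gQ C c KB k₀) (gQ C c KB k₀ + 1) k)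
      (fun b ω => ¬ GoodC (2 * r + 1) (lQ k₀) k₀ (gQ C c KB k₀) (gQ C c KB k₀ + 1) k b ω) ≤
      (((gQ C c KB k₀ + 1 : ℕ) : ℝ) + 1) ^ D *
        ((((2 ^ (k₀ + 1)) ^ (D + 1) : ℕ) : ℝ) *
          (1 - (om / (om + 1)) ^ (EI (Box (D + 1) (2 * r + 1))).card) ^
            ((2 ^ lQ k₀) ^ (D + 1)) +
          fineB (D + 1) k₀ (pQ D k₀) (2 ^ k₀ + c - pQ D k₀) kk o v₀ δ₁ δ₂) := by
  classical
  have ho : 0 < o := lt_of_lt_of_le hv₀ hv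
  have hu₁ : 0 < u₁ := by
    have h3 : 0 < u₀ * (1 + o) := mul_pos hu₀ (by linarith)
    have h5 : 0 ≤ o * q := mul_nonneg ho.le (by linarith)
    linarith
  -- nonnegativity
  have hδ₁0 : 0 ≤ δ₁ := (Pb_nonneg hu₀ hq _).trans h1
  have hδ₂0 : 0 ≤ δ₂ := by
    have h3 := h2 (cub 0 (KB * (2 ^ (2 ^ k₀ + c)) ^ C)) 0 0 (Subset.refl _) (Subset.refl _)
      (fun i => by simp)
    exact (Pb_nonneg hu₀ hq _).trans h3
  have hfb : 0 ≤ fineB (D + 1) k₀ (pQ D k₀) (2 ^ k₀ + c - pQ D k₀) kk o v₀ δ₁ δ₂ := by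
    unfold fineB
    positivity
  -- the parameters
  have hlk : lQ k₀ + k₀ = 2 ^ k₀ := by
    unfold lQ
    omega
  have hpL : pQ D k₀ + (2 ^ k₀ + c - pQ D k₀) = 2 ^ k₀ + c := by omega
  obtain ⟨n, hn⟩ : ∃ n : ℕ, n = (2 * r + 1) * 2 ^ lQ k₀ * 2 ^ k₀ := ⟨_, rfl⟩
  obtain ⟨M, hM⟩ : ∃ M : ℕ, M = 2 ^ (2 ^ k₀ + c) := ⟨_, rfl⟩
  obtain ⟨g, hg⟩ : ∃ g : ℕ, g = gQ C c KB k₀ := ⟨_, rfl⟩
  obtain ⟨F, hF⟩ : ∃ F : ℕ, F = 4 * 4 ^ pQ D k₀ := ⟨_, rfl⟩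
  obtain ⟨N, hNd⟩ : ∃ N : ℕ, N = KA * (2 * 4 ^ pQ D k₀) ^ (D + 2) := ⟨_, rfl⟩
  have hn2 : n = (2 * r + 1) * 2 ^ 2 ^ k₀ := by
    rw [hn, mul_assoc, ← pow_add, hlk]
  have hnM : 4 * n ≤ M := by
    rw [hn2, hM, pow_add]
    calc 4 * ((2 * r + 1) * 2 ^ 2 ^ k₀) = 2 ^ 2 ^ k₀ * (4 * (2 * r + 1)) := by ring
      _ ≤ 2 ^ 2 ^ k₀ * 2 ^ c := Nat.mul_le_mul_left _ hc
  have hFn : F ≤ n := by
    rw [hF, hn2]
    exact h4.trans (Nat.le_mul_of_pos_left _ (by omega))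
  have hn1 : 1 ≤ n := by
    rw [hn2]
    exact Nat.mul_pos (by omega) (by positivity)
  have hgM : M + KB * M ^ C ≤ g := by
    rw [hg]
    unfold gQ
    have h3 : 2 ^ ((2 ^ k₀ + c) * C) = M ^ C := by rw [hM, ← pow_mul]
    rw [h3]
    have h5 : M ≤ M ^ C := by
      calc M = M ^ 1 := (pow_one _).symm
        _ ≤ M ^ C := Nat.pow_le_pow_right (by rw [hM]; positivity) hC
    calc M + KB * M ^ C ≤ M ^ C + KB * M ^ C := Nat.add_le_add_right h5 _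
      _ = (KB + 1) * M ^ C := by ring
  have hMpos : 1 ≤ M := by
    rw [hM]
    exact Nat.one_le_two_pow
  have hg1 : 1 ≤ g := by omega
  have hggn : g ≤ g * n := Nat.le_mul_of_pos_right _ hn1
  have hNn : N ≤ g * n := by
    have h3 : (2 * r + 1) * 2 ^ lQ k₀ ≤ n := by
      rw [hn]
      exact Nat.le_mul_of_pos_right _ (by positivity)
    have h5 : n ≤ g * n := Nat.le_mul_of_pos_left _ hg1
    rw [← hNd] at hN
    omega
  refine coarse_of_fine hq hom hu₁ (by omega) hfb k ?_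
  intro j hj b hb hfull
  rw [← hg, ← hn] at hb ⊢
  rw [← hg] at hj
  rw [← hM] at h2
  rw [← hNd] at h1 hN
  -- the corner of the fine cube
  have hcor : (fun t => (n : ℤ) * j t) ∈ bx (fun t => (n : ℤ) * j t) (2 * n) := by
    rw [mem_bx]
    intro t
    have : (1 : ℤ) ≤ n := by exact_mod_cast hn1
    push_cast
    constructor
    · exact le_rfl
    · linarith
  have hreg : ∀ y : Pt (D + 1), (∀ t, |y t - (n : ℤ) * j t| ≤ ((g * n : ℕ) : ℤ)) →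
      y ∈ reg n g (g + 1) k := by
    intro y hy
    apply fine_subset_reg hj hcor
    rw [mem_shV_cube]
    exact hy
  have hFn' : (F : ℤ) ≤ n := by exact_mod_cast hFn
  have hnM' : 4 * (n : ℤ) ≤ M := by exact_mod_cast hnM
  have hgM' : (M : ℤ) + KB * (M : ℤ) ^ C ≤ g := by exact_mod_cast hgM
  have hggn' : (g : ℤ) ≤ ((g * n : ℕ) : ℤ) := by exact_mod_cast hggn
  have hF0 : (0 : ℤ) ≤ F := by positivity
  have hKM : (0 : ℤ) ≤ KB * (M : ℤ) ^ C := by positivity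
  have hbxd : ∀ x ∈ bx (fun t => (n : ℤ) * j t - F) M, ∀ t, |x t - (n : ℤ) * j t| ≤ M := by
    intro x hx t
    rw [mem_bx] at hx
    have h3 := hx t
    rw [abs_le]
    constructor
    · linarith [h3.1]
    · linarith [h3.2]
  refine fine_bad_q (N := N) (r := r) (k := kk) (a := fun t => (n : ℤ) * j t - F) (by omega) hq
    hu₀ hv₀ hv hsp hb ?_ ?_ ?_ hN hr hδ₁ h1 ?_ hfull
  · rw [hpL, ← hM]
    intro x hx
    apply hreg
    intro t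
    have h3 := hbxd x hx t
    linarith
  · rw [hpL, ← hM, ← hF, ← hn]
    intro x hx y hy
    unfold cub at hy
    rw [mem_shV_cube] at hy
    rw [mem_bx] at hx ⊢
    intro t
    have h3 := hx t
    have h5 := abs_le.1 (hy t)
    push_cast at h3
    constructor
    · linarith [h3.1, h5.1]
    · linarith [h3.2, h5.2]
  · rw [← hn]
    intro x hx y hy
    unfold cub at hy
    have h3 := fine_subset_reg hj hx
    apply h3
    rw [mem_shV_cube] at hy ⊢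
    intro t
    have h5 : (N : ℤ) ≤ ((g * n : ℕ) : ℤ) := by exact_mod_cast hNn
    exact (hy t).trans h5
  · rw [hpL, ← hM]
    have hcub : ∀ x ∈ bx (fun t => (n : ℤ) * j t - F) M,
        cub x (KB * M ^ C) ⊆ reg n g (g + 1) k := by
      intro x hx y hy
      unfold cub at hy
      rw [mem_shV_cube] at hy
      apply hreg
      intro t
      have h3 := abs_le.1 (hbxd x hx t)
      have h5 := abs_le.1 (hy t)
      push_cast at h5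
      refine le_trans ?_ hggn'
      rw [abs_le]
      constructor
      · linarith [h3.1, h5.1]
      · linarith [h3.2, h5.2]
    intro x hx z hz
    refine h2 _ x z (hcub x hx) (hcub z hz) ?_
    intro t
    rw [mem_bx] at hx hz
    have h3 := hx t
    have h5 := hz t
    rw [abs_le]
    constructor
    · linarith [h3.2, h5.1]
    · linarith [h3.1, h5.2]

end Pool.Agent.Lib.MP_31386d_pr_RQ
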