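import Pool.Agent.Lib.MP_31386d_pr_RQ.NumDefs
import Pool.Agent.Lib.MP_31386d_pr_POTTS.CoarseBad

/-!
# Project RQ: probability that a coarse block is bad

The bound for one fine cube is a hypothesis.
-/

set_option autoImplicit false

namespace Pool.Agent.Lib.MP_31386d_pr_RQ

open Finset
open Pool.Agent.Lib.MP_31386d_pr
open Pool.Agent.Lib.MP_31386d_pr_POTTS

variable {D : ℕ} {q : ℝ}

/-- The block `i` of the fine cube `j` is inside the fine cube. -/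
private theorem CoarseRQ_block_subset {r l k₀ : ℕ} {i j : Pt (D + 1)} (hi : i ∈ blocks k₀ j) :
    bx (fun t => ((r * 2 ^ l : ℕ) : ℤ) * i t) (r * 2 ^ l) ⊆
      bx (fun t => ((r * 2 ^ l * 2 ^ k₀ : ℕ) : ℤ) * j t) (2 * (r * 2 ^ l * 2 ^ k₀)) := by
  intro x hx
  unfold blocks at hi
  rw [mem_bx] at hi hx ⊢
  intro t
  have h1 := hi t
  have h2 := hx t
  push_cast at h1 h2 ⊢
  set ρ : ℤ := (r : ℤ) * 2 ^ l with hρ
  have hρ0 : 0 ≤ ρ := by positivity
  have h3 : ρ * (2 ^ k₀ * j t) ≤ ρ * i t := mul_le_mul_of_nonneg_left h1.1 hρ0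
  have h4 : i t + 1 ≤ 2 ^ k₀ * j t + 2 ^ (k₀ + 1) := by omega
  have h5 : ρ * (i t + 1) ≤ ρ * (2 ^ k₀ * j t + 2 ^ (k₀ + 1)) := mul_le_mul_of_nonneg_left h4 hρ0
  constructor
  · calc ρ * 2 ^ k₀ * j t = ρ * (2 ^ k₀ * j t) := by ring
      _ ≤ ρ * i t := h3
      _ ≤ x t := h2.1
  · calc x t < ρ * i t + ρ := h2.2
      _ = ρ * (i t + 1) := by ring
      _ ≤ ρ * (2 ^ k₀ * j t + 2 ^ (k₀ + 1)) := h5
      _ = ρ * 2 ^ k₀ * j t + 2 * (ρ * 2 ^ k₀) := by rw [pow_succ]; ring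

theorem coarse_gen (hq : 1 ≤ q) {o : ℝ} (ho : 0 < o) {u₁ : ℝ} (hu₁ : 0 < u₁)
    {r l k₀ g w : ℕ} (hr : 1 ≤ r) (k : Pt D) {fb : ℝ} (hfb0 : 0 ≤ fb)
    (h : ∀ b, b ⊆ EI (reg (r * 2 ^ l * 2 ^ k₀) g w k) → ∀ j ∈ fines g w k, FullF r l k₀ j b →
      PbB u₁ q (reg (r * 2 ^ l * 2 ^ k₀) g w k) (EI (reg (r * 2 ^ l * 2 ^ k₀) g w k)) b
        (fun ω => ¬ ∃ x, Big r l k₀ j b ω x) ≤ fb) :
    JP o u₁ q (reg (r * 2 ^ l * 2 ^ k₀) g w k) (fun b ω => ¬ GoodC r l k₀ g w k b ω) ≤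
      badN D o r l k₀ w fb := by
  classical
  obtain ⟨ms, hms⟩ : ∃ ms : ℝ, ms =
      (1 - (o / (o + 1)) ^ (EI (Box (D + 1) r)).card) ^ ((2 ^ l) ^ (D + 1)) := ⟨_, rfl⟩
  -- geometry
  have hbxR : ∀ j ∈ fines g w k, bx (fun t => ((r * 2 ^ l * 2 ^ k₀ : ℕ) : ℤ) * j t)
      (2 * (r * 2 ^ l * 2 ^ k₀)) ⊆ reg (r * 2 ^ l * 2 ^ k₀) g w k := by
    intro j hj x hx
    apply fine_subset_reg hj hx
    rw [mem_shV_cube]
    intro i
    rw [sub_self, abs_zero]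
    exact Int.natCast_nonneg _
  -- bound for given marks
  have key : ∀ b, b ⊆ EI (reg (r * 2 ^ l * 2 ^ k₀) g w k) →
      ExB u₁ q (reg (r * 2 ^ l * 2 ^ k₀) g w k) (EI (reg (r * 2 ^ l * 2 ^ k₀) g w k)) b
        (fun ω => ind (¬ GoodC r l k₀ g w k b ω)) ≤
      (∑ j ∈ fines g w k, ∑ i ∈ blocks k₀ j, ind (¬ (seeds r l b i).Nonempty)) +
        ((w : ℝ) + 1) ^ D * fb := by
    intro b hb
    by_cases hfull : ∀ j ∈ fines g w k, FullF r l k₀ j b
    · have h1 := PbB_union (V := reg (r * 2 ^ l * 2 ^ k₀) g w k)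
        (E := EI (reg (r * 2 ^ l * 2 ^ k₀) g w k)) (b := b) hu₁ hq (fines g w k)
        (fun ω => ¬ GoodC r l k₀ g w k b ω) (fun j ω => ¬ ∃ x, Big r l k₀ j b ω x) (by
          intro ω _ hω hbad
          by_contra hcon
          push Not at hcon
          apply hbad
          intro j hj
          refine ⟨hfull j hj, ?_⟩
          rw [inter_eq_left.mpr hω]
          exact hcon j hj)
      have h2 : ∀ j ∈ fines g w k, PbB u₁ q (reg (r * 2 ^ l * 2 ^ k₀) g w k)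
          (EI (reg (r * 2 ^ l * 2 ^ k₀) g w k)) b (fun ω => ¬ ∃ x, Big r l k₀ j b ω x) ≤ fb :=
        fun j hj => h b hb j hj (hfull j hj)
      have h3 := Finset.sum_le_card_nsmul _ _ _ h2
      rw [card_fines, nsmul_eq_mul] at h3
      push_cast at h3
      have h4 : 0 ≤ ∑ j ∈ fines g w k, ∑ i ∈ blocks k₀ j, ind (¬ (seeds r l b i).Nonempty) :=
        sum_nonneg fun j _ => sum_nonneg fun i _ => ind_nonneg _
      have h5 : ExB u₁ q (reg (r * 2 ^ l * 2 ^ k₀) g w k)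
          (EI (reg (r * 2 ^ l * 2 ^ k₀) g w k)) b (fun ω => ind (¬ GoodC r l k₀ g w k b ω)) ≤
          ((w : ℝ) + 1) ^ D * fb := h1.trans h3
      linarith
    · have h1 : ExB u₁ q (reg (r * 2 ^ l * 2 ^ k₀) g w k)
          (EI (reg (r * 2 ^ l * 2 ^ k₀) g w k)) b (fun ω => ind (¬ GoodC r l k₀ g w k b ω)) ≤ 1 :=
        PbB_le_one hu₁ hq _
      push Not at hfull
      obtain ⟨j, hj, hjf⟩ := hfull
      unfold FullF at hjf
      push Not at hjf
      obtain ⟨i, hi, hie⟩ := hjf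
      have h2 : (1 : ℝ) ≤ ∑ j ∈ fines g w k, ∑ i ∈ blocks k₀ j,
          ind (¬ (seeds r l b i).Nonempty) := by
        calc (1 : ℝ) = ind (¬ (seeds r l b i).Nonempty) := by
              rw [ind_of]
              rw [hie]
              exact Finset.not_nonempty_empty
          _ ≤ ∑ i ∈ blocks k₀ j, ind (¬ (seeds r l b i).Nonempty) :=
              single_le_sum (f := fun i => ind (¬ (seeds r l b i).Nonempty))
                (fun i _ => ind_nonneg _) hi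
          _ ≤ _ := single_le_sum (f := fun j => ∑ i ∈ blocks k₀ j,
                ind (¬ (seeds r l b i).Nonempty))
                (fun j _ => sum_nonneg fun i _ => ind_nonneg _) hj
      have h3 : 0 ≤ ((w : ℝ) + 1) ^ D * fb := by positivity
      linarith
  -- expectation over the marks
  have hstep : JP o u₁ q (reg (r * 2 ^ l * 2 ^ k₀) g w k) (fun b ω => ¬ GoodC r l k₀ g w k b ω) ≤
      (∑ j ∈ fines g w k, ∑ i ∈ blocks k₀ j, Pb o 1 (reg (r * 2 ^ l * 2 ^ k₀) g w k)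
        (EI (reg (r * 2 ^ l * 2 ^ k₀) g w k)) (fun b => ¬ (seeds r l b i).Nonempty)) +
        ((w : ℝ) + 1) ^ D * fb := by
    unfold JP JE
    refine (Ex_mono ho le_rfl (fun b hb => key b hb)).trans (le_of_eq ?_)
    rw [Ex_add, Ex_const ho le_rfl, Ex_sum]
    congr 1
    refine sum_congr rfl (fun j _ => ?_)
    rw [Ex_sum]
    refine sum_congr rfl (fun i _ => ?_)
    unfold Pb
    refine Ex_congr (fun b _ => ?_)
    by_cases h : ¬ (seeds r l b i).Nonempty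
    · rw [ind_of h, if_pos h]
    · rw [ind_not h, if_neg h]
  refine hstep.trans ?_
  have hmiss : ∀ j ∈ fines g w k, ∀ i ∈ blocks k₀ j, Pb o 1 (reg (r * 2 ^ l * 2 ^ k₀) g w k)
        (EI (reg (r * 2 ^ l * 2 ^ k₀) g w k)) (fun b => ¬ (seeds r l b i).Nonempty) ≤ ms := by
    intro j hj i hi
    rw [hms]
    exact missing ho hr ((CoarseRQ_block_subset hi).trans (hbxR j hj))
  have hsum : ∀ j ∈ fines g w k, ∑ i ∈ blocks k₀ j, Pb o 1 (reg (r * 2 ^ l * 2 ^ k₀) g w k)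
        (EI (reg (r * 2 ^ l * 2 ^ k₀) g w k)) (fun b => ¬ (seeds r l b i).Nonempty) ≤
        (((2 ^ (k₀ + 1)) ^ (D + 1) : ℕ) : ℝ) * ms := by
    intro j hj
    have h := Finset.sum_le_card_nsmul _ _ _ (hmiss j hj)
    rwa [card_blocks, nsmul_eq_mul] at h
  have htot := Finset.sum_le_card_nsmul _ _ _ hsum
  rw [card_fines, nsmul_eq_mul] at htot
  unfold badN
  rw [← hms]
  have e1 : (((w + 1) ^ D : ℕ) : ℝ) = ((w : ℝ) + 1) ^ D := by push_cast; ring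
  rw [e1] at htot
  rw [mul_add]
  linarith

end Pool.Agent.Lib.MP_31386d_pr_RQ
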