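import Pool.Agent.Lib.MP_31386d_pr_POTTS.Defs
import Pool.Agent.Lib.MP_31386d_pr_POTTS.Poincare
import Pool.Agent.Lib.MP_31386d_pr_POTTS.Dom

/-!
# Project RQ (real `q`): definitions

Random-cluster measures on the lattice as in `MP_31386d_pr` and `MP_31386d_pr_POTTS`.
-/

set_option autoImplicit false

namespace Pool.Agent.Lib.MP_31386d_pr_RQ

open Finset
open Pool.Agent.Lib.MP_31386d_pr
open Pool.Agent.Lib.MP_31386d_pr_POTTS

variable {d : ℕ}

/-- The sets `Y` and `Z` are connected in `ω`. -/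
def CS (ω : Finset (Ed d)) (Y Z : Finset (Pt d)) : Prop := ∃ y ∈ Y, ∃ z ∈ Z, Conn ω y z

/-- The sets `Y` and `Z` are connected in `ω` after opening at most `k` edges of `E`. -/
def TD (E ω : Finset (Ed d)) (k : ℕ) (Y Z : Finset (Pt d)) : Prop :=
  ∃ S : Finset (Ed d), S ⊆ E ∧ S.card ≤ k ∧ CS (ω ∪ S) Y Z

/-- The sets `Y` and `Z` remain connected in `ω` after closing fewer than `R` edges. -/
def Fl (ω : Finset (Ed d)) (R : ℕ) (Y Z : Finset (Pt d)) : Prop :=
  ∀ S : Finset (Ed d), S.card < R → CS (ω \ S) Y Z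

/-- The box of radius `m` around `c`. -/
noncomputable def cub (c : Pt d) (m : ℕ) : Finset (Pt d) := shV c (cube d m)

/-- The set `Y` is connected in `ω` to the outside of the box of radius `m` around `c`. -/
def Arm (ω : Finset (Ed d)) (Y : Finset (Pt d)) (c : Pt d) (m : ℕ) : Prop :=
  ∃ x ∈ Y, ∃ y, y ∉ cub c m ∧ Conn ω x y

/-- First input at the parameter `u`: in the free measures, large balls are connected to distance
`m` with probability close to one, uniformly in `m`. -/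
def InA (d : ℕ) (u q : ℝ) : Prop :=
  ∀ δ : ℝ, 0 < δ → ∃ r K : ℕ, 1 ≤ K ∧ ∀ m : ℕ, 1 ≤ m →
    Pb u q (cube d (K * m ^ (d + 1))) (EI (cube d (K * m ^ (d + 1))))
      (fun ω => ¬ Arm ω (cube d r) 0 m) ≤ δ

/-- Second input at the parameter `u`: in the free measure in a box of polynomial size, two large
balls at distance at most `n` are connected with probability close to one. -/
def InB (d : ℕ) (u q : ℝ) : Prop :=
  ∃ C : ℕ, 1 ≤ C ∧ ∀ δ : ℝ, 0 < δ → ∃ s K : ℕ, 1 ≤ K ∧ ∀ n : ℕ, 1 ≤ n → ∀ x : Pt d,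
    (∀ i, |x i| ≤ n) →
    Pb u q (cube d (K * n ^ C)) (EI (cube d (K * n ^ C)))
      (fun ω => ¬ CS ω (cube d s) (cub x s)) ≤ δ

end Pool.Agent.Lib.MP_31386d_pr_RQ
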