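import Pool.Agent.Lib.MP_31386d_pr_RQ.Defs
import Pool.Agent.Lib.MP_31386d_pr_POTTS.Telescope

/-!
# Energy of a function equal to one at many points and to zero at many points
-/

set_option autoImplicit false

namespace Pool.Agent.Lib.MP_31386d_pr_RQ

open Finset
open Pool.Agent.Lib.MP_31386d_pr
open Pool.Agent.Lib.MP_31386d_pr_POTTS

variable {d : ℕ}

theorem points_energy (hd : 3 ≤ d) (h : Pt d → ℝ) {a : Pt d} {p L N : ℕ} (z z' : ℕ → Pt d)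
    (hz : ∀ t < N, bx (z t) (2 ^ p) ⊆ bx a (2 ^ (p + L)))
    (hz' : ∀ t < N, bx (z' t) (2 ^ p) ⊆ bx a (2 ^ (p + L)))
    (hdis : ∀ t < N, ∀ t' < N, t ≠ t' → Disjoint (bx (z t) (2 ^ p)) (bx (z t') (2 ^ p)))
    (hdis' : ∀ t < N, ∀ t' < N, t ≠ t' → Disjoint (bx (z' t) (2 ^ p)) (bx (z' t') (2 ^ p)))
    (h1 : ∀ t < N, h (z t) = 1) (h0 : ∀ t < N, h (z' t) = 0) :
    min (N : ℝ) (2 ^ p) / (144 * (2 ^ d * d)) ≤ En h (bx a (2 ^ (p + L))) := by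
  sorry

end Pool.Agent.Lib.MP_31386d_pr_RQ
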