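import Pool.Agent.Lib.MP_31386d_pr_RQ.ArmPts
import Pool.Agent.Lib.MP_31386d_pr_RQ.PtsEn

/-!
# Energy between two long arms
-/

set_option autoImplicit false

namespace Pool.Agent.Lib.MP_31386d_pr_RQ

open Finset
open Pool.Agent.Lib.MP_31386d_pr
open Pool.Agent.Lib.MP_31386d_pr_POTTS

variable {d : ℕ}

/-- The points of an arm at the distances `2 * 2 ^ p * (j + 1)`. -/
private theorem PathEn_pts {w : Finset (Ed d)} {c x y : Pt d} {p r : ℕ} (hr : r < 2 ^ p)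
    (hx : x ∈ cub c r) (hy : y ∉ cub c (2 * 4 ^ p)) (hxy : Conn w x y) :
    ∃ z : ℕ → Pt d, ∀ j < 2 ^ p, z j ∈ cub c (2 * 2 ^ p * (j + 1)) ∧
      z j ∉ cub c (2 * 2 ^ p * (j + 1) - 1) ∧ Conn w x (z j) := by
  have h4 : 4 ^ p = 2 ^ p * 2 ^ p := by
    rw [← mul_pow]
    norm_num
  have h1 : ∀ j, ∃ z : Pt d, j < 2 ^ p → z ∈ cub c (2 * 2 ^ p * (j + 1)) ∧
      z ∉ cub c (2 * 2 ^ p * (j + 1) - 1) ∧ Conn w x z := by
    intro j
    by_cases hj : j < 2 ^ p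
    · have ht : r < 2 * 2 ^ p * (j + 1) := by
        have h2 : 2 ^ p ≤ 2 * 2 ^ p * (j + 1) := by nlinarith
        omega
      have htm : 2 * 2 ^ p * (j + 1) ≤ 2 * 4 ^ p := by
        rw [h4]
        have h2 : j + 1 ≤ 2 ^ p := hj
        have h3 : 2 * 2 ^ p * (j + 1) ≤ 2 * 2 ^ p * 2 ^ p := Nat.mul_le_mul_left _ h2
        calc 2 * 2 ^ p * (j + 1) ≤ 2 * 2 ^ p * 2 ^ p := h3
          _ = 2 * (2 ^ p * 2 ^ p) := by ring
      obtain ⟨z, hz1, hz2, hz3⟩ := arm_points hx hy hxy ht htm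
      exact ⟨z, fun _ => ⟨hz1, hz2, hz3⟩⟩
    · exact ⟨c, fun h => absurd h hj⟩
  choose z hz using h1
  exact ⟨z, hz⟩

/-- The boxes around the points are inside the large box. -/
private theorem PathEn_sub {c a : Pt d} {p L : ℕ} {z : ℕ → Pt d}
    (hz : ∀ j < 2 ^ p, z j ∈ cub c (2 * 2 ^ p * (j + 1)))
    (hc : cub c (4 * 4 ^ p) ⊆ bx a (2 ^ (p + L))) :
    ∀ t < 2 ^ p, bx (z t) (2 ^ p) ⊆ bx a (2 ^ (p + L)) := by
  intro t ht v hv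
  apply hc
  have h1 := mem_cub.mp (hz t ht)
  rw [mem_cub]
  rw [mem_bx] at hv
  intro i
  have h2 := hv i
  have h3 := h1 i
  rw [abs_le] at h3 ⊢
  have h4 : (4 : ℤ) ^ p = 2 ^ p * 2 ^ p := by
    rw [← mul_pow]
    norm_num
  have h5 : ((t : ℤ) + 1) ≤ 2 ^ p := by exact_mod_cast ht
  have h6 : (1 : ℤ) ≤ 2 ^ p := one_le_pow₀ (by norm_num)
  have h7 : (2 : ℤ) * 2 ^ p * ((t : ℤ) + 1) ≤ 2 * 2 ^ p * 2 ^ p :=
    mul_le_mul_of_nonneg_left h5 (by positivity)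
  push_cast at h2 h3 ⊢
  rw [h4]
  constructor
  · nlinarith [h2.1, h3.1]
  · nlinarith [h2.2, h3.2]

/-- The boxes are disjoint. -/
private theorem PathEn_dis {c : Pt d} {p : ℕ} {z : ℕ → Pt d}
    (hz : ∀ j < 2 ^ p, z j ∈ cub c (2 * 2 ^ p * (j + 1)) ∧
      z j ∉ cub c (2 * 2 ^ p * (j + 1) - 1)) :
    ∀ t < 2 ^ p, ∀ t' < 2 ^ p, t ≠ t' → Disjoint (bx (z t) (2 ^ p)) (bx (z t') (2 ^ p)) := by
  classical
  have key : ∀ t < 2 ^ p, ∀ t' < 2 ^ p, t < t' →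
      Disjoint (bx (z t) (2 ^ p)) (bx (z t') (2 ^ p)) := by
    intro t ht t' ht' htt
    rw [Finset.disjoint_left]
    intro v hv hv'
    rw [mem_bx] at hv hv'
    have h1 := mem_cub.mp (hz t ht).1
    have h2 := (hz t' ht').2
    rw [mem_cub] at h2
    push Not at h2
    obtain ⟨i, hi⟩ := h2
    have h3 := h1 i
    have h4 := hv i
    have h5 := hv' i
    have h6 : (1 : ℤ) ≤ 2 ^ p := one_le_pow₀ (by norm_num)
    have hpos : 1 ≤ 2 * 2 ^ p * (t' + 1) := by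
      have : 0 < 2 * 2 ^ p * (t' + 1) := by positivity
      omega
    rw [Nat.cast_sub hpos] at hi
    push_cast at hi h3 h4 h5
    have h7 : (2 : ℤ) * 2 ^ p * ((t : ℤ) + 1) + 2 * 2 ^ p ≤ 2 * 2 ^ p * ((t' : ℤ) + 1) := by
      have h8 : (t : ℤ) + 1 + 1 ≤ (t' : ℤ) + 1 := by
        have : (t : ℤ) < t' := by exact_mod_cast htt
        linarith
      calc (2 : ℤ) * 2 ^ p * ((t : ℤ) + 1) + 2 * 2 ^ p
          = 2 * 2 ^ p * ((t : ℤ) + 1 + 1) := by ring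
        _ ≤ 2 * 2 ^ p * ((t' : ℤ) + 1) := mul_le_mul_of_nonneg_left h8 (by positivity)
    rw [abs_le] at h3
    rcases lt_abs.mp hi with h9 | h9
    · linarith [h4.1, h4.2, h5.1, h5.2, h3.1, h3.2]
    · linarith [h4.1, h4.2, h5.1, h5.2, h3.1, h3.2]
  intro t ht t' ht' hne
  rcases lt_or_gt_of_ne hne with h | h
  · exact key t ht t' ht' h
  · exact (key t' ht' t ht h).symm

/-- Energy between two arms of length `2 * 4 ^ p`. -/
theorem path_energy (hd : 3 ≤ d) (h : Pt d → ℝ) {w : Finset (Ed d)} {a c c' x x' y y' : Pt d}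
    {p L r : ℕ} (hr : r < 2 ^ p) (hx : x ∈ cub c r) (hx' : x' ∈ cub c' r)
    (hy : y ∉ cub c (2 * 4 ^ p)) (hy' : y' ∉ cub c' (2 * 4 ^ p)) (hxy : Conn w x y)
    (hxy' : Conn w x' y') (hc : cub c (4 * 4 ^ p) ⊆ bx a (2 ^ (p + L)))
    (hc' : cub c' (4 * 4 ^ p) ⊆ bx a (2 ^ (p + L)))
    (h1 : ∀ z, Conn w x z → h z = 1) (h0 : ∀ z, Conn w x' z → h z = 0) :
    (2 : ℝ) ^ p / (144 * (2 ^ d * d)) ≤ En h (bx a (2 ^ (p + L))) := by
  obtain ⟨z, hz⟩ := PathEn_pts hr hx hy hxy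
  obtain ⟨z', hz'⟩ := PathEn_pts hr hx' hy' hxy'
  have hmain := points_energy (N := 2 ^ p) (L := L) hd h (a := a) (p := p) z z'
    (PathEn_sub (fun j hj => (hz j hj).1) hc) (PathEn_sub (fun j hj => (hz' j hj).1) hc')
    (PathEn_dis fun j hj => ⟨(hz j hj).1, (hz j hj).2.1⟩)
    (PathEn_dis fun j hj => ⟨(hz' j hj).1, (hz' j hj).2.1⟩)
    (fun t ht => h1 _ (hz t ht).2.2) (fun t ht => h0 _ (hz' t ht).2.2)
  have h2 : min (((2 ^ p : ℕ) : ℝ)) (2 ^ p) = 2 ^ p := by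
    push_cast
    exact min_self _
  rw [h2] at hmain
  exact hmain

end Pool.Agent.Lib.MP_31386d_pr_RQ
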