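import Pool.Agent.Lib.MP_31386d_pr_RQ.QuenchAbs
import Pool.Agent.Lib.MP_31386d_pr_POTTS.SplitLat

/-!
# Quenched sprinkling on the lattice
-/

set_option autoImplicit false

namespace Pool.Agent.Lib.MP_31386d_pr_RQ

open Finset
open Pool.Agent.Lib.MP_31386d_pr
open Pool.Agent.Lib.MP_31386d_pr_POTTS

variable {d : ℕ} {u q : ℝ}

theorem pV_of {V : Finset (Pt d)} {x : Pt d} (h : x ∈ V) : pV V x = some ⟨x, h⟩ := by
  unfold pV
  rw [dif_pos h]

theorem kap_BE (V : Finset (Pt d)) (b ω : Finset (Ed d)) :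
    kap V (ω ∪ b) + 1 = cc (enV V) (BE V b) ω := by
  rw [← dict_cc (subset_refl V), ← cc_base]
  have h : (fun x y => BW V V x y ∨ BE V b x y) = BE V b := by
    funext x y
    apply propext
    constructor
    · rintro (h | h)
      · exact absurd h (not_BW_self x y)
      · exact h
    · exact Or.inr
  rw [h]

/-- The conditioned measure in the abstract graph. -/
theorem ExB_eq_aEx (hu : 0 < u) (hq : 0 < q) (V : Finset (Pt d)) {b : Finset (Ed d)}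
    (hb : b ⊆ EI V) (f : Finset (Ed d) → ℝ) :
    ExB u q V (EI V) b f = aEx u q (enV V) (BE V b) (EI V) (fun ω => f (ω ∪ b)) := by
  have hβ : 0 < ((1 + u) / u) ^ b.card := by positivity
  have c1 := cond_base (q := q) hu V hb f
  have c2 := cond_base (q := q) hu V hb (fun _ => (1 : ℝ))
  have hkap : ∀ g : Finset (Ed d) → ℝ,
      q * ∑ ω ∈ (EI V).powerset, u ^ ω.card * q ^ kap V (ω ∪ b) * g (ω ∪ b) =
        aZ u q (enV V) (BE V b) (EI V) (fun ω => g (ω ∪ b)) := by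
    intro g
    unfold aZ
    rw [mul_sum]
    refine sum_congr rfl fun ω _ => ?_
    rw [← kap_BE, pow_succ]
    ring
  unfold ExB aEx
  have h1 : Zs u q V (EI V) (fun ω => ind (b ⊆ ω)) =
      Zs u q V (EI V) (fun ω => ind (b ⊆ ω) * 1) := by
    congr 1
    funext ω
    rw [mul_one]
  rw [← hkap f, ← hkap (fun _ => 1), mul_div_mul_left _ _ hq.ne', h1, ← c1, ← c2,
    mul_div_mul_right _ _ hβ.ne']

/-- Connections in the abstract graph. -/
theorem cn_BE_iff {V : Finset (Pt d)} {ω b : Finset (Ed d)} (hω : ω ⊆ EI V) (hb : b ⊆ EI V)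
    {x y : Pt d} (hx : x ∈ V) (hy : y ∈ V) :
    Cn (enV V) (BE V b) ω (pV V x) (pV V y) ↔ Conn (ω ∪ b) x y := by
  constructor
  · intro h
    let g : Option {x // x ∈ V} → Prop := fun o => ∃ z : {x // x ∈ V}, o = some z ∧
      Conn (ω ∪ b) x z.1
    have hg : ∀ z ∈ V, (g (pV V z) ↔ Conn (ω ∪ b) x z) := by
      intro z hz
      rw [pV_of hz]
      constructor
      · rintro ⟨t, ht, hc⟩
        have h1 := Option.some.inj ht
        rw [← h1] at hc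
        exact hc
      · intro hc
        exact ⟨⟨z, hz⟩, rfl, hc⟩
    have hedge : ∀ e ∈ ω ∪ b, g (pV V e.1) = g (pV V (tgt e)) := by
      intro e he
      have heV : e ∈ EI V := by
        rcases mem_union.mp he with h1 | h1
        · exact hω h1
        · exact hb h1
      rw [mem_EI] at heV
      apply propext
      rw [hg _ heV.1, hg _ heV.2]
      have hadj : Adj (ω ∪ b) e.1 (tgt e) := ⟨e, he, Or.inl ⟨rfl, rfl⟩⟩
      exact ⟨fun hc => hc.trans hadj.conn, fun hc => hc.trans hadj.symm.conn⟩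
    have key : g (pV V x) = g (pV V y) := by
      refine Cn.const h (g := g) ?_ ?_
      · rintro a c ⟨e, he, hac⟩
        have h1 : a = pV V e.1 := (congrArg Prod.fst hac).symm
        have h2 : c = pV V (tgt e) := (congrArg Prod.snd hac).symm
        rw [h1, h2]
        exact hedge e (mem_union_right _ he)
      · intro e he
        exact hedge e (mem_union_left _ he)
    have h1 : g (pV V x) := (hg x hx).mpr (Conn.refl _ _)
    rw [key] at h1
    exact (hg y hy).mp h1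
  · intro h
    have h1 : Cn (enV V) (BW V V) (ω ∪ b) (pV V x) (pV V y) := by
      rw [dict_cn (subset_refl V)]
      exact h.connP
    rw [← cn_base] at h1
    refine Cn.mono ?_ (subset_refl ω) h1
    rintro a c (h2 | h2)
    · exact absurd h2 (not_BW_self a c)
    · exact h2

/-- Product measures. -/
theorem aEx_one_eq (_hu : 0 < u) (V : Finset (Pt d)) (B : Option {x // x ∈ V} →
    Option {x // x ∈ V} → Prop) (E : Finset (Ed d)) (f : Finset (Ed d) → ℝ) :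
    aEx u 1 (enV V) B E f = Ex u 1 V E f := by
  unfold aEx aZ Ex Zs Z wt
  simp only [one_pow, mul_one]

/-- Sprinkling for the conditioned measures. -/
theorem sprinkle_base {u₁ u₂ : ℝ} (hu₁ : 0 < u₁) (hu : u₁ < u₂) (hq : 1 ≤ q) (V : Finset (Pt d))
    {b : Finset (Ed d)} (hb : b ⊆ EI V) {f : Finset (Ed d) → ℝ}
    (hf0 : ∀ ω, 0 ≤ f ω) (hf : ∀ s t, s ⊆ t → f s ≤ f t) :
    Ex ((u₂ - u₁) / (u₁ + q)) 1 V (EI V) (fun s => ExB u₁ q V (EI V) b (fun ω => f (ω ∪ s))) ≤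
      ExB u₂ q V (EI V) b f := by
  have hq0 : 0 < q := lt_of_lt_of_le one_pos hq
  have ho : 0 < (u₂ - u₁) / (u₁ + q) := div_pos (sub_pos.2 hu) (by positivity)
  have h1 := asprinkle hu₁ hu hq (enV V) (BE V b) (EI V) (f := fun ω => f (ω ∪ b))
    (fun _ => hf0 _) (fun s t hst => hf _ _ (union_subset_union_left hst))
  rw [ExB_eq_aEx (hu₁.trans hu) hq0 V hb, ← aEx_one_eq ho V (BE V b)]
  refine le_trans (le_of_eq ?_) h1
  congr 1
  funext s
  rw [ExB_eq_aEx hu₁ hq0 V hb]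
  congr 1
  funext ω
  congr 1
  rw [union_assoc, union_assoc, union_comm b s]

/-- Quenched sprinkling on the lattice. -/
theorem quench_lat {v₀ : ℝ} (hv₀ : 0 < v₀) (hvu : v₀ ≤ u) (V : Finset (Pt d))
    {w : Finset (Ed d)} (hw : w ⊆ EI V)
    {A : Finset (Pt d)} (hA : A ⊆ V) {I J : Finset (Pt d)} (hI : I ⊆ V) (hJ : J ⊆ V)
    (hIne : I.Nonempty) (hJne : J.Nonempty) {k : ℕ}
    (hk : ∀ x ∈ A, ∃ F, F ⊆ EI V ∧ F.card ≤ k ∧ ∃ y ∈ I ∪ J, Conn (w ∪ F) x y)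
    {ε : ℝ} (hε : 0 ≤ ε)
    (hen : ∀ h : Pt d → ℝ, (∀ x, (∃ v ∈ I, Conn w v x) → h x = 1) →
      (∀ x, (∃ v ∈ J, Conn w v x) → h x = 0) → ε ≤ En h A) :
    Ex u 1 V (EI V) (fun s => ind (∀ v ∈ I, ∀ z ∈ J, ¬ Conn (w ∪ s) v z)) ≤
      2 * Real.exp (-((u - v₀) * (((v₀ / (v₀ + 2)) ^ k) ^ 4 / (1 + u)) * ε)) := by
  classical
  have hu : 0 < u := lt_of_lt_of_le hv₀ hvu
  obtain ⟨x₀, hx₀⟩ := hIne
  obtain ⟨z₀, hz₀⟩ := hJne
  have hB : ∀ (ω : Finset (Ed d)), ω ⊆ EI V → ∀ x ∈ V, ∀ y ∈ V,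
      (Cn (enV V) (BE V ∅) ω (pV V x) (pV V y) ↔ Conn ω x y) := by
    intro ω hω x hx y hy
    have h := cn_BE_iff (b := ∅) hω (empty_subset _) hx hy
    rwa [union_empty] at h
  have key := quench_abs (en := enV V) (E := EI V) (BE V ∅) w
    (S := fun a => ∃ v ∈ I, a = pV V v) (T := fun a => ∃ z ∈ J, a = pV V z)
    (t := pV V x₀) (b := pV V z₀) ⟨x₀, hx₀, rfl⟩ ⟨z₀, hz₀, rfl⟩ hv₀ hvu (k := k)
    (EA := EI A) (EI_mono hA) ?_ hε ?_
  · rw [aEx_one_eq hu] at key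
    refine le_trans (Ex_mono hu le_rfl fun s hs => ind_mono fun h => ?_) key
    rintro x y ⟨v, hv, rfl⟩ ⟨z, hz, rfl⟩
    rw [hB _ (union_subset hw hs) v (hI hv) z (hJ hz)]
    exact h v hv z hz
  · intro e he x hx
    rw [mem_EI] at he
    have h1 : ∃ p ∈ A, x = pV V p := by
      rcases hx with hx | hx
      · exact ⟨e.1, he.1, hx⟩
      · exact ⟨tgt e, he.2, hx⟩
    obtain ⟨p, hp, rfl⟩ := h1
    obtain ⟨F, hF, hFk, y, hy, hc⟩ := hk p hp
    refine ⟨F, hF, hFk, pV V y, ?_, ?_⟩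
    · rcases mem_union.mp hy with hy | hy
      · exact Or.inl ⟨y, hy, rfl⟩
      · exact Or.inr ⟨y, hy, rfl⟩
    · have hyV : y ∈ V := by
        rcases mem_union.mp hy with hy | hy
        · exact hI hy
        · exact hJ hy
      rw [hB _ (union_subset hw hF) p (hA hp) y hyV]
      exact hc
  · intro h hS hT
    have hcl : ∀ x ∈ V, ∀ z, Conn w x z → z ∈ V := by
      intro x hx z hc
      induction hc with
      | refl => exact hx
      | tail _ hbc _ =>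
        obtain ⟨e, he, h1 | h1⟩ := hbc
        · rw [← h1.2]
          exact (mem_EI.mp (hw he)).2
        · rw [← h1.1]
          exact (mem_EI.mp (hw he)).1
    have h1 := hen (fun x => h (pV V x)) ?_ ?_
    · exact h1
    · rintro x ⟨v, hv, hc⟩
      have hxV := hcl v (hI hv) x hc
      exact hS (pV V v) (pV V x) ⟨v, hv, rfl⟩ ((hB w hw v (hI hv) x hxV).mpr hc)
    · rintro x ⟨v, hv, hc⟩
      have hxV := hcl v (hJ hv) x hc
      exact hT (pV V v) (pV V x) ⟨v, hv, rfl⟩ ((hB w hw v (hJ hv) x hxV).mpr hc)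

/-- Interchange of the sprinkled layer and the conditioned measure. -/
theorem Ex_ExB_comm {o : ℝ} (V : Finset (Pt d)) (E b : Finset (Ed d))
    (f : Finset (Ed d) → Finset (Ed d) → ℝ) :
    Ex o 1 V E (fun s => ExB u q V E b (fun ω => f ω s)) =
      ExB u q V E b (fun ω => Ex o 1 V E (fun s => f ω s)) := by
  unfold Ex ExB Zs
  simp only [mul_sum, mul_div_assoc', sum_div, mul_sum]
  rw [sum_comm]
  refine sum_congr rfl fun ω _ => ?_
  refine sum_congr rfl fun s _ => ?_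
  ring

/-- Disconnection of two families under the conditioned measure: up to the probability that the
configuration with the smaller parameter is not good, it is exponentially small. -/
theorem split_rq_gen {u₁ u₂ v₀ : ℝ} (hu₁ : 0 < u₁) (hu : u₁ < u₂) (hq : 1 ≤ q) (hv₀ : 0 < v₀)
    (hv : v₀ ≤ (u₂ - u₁) / (u₁ + q)) (V : Finset (Pt d)) {b : Finset (Ed d)} (hb : b ⊆ EI V) {A : Finset (Pt d)} (hA : A ⊆ V) {I J : Finset (Pt d)}
    (hI : I ⊆ V) (hJ : J ⊆ V) (hIne : I.Nonempty) (hJne : J.Nonempty) {k : ℕ} {ε : ℝ}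
    (hε : 0 ≤ ε) (G : Finset (Ed d) → Prop)
    (hG : ∀ w, b ⊆ w → w ⊆ EI V → G w →
      (∀ x ∈ A, ∃ F, F ⊆ EI V ∧ F.card ≤ k ∧ ∃ y ∈ I ∪ J, Conn (w ∪ F) x y) ∧
      ∀ h : Pt d → ℝ, (∀ x, (∃ v ∈ I, Conn w v x) → h x = 1) →
        (∀ x, (∃ v ∈ J, Conn w v x) → h x = 0) → ε ≤ En h A) :
    PbB u₂ q V (EI V) b (fun ω => ∀ v ∈ I, ∀ z ∈ J, ¬ Conn ω v z) ≤
      PbB u₁ q V (EI V) b (fun w => ¬ G w) +
        2 * Real.exp (-(((u₂ - u₁) / (u₁ + q) - v₀) * (((v₀ / (v₀ + 2)) ^ k) ^ 4 /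
          (1 + (u₂ - u₁) / (u₁ + q))) * ε)) := by
  classical
  have hu₂ : 0 < u₂ := hu₁.trans hu
  have hq0 : 0 < q := lt_of_lt_of_le one_pos hq
  have ho : 0 < (u₂ - u₁) / (u₁ + q) := div_pos (sub_pos.2 hu) (by positivity)
  obtain ⟨o, hodef⟩ : ∃ o, o = (u₂ - u₁) / (u₁ + q) := ⟨_, rfl⟩
  rw [← hodef] at ho hv ⊢
  obtain ⟨X, hX⟩ : ∃ X, X = 2 * Real.exp (-((o - v₀) * (((v₀ / (v₀ + 2)) ^ k) ^ 4 / (1 + o)) *
    ε)) := ⟨_, rfl⟩
  rw [← hX]
  have hX0 : 0 ≤ X := by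
    rw [hX]
    positivity
  -- the complement
  have hcompl : ∀ (v : ℝ), 0 < v → ∀ P : Finset (Ed d) → Prop,
      ExB v q V (EI V) b (fun ω => ind (¬ P ω)) = 1 - ExB v q V (EI V) b (fun ω => ind (P ω)) := by
    intro v hv P
    have h1 : ExB v q V (EI V) b (fun ω => ind (¬ P ω)) =
        ExB v q V (EI V) b (fun ω => 1 + (-1) * ind (P ω)) := by
      refine ExB_congr fun ω _ _ => ?_
      by_cases h : P ω
      · rw [ind_of h, ind_not (not_not.mpr h)]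
        norm_num
      · rw [ind_not h, ind_of h]
        norm_num
    rw [h1, ExB_add (f := fun _ => (1 : ℝ)), ExB_const hv hq hb, ExB_const_mul]
    ring
  have hcompl2 : ∀ f : Finset (Ed d) → ℝ, Ex o 1 V (EI V) (fun s => 1 - f s) =
      1 - Ex o 1 V (EI V) f := by
    intro f
    rw [← aEx_one_eq ho V (BE V ∅), ← aEx_one_eq ho V (BE V ∅)]
    have h1 : (fun s => 1 - f s) = (fun s => 1 + (-1) * f s) := by
      funext s
      ring
    rw [h1, aEx_add (f := fun _ => (1 : ℝ)), aEx_const ho one_pos, aEx_const_mul]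
    ring
  have h1 := sprinkle_base (q := q) hu₁ hu hq V hb
    (f := fun ω => ind (∃ v ∈ I, ∃ z ∈ J, Conn ω v z)) (fun _ => ind_nonneg _)
    (fun s t hst => ind_mono fun ⟨v, hv, z, hz, h⟩ => ⟨v, hv, z, hz, h.mono hst⟩)
  rw [← hodef] at h1
  have h2 : PbB u₂ q V (EI V) b (fun ω => ∀ v ∈ I, ∀ z ∈ J, ¬ Conn ω v z) =
      1 - ExB u₂ q V (EI V) b (fun ω => ind (∃ v ∈ I, ∃ z ∈ J, Conn ω v z)) := by
    unfold PbB
    rw [← hcompl u₂ hu₂]
    refine ExB_congr fun ω _ _ => ?_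
    congr 1
    apply propext
    push Not
    rfl
  have h3 : Ex o 1 V (EI V) (fun s => ExB u₁ q V (EI V) b
      (fun ω => ind (∀ v ∈ I, ∀ z ∈ J, ¬ Conn (ω ∪ s) v z))) =
      1 - Ex o 1 V (EI V) (fun s => ExB u₁ q V (EI V) b
        (fun ω => ind (∃ v ∈ I, ∃ z ∈ J, Conn (ω ∪ s) v z))) := by
    rw [← hcompl2]
    congr 1
    funext s
    rw [← hcompl u₁ hu₁]
    refine ExB_congr fun ω _ _ => ?_
    congr 1
    apply propext
    push Not
    rfl
  have h4 : PbB u₂ q V (EI V) b (fun ω => ∀ v ∈ I, ∀ z ∈ J, ¬ Conn ω v z) ≤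
      Ex o 1 V (EI V) (fun s => ExB u₁ q V (EI V) b
        (fun ω => ind (∀ v ∈ I, ∀ z ∈ J, ¬ Conn (ω ∪ s) v z))) := by
    rw [h2, h3]
    linarith
  refine h4.trans ?_
  rw [Ex_ExB_comm V (EI V) b (fun ω s => ind (∀ v ∈ I, ∀ z ∈ J, ¬ Conn (ω ∪ s) v z))]
  have h5 : ExB u₁ q V (EI V) b
      (fun ω => Ex o 1 V (EI V) (fun s => ind (∀ v ∈ I, ∀ z ∈ J, ¬ Conn (ω ∪ s) v z))) ≤
      ExB u₁ q V (EI V) b (fun ω => ind (¬ G ω) + X) := by
    refine ExB_mono hu₁ hq fun w hbw hw => ?_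
    by_cases hGw : G w
    · obtain ⟨hk, hen⟩ := hG w hbw hw hGw
      have h6 := quench_lat hv₀ hv V hw hA hI hJ hIne hJne hk hε hen
      rw [← hX] at h6
      have h7 := ind_nonneg (¬ G w)
      linarith
    · rw [ind_of hGw]
      have h6 : Ex o 1 V (EI V) (fun s => ind (∀ v ∈ I, ∀ z ∈ J, ¬ Conn (w ∪ s) v z)) ≤ 1 := by
        rw [← aEx_one_eq ho V (BE V ∅)]
        have h7 := aEx_mono (en := enV V) (B := BE V ∅) (E := EI V) ho one_pos
          (f := fun s => ind (∀ v ∈ I, ∀ z ∈ J, ¬ Conn (w ∪ s) v z)) (g := fun _ => 1)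
          (fun _ _ => ind_le_one _)
        rwa [aEx_const ho one_pos] at h7
      linarith
  refine h5.trans (le_of_eq ?_)
  rw [ExB_add (f := fun ω => ind (¬ G ω)), ExB_const hu₁ hq hb]
  rfl

/-- Disconnection of two families under the conditioned measure, with explicit constants. -/
theorem split_rq {u₁ u₂ : ℝ} (hu₁ : 0 < u₁) (hu : u₁ < u₂) (hq : 1 ≤ q) (V : Finset (Pt d))
    {b : Finset (Ed d)} (hb : b ⊆ EI V) {A : Finset (Pt d)} (hA : A ⊆ V) {I J : Finset (Pt d)}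
    (hI : I ⊆ V) (hJ : J ⊆ V) (hIne : I.Nonempty) (hJne : J.Nonempty) {k : ℕ} {ε : ℝ}
    (hε : 0 ≤ ε) (G : Finset (Ed d) → Prop)
    (hG : ∀ w, b ⊆ w → w ⊆ EI V → G w →
      (∀ x ∈ A, ∃ F, F ⊆ EI V ∧ F.card ≤ k ∧ ∃ y ∈ I ∪ J, Conn (w ∪ F) x y) ∧
      ∀ h : Pt d → ℝ, (∀ x, (∃ v ∈ I, Conn w v x) → h x = 1) →
        (∀ x, (∃ v ∈ J, Conn w v x) → h x = 0) → ε ≤ En h A) :
    PbB u₂ q V (EI V) b (fun ω => ∀ v ∈ I, ∀ z ∈ J, ¬ Conn ω v z) ≤
      PbB u₁ q V (EI V) b (fun w => ¬ G w) +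
        2 * Real.exp (-((u₂ - u₁) / (u₁ + q) / (2 * (1 + (u₂ - u₁) / (u₁ + q))) *
          ((u₂ - u₁) / (u₁ + q) / ((u₂ - u₁) / (u₁ + q) + 4)) ^ (4 * k) * ε)) := by
  have ho : 0 < (u₂ - u₁) / (u₁ + q) := div_pos (sub_pos.2 hu) (by linarith)
  have h := split_rq_gen (v₀ := (u₂ - u₁) / (u₁ + q) / 2) hu₁ hu hq (by positivity)
    (by linarith) V hb hA hI hJ hIne hJne hε G hG
  obtain ⟨o, hodef⟩ : ∃ o, o = (u₂ - u₁) / (u₁ + q) := ⟨_, rfl⟩
  rw [← hodef] at h ho ⊢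
  have h1 : (o - o / 2) * (((o / 2 / (o / 2 + 2)) ^ k) ^ 4 / (1 + o)) * ε =
      o / (2 * (1 + o)) * (o / (o + 4)) ^ (4 * k) * ε := by
    have h2 : o / 2 / (o / 2 + 2) = o / (o + 4) := by
      field_simp
      ring
    have h3 : o - o / 2 = o / 2 := by ring
    rw [h2, ← pow_mul, mul_comm k 4, h3]
    have h4 : (1 + o) ≠ 0 := by positivity
    field_simp
  rw [h1] at h
  exact h

end Pool.Agent.Lib.MP_31386d_pr_RQ
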