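import Pool.Agent.Lib.MP_31386d_pr_RQ.Defs
import Pool.Agent.Lib.MP_31386d_pr_RQ.QuenchLat

/-!
# The quenched step
-/

set_option autoImplicit false

namespace Pool.Agent.Lib.MP_31386d_pr_RQ

open Finset
open Pool.Agent.Lib.MP_31386d_pr
open Pool.Agent.Lib.MP_31386d_pr_POTTS

variable {d : ℕ}

/-- Sprinkling on a fixed configuration `w`: if every point of `A` is at closed distance at most `k`
from `I ∪ J`, then the probability that Bernoulli edges with odds `v₁` do not connect `I` and `J`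
decays exponentially in the Dirichlet energy. (Random-cluster model with cluster weight two on the
graph where the clusters of `w` are contracted and `I`, `J` are wired.) -/
theorem quench {V : Finset (Pt d)} {w : Finset (Ed d)} (hw : w ⊆ EI V) {A : Finset (Pt d)}
    (hA : A ⊆ V) {I J : Finset (Pt d)} (hI : I ⊆ A) (hJ : J ⊆ A) (hIne : I.Nonempty)
    (hJne : J.Nonempty) {v₀ v₁ : ℝ} (hv₀ : 0 < v₀) (hv : v₀ ≤ v₁) {k : ℕ}
    (hT : ∀ x ∈ A, TD (EI V) w k {x} (I ∪ J)) {ε : ℝ} (hε : 0 ≤ ε)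
    (hen : ∀ h : Pt d → ℝ, (∀ x, (∃ v ∈ I, Conn w v x) → h x = 1) →
      (∀ x, (∃ v ∈ J, Conn w v x) → h x = 0) → ε ≤ En h A) :
    Pb v₁ 1 V (EI V) (fun s => ∀ v ∈ I, ∀ v' ∈ J, ¬ Conn (w ∪ s) v v') ≤
      2 * Real.exp (-((v₁ - v₀) * (((v₀ / (v₀ + 2)) ^ k) ^ 4 / (1 + v₁)) * ε)) := by
  unfold Pb
  refine quench_lat hv₀ hv V hw hA (hI.trans hA) (hJ.trans hA) hIne hJne ?_ hε hen
  intro x hx
  obtain ⟨S, hS, hSk, y, hy, z, hz, hc⟩ := hT x hx
  rw [Finset.mem_singleton] at hy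
  subst hy
  exact ⟨S, hS, hSk, z, hz, hc⟩

end Pool.Agent.Lib.MP_31386d_pr_RQ
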