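import Pool.Agent.Lib.MP_31386d_pr_RQ.SeedC
import Pool.Agent.Lib.MP_31386d_pr_RQ.PathEn
import Pool.Agent.Lib.MP_31386d_pr_RQ.Quench

/-!
# The bound for one splitting of the seeds, given a typical configuration
-/

set_option autoImplicit false

namespace Pool.Agent.Lib.MP_31386d_pr_RQ

open Finset
open Pool.Agent.Lib.MP_31386d_pr
open Pool.Agent.Lib.MP_31386d_pr_POTTS

variable {d : ℕ}

/-- The data of an arm started from a seed. -/
private theorem OneSplit_arm {b w : Finset (Ed d)} (hbw : b ⊆ w) {r l p : ℕ} {i : Pt d}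
    (hne : (seeds (2 * r + 1) l b i).Nonempty)
    (ha : Arm w (cub (ctr r l b i) r) (ctr r l b i) (2 * 4 ^ p)) :
    ∃ x y : Pt d, x ∈ cub (ctr r l b i) r ∧ y ∉ cub (ctr r l b i) (2 * 4 ^ p) ∧ Conn w x y ∧
      Conn w (sd (2 * r + 1) l b i) x := by
  obtain ⟨x, hx, y, hy, hxy⟩ := ha
  exact ⟨x, y, hx, hy, hxy, (conn_ctr hne hx).mono hbw⟩

theorem one_split (hd : 3 ≤ d) {o v₀ : ℝ} (hv₀ : 0 < v₀) (hv : v₀ ≤ o) {V : Finset (Pt d)}
    {b w : Finset (Ed d)} (hbw : b ⊆ w) (hw : w ⊆ EI V) {r l k₀ p L k : ℕ} {a j : Pt d}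
    (hA : bx a (2 ^ (p + L)) ⊆ V)
    (hQA : ∀ x ∈ bx (fun t => (((2 * r + 1) * 2 ^ l * 2 ^ k₀ : ℕ) : ℤ) * j t)
      (2 * ((2 * r + 1) * 2 ^ l * 2 ^ k₀)), cub x (4 * 4 ^ p) ⊆ bx a (2 ^ (p + L)))
    (hr : r < 2 ^ p) (hfull : FullF (2 * r + 1) l k₀ j b) {I J : Finset (Pt d)}
    (hI : I ⊆ blocks k₀ j) (hJ : J ⊆ blocks k₀ j)
    (hIa : ∃ i ∈ I, Arm w (cub (ctr r l b i) r) (ctr r l b i) (2 * 4 ^ p))
    (hJa : ∃ i ∈ J, Arm w (cub (ctr r l b i) r) (ctr r l b i) (2 * 4 ^ p))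
    (hT : ∀ x ∈ bx a (2 ^ (p + L)), ∃ i ∈ I ∪ J, TD (EI V) w k {x} {sd (2 * r + 1) l b i}) :
    Pb o 1 V (EI V) (fun s => ∀ i ∈ I, ∀ i' ∈ J,
      ¬ Conn (w ∪ s) (sd (2 * r + 1) l b i) (sd (2 * r + 1) l b i')) ≤
      2 * Real.exp (-((o - v₀) * (((v₀ / (v₀ + 2)) ^ k) ^ 4 / (1 + o)) *
        (2 ^ p / (144 * (2 ^ d * d))))) := by
  classical
  have hsd : ∀ i ∈ blocks k₀ j, sd (2 * r + 1) l b i ∈ bx a (2 ^ (p + L)) := by
    intro i hi
    refine hQA _ (sd_mem (by omega) (hfull i hi) hi) ?_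
    rw [mem_cub]
    intro t
    rw [sub_self, abs_zero]
    positivity
  obtain ⟨i, hi, hai⟩ := hIa
  obtain ⟨i', hi', hai'⟩ := hJa
  obtain ⟨x, y, hx, hy, hxy, hsx⟩ := OneSplit_arm hbw (hfull i (hI hi)) hai
  obtain ⟨x', y', hx', hy', hxy', hsx'⟩ := OneSplit_arm hbw (hfull i' (hJ hi')) hai'
  have main := quench (V := V) (w := w) hw (A := bx a (2 ^ (p + L))) hA
    (I := I.image (sd (2 * r + 1) l b)) (J := J.image (sd (2 * r + 1) l b))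
    (by
      intro v hvI
      obtain ⟨i, hi, rfl⟩ := Finset.mem_image.mp hvI
      exact hsd i (hI hi))
    (by
      intro v hvJ
      obtain ⟨i, hi, rfl⟩ := Finset.mem_image.mp hvJ
      exact hsd i (hJ hi))
    ⟨_, Finset.mem_image_of_mem _ hi⟩ ⟨_, Finset.mem_image_of_mem _ hi'⟩ hv₀ hv (k := k)
    (by
      intro z hz
      obtain ⟨i, hi, S, hS, hSk, z1, hz1, z2, hz2, hc⟩ := hT z hz
      refine ⟨S, hS, hSk, z1, hz1, z2, ?_, hc⟩
      rw [Finset.mem_singleton] at hz2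
      rw [hz2, ← Finset.image_union]
      exact Finset.mem_image_of_mem _ hi)
    (ε := 2 ^ p / (144 * (2 ^ d * d))) (by positivity)
    (by
      intro h hh1 hh0
      refine path_energy hd h hr hx hx' hy hy' hxy hxy' (hQA _ (ctr_mem (hfull i (hI hi)) (hI hi)))
        (hQA _ (ctr_mem (hfull i' (hJ hi')) (hJ hi'))) (fun z hz => ?_) (fun z hz => ?_)
      · exact hh1 z ⟨_, Finset.mem_image_of_mem _ hi, hsx.trans hz⟩
      · exact hh0 z ⟨_, Finset.mem_image_of_mem _ hi', hsx'.trans hz⟩)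
  refine le_trans (Pb_mono (lt_of_lt_of_le hv₀ hv) le_rfl fun s _ hs => ?_) main
  intro v hvI v' hvJ
  obtain ⟨i, hi, rfl⟩ := Finset.mem_image.mp hvI
  obtain ⟨i', hi', rfl⟩ := Finset.mem_image.mp hvJ
  exact hs i hi i' hi'

end Pool.Agent.Lib.MP_31386d_pr_RQ
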