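import Pool.Agent.Lib.MP_31386d_pr_RQ.Defs
import Pool.Agent.Lib.MP_31386d_pr_POTTS.Cond
import Pool.Agent.Lib.MP_31386d_pr_REALQ.Compare

/-!
# Independent sprinkling
-/

set_option autoImplicit false

namespace Pool.Agent.Lib.MP_31386d_pr_RQ

open Finset
open Pool.Agent.Lib.MP_31386d_pr
open Pool.Agent.Lib.MP_31386d_pr_POTTS
open Pool.Agent.Lib.MP_31386d_pr_REALQ (kap_union_le)

variable {d : ℕ}

/-- the law of the union of the configuration with weights `μ` and of Bernoulli edges -/
private noncomputable def sprNu (μ : Finset (Ed d) → ℝ) (o : ℝ) (t : Finset (Ed d)) : ℝ := by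
  classical
  exact ∑ w ∈ t.powerset, μ w * (o ^ (t \ w).card * (1 + o) ^ w.card)

private theorem sprNu_nonneg {μ : Finset (Ed d) → ℝ} {o : ℝ} (ho : 0 < o) (hμ : ∀ w, 0 ≤ μ w)
    (t : Finset (Ed d)) : 0 ≤ sprNu μ o t :=
  sum_nonneg fun w _ => mul_nonneg (hμ w) (by positivity)

/-- summation over pairs of configurations -/
private theorem spr_pairs (μ : Finset (Ed d) → ℝ) (o : ℝ) (E : Finset (Ed d))
    (g : Finset (Ed d) → ℝ) :
    ∑ t ∈ E.powerset, sprNu μ o t * g t =
      ∑ w ∈ E.powerset, μ w * ∑ s ∈ E.powerset, o ^ s.card * g (w ∪ s) := by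
  classical
  have h1 : ∀ t ∈ E.powerset, sprNu μ o t * g t = ∑ w ∈ E.powerset,
      (if w ⊆ t then μ w * (o ^ (t \ w).card * (1 + o) ^ w.card) * g t else 0) := by
    intro t ht
    rw [mem_powerset] at ht
    unfold sprNu
    rw [sum_mul, ← sum_filter]
    refine sum_congr ?_ fun _ _ => rfl
    ext w
    rw [mem_powerset, mem_filter, mem_powerset]
    exact ⟨fun h => ⟨h.trans ht, h⟩, fun h => h.2⟩
  rw [sum_congr rfl h1, sum_comm]
  refine sum_congr rfl fun w hw => ?_
  rw [mem_powerset] at hw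
  have hE : E = w ∪ (E \ w) := (union_sdiff_of_subset hw).symm
  have hdis : Disjoint w (E \ w) := disjoint_sdiff
  -- left side
  have hL : ∑ t ∈ E.powerset,
      (if w ⊆ t then μ w * (o ^ (t \ w).card * (1 + o) ^ w.card) * g t else 0) =
      ∑ r ∈ (E \ w).powerset, μ w * (o ^ r.card * (1 + o) ^ w.card) * g (w ∪ r) := by
    conv_lhs => rw [hE]
    rw [sum_powerset_union hdis, sum_comm]
    refine sum_congr rfl fun r hr => ?_
    rw [mem_powerset] at hr
    have hrw : Disjoint w r := disjoint_of_subset_right hr hdis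
    rw [sum_eq_single w]
    · rw [if_pos subset_union_left, union_sdiff_cancel_left hrw]
    · intro s₁ hs₁ hne
      rw [mem_powerset] at hs₁
      rw [if_neg]
      intro hsub
      apply hne
      refine subset_antisymm hs₁ fun e he => ?_
      rcases mem_union.1 (hsub he) with h | h
      · exact h
      · exact absurd h (Finset.disjoint_left.1 hrw he)
    · intro h
      exact absurd (mem_powerset.2 (subset_refl w)) h
  -- right side
  have hR : ∑ s ∈ E.powerset, o ^ s.card * g (w ∪ s) =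
      ∑ r ∈ (E \ w).powerset, (1 + o) ^ w.card * (o ^ r.card * g (w ∪ r)) := by
    conv_lhs => rw [hE]
    rw [sum_powerset_union hdis, sum_comm]
    refine sum_congr rfl fun r hr => ?_
    rw [mem_powerset] at hr
    rw [← sum_pow_card w o, sum_mul]
    refine sum_congr rfl fun s₁ hs₁ => ?_
    rw [mem_powerset] at hs₁
    have h2 : Disjoint s₁ r := disjoint_of_subset_left hs₁ (disjoint_of_subset_right hr hdis)
    have h3 : w ∪ (s₁ ∪ r) = w ∪ r := by
      rw [← union_assoc, union_eq_left.2 hs₁]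
    rw [card_union_of_disjoint h2, h3, pow_add]
    ring
  rw [hL, hR, mul_sum]
  refine sum_congr rfl fun r _ => ?_
  ring

/-- The measure with parameter `u₁` is larger than the union of the measure with parameter `u₀`
and of independent Bernoulli edges with odds `o`. -/
theorem spr {u₀ u₁ o q : ℝ} (hu₀ : 0 < u₀) (ho : 0 < o) (hq : 1 ≤ q)
    (h : u₀ * (1 + o) + o * q ≤ u₁) (V : Finset (Pt d)) (E : Finset (Ed d)) {b : Finset (Ed d)}
    (hb : b ⊆ E) {D : Finset (Ed d) → Prop} (hD : ∀ s t, s ⊆ t → D t → D s) :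
    PbB u₁ q V E b D ≤ ExB u₀ q V E b (fun w => Pb o 1 V E (fun s => D (w ∪ s))) := by
  classical
  have hq0 : 0 < q := by linarith
  have hu₁ : 0 < u₁ := lt_of_lt_of_le (by positivity) h
  set μ₀ : Finset (Ed d) → ℝ := fun w => wt u₀ q V w * ind (b ⊆ w) with hμ₀
  set μ₁ : Finset (Ed d) → ℝ := fun w => wt u₁ q V w * ind (b ⊆ w) with hμ₁
  have hμ₀0 : ∀ w, 0 ≤ μ₀ w := fun w => mul_nonneg (wt_pos hu₀ hq _ _).le (ind_nonneg _)
  have hμ₁0 : ∀ w, 0 ≤ μ₁ w := fun w => mul_nonneg (wt_pos hu₁ hq _ _).le (ind_nonneg _)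
  have hν0 : ∀ t, 0 ≤ sprNu μ₀ o t := sprNu_nonneg ho hμ₀0
  -- the main inequality
  have key : ∀ s t : Finset (Ed d), b ⊆ s →
      wt u₁ q V s * sprNu μ₀ o t ≤ sprNu μ₀ o (s ∩ t) * wt u₁ q V (s ∪ t) := by
    intro s t hbs
    have ht : t = (s ∩ t) ∪ (t \ s) := by
      rw [inter_comm]
      exact (sup_inf_sdiff t s).symm
    have hdis : Disjoint (s ∩ t) (t \ s) :=
      disjoint_of_subset_left inter_subset_left disjoint_sdiff
    have hsum : sprNu μ₀ o t = ∑ w₁ ∈ (s ∩ t).powerset, ∑ w₂ ∈ (t \ s).powerset,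
        μ₀ (w₁ ∪ w₂) * (o ^ (t \ (w₁ ∪ w₂)).card * (1 + o) ^ (w₁ ∪ w₂).card) := by
      have e := sum_powerset_union hdis
        (fun w => μ₀ w * (o ^ (t \ w).card * (1 + o) ^ w.card))
      rw [← ht] at e
      exact e
    rw [hsum]
    unfold sprNu
    rw [mul_sum, sum_mul]
    refine sum_le_sum fun w₁ hw₁ => ?_
    rw [mem_powerset] at hw₁
    have hw₁s : w₁ ⊆ s := hw₁.trans inter_subset_left
    by_cases hbw : b ⊆ w₁
    · rw [mul_sum]
      have hterm : ∀ w₂ ∈ (t \ s).powerset,
          wt u₁ q V s * (μ₀ (w₁ ∪ w₂) *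
            (o ^ (t \ (w₁ ∪ w₂)).card * (1 + o) ^ (w₁ ∪ w₂).card)) ≤
          (wt u₀ q V w₁ * (o ^ ((s ∩ t) \ w₁).card * (1 + o) ^ w₁.card) *
            (u₁ ^ s.card * q ^ kap V (s ∪ t))) *
            ((u₀ * (1 + o)) ^ w₂.card * (o * q) ^ ((t \ s).card - w₂.card)) := by
        intro w₂ hw₂
        rw [mem_powerset] at hw₂
        have hd2 : Disjoint w₁ w₂ :=
          disjoint_of_subset_left hw₁ (disjoint_of_subset_right hw₂ hdis)
        have hμ : μ₀ (w₁ ∪ w₂) = wt u₀ q V (w₁ ∪ w₂) := by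
          simp only [hμ₀]
          rw [ind_of (hbw.trans subset_union_left), mul_one]
        have hc1 : (w₁ ∪ w₂).card = w₁.card + w₂.card := card_union_of_disjoint hd2
        have hw₂s : Disjoint s w₂ := disjoint_of_subset_right hw₂ disjoint_sdiff
        have hc2 : (t \ (w₁ ∪ w₂)).card = ((s ∩ t) \ w₁).card + ((t \ s).card - w₂.card) := by
          rw [← card_sdiff_of_subset hw₂, ← card_union_of_disjoint]
          · congr 1
            ext e
            simp only [mem_sdiff, mem_union, mem_inter]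
            constructor
            · rintro ⟨h1, h2⟩
              by_cases hs : e ∈ s
              · exact Or.inl ⟨⟨hs, h1⟩, fun h3 => h2 (Or.inl h3)⟩
              · exact Or.inr ⟨⟨h1, hs⟩, fun h3 => h2 (Or.inr h3)⟩
            · rintro (⟨⟨h1, h2⟩, h3⟩ | ⟨⟨h1, h2⟩, h3⟩)
              · refine ⟨h2, ?_⟩
                rintro (h4 | h4)
                · exact h3 h4
                · exact Finset.disjoint_left.1 hw₂s h1 h4
              · refine ⟨h1, ?_⟩
                rintro (h4 | h4)
                · exact h2 (hw₁s h4)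
                · exact h3 h4
          · exact disjoint_of_subset_left sdiff_subset
              (disjoint_of_subset_right sdiff_subset hdis)
        have hk1 : kap V s + kap V (w₁ ∪ w₂) ≤ kap V (s ∪ w₂) + kap V w₁ := by
          have h3 := kap_inf_sup' V V s (w₁ ∪ w₂)
          rw [union_self, inter_self] at h3
          have h4 : s ∩ (w₁ ∪ w₂) = w₁ := by
            ext e
            simp only [mem_inter, mem_union]
            constructor
            · rintro ⟨h5, h6 | h6⟩
              · exact h6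
              · exact absurd h6 (Finset.disjoint_left.1 hw₂s h5)
            · intro h5
              exact ⟨hw₁s h5, Or.inl h5⟩
          have h5 : s ∪ (w₁ ∪ w₂) = s ∪ w₂ := by
            rw [← union_assoc, union_eq_left.2 hw₁s]
          rw [h4, h5] at h3
          omega
        have hk2 : kap V (s ∪ w₂) ≤ kap V (s ∪ t) + ((t \ s).card - w₂.card) := by
          have h3 := kap_union_le V (s ∪ t) (s ∪ w₂)
          have h4 : (s ∪ t) ∪ (s ∪ w₂) = s ∪ t := by
            apply union_eq_left.2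
            exact union_subset subset_union_left
              ((hw₂.trans sdiff_subset).trans subset_union_right)
          have h5 : (s ∪ t) \ (s ∪ w₂) ⊆ (t \ s) \ w₂ := by
            intro e
            simp only [mem_sdiff, mem_union]
            tauto
          rw [h4] at h3
          have h6 := card_le_card h5
          rw [card_sdiff_of_subset hw₂] at h6
          omega
        rw [hμ]
        unfold wt
        rw [hc1, hc2]
        have hpow : q ^ kap V s * q ^ kap V (w₁ ∪ w₂) ≤
            q ^ kap V w₁ * q ^ kap V (s ∪ t) * q ^ ((t \ s).card - w₂.card) := by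
          rw [← pow_add, ← pow_add, ← pow_add]
          exact pow_le_pow_right₀ hq (by omega)
        have hcoef : 0 ≤ u₁ ^ s.card * u₀ ^ w₁.card * u₀ ^ w₂.card *
            (o ^ ((s ∩ t) \ w₁).card * o ^ ((t \ s).card - w₂.card)) *
            ((1 + o) ^ w₁.card * (1 + o) ^ w₂.card) := by positivity
        calc u₁ ^ s.card * q ^ kap V s * (u₀ ^ (w₁.card + w₂.card) * q ^ kap V (w₁ ∪ w₂) *
              (o ^ (((s ∩ t) \ w₁).card + ((t \ s).card - w₂.card)) *
                (1 + o) ^ (w₁.card + w₂.card)))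
            = (u₁ ^ s.card * u₀ ^ w₁.card * u₀ ^ w₂.card *
              (o ^ ((s ∩ t) \ w₁).card * o ^ ((t \ s).card - w₂.card)) *
              ((1 + o) ^ w₁.card * (1 + o) ^ w₂.card)) *
              (q ^ kap V s * q ^ kap V (w₁ ∪ w₂)) := by
              rw [pow_add, pow_add, pow_add]
              ring
          _ ≤ (u₁ ^ s.card * u₀ ^ w₁.card * u₀ ^ w₂.card *
              (o ^ ((s ∩ t) \ w₁).card * o ^ ((t \ s).card - w₂.card)) *
              ((1 + o) ^ w₁.card * (1 + o) ^ w₂.card)) *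
              (q ^ kap V w₁ * q ^ kap V (s ∪ t) * q ^ ((t \ s).card - w₂.card)) :=
              mul_le_mul_of_nonneg_left hpow hcoef
          _ = _ := by
              rw [mul_pow, mul_pow]
              ring
      refine (sum_le_sum hterm).trans ?_
      rw [← mul_sum, Finset.sum_pow_mul_eq_add_pow]
      have hμ : μ₀ w₁ = wt u₀ q V w₁ := by
        simp only [hμ₀]
        rw [ind_of hbw, mul_one]
      have hcard : (s ∪ t).card = s.card + (t \ s).card := by
        rw [← union_sdiff_self_eq_union, card_union_of_disjoint disjoint_sdiff]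
      have hlast : (u₀ * (1 + o) + o * q) ^ (t \ s).card ≤ u₁ ^ (t \ s).card :=
        pow_le_pow_left₀ (by positivity) h _
      have hw0 := (wt_pos hu₀ hq V w₁).le
      calc wt u₀ q V w₁ * (o ^ ((s ∩ t) \ w₁).card * (1 + o) ^ w₁.card) *
            (u₁ ^ s.card * q ^ kap V (s ∪ t)) * (u₀ * (1 + o) + o * q) ^ (t \ s).card
          ≤ wt u₀ q V w₁ * (o ^ ((s ∩ t) \ w₁).card * (1 + o) ^ w₁.card) *
            (u₁ ^ s.card * q ^ kap V (s ∪ t)) * u₁ ^ (t \ s).card :=
            mul_le_mul_of_nonneg_left hlast (by positivity)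
        _ = μ₀ w₁ * (o ^ ((s ∩ t) \ w₁).card * (1 + o) ^ w₁.card) * wt u₁ q V (s ∪ t) := by
            rw [hμ]
            unfold wt
            rw [hcard, pow_add]
            ring
    · -- the marks are not open
      have hz : ∀ w₂ ∈ (t \ s).powerset,
          μ₀ (w₁ ∪ w₂) * (o ^ (t \ (w₁ ∪ w₂)).card * (1 + o) ^ (w₁ ∪ w₂).card) = 0 := by
        intro w₂ hw₂
        rw [mem_powerset] at hw₂
        have : μ₀ (w₁ ∪ w₂) = 0 := by
          simp only [hμ₀]
          rw [ind_not, mul_zero]
          intro h1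
          apply hbw
          intro e he
          rcases mem_union.1 (h1 he) with h2 | h2
          · exact h2
          · exact absurd (hbs he) (mem_sdiff.1 (hw₂ h2)).2
        rw [this, zero_mul]
      rw [sum_congr rfl hz, sum_const_zero, mul_zero]
      exact mul_nonneg (mul_nonneg (hμ₀0 _) (by positivity)) (wt_pos hu₁ hq _ _).le
  have hfour := four_fun E (f₁ := fun w => μ₁ w * ind (D w)) (f₂ := fun t => sprNu μ₀ o t)
    (f₃ := fun t => sprNu μ₀ o t * ind (D t)) (f₄ := fun w => μ₁ w)
    (fun w => mul_nonneg (hμ₁0 w) (ind_nonneg _)) hν0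
    (fun t => mul_nonneg (hν0 t) (ind_nonneg _)) hμ₁0
    (fun s _ t _ => by
      show μ₁ s * ind (D s) * sprNu μ₀ o t ≤ sprNu μ₀ o (s ∩ t) * ind (D (s ∩ t)) * μ₁ (s ∪ t)
      by_cases hDs : D s
      · by_cases hbs : b ⊆ s
        · rw [ind_of hDs, ind_of (hD _ _ inter_subset_left hDs)]
          simp only [hμ₁]
          rw [ind_of hbs, ind_of (hbs.trans subset_union_left), mul_one, mul_one, mul_one, mul_one]
          exact key s t hbs
        · have : μ₁ s = 0 := by
            simp only [hμ₁]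
            rw [ind_not hbs, mul_zero]
          rw [this, zero_mul, zero_mul]
          exact mul_nonneg (mul_nonneg (hν0 _) (ind_nonneg _)) (hμ₁0 _)
      · rw [ind_not hDs, mul_zero, zero_mul]
        exact mul_nonneg (mul_nonneg (hν0 _) (ind_nonneg _)) (hμ₁0 _))
  -- the sums
  have hZ1 : Z o 1 V E = (1 + o) ^ E.card := by
    rw [← sum_pow_card E o]
    unfold Z wt
    refine sum_congr rfl fun b _ => ?_
    rw [one_pow, mul_one]
  have hP : ∀ w : Finset (Ed d), Pb o 1 V E (fun s => D (w ∪ s)) =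
      (∑ s ∈ E.powerset, o ^ s.card * ind (D (w ∪ s))) / (1 + o) ^ E.card := by
    intro w
    unfold Pb Ex
    rw [hZ1]
    congr 1
    unfold Zs wt ind
    refine sum_congr rfl fun s _ => ?_
    rw [one_pow, mul_one]
  have hpairs := spr_pairs μ₀ o E (fun t => ind (D t))
  have hpairs1 := spr_pairs μ₀ o E (fun _ => 1)
  have hν1 : ∑ t ∈ E.powerset, sprNu μ₀ o t =
      Zs u₀ q V E (fun ω => ind (b ⊆ ω)) * (1 + o) ^ E.card := by
    have e1 : ∑ t ∈ E.powerset, sprNu μ₀ o t = ∑ t ∈ E.powerset, sprNu μ₀ o t * 1 :=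
      sum_congr rfl fun t _ => (mul_one _).symm
    rw [e1, hpairs1]
    unfold Zs
    rw [sum_mul]
    refine sum_congr rfl fun w _ => ?_
    rw [← sum_pow_card E o]
    simp only [hμ₀, mul_one]
  have hM0 := ZB_pos (V := V) hu₀ hq hb
  have hM1 := ZB_pos (V := V) hu₁ hq hb
  have hE0 : 0 < (1 + o) ^ E.card := by positivity
  have hR : ExB u₀ q V E b (fun w => Pb o 1 V E (fun s => D (w ∪ s))) =
      (∑ t ∈ E.powerset, sprNu μ₀ o t * ind (D t)) /
        (Zs u₀ q V E (fun ω => ind (b ⊆ ω)) * (1 + o) ^ E.card) := by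
    unfold ExB
    rw [hpairs, div_eq_div_iff hM0.ne' (mul_pos hM0 hE0).ne']
    have e1 : Zs u₀ q V E (fun ω => ind (b ⊆ ω) * Pb o 1 V E (fun s => D (ω ∪ s))) *
        (1 + o) ^ E.card =
        ∑ w ∈ E.powerset, μ₀ w * ∑ s ∈ E.powerset, o ^ s.card * ind (D (w ∪ s)) := by
      unfold Zs
      rw [sum_mul]
      refine sum_congr rfl fun w _ => ?_
      dsimp only
      rw [hP]
      simp only [hμ₀]
      field_simp
    rw [← e1]
    ring
  rw [hR]
  unfold PbB ExB
  rw [div_le_div_iff₀ hM1 (mul_pos hM0 hE0), ← hν1]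
  have e2 : Zs u₁ q V E (fun ω => ind (b ⊆ ω) * ind (D ω)) =
      ∑ w ∈ E.powerset, μ₁ w * ind (D w) := by
    unfold Zs
    refine sum_congr rfl fun w _ => ?_
    simp only [hμ₁]
    ring
  have e3 : Zs u₁ q V E (fun ω => ind (b ⊆ ω)) = ∑ w ∈ E.powerset, μ₁ w := rfl
  rw [e2, e3]
  exact hfour

end Pool.Agent.Lib.MP_31386d_pr_RQ
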