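import Pool.Agent.Lib.MP_31386d_pr_RQ.NoArm
import Pool.Agent.Lib.MP_31386d_pr_RQ.OneSplit
import Pool.Agent.Lib.MP_31386d_pr_RQ.Spr
import Pool.Agent.Lib.MP_31386d_pr_POTTS.Comb
import Pool.Agent.Lib.MP_31386d_pr_POTTS.SeedFacts

/-!
# Existence of a giant in a fine cube, given the marks
-/

set_option autoImplicit false

namespace Pool.Agent.Lib.MP_31386d_pr_RQ

open Finset
open Pool.Agent.Lib.MP_31386d_pr
open Pool.Agent.Lib.MP_31386d_pr_POTTS

variable {d : ℕ}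

/-- The bound for the absence of a giant. -/
noncomputable def fineB (d k₀ p L k : ℕ) (o v₀ δ₁ δ₂ : ℝ) : ℝ :=
  (2 ^ (p + L)) ^ d * δ₂ + 2 ^ ((2 ^ (k₀ + 1)) ^ d) *
    (2 * δ₁ ^ ((2 ^ (k₀ + 1)) ^ d / 2 ^ (2 * d + 1)) +
      2 * Real.exp (-((o - v₀) * (((v₀ / (v₀ + 2)) ^ k) ^ 4 / (1 + o)) *
        (2 ^ p / (144 * (2 ^ d * d))))))

/-- The blocks outside `I`. -/
private noncomputable def fqC (k₀ : ℕ) (j : Pt d) (I : Finset (Pt d)) : Finset (Pt d) := by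
  classical
  exact blocks k₀ j \ I

private theorem mem_fqC {k₀ : ℕ} {j x : Pt d} {I : Finset (Pt d)} :
    x ∈ fqC k₀ j I ↔ x ∈ blocks k₀ j ∧ x ∉ I := by
  classical
  unfold fqC
  exact mem_sdiff

/-- The splittings with two large parts. -/
private noncomputable def fqS (k₀ : ℕ) (j : Pt d) : Finset (Finset (Pt d)) := by
  classical
  exact (blocks k₀ j).powerset.filter (fun I => (2 ^ (k₀ + 1)) ^ d ≤ 2 ^ (d + 1) * I.card ∧
    (2 ^ (k₀ + 1)) ^ d ≤ 2 ^ (d + 1) * (fqC k₀ j I).card)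

private theorem mem_fqS {k₀ : ℕ} {j : Pt d} {I : Finset (Pt d)} :
    I ∈ fqS k₀ j ↔ I ⊆ blocks k₀ j ∧ (2 ^ (k₀ + 1)) ^ d ≤ 2 ^ (d + 1) * I.card ∧
      (2 ^ (k₀ + 1)) ^ d ≤ 2 ^ (d + 1) * (fqC k₀ j I).card := by
  classical
  unfold fqS
  rw [mem_filter, mem_powerset]

private theorem card_fqS (k₀ : ℕ) (j : Pt d) :
    (fqS k₀ j).card ≤ 2 ^ ((2 ^ (k₀ + 1)) ^ d) := by
  classical
  unfold fqS
  refine (card_filter_le _ _).trans ?_
  rw [card_powerset, card_blocks]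

/-- If there is no giant then the seeds split in two large parts not connected to each other. -/
private theorem fq_split (hd : 3 ≤ d) {r l k₀ : ℕ} {j : Pt d} {b ω : Finset (Ed d)}
    (hno : ¬ ∃ x, Big r l k₀ j b ω x) :
    ∃ I ∈ fqS k₀ j, ∀ i ∈ I, ∀ i' ∈ fqC k₀ j I, ¬ Conn ω (sd r l b i) (sd r l b i') := by
  classical
  obtain ⟨I, hIS, hI1, hI2, hI3⟩ := exists_split (blocks k₀ j)
    (fun i i' => Conn ω (sd r l b i) (sd r l b i'))
    ⟨fun i => Conn.refl _ _, fun h => h.symm, fun h h' => h.trans h'⟩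
    (N := 2 ^ (d + 1)) (by
      have : 2 ^ 2 ≤ 2 ^ (d + 1) := Nat.pow_le_pow_right (by norm_num) (by omega)
      simpa using this) (fun i hi => by
        by_contra hcon
        apply hno
        refine ⟨sd r l b i, ?_⟩
        unfold Big
        push Not at hcon
        exact hcon)
  rw [card_blocks] at hI1 hI2
  have hsd : ∀ x, x ∈ fqC k₀ j I ↔
      x ∈ @sdiff _ (@Finset.instSDiff _ (fun a b => Classical.propDecidable (a = b)))
        (blocks k₀ j) I := by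
    intro x
    exact mem_fqC.trans
      (@Finset.mem_sdiff _ (fun a b => Classical.propDecidable (a = b)) _ _ _).symm
  refine ⟨I, mem_fqS.2 ⟨hIS, hI1, ?_⟩, ?_⟩
  · rw [Finset.ext hsd]
    exact hI2
  · intro i hi i' hi'
    exact hI3 i hi i' ((hsd i').1 hi')

/-- Without conditioning. -/
private theorem fq_empty {u q : ℝ} (V : Finset (Pt d)) (E : Finset (Ed d))
    (P : Finset (Ed d) → Prop) : PbB u q V E ∅ P = Pb u q V E P := by
  classical
  unfold PbB ExB Pb Ex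
  have h3 : ∀ ω : Finset (Ed d), ind (∅ ⊆ ω) = 1 := fun ω => ind_of (empty_subset ω)
  simp only [h3, one_mul]
  rw [Zs_one]
  congr 1

/-- Expectation of a sum. -/
private theorem fq_sum {u q : ℝ} (hu : 0 < u) (hq : 1 ≤ q) {V : Finset (Pt d)}
    {E b : Finset (Ed d)} (hb : b ⊆ E) {ι : Type*} (s : Finset ι)
    (F : ι → Finset (Ed d) → ℝ) :
    ExB u q V E b (fun ω => ∑ i ∈ s, F i ω) = ∑ i ∈ s, ExB u q V E b (F i) := by
  classical
  induction s using Finset.induction_on with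
  | empty =>
    simp only [Finset.sum_empty]
    exact ExB_const hu hq hb 0
  | insert a s ha ih =>
    rw [Finset.sum_insert ha, ← ih, ← ExB_add]
    exact ExB_congr (fun ω _ _ => Finset.sum_insert ha)

private theorem TD_mono {E s t : Finset (Ed d)} {k : ℕ} {Y Z : Finset (Pt d)} (hst : s ⊆ t)
    (h : TD E s k Y Z) : TD E t k Y Z := by
  classical
  obtain ⟨S, hS, hc, y, hy, z, hz, hyz⟩ := h
  exact ⟨S, hS, hc, y, hy, z, hz, hyz.mono (union_subset_union_left hst)⟩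

private theorem Big_mono {r l k₀ : ℕ} {j x : Pt d} {b s t : Finset (Ed d)} (hst : s ⊆ t)
    (h : Big r l k₀ j b s x) : Big r l k₀ j b t x := by
  classical
  unfold Big at h ⊢
  refine lt_of_le_of_lt (Nat.mul_le_mul_left _ (card_le_card ?_)) h
  intro i hi
  rw [mem_filter] at hi ⊢
  exact ⟨hi.1, fun hc => hi.2 (hc.mono hst)⟩

/-- The complement under the conditioned measure. -/
private theorem fq_not {u q : ℝ} (hu : 0 < u) (hq : 1 ≤ q) {V : Finset (Pt d)}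
    {E b : Finset (Ed d)} (hb : b ⊆ E) (P : Finset (Ed d) → Prop) :
    PbB u q V E b (fun ω => ¬ P ω) = 1 - PbB u q V E b P := by
  have h1 := ExB_add (u := u) (q := q) (V := V) (E := E) (b := b)
    (fun ω => ind (¬ P ω)) (fun ω => ind (P ω))
  have h2 : ExB u q V E b (fun ω => ind (¬ P ω) + ind (P ω)) = 1 := by
    rw [← ExB_const (V := V) hu hq hb 1]
    refine ExB_congr fun ω _ _ => ?_
    by_cases h : P ω
    · rw [ind_of h, ind_not (not_not.2 h), zero_add]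
    · rw [ind_of h, ind_not h, add_zero]
  unfold PbB
  linarith

theorem fine_bad_q (hd : 3 ≤ d) {q : ℝ} (hq : 1 ≤ q) {u₀ u₁ o v₀ : ℝ} (hu₀ : 0 < u₀)
    (hv₀ : 0 < v₀) (hv : v₀ ≤ o) (hsp : u₀ * (1 + o) + o * q ≤ u₁) {V : Finset (Pt d)}
    {b : Finset (Ed d)} (hb : b ⊆ EI V) {r l k₀ p L k N : ℕ} {a j : Pt d}
    (hA : bx a (2 ^ (p + L)) ⊆ V)
    (hQA : ∀ x ∈ bx (fun t => (((2 * r + 1) * 2 ^ l * 2 ^ k₀ : ℕ) : ℤ) * j t)
      (2 * ((2 * r + 1) * 2 ^ l * 2 ^ k₀)), cub x (4 * 4 ^ p) ⊆ bx a (2 ^ (p + L)))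
    (hQV : ∀ x ∈ bx (fun t => (((2 * r + 1) * 2 ^ l * 2 ^ k₀ : ℕ) : ℤ) * j t)
      (2 * ((2 * r + 1) * 2 ^ l * 2 ^ k₀)), cub x N ⊆ V)
    (hN : 2 * N < (2 * r + 1) * 2 ^ l) (hr : r < 2 ^ p) {δ₁ δ₂ : ℝ} (hδ₁ : δ₁ ≤ 1)
    (h1 : Pb u₀ q (cube d N) (EI (cube d N)) (fun ω => ¬ Arm ω (cube d r) 0 (2 * 4 ^ p)) ≤ δ₁)
    (h2 : ∀ x ∈ bx a (2 ^ (p + L)), ∀ z ∈ bx a (2 ^ (p + L)),
      Pb u₀ q V (EI V) (fun ω => ¬ TD (EI V) ω k {x} {z}) ≤ δ₂)
    (hfull : FullF (2 * r + 1) l k₀ j b) :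
    PbB u₁ q V (EI V) b (fun ω => ¬ ∃ x, Big (2 * r + 1) l k₀ j b ω x) ≤
      fineB d k₀ p L k o v₀ δ₁ δ₂ := by
  classical
  have ho : 0 < o := lt_of_lt_of_le hv₀ hv
  -- a seed
  have hbne : (blocks k₀ j).Nonempty := by
    rw [← card_pos, card_blocks]
    positivity
  obtain ⟨i₀, hi₀⟩ := hbne
  have hz₀ : sd (2 * r + 1) l b i₀ ∈ bx a (2 ^ (p + L)) := by
    have h3 := sd_mem (r := 2 * r + 1) (by omega) (hfull i₀ hi₀) hi₀
    refine hQA _ h3 ?_
    unfold cub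
    rw [mem_shV, sub_self, mem_cube]
    intro t
    rw [Pi.zero_apply]
    constructor
    · simp
    · positivity
  set z₀ : Pt d := sd (2 * r + 1) l b i₀ with hz₀def
  set X : ℝ := 2 * Real.exp (-((o - v₀) * (((v₀ / (v₀ + 2)) ^ k) ^ 4 / (1 + o)) *
        (2 ^ p / (144 * (2 ^ d * d))))) with hX
  have hX0 : 0 ≤ X := by
    rw [hX]
    positivity
  set NA : Finset (Pt d) → Finset (Ed d) → Prop := fun I w =>
    ∀ i ∈ I, ¬ Arm w (cub (ctr r l b i) r) (ctr r l b i) (2 * 4 ^ p) with hNA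
  -- the bound for a fixed configuration
  have hfix : ∀ w : Finset (Ed d), b ⊆ w → w ⊆ EI V →
      Pb o 1 V (EI V) (fun s => ¬ ∃ x, Big (2 * r + 1) l k₀ j b (w ∪ s) x) ≤
      (∑ x ∈ bx a (2 ^ (p + L)), ind (¬ TD (EI V) w k {x} {z₀})) +
        ∑ I ∈ fqS k₀ j, ((ind (NA I w) + ind (NA (fqC k₀ j I) w)) + X) := by
    intro w hbw hw
    have hS0 : 0 ≤ ∑ I ∈ fqS k₀ j, ((ind (NA I w) + ind (NA (fqC k₀ j I) w)) + X) :=
      sum_nonneg fun I _ => add_nonneg (add_nonneg (ind_nonneg _) (ind_nonneg _)) hX0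
    by_cases hall : ∀ x ∈ bx a (2 ^ (p + L)), TD (EI V) w k {x} {z₀}
    · have hU : Pb o 1 V (EI V) (fun s => ¬ ∃ x, Big (2 * r + 1) l k₀ j b (w ∪ s) x) ≤
          ∑ I ∈ fqS k₀ j, Pb o 1 V (EI V) (fun s => ∀ i ∈ I, ∀ i' ∈ fqC k₀ j I,
            ¬ Conn (w ∪ s) (sd (2 * r + 1) l b i) (sd (2 * r + 1) l b i')) := by
        have h3 := PbB_union (b := ∅) (V := V) (E := EI V) ho le_rfl (fqS k₀ j)
          (fun s => ¬ ∃ x, Big (2 * r + 1) l k₀ j b (w ∪ s) x)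
          (fun I s => ∀ i ∈ I, ∀ i' ∈ fqC k₀ j I,
            ¬ Conn (w ∪ s) (sd (2 * r + 1) l b i) (sd (2 * r + 1) l b i'))
          (fun s _ _ hno => fq_split hd hno)
        simp only [fq_empty] at h3
        exact h3
      refine hU.trans ((sum_le_sum fun I hI => ?_).trans
        (le_add_of_nonneg_left (sum_nonneg fun x _ => ind_nonneg _)))
      rw [mem_fqS] at hI
      have hC : fqC k₀ j I ⊆ blocks k₀ j := fun x hx => (mem_fqC.1 hx).1
      by_cases hn1 : NA I w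
      · rw [ind_of hn1]
        have h3 := Pb_le_one (V := V) (E := EI V) ho (le_refl (1 : ℝ))
          (fun s => ∀ i ∈ I, ∀ i' ∈ fqC k₀ j I,
            ¬ Conn (w ∪ s) (sd (2 * r + 1) l b i) (sd (2 * r + 1) l b i'))
        have h4 := ind_nonneg (NA (fqC k₀ j I) w)
        linarith
      by_cases hn2 : NA (fqC k₀ j I) w
      · rw [ind_of hn2]
        have h3 := Pb_le_one (V := V) (E := EI V) ho (le_refl (1 : ℝ))
          (fun s => ∀ i ∈ I, ∀ i' ∈ fqC k₀ j I,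
            ¬ Conn (w ∪ s) (sd (2 * r + 1) l b i) (sd (2 * r + 1) l b i'))
        have h4 := ind_nonneg (NA I w)
        linarith
      have ha1 : ∃ i ∈ I, Arm w (cub (ctr r l b i) r) (ctr r l b i) (2 * 4 ^ p) := by
        by_contra hcon
        apply hn1
        intro i hi harm
        exact hcon ⟨i, hi, harm⟩
      have ha2 : ∃ i ∈ fqC k₀ j I, Arm w (cub (ctr r l b i) r) (ctr r l b i) (2 * 4 ^ p) := by
        by_contra hcon
        apply hn2
        intro i hi harm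
        exact hcon ⟨i, hi, harm⟩
      have h3 := one_split (k := k) hd hv₀ hv hbw hw hA hQA hr hfull hI.1 hC ha1 ha2
        (fun x hx => ⟨i₀, by
          rw [mem_union]
          by_cases hi : i₀ ∈ I
          · exact Or.inl hi
          · exact Or.inr (mem_fqC.2 ⟨hi₀, hi⟩), hall x hx⟩)
      have h4 := ind_nonneg (NA I w)
      have h5 := ind_nonneg (NA (fqC k₀ j I) w)
      have h6 : Pb o 1 V (EI V) (fun s => ∀ i ∈ I, ∀ i' ∈ fqC k₀ j I,
        ¬ Conn (w ∪ s) (sd (2 * r + 1) l b i) (sd (2 * r + 1) l b i')) ≤ X := h3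
      linarith
    · push Not at hall
      obtain ⟨x, hx, hTD⟩ := hall
      have h3 := Pb_le_one (V := V) (E := EI V) ho (le_refl (1 : ℝ))
          (fun s => ¬ ∃ x, Big (2 * r + 1) l k₀ j b (w ∪ s) x)
      have h4 : (1 : ℝ) ≤ ∑ x ∈ bx a (2 ^ (p + L)), ind (¬ TD (EI V) w k {x} {z₀}) := by
        calc (1 : ℝ) = ind (¬ TD (EI V) w k {x} {z₀}) := (ind_of hTD).symm
          _ ≤ _ := Finset.single_le_sum (f := fun x => ind (¬ TD (EI V) w k {x} {z₀}))
            (fun j _ => ind_nonneg _) hx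
      linarith
  -- the sprinkling
  have hspr := spr (V := V) (E := EI V) hu₀ ho hq hsp hb
    (D := fun ω => ¬ ∃ x, Big (2 * r + 1) l k₀ j b ω x)
    (fun s t hst ht hs => ht (by
      obtain ⟨x, hx⟩ := hs
      exact ⟨x, Big_mono hst hx⟩))
  have hmono := ExB_mono (V := V) (E := EI V) (b := b) hu₀ hq hfix
  refine hspr.trans (hmono.trans ?_)
  rw [ExB_add, fq_sum hu₀ hq hb, fq_sum hu₀ hq hb]
  unfold fineB
  rw [← hX]
  refine add_le_add ?_ ?_
  · -- not typical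
    have h3 : ∀ x ∈ bx a (2 ^ (p + L)),
        ExB u₀ q V (EI V) b (fun w => ind (¬ TD (EI V) w k {x} {z₀})) ≤ δ₂ := by
      intro x hx
      refine le_trans ?_ (h2 x hx z₀ hz₀)
      have h4 := fq_not (V := V) hu₀ hq hb (fun w => TD (EI V) w k {x} {z₀})
      have h5 := Pb_le_PbB (V := V) hu₀ hq hb (P := fun w => TD (EI V) w k {x} {z₀})
        (fun s t hst => TD_mono hst)
      have h6 := Pb_not (V := V) (E := EI V) hu₀ hq (fun w => TD (EI V) w k {x} {z₀})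
      have h7 : ExB u₀ q V (EI V) b (fun w => ind (¬ TD (EI V) w k {x} {z₀})) =
        PbB u₀ q V (EI V) b (fun w => ¬ TD (EI V) w k {x} {z₀}) := rfl
      rw [h7, h4, h6]
      linarith
    refine (sum_le_sum h3).trans ?_
    rw [sum_const, card_bx, nsmul_eq_mul]
    push_cast
    exact le_rfl
  · have h3 : ∀ I ∈ fqS k₀ j,
        ExB u₀ q V (EI V) b (fun w => (ind (NA I w) + ind (NA (fqC k₀ j I) w)) + X) ≤
        2 * δ₁ ^ ((2 ^ (k₀ + 1)) ^ d / 2 ^ (2 * d + 1)) + X := by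
      intro I hI
      rw [mem_fqS] at hI
      have hC : fqC k₀ j I ⊆ blocks k₀ j := fun x hx => (mem_fqC.1 hx).1
      rw [ExB_add, ExB_add, ExB_const hu₀ hq hb]
      have h4 := no_arm hu₀ hq hb hδ₁ h1 hN hQV hfull hI.1 hI.2.1
      have h5 := no_arm hu₀ hq hb hδ₁ h1 hN hQV hfull hC hI.2.2
      have h6 : ExB u₀ q V (EI V) b (fun w => ind (NA I w)) ≤
        δ₁ ^ ((2 ^ (k₀ + 1)) ^ d / 2 ^ (2 * d + 1)) := h4
      have h7 : ExB u₀ q V (EI V) b (fun w => ind (NA (fqC k₀ j I) w)) ≤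
        δ₁ ^ ((2 ^ (k₀ + 1)) ^ d / 2 ^ (2 * d + 1)) := h5
      linarith
    refine (sum_le_sum h3).trans ?_
    rw [sum_const, nsmul_eq_mul]
    have hδ0 : 0 ≤ δ₁ := (Pb_nonneg hu₀ hq _).trans h1
    refine mul_le_mul_of_nonneg_right ?_ (add_nonneg (by positivity) hX0)
    exact_mod_cast card_fqS k₀ j

end Pool.Agent.Lib.MP_31386d_pr_RQ
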