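import Pool.Agent.Lib.MP_31386d_pr_RQ.ParDefs

/-!
# Parameters: missing seeds
-/

set_option autoImplicit false

namespace Pool.Agent.Lib.MP_31386d_pr_RQ

private theorem ParT1_A0 {E δ : ℝ} (hE : 0 < E) (hδ : 0 < δ) : ∃ A₀ : ℕ, ∀ A : ℕ, A₀ ≤ A →
    E * (A : ℝ) ^ 2 ≤ δ * 2 ^ A := by
  have h := tendsto_pow_const_div_const_pow_of_one_lt 2 (r := (2 : ℝ)) (by norm_num)
  have hc : (0 : ℝ) < δ / E := by positivity
  obtain ⟨A₀, hA⟩ := Filter.eventually_atTop.mp (h.eventually (gt_mem_nhds hc))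
  refine ⟨A₀, fun A hAA => ?_⟩
  have h2 := hA A hAA
  have hp : (0 : ℝ) < 2 ^ A := by positivity
  rw [div_lt_div_iff₀ hp hE] at h2
  linarith

private theorem ParT1_two_pow (A : ℕ) : (2 : ℝ) ^ A ≤ Real.exp A := by
  have h1 : (2 : ℝ) ≤ Real.exp 1 := by
    have := Real.add_one_le_exp (1 : ℝ)
    linarith
  calc (2 : ℝ) ^ A ≤ Real.exp 1 ^ A := pow_le_pow_left₀ (by norm_num) h1 A
    _ = Real.exp A := by
      rw [← Real.exp_nat_mul]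
      congr 1
      ring

theorem par_t1 (D C c KB : ℕ) {ρ : ℝ} (hρ : 0 < ρ) (hρ1 : ρ ≤ 1) {ε : ℝ} (hε : 0 < ε) :
    ∃ k₁ : ℕ, ∀ k₀ : ℕ, k₁ ≤ k₀ → (((gQ C c KB k₀ + 1 : ℕ) : ℝ) + 1) ^ D *
      ((((2 ^ (k₀ + 1)) ^ (D + 1) : ℕ) : ℝ) * (1 - ρ) ^ ((2 ^ lQ k₀) ^ (D + 1))) ≤ ε := by
  obtain ⟨E, hE⟩ : ∃ E : ℕ, E = C * D + (D + 1) := ⟨_, rfl⟩
  obtain ⟨C1, hC1⟩ : ∃ C1 : ℝ, C1 = ((KB : ℝ) + 3) ^ D * 2 ^ (c * C * D) * 2 ^ (D + 1) := ⟨_, rfl⟩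
  have hC10 : 0 < C1 := by
    rw [hC1]
    positivity
  obtain ⟨A₀, hA₀⟩ := ParT1_A0 (E := (E : ℝ) + 1) (by positivity) hρ
  obtain ⟨A₁, hA₁⟩ := exists_nat_ge (C1 / ε)
  refine ⟨A₀ + A₁, fun k₀ hk₀ => ?_⟩
  obtain ⟨A, hA⟩ : ∃ A : ℕ, A = 2 ^ k₀ := ⟨_, rfl⟩
  have hkA : k₀ < A := by
    rw [hA]
    exact Nat.lt_two_pow_self
  have hA1 : 1 ≤ A := by omega
  have hAr : (1 : ℝ) ≤ A := by exact_mod_cast hA1
  have g1 := hA₀ A (by omega)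
  -- the number of blocks
  have h1 : (((gQ C c KB k₀ + 1 : ℕ) : ℝ) + 1) ^ D ≤
      ((KB : ℝ) + 3) ^ D * 2 ^ (c * C * D) * 2 ^ (A * (C * D)) := by
    have h2 : ((gQ C c KB k₀ + 1 : ℕ) : ℝ) + 1 ≤ ((KB : ℝ) + 3) * 2 ^ ((A + c) * C) := by
      unfold gQ
      rw [← hA]
      have h3 : (1 : ℝ) ≤ 2 ^ ((A + c) * C) := one_le_pow₀ (by norm_num)
      push_cast
      nlinarith
    calc (((gQ C c KB k₀ + 1 : ℕ) : ℝ) + 1) ^ D ≤ (((KB : ℝ) + 3) * 2 ^ ((A + c) * C)) ^ D :=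
          pow_le_pow_left₀ (by positivity) h2 D
      _ = ((KB : ℝ) + 3) ^ D * 2 ^ (c * C * D) * 2 ^ (A * (C * D)) := by
        have h20 : (A + c) * C * D = c * C * D + A * (C * D) := by ring
        rw [mul_pow, ← pow_mul, h20, pow_add]
        ring
  have h4 : (((2 ^ (k₀ + 1)) ^ (D + 1) : ℕ) : ℝ) ≤ 2 ^ (D + 1) * 2 ^ (A * (D + 1)) := by
    have h5 : (A : ℝ) ≤ 2 ^ A := by
      have : A < 2 ^ A := Nat.lt_two_pow_self
      have h6 : (A : ℝ) ≤ ((2 ^ A : ℕ) : ℝ) := by exact_mod_cast this.le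
      push_cast at h6
      exact h6
    have h7 : (((2 ^ (k₀ + 1)) ^ (D + 1) : ℕ) : ℝ) = (2 * (A : ℝ)) ^ (D + 1) := by
      rw [hA]
      push_cast
      ring
    rw [h7, mul_pow, pow_mul]
    exact mul_le_mul_of_nonneg_left (pow_le_pow_left₀ (by positivity) h5 _) (by positivity)
  obtain ⟨Y, hY⟩ : ∃ Y : ℝ, Y = 2 ^ lQ k₀ := ⟨_, rfl⟩
  have hlr : Y * A = 2 ^ A := by
    rw [hY]
    unfold lQ
    rw [← hA]
    have h8 : (A : ℝ) = 2 ^ k₀ := by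
      rw [hA]
      push_cast
      rfl
    rw [h8, ← pow_add]
    congr 1
    omega
  have h9 : (1 - ρ) ^ ((2 ^ lQ k₀) ^ (D + 1)) ≤ Real.exp (-(ρ * Y)) := by
    have h2 : 1 - ρ ≤ Real.exp (-ρ) := Real.one_sub_le_exp_neg ρ
    have h3 : (1 - ρ) ^ ((2 ^ lQ k₀) ^ (D + 1)) ≤ (1 - ρ) ^ (2 ^ lQ k₀) := by
      refine pow_le_pow_of_le_one (by linarith) (by linarith) ?_
      exact Nat.le_self_pow (by omega) _
    refine h3.trans ?_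
    refine (pow_le_pow_left₀ (by linarith) h2 _).trans (le_of_eq ?_)
    rw [← Real.exp_nat_mul]
    congr 1
    push_cast
    rw [hY]
    ring
  have h10 : ((E : ℝ) + 1) * A ≤ ρ * Y := by
    have h6 : ((E : ℝ) + 1) * A * A ≤ ρ * Y * A := by
      calc ((E : ℝ) + 1) * A * A = ((E : ℝ) + 1) * (A : ℝ) ^ 2 := by ring
        _ ≤ ρ * 2 ^ A := g1
        _ = ρ * Y * A := by rw [← hlr]; ring
    exact le_of_mul_le_mul_right h6 (by linarith)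
  have h11 : (((gQ C c KB k₀ + 1 : ℕ) : ℝ) + 1) ^ D *
      ((((2 ^ (k₀ + 1)) ^ (D + 1) : ℕ) : ℝ) * (1 - ρ) ^ ((2 ^ lQ k₀) ^ (D + 1))) ≤
      (((KB : ℝ) + 3) ^ D * 2 ^ (c * C * D) * 2 ^ (A * (C * D))) *
        ((2 ^ (D + 1) * 2 ^ (A * (D + 1))) * Real.exp (-(ρ * Y))) := by
    have h12 : 0 ≤ (1 - ρ) ^ ((2 ^ lQ k₀) ^ (D + 1)) := pow_nonneg (by linarith) _
    refine mul_le_mul h1 (mul_le_mul h4 h9 h12 (by positivity)) (by positivity) (by positivity)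
  refine h11.trans ?_
  have h13 : (((KB : ℝ) + 3) ^ D * 2 ^ (c * C * D) * 2 ^ (A * (C * D))) *
        ((2 ^ (D + 1) * 2 ^ (A * (D + 1))) * Real.exp (-(ρ * Y))) =
      C1 * (2 ^ (A * E) * Real.exp (-(ρ * Y))) := by
    have h14 : (2 : ℝ) ^ (A * E) = 2 ^ (A * (C * D)) * 2 ^ (A * (D + 1)) := by
      rw [hE, mul_add, pow_add]
    rw [h14, hC1]
    ring
  rw [h13]
  have h15 : (2 : ℝ) ^ (A * E) * Real.exp (-(ρ * Y)) ≤ Real.exp (-(A : ℝ)) := by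
    calc (2 : ℝ) ^ (A * E) * Real.exp (-(ρ * Y)) ≤
          Real.exp ((A * E : ℕ) : ℝ) * Real.exp (-(ρ * Y)) :=
          mul_le_mul_of_nonneg_right (ParT1_two_pow _) (Real.exp_nonneg _)
      _ = Real.exp (((A * E : ℕ) : ℝ) + -(ρ * Y)) := (Real.exp_add _ _).symm
      _ ≤ Real.exp (-(A : ℝ)) := by
        refine Real.exp_le_exp.mpr ?_
        push_cast
        linarith
  have h16 : Real.exp (-(A : ℝ)) * A ≤ 1 := by
    have h4 := Real.add_one_le_exp (A : ℝ)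
    have h5 : Real.exp (-(A : ℝ)) * Real.exp A = 1 := by
      rw [← Real.exp_add]
      simp
    have h6 : Real.exp (-(A : ℝ)) * A ≤ Real.exp (-(A : ℝ)) * Real.exp A :=
      mul_le_mul_of_nonneg_left (by linarith) (Real.exp_nonneg _)
    linarith
  have h17 : C1 ≤ ε * A := by
    have h8 : C1 / ε ≤ A := by
      refine hA₁.trans ?_
      have : A₁ ≤ A := by omega
      exact_mod_cast this
    rw [div_le_iff₀ hε] at h8
    linarith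
  calc C1 * (2 ^ (A * E) * Real.exp (-(ρ * Y))) ≤ C1 * Real.exp (-(A : ℝ)) :=
        mul_le_mul_of_nonneg_left h15 hC10.le
    _ ≤ ε * A * Real.exp (-(A : ℝ)) := mul_le_mul_of_nonneg_right h17 (Real.exp_nonneg _)
    _ = ε * (Real.exp (-(A : ℝ)) * A) := by ring
    _ ≤ ε * 1 := mul_le_mul_of_nonneg_left h16 hε.le
    _ = ε := mul_one ε

end Pool.Agent.Lib.MP_31386d_pr_RQ
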