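import Pool.Agent.Lib.MP_31386d_pr_RQ.ParDefs

/-!
# Parameters: points at large closed distance
-/

set_option autoImplicit false

namespace Pool.Agent.Lib.MP_31386d_pr_RQ

private theorem two_mul_le_pow (k : ℕ) : 2 * k ≤ 2 ^ k := by
  induction k with
  | zero => simp
  | succ k ih =>
    rcases Nat.eq_zero_or_pos k with h | h
    · subst h
      simp
    · have h2 : 2 ≤ 2 ^ k := le_trans (by omega) ih
      rw [pow_succ]
      omega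

private theorem expo_bound (D κ k₀ : ℕ) (hκ : 1 ≤ κ) :
    2 ^ k₀ ≤ κ * (4 * D + 12) * (pQ D k₀ / κ + 1) := by
  have h1 : lQ k₀ < (2 * D + 6) * (pQ D k₀ + 1) := by
    rw [pQ]
    exact Nat.lt_mul_div_succ _ (by omega)
  have h2 : pQ D k₀ + 1 ≤ κ * (pQ D k₀ / κ + 1) :=
    Nat.lt_mul_div_succ _ (by omega)
  have h3 : 2 ^ k₀ ≤ 2 * lQ k₀ := by
    have := two_mul_le_pow k₀
    rw [lQ]
    omega
  calc 2 ^ k₀ ≤ 2 * lQ k₀ := h3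
    _ ≤ 2 * ((2 * D + 6) * (pQ D k₀ + 1)) := Nat.mul_le_mul_left _ h1.le
    _ = (4 * D + 12) * (pQ D k₀ + 1) := by ring
    _ ≤ (4 * D + 12) * (κ * (pQ D k₀ / κ + 1)) := Nat.mul_le_mul_left _ h2
    _ = κ * (4 * D + 12) * (pQ D k₀ / κ + 1) := by ring

private theorem real_id (b y z : ℝ) (hy : 0 < y) (C D : ℕ) :
    (b * (y ^ C * z ^ C)) ^ D * ((y * z) ^ (D + 1) * (2 * (y ^ (C * D + D + 2))⁻¹)) =
      (b ^ D * z ^ (C * D + D + 1) * 2) * y⁻¹ := by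
  have h : y ^ (C * D + D + 2) = (y ^ C) ^ D * y ^ (D + 1) * y := by
    rw [← pow_mul, ← pow_add, ← pow_succ]
    congr 1
  have h2 : z ^ (C * D + D + 1) = (z ^ C) ^ D * z ^ (D + 1) := by
    rw [← pow_mul, ← pow_add]
    congr 1
  rw [h, h2]
  have h3 : (y ^ C) ^ D ≠ 0 := by positivity
  have h4 : y ^ (D + 1) ≠ 0 := by positivity
  rw [mul_pow, mul_pow, mul_pow, mul_inv, mul_inv]
  calc b ^ D * ((y ^ C) ^ D * (z ^ C) ^ D) *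
        (y ^ (D + 1) * z ^ (D + 1) * (2 * (((y ^ C) ^ D)⁻¹ * (y ^ (D + 1))⁻¹ * y⁻¹)))
      = (b ^ D * ((z ^ C) ^ D * z ^ (D + 1)) * 2) * (((y ^ C) ^ D * ((y ^ C) ^ D)⁻¹) *
          (y ^ (D + 1) * (y ^ (D + 1))⁻¹) * y⁻¹) := by ring
    _ = b ^ D * ((z ^ C) ^ D * z ^ (D + 1)) * 2 * y⁻¹ := by
        rw [mul_inv_cancel₀ h3, mul_inv_cancel₀ h4, one_mul, one_mul]

theorem par_t2 (D C c KB : ℕ) {κ R : ℕ} (hκ : 1 ≤ κ) {lam : ℝ} (hlam : 0 < lam)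
    (hR : lam ^ R * 2 ^ (κ * (4 * D + 12) * (C * D + D + 2)) ≤ 1) {ε : ℝ} (hε : 0 < ε) :
    ∃ k₁ : ℕ, ∀ k₀ : ℕ, k₁ ≤ k₀ → (((gQ C c KB k₀ + 1 : ℕ) : ℝ) + 1) ^ D *
      ((2 ^ (2 ^ k₀ + c)) ^ (D + 1) * (2 * lam ^ ((pQ D k₀ / κ + 1) * R))) ≤ ε := by
  obtain ⟨K, hK⟩ : ∃ K : ℝ, K = ((KB : ℝ) + 3) ^ D * ((2 : ℝ) ^ c) ^ (C * D + D + 1) * 2 :=
    ⟨_, rfl⟩
  have hKpos : 0 < K := by
    rw [hK]
    positivity
  obtain ⟨k₁, hk₁⟩ := exists_pow_lt_of_lt_one (div_pos hε hKpos) (by norm_num : (1 / 2 : ℝ) < 1)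
  refine ⟨k₁, fun k₀ hk₀ => ?_⟩
  obtain ⟨A, hA⟩ : ∃ A : ℕ, A = 2 ^ k₀ := ⟨_, rfl⟩
  obtain ⟨a, ha⟩ : ∃ a : ℕ, a = pQ D k₀ / κ + 1 := ⟨_, rfl⟩
  have hexp : A * (C * D + D + 2) ≤ κ * (4 * D + 12) * (C * D + D + 2) * a := by
    have h := expo_bound D κ k₀ hκ
    rw [← hA, ← ha] at h
    calc A * (C * D + D + 2) ≤ (κ * (4 * D + 12) * a) * (C * D + D + 2) :=
          Nat.mul_le_mul_right _ h
      _ = κ * (4 * D + 12) * (C * D + D + 2) * a := by ring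
  have hlamb : lam ^ (a * R) ≤ (((2 : ℝ) ^ A) ^ (C * D + D + 2))⁻¹ := by
    have h1 : (lam ^ R * 2 ^ (κ * (4 * D + 12) * (C * D + D + 2))) ^ a ≤ 1 :=
      pow_le_one₀ (by positivity) hR
    rw [mul_pow, ← pow_mul, ← pow_mul] at h1
    have h2 : ((2 : ℝ) ^ A) ^ (C * D + D + 2) ≤
        2 ^ (κ * (4 * D + 12) * (C * D + D + 2) * a) := by
      rw [← pow_mul]
      exact pow_le_pow_right₀ (by norm_num) hexp
    rw [le_inv_comm₀ (by positivity) (by positivity)]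
    refine le_trans h2 ?_
    rw [mul_comm a R, ← one_div, le_div_iff₀ (by positivity), mul_comm]
    exact h1
  have hG : (((gQ C c KB k₀ + 1 : ℕ) : ℝ) + 1) ≤
      ((KB : ℝ) + 3) * (((2 : ℝ) ^ A) ^ C * ((2 : ℝ) ^ c) ^ C) := by
    have h1 : (1 : ℝ) ≤ ((2 : ℝ) ^ A) ^ C * ((2 : ℝ) ^ c) ^ C := by
      rw [← pow_mul, ← pow_mul, ← pow_add]
      exact one_le_pow₀ (by norm_num)
    have h2 : ((gQ C c KB k₀ : ℕ) : ℝ) =
        ((KB : ℝ) + 1) * (((2 : ℝ) ^ A) ^ C * ((2 : ℝ) ^ c) ^ C) := by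
      rw [gQ, ← hA, ← mul_pow, ← pow_add, ← pow_mul]
      push_cast
      ring
    push_cast
    rw [h2]
    linarith
  have hpow : ((2 : ℝ) ^ (A + c)) ^ (D + 1) = ((2 : ℝ) ^ A * (2 : ℝ) ^ c) ^ (D + 1) := by
    rw [pow_add (2 : ℝ) A c]
  rw [← hA, ← ha]
  calc (((gQ C c KB k₀ + 1 : ℕ) : ℝ) + 1) ^ D *
        ((2 ^ (A + c)) ^ (D + 1) * (2 * lam ^ (a * R)))
      ≤ (((KB : ℝ) + 3) * (((2 : ℝ) ^ A) ^ C * ((2 : ℝ) ^ c) ^ C)) ^ D *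
        (((2 : ℝ) ^ A * (2 : ℝ) ^ c) ^ (D + 1) *
          (2 * (((2 : ℝ) ^ A) ^ (C * D + D + 2))⁻¹)) := by
        rw [hpow]
        refine mul_le_mul (pow_le_pow_left₀ (by positivity) hG D) ?_ (by positivity)
          (by positivity)
        exact mul_le_mul_of_nonneg_left (mul_le_mul_of_nonneg_left hlamb (by norm_num))
          (by positivity)
    _ = K * ((2 : ℝ) ^ A)⁻¹ := by
        rw [real_id _ _ _ (by positivity), ← hK]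
    _ ≤ K * (1 / 2) ^ k₁ := by
        refine mul_le_mul_of_nonneg_left ?_ hKpos.le
        rw [one_div, inv_pow]
        refine inv_anti₀ (by positivity) (pow_le_pow_right₀ (by norm_num) ?_)
        rw [hA]
        exact le_trans hk₀ Nat.lt_two_pow_self.le
    _ ≤ ε := by
        have h3 := mul_lt_mul_of_pos_left hk₁ hKpos
        rw [mul_div_cancel₀ _ hKpos.ne'] at h3
        exact h3.le

end Pool.Agent.Lib.MP_31386d_pr_RQ
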