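import Pool.Agent.Lib.MP_31386d_pr_RQ.ParDefs

/-!
# Parameters: seeds without arms
-/

set_option autoImplicit false

namespace Pool.Agent.Lib.MP_31386d_pr_RQ

private theorem par_t3_M {D k₀ : ℕ} (hk : 2 ≤ k₀) :
    (2 ^ (k₀ + 1)) ^ (D + 1) =
      2 ^ (2 * (D + 1) + 1) * ((2 ^ (k₀ + 1)) ^ (D + 1) / 2 ^ (2 * (D + 1) + 1)) := by
  refine (Nat.mul_div_cancel' ?_).symm
  rw [← pow_mul]
  refine pow_dvd_pow 2 ?_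
  nlinarith

private theorem par_t3_big {D A C c : ℕ} (hD : 2 ≤ D) (hA : 1 ≤ A) (hc : c ≤ A)
    (hC : C * D ≤ A) : (A + c) * C * D + A ≤ (2 * A) ^ (D + 1) := by
  have h1 : (2 * A) ^ 3 ≤ (2 * A) ^ (D + 1) := Nat.pow_le_pow_right (by omega) (by omega)
  have h2 : (A + c) * C * D ≤ 2 * A * A := by
    rw [mul_assoc]
    exact Nat.mul_le_mul (by omega) hC
  have h3 : A * A ≤ A * A * A := Nat.le_mul_of_pos_right _ hA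
  have h4 : A ≤ A * A := Nat.le_mul_of_pos_right _ hA
  have h5 : (2 * A) ^ 3 = 8 * (A * A * A) := by ring
  nlinarith

theorem par_t3 {D : ℕ} (hD : 2 ≤ D) (C c KB : ℕ) {δ : ℝ} (hδ : 0 ≤ δ)
    (hδ1 : δ ≤ (1 / 4) ^ (2 ^ (2 * (D + 1) + 1))) {ε : ℝ} (hε : 0 < ε) :
    ∃ k₁ : ℕ, ∀ k₀ : ℕ, k₁ ≤ k₀ → (((gQ C c KB k₀ + 1 : ℕ) : ℝ) + 1) ^ D *
      (2 ^ ((2 ^ (k₀ + 1)) ^ (D + 1)) *
        (2 * δ ^ ((2 ^ (k₀ + 1)) ^ (D + 1) / 2 ^ (2 * (D + 1) + 1)))) ≤ ε := by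
  obtain ⟨N, hN⟩ := exists_pow_lt_of_lt_one
    (show 0 < ε / (2 * ((KB : ℝ) + 3) ^ D) by positivity) (show (1 / 2 : ℝ) < 1 by norm_num)
  refine ⟨2 + c + C * D + N, fun k₀ hk => ?_⟩
  obtain ⟨A, hA⟩ : ∃ A, A = 2 ^ k₀ := ⟨_, rfl⟩
  have hkA : k₀ < A := by
    rw [hA]
    exact Nat.lt_two_pow_self
  have hM := par_t3_M (D := D) (k₀ := k₀) (by omega)
  obtain ⟨M', hM'⟩ : ∃ M', M' = (2 ^ (k₀ + 1)) ^ (D + 1) / 2 ^ (2 * (D + 1) + 1) := ⟨_, rfl⟩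
  obtain ⟨M, hMM⟩ : ∃ M, M = (2 ^ (k₀ + 1)) ^ (D + 1) := ⟨_, rfl⟩
  rw [← hM', ← hMM] at hM
  rw [← hM', ← hMM]
  have hMA : M = (2 * A) ^ (D + 1) := by
    rw [hMM, hA, pow_succ 2 k₀, mul_comm (2 ^ k₀) 2]
  have hbig : (A + c) * C * D + A ≤ M := by
    rw [hMA]
    exact par_t3_big hD (by omega) (by omega) (by omega)
  have h1 : δ ^ M' ≤ (1 / 4 : ℝ) ^ M := by
    calc δ ^ M' ≤ ((1 / 4 : ℝ) ^ (2 ^ (2 * (D + 1) + 1))) ^ M' := pow_le_pow_left₀ hδ hδ1 _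
      _ = (1 / 4 : ℝ) ^ M := by rw [← pow_mul, hM]
  have h2 : (2 : ℝ) ^ M * (2 * δ ^ M') ≤ 2 * (1 / 2 : ℝ) ^ M := by
    have h3 : (2 : ℝ) ^ M * (2 * δ ^ M') ≤ (2 : ℝ) ^ M * (2 * (1 / 4 : ℝ) ^ M) := by
      refine mul_le_mul_of_nonneg_left ?_ (by positivity)
      linarith
    refine h3.trans (le_of_eq ?_)
    rw [mul_left_comm, ← mul_pow]
    norm_num
  have h4 : ((gQ C c KB k₀ + 1 : ℕ) : ℝ) + 1 ≤ ((KB : ℝ) + 3) * 2 ^ ((A + c) * C) := by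
    have h5 : (1 : ℝ) ≤ 2 ^ ((A + c) * C) := one_le_pow₀ (by norm_num)
    unfold gQ
    rw [← hA]
    push_cast
    nlinarith
  have h6 : (((gQ C c KB k₀ + 1 : ℕ) : ℝ) + 1) ^ D ≤
      ((KB : ℝ) + 3) ^ D * 2 ^ ((A + c) * C * D) := by
    refine (pow_le_pow_left₀ (by positivity) h4 D).trans (le_of_eq ?_)
    rw [mul_pow, ← pow_mul]
  have h7 : (2 : ℝ) ^ ((A + c) * C * D) * (1 / 2 : ℝ) ^ M ≤ (1 / 2 : ℝ) ^ N := by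
    have h8 : (1 / 2 : ℝ) ^ M ≤ (1 / 2 : ℝ) ^ ((A + c) * C * D + A) :=
      pow_le_pow_of_le_one (by norm_num) (by norm_num) hbig
    have h9 : (2 : ℝ) ^ ((A + c) * C * D) * (1 / 2 : ℝ) ^ ((A + c) * C * D + A) =
        (1 / 2 : ℝ) ^ A := by
      rw [pow_add, ← mul_assoc, ← mul_pow]
      norm_num
    have h10 : (1 / 2 : ℝ) ^ A ≤ (1 / 2 : ℝ) ^ N :=
      pow_le_pow_of_le_one (by norm_num) (by norm_num) (by omega)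
    calc (2 : ℝ) ^ ((A + c) * C * D) * (1 / 2 : ℝ) ^ M
        ≤ (2 : ℝ) ^ ((A + c) * C * D) * (1 / 2 : ℝ) ^ ((A + c) * C * D + A) :=
          mul_le_mul_of_nonneg_left h8 (by positivity)
      _ = (1 / 2 : ℝ) ^ A := h9
      _ ≤ (1 / 2 : ℝ) ^ N := h10
  have h0 : 0 ≤ (2 : ℝ) ^ M * (2 * δ ^ M') := by positivity
  calc (((gQ C c KB k₀ + 1 : ℕ) : ℝ) + 1) ^ D * (2 ^ M * (2 * δ ^ M'))
      ≤ (((KB : ℝ) + 3) ^ D * 2 ^ ((A + c) * C * D)) * (2 * (1 / 2 : ℝ) ^ M) :=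
        mul_le_mul h6 h2 h0 (by positivity)
    _ = 2 * ((KB : ℝ) + 3) ^ D * (2 ^ ((A + c) * C * D) * (1 / 2 : ℝ) ^ M) := by ring
    _ ≤ 2 * ((KB : ℝ) + 3) ^ D * (1 / 2 : ℝ) ^ N :=
        mul_le_mul_of_nonneg_left h7 (by positivity)
    _ ≤ 2 * ((KB : ℝ) + 3) ^ D * (ε / (2 * ((KB : ℝ) + 3) ^ D)) :=
        mul_le_mul_of_nonneg_left hN.le (by positivity)
    _ = ε := by field_simp

end Pool.Agent.Lib.MP_31386d_pr_RQ
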