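import Pool.Agent.Lib.MP_31386d_pr_RQ.ParDefs

/-!
# Parameters: the quenched step
-/

set_option autoImplicit false

namespace Pool.Agent.Lib.MP_31386d_pr_RQ

private lemma t4_half (k : ℕ) : 2 ^ k / 2 ≤ lQ k := by
  have h : 2 * k ≤ 2 ^ k + 1 := by
    induction k with
    | zero => simp
    | succ n ih =>
      rcases Nat.eq_zero_or_pos n with h0 | h0
      · subst h0; norm_num
      · have h1 : 2 ≤ 2 ^ n := by
          calc 2 = 2 ^ 1 := by norm_num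
            _ ≤ 2 ^ n := Nat.pow_le_pow_right (by norm_num) h0
        rw [pow_succ]
        omega
  have h2 : k < 2 ^ k := Nat.lt_two_pow_self
  unfold lQ
  omega

private lemma t4_exp (D k : ℕ) : 2 ^ k / (8 * D + 24) ≤ pQ D k / 2 := by
  have h1 : pQ D k / 2 = lQ k / (4 * D + 12) := by
    unfold pQ
    rw [Nat.div_div_eq_div_mul]
    congr 1
    ring
  have h2 : 2 ^ k / (8 * D + 24) = (2 ^ k / 2) / (4 * D + 12) := by
    rw [Nat.div_div_eq_div_mul]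
    congr 1
    ring
  rw [h1, h2]
  exact Nat.div_le_div_right (t4_half k)

private lemma t4_event (D : ℕ) (K₁ : ℝ) {β : ℝ} (hβ : 0 < β) :
    ∃ n₁ : ℕ, ∀ n : ℕ, n₁ ≤ n → K₁ * ((n : ℝ) + 1) ^ (D + 1) ≤ β * 2 ^ n := by
  have h := tendsto_pow_const_div_const_pow_of_one_lt (D + 1) (one_lt_two : (1 : ℝ) < 2)
  have h1 := (Filter.tendsto_add_atTop_iff_nat 1).2 h
  have h2 := h1.const_mul (2 * |K₁|)
  rw [mul_zero] at h2
  have h3 := (h2.eventually (gt_mem_nhds hβ)).exists_forall_of_atTop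
  obtain ⟨n₁, hn⟩ := h3
  refine ⟨n₁, fun n hn1 => ?_⟩
  have h4 := hn n hn1
  push_cast at h4
  have h5 : (0 : ℝ) < 2 ^ n := by positivity
  have h6 : 2 * |K₁| * (((n : ℝ) + 1) ^ (D + 1) / 2 ^ (n + 1)) =
      |K₁| * ((n : ℝ) + 1) ^ (D + 1) / 2 ^ n := by
    rw [pow_succ (2 : ℝ) n]
    field_simp
  rw [h6, div_lt_iff₀ h5] at h4
  have h7 : K₁ * ((n : ℝ) + 1) ^ (D + 1) ≤ |K₁| * ((n : ℝ) + 1) ^ (D + 1) :=
    mul_le_mul_of_nonneg_right (le_abs_self _) (by positivity)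
  linarith

private lemma t4_tau {κ E₀ p : ℕ} {τ α : ℝ} (hτ : 0 < τ)
    (hκτ : 1 ≤ 2 ^ κ * τ ^ 8) (hα : 0 < α) :
    α * (τ ^ E₀) ^ 4 * 2 ^ (p / 2) ≤ α * (τ ^ (p / κ + E₀)) ^ 4 * 2 ^ p := by
  have h1 : 1 ≤ ((τ ^ (p / κ)) ^ 4) ^ 2 * 2 ^ p := by
    have h2 : (2 : ℝ) ^ (κ * (p / κ)) ≤ 2 ^ p :=
      pow_le_pow_right₀ (by norm_num) (Nat.mul_div_le p κ)
    have h3 : 1 ≤ (2 ^ κ * τ ^ 8) ^ (p / κ) := one_le_pow₀ hκτ
    have h4 : (2 ^ κ * τ ^ 8) ^ (p / κ) = ((τ ^ (p / κ)) ^ 4) ^ 2 * 2 ^ (κ * (p / κ)) := by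
      rw [mul_pow, ← pow_mul, ← pow_mul, ← pow_mul, ← pow_mul, mul_comm]
      congr 2
      ring
    rw [h4] at h3
    refine h3.trans ?_
    exact mul_le_mul_of_nonneg_left h2 (by positivity)
  have h5 : (2 : ℝ) ^ (p / 2) ≤ (τ ^ (p / κ)) ^ 4 * 2 ^ p := by
    have h6 : ((2 : ℝ) ^ (p / 2)) ^ 2 ≤ ((τ ^ (p / κ)) ^ 4 * 2 ^ p) ^ 2 := by
      have h7 : ((2 : ℝ) ^ (p / 2)) ^ 2 ≤ 2 ^ p := by
        rw [← pow_mul]
        exact pow_le_pow_right₀ (by norm_num) (by omega)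
      have h8 : ((τ ^ (p / κ)) ^ 4 * 2 ^ p) ^ 2 = ((τ ^ (p / κ)) ^ 4) ^ 2 * 2 ^ p * 2 ^ p := by
        ring
      rw [h8]
      refine h7.trans ?_
      exact le_mul_of_one_le_left (by positivity) h1
    exact (pow_le_pow_iff_left₀ (by positivity) (by positivity) (by norm_num)).1 h6
  have h9 : α * (τ ^ (p / κ + E₀)) ^ 4 * 2 ^ p =
      α * (τ ^ E₀) ^ 4 * ((τ ^ (p / κ)) ^ 4 * 2 ^ p) := by
    rw [pow_add]
    ring
  rw [h9]
  exact mul_le_mul_of_nonneg_left h5 (by positivity)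

private lemma t4_nat (n : ℕ) : (n : ℝ) ≤ Real.exp n := by
  have := Real.add_one_le_exp (n : ℝ)
  linarith

private lemma t4_two (n : ℕ) : (2 : ℝ) ^ n ≤ Real.exp n := by
  have h : (2 : ℝ) ≤ Real.exp 1 := by
    have := Real.add_one_le_exp (1 : ℝ)
    linarith
  calc (2 : ℝ) ^ n ≤ Real.exp 1 ^ n := pow_le_pow_left₀ (by norm_num) h n
    _ = Real.exp n := by rw [← Real.exp_nat_mul, mul_one]

theorem par_t4 (D C c KB : ℕ) {κ E₀ : ℕ} (hκ : 1 ≤ κ) {τ α : ℝ} (hτ : 0 < τ) (hτ1 : τ ≤ 1)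
    (hκτ : 1 ≤ 2 ^ κ * τ ^ 8) (hα : 0 < α) {ε : ℝ} (hε : 0 < ε) :
    ∃ k₁ : ℕ, ∀ k₀ : ℕ, k₁ ≤ k₀ → (((gQ C c KB k₀ + 1 : ℕ) : ℝ) + 1) ^ D *
      (2 ^ ((2 ^ (k₀ + 1)) ^ (D + 1)) *
        (2 * Real.exp (-(α * (τ ^ (pQ D k₀ / κ + E₀)) ^ 4 * 2 ^ pQ D k₀)))) ≤ ε := by
  set B : ℕ := 8 * D + 24 with hB
  set β : ℝ := α * (τ ^ E₀) ^ 4 with hβ
  have hβ0 : 0 < β := by positivity
  set K₁ : ℝ := D * ((KB : ℝ) + 3 + (B + c) * C) + (2 * B) ^ (D + 1) + 1 + |Real.log ε| with hK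
  obtain ⟨n₁, hn⟩ := t4_event D K₁ hβ0
  refine ⟨B * n₁, fun k₀ hk => ?_⟩
  set A : ℕ := 2 ^ k₀ with hA
  set n : ℕ := A / B with hn'
  have hB0 : 0 < B := by omega
  have hA1 : B * n₁ ≤ A := hk.trans Nat.lt_two_pow_self.le
  have hnn : n₁ ≤ n := by
    rw [hn', Nat.le_div_iff_mul_le hB0, mul_comm]
    exact hA1
  have hAn : (A : ℝ) ≤ B * ((n : ℝ) + 1) := by
    have h1 : A < B * (n + 1) := by
      have := Nat.lt_mul_div_succ A hB0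
      exact this
    exact_mod_cast h1.le
  have h1 := hn n hnn
  -- the exponent
  have h2 : β * 2 ^ n ≤ α * (τ ^ (pQ D k₀ / κ + E₀)) ^ 4 * 2 ^ pQ D k₀ := by
    refine le_trans ?_ (t4_tau hτ hκτ hα)
    exact mul_le_mul_of_nonneg_left (pow_le_pow_right₀ (by norm_num) (t4_exp D k₀)) hβ0.le
  -- the coefficient
  have h3 : (((gQ C c KB k₀ + 1 : ℕ) : ℝ) + 1) ^ D ≤
      Real.exp (D * ((KB : ℝ) + 3 + (A + c) * C)) := by
    have h4 : ((gQ C c KB k₀ + 1 : ℕ) : ℝ) + 1 ≤ Real.exp ((KB : ℝ) + 3 + (A + c) * C) := by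
      have h5 : ((gQ C c KB k₀ + 1 : ℕ) : ℝ) + 1 ≤ ((KB + 3 : ℕ) : ℝ) * 2 ^ ((A + c) * C) := by
        unfold gQ
        push_cast
        have h6 : (1 : ℝ) ≤ 2 ^ ((2 ^ k₀ + c) * C) := one_le_pow₀ (by norm_num)
        rw [hA]
        nlinarith
      refine h5.trans ?_
      rw [Real.exp_add]
      refine mul_le_mul ?_ ?_ (by positivity) (Real.exp_pos _).le
      · have := t4_nat (KB + 3)
        push_cast at this ⊢
        exact this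
      · have := t4_two ((A + c) * C)
        push_cast at this
        exact this
    calc (((gQ C c KB k₀ + 1 : ℕ) : ℝ) + 1) ^ D ≤ Real.exp ((KB : ℝ) + 3 + (A + c) * C) ^ D :=
          pow_le_pow_left₀ (by positivity) h4 D
      _ = Real.exp (D * ((KB : ℝ) + 3 + (A + c) * C)) := by rw [← Real.exp_nat_mul]
  have h7 : (2 : ℝ) ^ ((2 ^ (k₀ + 1)) ^ (D + 1)) ≤ Real.exp ((2 * (A : ℝ)) ^ (D + 1)) := by
    have := t4_two ((2 ^ (k₀ + 1)) ^ (D + 1))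
    refine this.trans (le_of_eq ?_)
    congr 1
    rw [hA]
    push_cast
    rw [pow_succ (2 : ℝ) k₀, mul_comm (2 : ℝ)]
  have h8 : (2 : ℝ) ≤ Real.exp 1 := by
    have := Real.add_one_le_exp (1 : ℝ)
    linarith
  have hlog : ε = Real.exp (Real.log ε) := (Real.exp_log hε).symm
  have hfin : D * ((KB : ℝ) + 3 + (A + c) * C) + ((2 * (A : ℝ)) ^ (D + 1) +
      (1 + -(α * (τ ^ (pQ D k₀ / κ + E₀)) ^ 4 * 2 ^ pQ D k₀))) ≤ Real.log ε := by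
    have hn1 : (1 : ℝ) ≤ (n : ℝ) + 1 := by
      have : (0 : ℝ) ≤ n := Nat.cast_nonneg n
      linarith
    have hpow : (n : ℝ) + 1 ≤ ((n : ℝ) + 1) ^ (D + 1) := by
      calc (n : ℝ) + 1 = ((n : ℝ) + 1) ^ 1 := (pow_one _).symm
        _ ≤ ((n : ℝ) + 1) ^ (D + 1) := pow_le_pow_right₀ hn1 (by omega)
    set W : ℝ := ((n : ℝ) + 1) ^ (D + 1) with hW
    have hW1 : 1 ≤ W := hn1.trans hpow
    have e1 : D * ((KB : ℝ) + 3 + (A + c) * C) ≤ D * ((KB : ℝ) + 3 + (B + c) * C) * W := by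
      have h9 : (KB : ℝ) + 3 + (A + c) * C ≤ ((KB : ℝ) + 3 + (B + c) * C) * W := by
        have e2 : (A : ℝ) ≤ B * W :=
          hAn.trans (mul_le_mul_of_nonneg_left hpow (Nat.cast_nonneg _))
        have e3 : ((A : ℝ) + c) * C ≤ (B * W + c * W) * C := by
          refine mul_le_mul_of_nonneg_right ?_ (Nat.cast_nonneg _)
          have : (c : ℝ) ≤ c * W := le_mul_of_one_le_right (Nat.cast_nonneg _) hW1
          linarith
        have e4 : (KB : ℝ) + 3 ≤ ((KB : ℝ) + 3) * W :=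
          le_mul_of_one_le_right (by positivity) hW1
        nlinarith
      calc D * ((KB : ℝ) + 3 + (A + c) * C) ≤ D * (((KB : ℝ) + 3 + (B + c) * C) * W) :=
            mul_le_mul_of_nonneg_left h9 (Nat.cast_nonneg _)
        _ = D * ((KB : ℝ) + 3 + (B + c) * C) * W := by ring
    have e5 : (2 * (A : ℝ)) ^ (D + 1) ≤ (2 * B) ^ (D + 1) * W := by
      calc (2 * (A : ℝ)) ^ (D + 1) ≤ (2 * B * ((n : ℝ) + 1)) ^ (D + 1) := by
            refine pow_le_pow_left₀ (by positivity) ?_ _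
            linarith
        _ = (2 * B) ^ (D + 1) * W := by rw [mul_pow]
    have e6 : (1 : ℝ) ≤ 1 * W := by linarith
    have e7 : -Real.log ε ≤ |Real.log ε| * W := by
      refine (neg_le_abs _).trans ?_
      exact le_mul_of_one_le_right (abs_nonneg _) hW1
    have e8 : K₁ * W = D * ((KB : ℝ) + 3 + (B + c) * C) * W + (2 * B) ^ (D + 1) * W + 1 * W +
        |Real.log ε| * W := by
      rw [hK]; ring
    linarith
  calc (((gQ C c KB k₀ + 1 : ℕ) : ℝ) + 1) ^ D *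
      (2 ^ ((2 ^ (k₀ + 1)) ^ (D + 1)) *
        (2 * Real.exp (-(α * (τ ^ (pQ D k₀ / κ + E₀)) ^ 4 * 2 ^ pQ D k₀))))
      ≤ Real.exp (D * ((KB : ℝ) + 3 + (A + c) * C)) * (Real.exp ((2 * (A : ℝ)) ^ (D + 1)) *
        (Real.exp 1 * Real.exp (-(α * (τ ^ (pQ D k₀ / κ + E₀)) ^ 4 * 2 ^ pQ D k₀)))) := by
        gcongr
    _ = Real.exp (D * ((KB : ℝ) + 3 + (A + c) * C) + ((2 * (A : ℝ)) ^ (D + 1) +
      (1 + -(α * (τ ^ (pQ D k₀ / κ + E₀)) ^ 4 * 2 ^ pQ D k₀)))) := by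
        rw [Real.exp_add, Real.exp_add, Real.exp_add]
    _ ≤ Real.exp (Real.log ε) := Real.exp_le_exp.2 hfin
    _ = ε := hlog.symm

end Pool.Agent.Lib.MP_31386d_pr_RQ
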