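import Pool.Agent.Lib.MP_31386d_pr_RQ.ParG
import Pool.Agent.Lib.MP_31386d_pr_RQ.ParT1
import Pool.Agent.Lib.MP_31386d_pr_RQ.ParT2
import Pool.Agent.Lib.MP_31386d_pr_RQ.ParT3
import Pool.Agent.Lib.MP_31386d_pr_RQ.ParT4
import Pool.Agent.Lib.MP_31386d_pr_RQ.FineQ

/-!
# Choice of the parameters
-/

set_option autoImplicit false

namespace Pool.Agent.Lib.MP_31386d_pr_RQ

/-- For suitable parameters the probability of a bad coarse block is as small as we like. -/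
theorem exists_param_q {D : ℕ} (hD : 2 ≤ D) {C c KA KB κ E₀ R r : ℕ} (hκ : 1 ≤ κ)
    {o v₀ ρ lam δ : ℝ} (hv₀ : 0 < v₀) (hv : v₀ < o) (hρ : 0 < ρ) (hρ1 : ρ ≤ 1)
    (hκτ : 1 ≤ 2 ^ κ * (v₀ / (v₀ + 2)) ^ 8) (hlam : 0 < lam)
    (hR : lam ^ R * 2 ^ (κ * (4 * D + 12) * (C * D + D + 2)) ≤ 1) (hδ : 0 ≤ δ)
    (hδ1 : δ ≤ (1 / 4) ^ (2 ^ (2 * (D + 1) + 1))) {ε : ℝ} (hε : 0 < ε) :
    ∃ k₀ : ℕ, k₀ ≤ 2 ^ k₀ ∧ pQ D k₀ ≤ 2 ^ k₀ ∧ r < 2 ^ pQ D k₀ ∧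
      2 * (KA * (2 * 4 ^ pQ D k₀) ^ (D + 2)) < (2 * r + 1) * 2 ^ lQ k₀ ∧
      4 * 4 ^ pQ D k₀ ≤ 2 ^ 2 ^ k₀ ∧
      (((gQ C c KB k₀ + 1 : ℕ) : ℝ) + 1) ^ D *
        ((((2 ^ (k₀ + 1)) ^ (D + 1) : ℕ) : ℝ) * (1 - ρ) ^ ((2 ^ lQ k₀) ^ (D + 1)) +
          fineB (D + 1) k₀ (pQ D k₀) (2 ^ k₀ + c - pQ D k₀) (pQ D k₀ / κ + E₀) o v₀ δ
            (2 * lam ^ ((pQ D k₀ / κ + 1) * R))) ≤ ε := by
  have ho : 0 < o := hv₀.trans hv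
  have hε4 : 0 < ε / 4 := by positivity
  obtain ⟨k1, h1⟩ := par_geom D r KA
  obtain ⟨k2, h2⟩ := par_t1 D C c KB hρ hρ1 hε4
  obtain ⟨k3, h3⟩ := par_t2 D C c KB hκ hlam hR hε4
  obtain ⟨k4, h4⟩ := par_t3 hD C c KB hδ hδ1 hε4
  have hτ : 0 < v₀ / (v₀ + 2) := by positivity
  have hτ1 : v₀ / (v₀ + 2) ≤ 1 := by
    rw [div_le_one (by positivity)]
    linarith
  have hα : 0 < (o - v₀) / ((1 + o) * (144 * (2 ^ (D + 1) * ((D + 1 : ℕ) : ℝ)))) := by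
    have : 0 < o - v₀ := sub_pos.2 hv
    positivity
  obtain ⟨k5, h5⟩ := par_t4 D C c KB (κ := κ) (E₀ := E₀) hκ hτ hτ1 hκτ hα hε4
  set k₀ := max k1 (max k2 (max k3 (max k4 k5))) with hk₀
  have e1 : k1 ≤ k₀ := le_max_left _ _
  have e2 : k2 ≤ k₀ := (le_max_left _ _).trans (le_max_right _ _)
  have e3 : k3 ≤ k₀ := (le_max_left _ _).trans ((le_max_right _ _).trans (le_max_right _ _))
  have e4 : k4 ≤ k₀ := (le_max_left _ _).trans ((le_max_right _ _).trans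
    ((le_max_right _ _).trans (le_max_right _ _)))
  have e5 : k5 ≤ k₀ := (le_max_right _ _).trans ((le_max_right _ _).trans
    ((le_max_right _ _).trans (le_max_right _ _)))
  obtain ⟨g1, g2, g3, g4, g5⟩ := h1 k₀ e1
  refine ⟨k₀, g1, g2, g3, g4, g5, ?_⟩
  have t1 := h2 k₀ e2
  have t2 := h3 k₀ e3
  have t3 := h4 k₀ e4
  have t4 := h5 k₀ e5
  have hpL : pQ D k₀ + (2 ^ k₀ + c - pQ D k₀) = 2 ^ k₀ + c := by omega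
  have hexp : -((o - v₀) * (((v₀ / (v₀ + 2)) ^ (pQ D k₀ / κ + E₀)) ^ 4 / (1 + o)) *
      (2 ^ pQ D k₀ / (144 * (2 ^ (D + 1) * ((D + 1 : ℕ) : ℝ))))) =
      -((o - v₀) / ((1 + o) * (144 * (2 ^ (D + 1) * ((D + 1 : ℕ) : ℝ)))) *
        ((v₀ / (v₀ + 2)) ^ (pQ D k₀ / κ + E₀)) ^ 4 * 2 ^ pQ D k₀) := by
    rw [neg_inj]
    generalize ((v₀ / (v₀ + 2)) ^ (pQ D k₀ / κ + E₀)) ^ 4 = X
    have h1o : (1 + o) ≠ 0 := by positivity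
    have h2o : (144 * (2 ^ (D + 1) * ((D + 1 : ℕ) : ℝ))) ≠ 0 := by positivity
    field_simp
  unfold fineB
  rw [hpL, hexp]
  calc _ = (((gQ C c KB k₀ + 1 : ℕ) : ℝ) + 1) ^ D *
        ((((2 ^ (k₀ + 1)) ^ (D + 1) : ℕ) : ℝ) * (1 - ρ) ^ ((2 ^ lQ k₀) ^ (D + 1))) +
      (((gQ C c KB k₀ + 1 : ℕ) : ℝ) + 1) ^ D *
        ((2 ^ (2 ^ k₀ + c)) ^ (D + 1) * (2 * lam ^ ((pQ D k₀ / κ + 1) * R))) +
      (((gQ C c KB k₀ + 1 : ℕ) : ℝ) + 1) ^ D *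
        (2 ^ ((2 ^ (k₀ + 1)) ^ (D + 1)) *
          (2 * δ ^ ((2 ^ (k₀ + 1)) ^ (D + 1) / 2 ^ (2 * (D + 1) + 1)))) +
      (((gQ C c KB k₀ + 1 : ℕ) : ℝ) + 1) ^ D *
        (2 ^ ((2 ^ (k₀ + 1)) ^ (D + 1)) *
          (2 * Real.exp (-((o - v₀) / ((1 + o) * (144 * (2 ^ (D + 1) * ((D + 1 : ℕ) : ℝ)))) *
            ((v₀ / (v₀ + 2)) ^ (pQ D k₀ / κ + E₀)) ^ 4 * 2 ^ pQ D k₀)))) := by ring
    _ ≤ ε / 4 + ε / 4 + ε / 4 + ε / 4 := by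
        exact add_le_add (add_le_add (add_le_add t1 t2) t3) t4
    _ = ε := by ring

end Pool.Agent.Lib.MP_31386d_pr_RQ
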