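import Pool.Agent.Lib.MP_31386d_pr_RQ.Closed
import Pool.Agent.Lib.MP_31386d_pr_RQ.ArmPts

/-!
# Closed distance between two points
-/

set_option autoImplicit false

namespace Pool.Agent.Lib.MP_31386d_pr_RQ

open Finset
open Pool.Agent.Lib.MP_31386d_pr
open Pool.Agent.Lib.MP_31386d_pr_POTTS

variable {d : ℕ}

private theorem tdp_cs_mono {ω ω' : Finset (Ed d)} (h : ω ⊆ ω') {Y Z : Finset (Pt d)}
    (hc : CS ω Y Z) : CS ω' Y Z := by
  obtain ⟨y, hy, z, hz, hyz⟩ := hc
  exact ⟨y, hy, z, hz, hyz.mono h⟩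

private theorem tdp_dom {u q : ℝ} (hu : 0 < u) (hq : 1 ≤ q) {V V' : Finset (Pt d)} (hV : V ⊆ V')
    (Y Z : Finset (Pt d)) : Pb u q V' (EI V') (fun ω => ¬ CS ω Y Z) ≤
      Pb u q V (EI V) (fun ω => ¬ CS ω Y Z) := by
  classical
  have e1 : Pb u q (V ∪ (V' \ V)) (EI V) (fun ω => CS ω Y Z) =
      Pb u q V (EI V) (fun ω => CS ω Y Z) := by
    unfold Pb
    apply Ex_isol hu hq disjoint_sdiff
    intro e he
    rw [mem_EI] at he
    simp only [mem_sdiff]
    tauto
  rw [union_sdiff_of_subset hV] at e1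
  have e2 : Pb u q V' (EI V) (fun ω => CS ω Y Z) ≤ Pb u q V' (EI V') (fun ω => CS ω Y Z) :=
    Slab.Pb_mono_E hu hq (EI_mono hV) (fun s t hst h => tdp_cs_mono hst h)
  rw [Pb_not hu hq, Pb_not hu hq, ← e1]
  linarith

private theorem tdp_cs_shE {t : Pt d} {ω : Finset (Ed d)} {Y Z : Finset (Pt d)} :
    CS (shE t ω) (shV t Y) (shV t Z) ↔ CS ω Y Z := by
  constructor
  · rintro ⟨y, hy, z, hz, h⟩
    rw [mem_shV] at hy hz
    refine ⟨y - t, hy, z - t, hz, ?_⟩
    rw [← conn_shE (t := t), sub_add_cancel, sub_add_cancel]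
    exact h
  · rintro ⟨y, hy, z, hz, h⟩
    refine ⟨y + t, ?_, z + t, ?_, conn_shE.mpr h⟩
    · rw [mem_shV, add_sub_cancel_right]
      exact hy
    · rw [mem_shV, add_sub_cancel_right]
      exact hz

private theorem tdp_shift {u q : ℝ} (t : Pt d) (V : Finset (Pt d)) (Y Z : Finset (Pt d)) :
    Pb u q (shV t V) (EI (shV t V)) (fun ω => ¬ CS ω (shV t Y) (shV t Z)) =
      Pb u q V (EI V) (fun ω => ¬ CS ω Y Z) := by
  classical
  unfold Pb
  rw [EI_shV, Ex_shV]
  apply Ex_congr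
  intro ω _
  by_cases h : CS ω Y Z
  · rw [if_neg (not_not.2 h), if_neg (not_not.2 (tdp_cs_shE.2 h))]
  · rw [if_pos h, if_pos (fun h' => h (tdp_cs_shE.1 h'))]

private theorem tdp_conn {c x y : Pt d} {l : ℕ} (hx : x ∈ cub c l) (hy : y ∈ cub c l) :
    Conn (EI (cub c l)) x y := by
  refine Slab.conn_Icc (a := fun i => c i - (l : ℤ)) (b := fun i => c i + (l : ℤ)) ?_ hx hy
  intro z
  rw [mem_cub, Grid.mem_Icc']
  refine forall_congr' fun i => ?_
  rw [abs_le]
  constructor
  · intro h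
    exact ⟨by have := h.1; omega, by have := h.2; omega⟩
  · intro h
    exact ⟨by have := h.1; omega, by have := h.2; omega⟩

private theorem tdp_center (c : Pt d) (l : ℕ) : c ∈ cub c l := by
  rw [mem_cub]
  intro i
  rw [sub_self, abs_zero]
  exact Int.natCast_nonneg l

private theorem tdp_sub {c : Pt d} {l m : ℕ} (h : l ≤ m) : cub c l ⊆ cub c m := by
  intro z hz
  rw [mem_cub] at hz ⊢
  intro i
  have h1 : (l : ℤ) ≤ m := by exact_mod_cast h
  exact (hz i).trans h1

private theorem tdp_card (c : Pt d) (l : ℕ) : (EI (cub c l)).card = (EI (cube d l)).card := by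
  rw [cub, EI_shV, card_shE]

/-- Two points at distance at most `n` are at small closed distance, if large balls are connected
with probability close to one. -/
theorem td_points {ua ub uc q ε : ℝ} (hua : 0 < ua) (hub : 0 < ub) (hq : 1 ≤ q) (hε : 0 < ε)
    (hε1 : ε < 1) (hab : ua * (1 + ub * ε) ≤ ub * (1 - ε)) (hbc : ub ≤ uc) {M s n R k : ℕ}
    (h : ∀ x : Pt d, (∀ i, |x i| ≤ n) →
      Pb ua q (cube d M) (EI (cube d M)) (fun ω => ¬ CS ω (cube d s) (cub x s)) ≤ ε ^ R / 2)
    (hs : s ≤ M) {V : Finset (Pt d)} {x z : Pt d} (hx : cub x M ⊆ V) (hz : cub z M ⊆ V)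
    (hxz : ∀ i, |z i - x i| ≤ n) :
    Pb uc q V (EI V)
      (fun ω => ¬ TD (EI V) ω (k + 2 * (EI (cube d s)).card) {x} {z}) ≤
      2 * (ub / uc) ^ ((k + 1) * R) := by
  classical
  have h1 := h (z - x) (fun i => by simpa using hxz i)
  have e1 : shV x (cub (z - x) s) = cub z s := by
    ext p
    rw [cub, cub, mem_shV, mem_shV, mem_shV]
    have e2 : p - x - (z - x) = p - z := by abel
    rw [e2]
  have h2 := tdp_shift (u := ua) (q := q) x (cube d M) (cube d s) (cub (z - x) s)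
  rw [e1] at h2
  rw [← h2] at h1
  have h3 : Pb ua q V (EI V) (fun ω => ¬ CS ω (cub x s) (cub z s)) ≤ ε ^ R / 2 :=
    (tdp_dom hua hq hx _ _).trans h1
  have h4 := closed_dist (k := k) hua hub hq hε hε1 hab hbc V (EI V) h3
  refine (Pb_mono (lt_of_lt_of_le hub hbc) hq fun ω _ hω hTD => hω ?_).trans h4
  obtain ⟨S, hS, hSk, y, hy, z', hz', hconn⟩ := hTD
  have hxs : EI (cub x s) ⊆ EI V := EI_mono ((tdp_sub hs).trans hx)
  have hzs : EI (cub z s) ⊆ EI V := EI_mono ((tdp_sub hs).trans hz)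
  refine ⟨S ∪ (EI (cub x s) ∪ EI (cub z s)), union_subset hS (union_subset hxs hzs), ?_, x,
    mem_singleton_self x, z, mem_singleton_self z, ?_⟩
  · have c1 := card_union_le S (EI (cub x s) ∪ EI (cub z s))
    have c2 := card_union_le (EI (cub x s)) (EI (cub z s))
    rw [tdp_card, tdp_card] at c2
    omega
  · have a1 : Conn (ω ∪ (S ∪ (EI (cub x s) ∪ EI (cub z s)))) x y :=
      (tdp_conn (tdp_center x s) hy).mono
        (subset_union_left.trans (subset_union_right.trans subset_union_right))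
    have a2 : Conn (ω ∪ (S ∪ (EI (cub x s) ∪ EI (cub z s)))) z' z :=
      (tdp_conn hz' (tdp_center z s)).mono
        (subset_union_right.trans (subset_union_right.trans subset_union_right))
    have a3 : Conn (ω ∪ (S ∪ (EI (cub x s) ∪ EI (cub z s)))) y z' :=
      hconn.mono (union_subset_union_right subset_union_left)
    exact a1.trans (a3.trans a2)

end Pool.Agent.Lib.MP_31386d_pr_RQ
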