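import Pool.Agent.Lib.MP_31386d_pr_RQ.CoarseM
import Pool.Agent.Lib.MP_31386d_pr_RQ.ParamQ
import Pool.Agent.Lib.MP_31386d_pr_RQ.TDPt
import Pool.Agent.Lib.MP_31386d_pr_POTTS.SlabTwo
import Pool.Agent.Lib.MP_31386d_pr_POTTS.SlabA

/-!
# Uniform connectivity in slabs from the two inputs
-/

set_option autoImplicit false

namespace Pool.Agent.Lib.MP_31386d_pr_RQ

open Finset
open Pool.Agent.Lib.MP_31386d_pr
open Pool.Agent.Lib.MP_31386d_pr_POTTS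

private theorem mainQ_mono_u {d : ℕ} {u u' q : ℝ} (hu : 0 < u) (huu : u ≤ u') (hq : 1 ≤ q)
    (V : Finset (Pt d)) (E : Finset (Ed d)) {P : Finset (Ed d) → Prop}
    (hP : ∀ s t, s ⊆ t → P s → P t) : Pb u q V E P ≤ Pb u' q V E P := by
  classical
  unfold Pb
  refine Ex_dom_u hu huu hq (fun ω => by split_ifs <;> norm_num) (fun s t hst => ?_)
  split_ifs with h1 h2
  · exact le_rfl
  · exact absurd (hP _ _ hst h1) h2
  · norm_num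
  · exact le_rfl

private theorem mainQ_arm_mono {d : ℕ} {ω ω' : Finset (Ed d)} (h : ω ⊆ ω') {Y : Finset (Pt d)}
    {c : Pt d} {m : ℕ} (hA : Arm ω Y c m) : Arm ω' Y c m := by
  obtain ⟨x, hx, y, hy, hxy⟩ := hA
  exact ⟨x, hx, y, hy, hxy.mono h⟩

theorem main_q {D : ℕ} (hD : 2 ≤ D) {q : ℝ} (hq : 1 ≤ q) {ua u' : ℝ} (hua : 0 < ua)
    (hu : ua < u') (hA : InA (D + 1) ua q) (hB : InB (D + 1) ua q) :
    ∃ L₀ : ℕ, ∀ L : ℕ, L₀ ≤ L → ∃ α : ℝ, 0 < α ∧ ∀ n : ℕ, ∀ x ∈ slab (D + 1) L n,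
      α < Pb u' q (slab (D + 1) L n) (EI (slab (D + 1) L n)) (fun ω => Conn ω 0 x) := by
  obtain ⟨ub, hab, hbu⟩ := exists_between hu
  obtain ⟨uc, hbc, hcu⟩ := exists_between hbu
  obtain ⟨ud, hcd, hdu⟩ := exists_between hcu
  have hub : 0 < ub := hua.trans hab
  have huc : 0 < uc := hub.trans hbc
  have hud : 0 < ud := huc.trans hcd
  have hq0 : 0 < q := by linarith
  -- the numbers
  set ε : ℝ := (ub - ua) / (ub * (ua + 1)) with hεd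
  have hden : 0 < ub * (ua + 1) := mul_pos hub (by linarith)
  have hε : 0 < ε := div_pos (by linarith) hden
  have hε1 : ε < 1 := by
    rw [hεd, div_lt_one hden]
    nlinarith [mul_pos hub hua]
  have hεe : ε * (ub * (ua + 1)) = ub - ua := by
    rw [hεd]
    exact div_mul_cancel₀ _ hden.ne'
  have habε : ua * (1 + ub * ε) ≤ ub * (1 - ε) := by nlinarith [hεe]
  set o : ℝ := (ud - uc) / (uc + q) with hod
  have ho : 0 < o := div_pos (by linarith) (by linarith)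
  have hoe : o * (uc + q) = ud - uc := by
    rw [hod]
    exact div_mul_cancel₀ _ (by linarith)
  have hsp : uc * (1 + o) + o * q ≤ ud := by nlinarith [hoe]
  set v₀ : ℝ := o / 2 with hvd
  have hv₀ : 0 < v₀ := by positivity
  have hv : v₀ < o := by rw [hvd]; linarith
  set om : ℝ := (u' - ud) / (ud + q) with homd
  have hom : 0 < om := div_pos (by linarith) (by linarith)
  set lam : ℝ := ub / uc with hlamd
  have hlam : 0 < lam := div_pos hub huc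
  have hlam1 : lam < 1 := by rw [hlamd, div_lt_one huc]; exact hbc
  have hτ : 0 < v₀ / (v₀ + 2) := by positivity
  obtain ⟨κ', hκ'⟩ := pow_unbounded_of_one_lt ((v₀ / (v₀ + 2)) ^ 8)⁻¹ (one_lt_two)
  set κ : ℕ := κ' + 1 with hκd
  have hκ : 1 ≤ κ := by omega
  have hκτ : 1 ≤ 2 ^ κ * (v₀ / (v₀ + 2)) ^ 8 := by
    have h8 : 0 < (v₀ / (v₀ + 2)) ^ 8 := by positivity
    have h1 : ((v₀ / (v₀ + 2)) ^ 8)⁻¹ ≤ (2 : ℝ) ^ κ :=
      hκ'.le.trans (pow_le_pow_right₀ one_le_two (by omega))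
    calc (1 : ℝ) = ((v₀ / (v₀ + 2)) ^ 8)⁻¹ * (v₀ / (v₀ + 2)) ^ 8 :=
          (inv_mul_cancel₀ h8.ne').symm
      _ ≤ 2 ^ κ * (v₀ / (v₀ + 2)) ^ 8 := mul_le_mul_of_nonneg_right h1 h8.le
  obtain ⟨C, hC, hBC⟩ := hB
  obtain ⟨R, hR'⟩ := exists_pow_lt_of_lt_one
    (show (0 : ℝ) < ((2 : ℝ) ^ (κ * (4 * D + 12) * (C * D + D + 2)))⁻¹ by positivity) hlam1
  have hR : lam ^ R * 2 ^ (κ * (4 * D + 12) * (C * D + D + 2)) ≤ 1 := by
    have h2 : (0 : ℝ) < 2 ^ (κ * (4 * D + 12) * (C * D + D + 2)) := by positivity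
    calc lam ^ R * 2 ^ (κ * (4 * D + 12) * (C * D + D + 2))
        ≤ ((2 : ℝ) ^ (κ * (4 * D + 12) * (C * D + D + 2)))⁻¹ *
          2 ^ (κ * (4 * D + 12) * (C * D + D + 2)) := mul_le_mul_of_nonneg_right hR'.le h2.le
      _ = 1 := inv_mul_cancel₀ h2.ne'
  set δ : ℝ := (1 / 4) ^ (2 ^ (2 * (D + 1) + 1)) with hδd
  have hδ : 0 < δ := by positivity
  have hδ1 : δ ≤ 1 := pow_le_one₀ (by norm_num) (by norm_num)
  obtain ⟨r, KA, hKA, hArm⟩ := hA δ hδ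
  obtain ⟨s, KB, hKB, hCS⟩ := hBC (ε ^ R / 2) (by positivity)
  set c : ℕ := 4 * (2 * r + 1) + s with hcd'
  have hc1 : c ≤ 2 ^ c := Nat.lt_two_pow_self.le
  have hc : 4 * (2 * r + 1) ≤ 2 ^ c := le_trans (by omega) hc1
  have hs : s ≤ 2 ^ c := le_trans (by omega) hc1
  set E₀ : ℕ := 2 * (EI (cube (D + 1) s)).card with hE₀
  set ρ : ℝ := (om / (om + 1)) ^ (EI (Box (D + 1) (2 * r + 1))).card with hρd
  have hρ : 0 < ρ := by positivity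
  have hρ1 : ρ ≤ 1 := pow_le_one₀ (by positivity)
    ((div_le_one (by linarith)).mpr (by linarith))
  obtain ⟨k₀, hk, hp, hr, hN, h4, hsm⟩ := exists_param_q hD (C := C) (c := c) (KA := KA)
    (KB := KB) (κ := κ) (E₀ := E₀) (R := R) (r := r) hκ (o := o) (v₀ := v₀) (ρ := ρ)
    (lam := lam) (δ := δ) hv₀ hv hρ hρ1 hκτ hlam hR hδ.le le_rfl
    (ε := (1 / (2 * 25 ^ D * (2 ^ D + 4))) ^ (3 ^ D)) (by positivity)
  -- the arms
  have h1 : Pb uc q (cube (D + 1) (KA * (2 * 4 ^ pQ D k₀) ^ (D + 2)))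
      (EI (cube (D + 1) (KA * (2 * 4 ^ pQ D k₀) ^ (D + 2))))
      (fun ω => ¬ Arm ω (cube (D + 1) r) 0 (2 * 4 ^ pQ D k₀)) ≤ δ := by
    refine le_trans ?_ (hArm (2 * 4 ^ pQ D k₀) (Nat.one_le_iff_ne_zero.mpr (by positivity)))
    rw [Pb_not huc hq, Pb_not hua hq]
    have := mainQ_mono_u hua (hab.trans hbc).le hq
      (cube (D + 1) (KA * (2 * 4 ^ pQ D k₀) ^ (D + 2)))
      (EI (cube (D + 1) (KA * (2 * 4 ^ pQ D k₀) ^ (D + 2))))
      (P := fun ω => Arm ω (cube (D + 1) r) 0 (2 * 4 ^ pQ D k₀))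
      (fun s t hst h => mainQ_arm_mono hst h)
    linarith
  -- the points
  have hn1 : 1 ≤ 2 ^ (2 ^ k₀ + c) := Nat.one_le_two_pow
  have hsM : s ≤ KB * (2 ^ (2 ^ k₀ + c)) ^ C := by
    calc s ≤ 2 ^ c := hs
      _ ≤ 2 ^ (2 ^ k₀ + c) := Nat.pow_le_pow_right (by norm_num) (by omega)
      _ ≤ (2 ^ (2 ^ k₀ + c)) ^ C := Nat.le_self_pow (by omega) _
      _ ≤ KB * (2 ^ (2 ^ k₀ + c)) ^ C := Nat.le_mul_of_pos_left _ hKB
  have h2 : ∀ (V : Finset (Pt (D + 1))) (x z : Pt (D + 1)),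
      cub x (KB * (2 ^ (2 ^ k₀ + c)) ^ C) ⊆ V → cub z (KB * (2 ^ (2 ^ k₀ + c)) ^ C) ⊆ V →
      (∀ i, |z i - x i| ≤ ((2 ^ (2 ^ k₀ + c) : ℕ) : ℤ)) →
      Pb uc q V (EI V) (fun ω => ¬ TD (EI V) ω (pQ D k₀ / κ + E₀) {x} {z}) ≤
        2 * lam ^ ((pQ D k₀ / κ + 1) * R) := by
    intro V x z hx hz hxz
    exact td_points hua hub hq hε hε1 habε hbc.le
      (fun y hy => hCS (2 ^ (2 ^ k₀ + c)) hn1 y hy) hsM hx hz hxz
  have hbad : ∀ k : Pt D, JP ((u' - ud) / (ud + q)) ud q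
      (reg ((2 * r + 1) * 2 ^ lQ k₀ * 2 ^ k₀) (gQ C c KB k₀) (gQ C c KB k₀ + 1) k)
      (fun b ω => ¬ GoodC (2 * r + 1) (lQ k₀) k₀ (gQ C c KB k₀) (gQ C c KB k₀ + 1) k b ω) ≤
      (1 / (2 * 25 ^ D * (2 ^ D + 4))) ^ (3 ^ D) := by
    intro k
    exact (coarse_main hD hq huc hv₀ hv.le hsp hom hC hKB hc hk hp hr hN h4 hδ1 h1 h2 k).trans hsm
  refine ⟨(2 * gQ C c KB k₀ + 2) * ((2 * r + 1) * 2 ^ lQ k₀ * 2 ^ k₀), fun L hL => ?_⟩
  have hL1 : 1 ≤ L := le_trans (Nat.one_le_iff_ne_zero.mpr (by positivity)) hL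
  exact slab_of_slb hL1 (slab_final hD hud hdu hq (by omega) le_rfl hbad hL)

end Pool.Agent.Lib.MP_31386d_pr_RQ
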