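import Pool.Agent.Lib.MP_31386d_pr_RQ.Inputs
import Pool.Agent.Lib.MP_31386d_pr_RQ.MainQ
import Pool.Agent.Lib.MP_31386d_pr_REALQ.Compare

/-!
# Slab percolation for every real cluster weight
-/

set_option autoImplicit false

namespace Pool.Agent.Lib.MP_31386d_pr_RQ

open Finset
open Pool.Agent.Lib.MP_31386d_pr
open Pool.Agent.Lib.MP_31386d_pr_POTTS

theorem slab_real {d : ℕ} (hd : 3 ≤ d) {q : ℝ} (hq : 1 < q) :
    Pool.Agent.Lib.MP_31386d_pr_REALQ.SlabQ d q := by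
  intro u u' hu huu hθ
  obtain ⟨D, rfl⟩ : ∃ D, d = D + 1 := ⟨d - 1, by omega⟩
  obtain ⟨ua, h1, h2⟩ := exists_between huu
  exact main_q (by omega) hq.le (hu.trans h1) h2 (inA (by omega) hq hu h1 hθ)
    (inB (by omega) hq hu h1 hθ)

theorem frozen_real : ∀ d : ℕ, 3 ≤ d → ∀ q : ℝ, 1 ≤ q → FrozenFor d q :=
  Pool.Agent.Lib.MP_31386d_pr_REALQ.frozen_of_slabQ (fun _ hd _ hq => slab_real hd hq)

end Pool.Agent.Lib.MP_31386d_pr_RQ
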