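import Pool.Agent.Lib.MP_31386d_pr_RQ.NOneD

/-!
# N1: in the free measure a big cube has long arms with high probability
-/

set_option autoImplicit false

namespace Pool.Agent.Lib.MP_31386d_pr_RQ

open Finset
open Pool.Agent.Lib.MP_31386d_pr
open Pool.Agent.Lib.MP_31386d_pr_POTTS

/-- With probability close to one, in any region containing a cube of side `K m ^ d`, some point of
a big cube has an arm of length `m`. -/
theorem n_one {d : ℕ} (hd : 1 ≤ d) {q : ℝ} (hq : 1 < q) {u₁ u₂ : ℝ} (hu₁ : 0 < u₁)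
    (hu : u₁ < u₂) (hθ : ∃ c : ℝ, 0 < c ∧ ∀ r : ℕ, c ≤ thw d u₁ q r) {δ : ℝ} (hδ : 0 < δ) :
    ∃ r₀ K : ℕ, 1 ≤ K ∧ ∀ r, r₀ ≤ r → ∀ m : ℕ, 1 ≤ m → ∀ (x : Pt d) (V : Finset (Pt d)),
      shV x (cube d (K * m ^ d)) ⊆ V →
      1 - δ ≤ Pb u₂ q V (EI V) (fun ω => ∃ y ∈ shV x (cube d r), Out (shV x (cube d m)) ω y) := by
  have hq1 : 1 ≤ q := hq.le
  obtain ⟨c, hc, hθ⟩ := hθ
  have hu₀ : u₁ < (u₁ + u₂) / 2 := by linarith
  obtain ⟨K0, hK0, hr0⟩ := NOne.r_zero hd hq hu₁ hu₀ hc hθ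
  have hc1 : c ≤ 1 := (hθ 0).trans (thw_le_one hu₁ hq1 0)
  obtain ⟨J, hJ⟩ : ∃ J : ℕ, (1 - c / 2) ^ J < δ / 2 :=
    exists_pow_lt_of_lt_one (by linarith) (by linarith)
  have hη : 0 < δ / (8 * (J + 1 : ℝ)) := by positivity
  obtain ⟨ua, ub, ha, hab, hb, k, hk, hflat⟩ := NOne.exists_flat (d := d) hq1
    (a := (u₁ + u₂) / 2) (b := u₂) (by linarith) (by linarith) hη
  have hua : 0 < ua := by linarith
  obtain ⟨K', _, hgs⟩ := NOne.good_scale (d := d) hd hq hua hab (η := δ / 4) (by linarith)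
  obtain ⟨M, hM⟩ : ∃ M, M = K0 * k ^ d := ⟨_, rfl⟩
  obtain ⟨r₀, hr₀⟩ : ∃ r₀, r₀ = J * (2 * M + 1) := ⟨_, rfl⟩
  obtain ⟨K, hK⟩ : ∃ K, K = K' + 2 * (r₀ + M) + 2 := ⟨_, rfl⟩
  have hkM : k ≤ M := by
    rw [hM]
    calc k ≤ k ^ d := Nat.le_self_pow (by omega) k
      _ = 1 * k ^ d := (one_mul _).symm
      _ ≤ K0 * k ^ d := Nat.mul_le_mul_right _ hK0
  refine ⟨r₀, 2 * K + 1, by omega, fun r hr m hm x V hV => ?_⟩
  have hmd : 1 ≤ m ^ d := Nat.one_le_pow _ _ hm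
  obtain ⟨N, hN⟩ : ∃ N, N = K * m ^ d := ⟨_, rfl⟩
  have hNK : K ≤ N := by
    rw [hN]
    exact Nat.le_mul_of_pos_right _ hmd
  have hV' : shV x (cube d (2 * N + 1)) ⊆ V := by
    refine subset_trans ?_ hV
    intro y hy
    rw [mem_shV] at hy ⊢
    refine cube_mono ?_ hy
    have : (2 * K + 1) * m ^ d = 2 * N + m ^ d := by
      rw [hN]
      ring
    omega
  obtain ⟨u, hu1, hu2, v, hv, hvs, hsum⟩ := hgs m hm N
    (by rw [hN]; exact Nat.mul_le_mul_right _ (by omega))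
  have hu0 : 0 < u := hua.trans hu1
  -- the points
  obtain ⟨z, hz⟩ : ∃ z : ℕ → Pt d, z = fun i l => v l + (i * (2 * M + 1) : ℕ) := ⟨_, rfl⟩
  have hzl : ∀ i l, z i l = v l + (i * (2 * M + 1) : ℕ) := fun i l => by rw [hz]
  have hir : ∀ i ∈ range J, i * (2 * M + 1) ≤ r₀ := fun i hi => by
    rw [hr₀]
    exact Nat.mul_le_mul_right _ (mem_range.1 hi).le
  have hv' : ∀ l, -((N / 2 : ℕ) : ℤ) ≤ v l ∧ v l ≤ ((N / 2 : ℕ) : ℤ) := by
    rw [mem_cube] at hv
    exact hv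
  have hW : ∀ i ∈ range J, shV (z i) (cube d M) ⊆ cube d N := by
    intro i hi y hy
    rw [mem_shV_cube] at hy
    rw [mem_cube]
    intro l
    have h1 := hy l
    have h2 := hv' l
    have h3 := hir i hi
    rw [hzl, abs_le] at h1
    generalize i * (2 * M + 1) = A at h1 h3
    constructor <;> omega
  have hdis : ∀ i ∈ range J, ∀ j ∈ range J, i ≠ j →
      Disjoint (shV (z i) (cube d M)) (shV (z j) (cube d M)) := by
    intro i _ j _ hij
    rw [Finset.disjoint_left]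
    intro y hy hy'
    rw [mem_shV_cube] at hy hy'
    have h1 := hy ⟨0, hd⟩
    have h2 := hy' ⟨0, hd⟩
    rw [hzl, abs_le] at h1 h2
    rcases Nat.lt_or_gt_of_ne hij with h | h
    · have h3 : (i + 1) * (2 * M + 1) ≤ j * (2 * M + 1) := Nat.mul_le_mul_right _ h
      have h4 : (i + 1) * (2 * M + 1) = i * (2 * M + 1) + (2 * M + 1) := by ring
      generalize i * (2 * M + 1) = A at *
      generalize j * (2 * M + 1) = B at *
      omega
    · have h3 : (j + 1) * (2 * M + 1) ≤ i * (2 * M + 1) := Nat.mul_le_mul_right _ h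
      have h4 : (j + 1) * (2 * M + 1) = j * (2 * M + 1) + (2 * M + 1) := by ring
      generalize i * (2 * M + 1) = A at *
      generalize j * (2 * M + 1) = B at *
      omega
  have hlow : ∀ x : Pt d, c / 2 ≤ Pb u q (shV x (cube d M)) (EI (shV x (cube d M)))
      (fun ω => Out (shV x (cube d k)) ω x) := by
    intro x
    refine (hr0 k hk x (shV x (cube d M)) (by rw [hM])).trans ?_
    exact NOne.Pb_mono_u (by linarith) (by linarith) hq1 (fun s t hst h => h.mono hst subset_rfl)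
  have hfl : thw d u q k ≤ thw d u q (2 * N) + 2 * (δ / (8 * (J + 1 : ℝ))) := by
    have h1 := thw_mono_u (d := d) (q := q) hu0 hu2.le hq1 k
    have h2 := thw_mono_u (d := d) (q := q) hua hu1.le hq1 (2 * N)
    have h3 := hflat (2 * N)
    linarith
  have hwir := NOne.wired_arm (u := u) (q := q) hu0 hq1 hkM hW hdis (c := c) (by linarith) hlow hfl
  -- the event
  set Q : Pt d → Finset (Ed d) → Prop :=
    fun x ω => ∃ y ∈ shV x (cube d r), Out (shV x (cube d m)) ω y with hQ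
  have hQm : ∀ x s t, s ⊆ t → Q x s → Q x t := by
    rintro x s t hst ⟨y, hy, h⟩
    exact ⟨y, hy, h.mono hst subset_rfl⟩
  have hQs : ∀ x t ω, Q (x + t) (shE t ω) ↔ Q x ω := by
    intro x t ω
    constructor
    · rintro ⟨y, hy, h⟩
      refine ⟨y - t, ?_, ?_⟩
      · rw [NOne.shV_shV, mem_shV] at hy
        exact hy
      · rw [← out_shE (t := t), sub_add_cancel, ← NOne.shV_shV]
        exact h
    · rintro ⟨y, hy, h⟩
      refine ⟨y + t, ?_, ?_⟩
      · rw [NOne.shV_shV, mem_shV, add_sub_cancel_right]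
        exact hy
      · rw [NOne.shV_shV, out_shE]
        exact h
  have hQl : ∀ ω, Q v ω → Q v (ω ∩ EB (shV v (cube d m))) := by
    rintro ω ⟨y, hy, h⟩
    exact ⟨y, hy, h.restrict⟩
  have h1 : Pb u q (cube d N) (EB (cube d N)) (fun ω => ∃ i ∈ range J, Out (cube d N) ω (z i)) ≤
      Pb u q (cube d N) (EB (cube d N)) (Q v) := by
    refine Pb_mono hu0 hq1 fun ω _ h => ?_
    obtain ⟨i, hi, h⟩ := h
    refine ⟨z i, ?_, h.mono subset_rfl hvs⟩
    rw [mem_shV_cube]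
    intro l
    have h3 := hir i hi
    rw [hzl, abs_le]
    generalize i * (2 * M + 1) = A at h3
    constructor <;> omega
  have h2 := NOne.wired_sub_free (u := u) (q := q) (N := N) hu0 hq (EB_mono hvs) (hQm v) hQl
  have h3 := NOne.transfer (u := u) (u' := u₂) (q := q) hu0 (by linarith) hq1 hQm hQs hv hV'
  have h4 : (J : ℝ) * (2 * (δ / (8 * (J + 1 : ℝ)))) ≤ δ / 4 := by
    have e1 : (J : ℝ) * (2 * (δ / (8 * (J + 1 : ℝ)))) = (J / (J + 1 : ℝ)) * (δ / 4) := by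
      field_simp
      ring
    have e2 : (J : ℝ) / (J + 1 : ℝ) ≤ 1 := by
      rw [div_le_one (by positivity)]
      linarith
    rw [e1]
    calc (J : ℝ) / (J + 1 : ℝ) * (δ / 4) ≤ 1 * (δ / 4) :=
          mul_le_mul_of_nonneg_right e2 (by linarith)
      _ = δ / 4 := one_mul _
  show 1 - δ ≤ Pb u₂ q V (EI V) (Q x)
  linarith

end Pool.Agent.Lib.MP_31386d_pr_RQ
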