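import Pool.Agent.Lib.MP_31386d_pr_RQ.NumDefs

/-!
# Project RQ: choice of the parameters

All parameters are powers of two in terms of `N = 2 ^ ((k₀ + 1) * (D + 1) - E₁)`:
the number of blocks of a fine cube is `2 ^ E₁ * N`, the side of the fine cubes is `r * 2 ^ (a * N)`,
the length of the arms is `2 ^ (2 ^ (t + 1) * N)` and the closed distance is `2 ^ (p + 1) * N`.
-/

set_option autoImplicit false

namespace Pool.Agent.Lib.MP_31386d_pr_RQ

open Finset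
open Pool.Agent.Lib.MP_31386d_pr
open Pool.Agent.Lib.MP_31386d_pr_POTTS

private theorem prm_lim {κ : ℝ} (hκ : 0 < κ) {x : ℝ} (hx : 0 < x) {ε : ℝ} (hε : 0 < ε) :
    ∃ N₀ : ℕ, ∀ N : ℕ, N₀ ≤ N → x ^ N * Real.exp (-(κ * (2 ^ N / (N : ℝ) ^ 2))) ≤ ε := by
  have h := tendsto_pow_const_div_const_pow_of_one_lt 3 (r := (2 : ℝ)) (by norm_num)
  have hc : (0 : ℝ) < κ / (|Real.log x| + 1) := by positivity
  obtain ⟨A₀, hA⟩ := Filter.eventually_atTop.mp (h.eventually (gt_mem_nhds hc))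
  obtain ⟨A₁, hA₁⟩ := exists_nat_ge (1 / ε)
  refine ⟨A₀ + A₁ + 1, fun N hN => ?_⟩
  have h2 := hA N (by omega)
  have hp : (0 : ℝ) < 2 ^ N := by positivity
  have hN0 : (0 : ℝ) < N := by
    have : 0 < N := by omega
    exact_mod_cast this
  rw [div_lt_div_iff₀ hp (by positivity)] at h2
  have h3 : (|Real.log x| + 1) * N ≤ κ * (2 ^ N / (N : ℝ) ^ 2) := by
    rw [← mul_div_assoc, le_div_iff₀ (by positivity)]
    calc (|Real.log x| + 1) * N * (N : ℝ) ^ 2 = (N : ℝ) ^ 3 * (|Real.log x| + 1) := by ring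
      _ ≤ κ * 2 ^ N := h2.le
  have h4 : x ^ N = Real.exp (N * Real.log x) := by
    rw [Real.exp_nat_mul, Real.exp_log hx]
  have h5 : (N : ℝ) * Real.log x ≤ N * |Real.log x| :=
    mul_le_mul_of_nonneg_left (le_abs_self _) hN0.le
  calc x ^ N * Real.exp (-(κ * (2 ^ N / (N : ℝ) ^ 2)))
      = Real.exp (N * Real.log x + -(κ * (2 ^ N / (N : ℝ) ^ 2))) := by rw [h4, Real.exp_add]
    _ ≤ Real.exp (-(N : ℝ)) := by
        refine Real.exp_le_exp.2 ?_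
        nlinarith
    _ ≤ ε := by
        rw [Real.exp_neg]
        have h6 : 1 / ε ≤ Real.exp N := by
          have h7 := Real.add_one_le_exp (N : ℝ)
          have h8 : (A₁ : ℝ) ≤ N := by
            have : A₁ ≤ N := by omega
            exact_mod_cast this
          linarith
        rw [← one_div, div_le_iff₀ (Real.exp_pos _)]
        rw [div_le_iff₀ hε] at h6
        linarith

private theorem prm_two {L N : ℕ} {z : ℝ} (h : (L : ℝ) * N ≤ z) :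
    Real.exp (-z) ≤ (1 / 2) ^ (L * N) := by
  have h1 : (2 : ℝ) ≤ Real.exp 1 := by
    have := Real.add_one_le_exp (1 : ℝ)
    linarith
  have h2 : (2 : ℝ) ^ (L * N) ≤ Real.exp z := by
    calc (2 : ℝ) ^ (L * N) ≤ Real.exp 1 ^ (L * N) := pow_le_pow_left₀ (by norm_num) h1 _
      _ = Real.exp ((L : ℝ) * N) := by
          rw [← Real.exp_nat_mul, mul_one]
          push_cast
          rfl
      _ ≤ Real.exp z := Real.exp_le_exp.2 h
  rw [Real.exp_neg, one_div, inv_pow]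
  exact inv_anti₀ (by positivity) h2

/-- The number of fine blocks of a coarse cube. -/
private theorem prm_X (D C r K A : ℕ) (hr : 1 ≤ r) :
    (((K * (4 * (r * 2 ^ A)) ^ C + 2 : ℕ) : ℝ) + 1) ^ D ≤
      (((K : ℝ) + 3) * (4 * (r : ℝ)) ^ C) ^ D * 2 ^ (A * (C * D)) := by
  have hr' : (1 : ℝ) ≤ r := by exact_mod_cast hr
  have h1 : (1 : ℝ) ≤ (4 * ((r : ℝ) * 2 ^ A)) ^ C := by
    refine one_le_pow₀ ?_
    have : (1 : ℝ) ≤ 2 ^ A := one_le_pow₀ (by norm_num)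
    nlinarith
  have h2 : ((K * (4 * (r * 2 ^ A)) ^ C + 2 : ℕ) : ℝ) + 1 ≤
      ((K : ℝ) + 3) * (4 * (r : ℝ)) ^ C * 2 ^ (A * C) := by
    have h3 : ((K : ℝ) + 3) * (4 * (r : ℝ)) ^ C * 2 ^ (A * C) =
        ((K : ℝ) + 3) * (4 * ((r : ℝ) * 2 ^ A)) ^ C := by
      rw [pow_mul, mul_assoc, ← mul_pow]
      ring
    rw [h3]
    push_cast
    nlinarith
  calc (((K * (4 * (r * 2 ^ A)) ^ C + 2 : ℕ) : ℝ) + 1) ^ D
      ≤ (((K : ℝ) + 3) * (4 * (r : ℝ)) ^ C * 2 ^ (A * C)) ^ D :=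
        pow_le_pow_left₀ (by positivity) h2 D
    _ = (((K : ℝ) + 3) * (4 * (r : ℝ)) ^ C) ^ D * 2 ^ (A * (C * D)) := by
        rw [mul_pow, ← pow_mul, mul_assoc A C D]

/-- Choice of the parameters. -/
theorem exists_param {D : ℕ} (hD : 2 ≤ D) (C : ℕ) {o c κ s : ℝ} (ho : 0 < o) (hc : 0 < c)
    (hκ : 0 < κ) (hs : 0 < s) (hs1 : s < 1) :
    ∃ δ : ℝ, 0 < δ ∧ δ < 1 ∧ ∀ r K K' : ℕ, 1 ≤ r → 1 ≤ K → 1 ≤ K' → ∀ ε : ℝ, 0 < ε →
      ∃ l k₀ m k : ℕ, 1 ≤ m ∧ r ≤ m ∧ 4 * (K' * m ^ (D + 2)) + 2 ≤ r * 2 ^ l ∧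
        badN D o r l k₀ (K * (4 * (r * 2 ^ l * 2 ^ k₀)) ^ C + 2)
          (fineN D (Real.exp (c * k * Real.log δ)) κ s δ r l k₀ m k) ≤ ε := by
  obtain ⟨p, hp⟩ : ∃ p : ℕ, p = D + 3 := ⟨_, rfl⟩
  have hp2 : 2 * (D + 2) ≤ 2 ^ p := by
    rw [hp, pow_add]
    have : D < 2 ^ D := Nat.lt_two_pow_self
    omega
  -- the exponent `t`
  obtain ⟨t, ht⟩ : ∃ t : ℕ, 1 ≤ (2 : ℝ) ^ (2 ^ t) * s ^ (4 * 2 ^ (p + 1)) := by
    obtain ⟨t, ht⟩ := exists_nat_ge (1 / s ^ (4 * 2 ^ (p + 1)))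
    refine ⟨t, ?_⟩
    have h1 : 0 < s ^ (4 * 2 ^ (p + 1)) := by positivity
    rw [div_le_iff₀ h1] at ht
    refine ht.trans (mul_le_mul_of_nonneg_right ?_ h1.le)
    have h2 : t ≤ 2 ^ (2 ^ t) := (Nat.lt_two_pow_self).le.trans (Nat.lt_two_pow_self).le
    exact_mod_cast h2
  obtain ⟨a, ha⟩ : ∃ a : ℕ, a = 2 ^ (p + 1 + t) := ⟨_, rfl⟩
  obtain ⟨E, hE⟩ : ∃ E : ℕ, E = p + 1 + t + (2 * D + 3) := ⟨_, rfl⟩
  obtain ⟨L, hL⟩ : ∃ L : ℕ, L = a * (C * D) + 2 ^ E + a * (D + 1) + 1 := ⟨_, rfl⟩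
  obtain ⟨Y, hY⟩ : ∃ Y : ℝ, Y = (L : ℝ) / c + L := ⟨_, rfl⟩
  have hL1 : (1 : ℝ) ≤ L := by
    have : 1 ≤ L := by
      rw [hL]
      exact Nat.le_add_left 1 _
    exact_mod_cast this
  have hY0 : (L : ℝ) ≤ Y := by
    rw [hY]
    have : 0 < (L : ℝ) / c := by positivity
    linarith
  have hcY : (L : ℝ) ≤ c * Y := by
    rw [hY, mul_add, mul_div_cancel₀ _ hc.ne']
    nlinarith
  refine ⟨Real.exp (-Y), Real.exp_pos _, by rw [Real.exp_lt_one_iff]; linarith, ?_⟩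
  intro r K K' hr hK hK' ε hε
  have hr' : (1 : ℝ) ≤ r := by exact_mod_cast hr
  obtain ⟨K₁, hK₁⟩ : ∃ K₁ : ℝ, K₁ = (((K : ℝ) + 3) * (4 * (r : ℝ)) ^ C) ^ D := ⟨_, rfl⟩
  have hK₁0 : 0 < K₁ := by rw [hK₁]; positivity
  obtain ⟨e, he⟩ : ∃ e : ℕ, e = (EI (Box (D + 1) r)).card := ⟨_, rfl⟩
  obtain ⟨p₀, hp₀⟩ : ∃ p₀ : ℝ, p₀ = (o / (o + 1)) ^ e := ⟨_, rfl⟩
  have hp₀0 : 0 < p₀ := by rw [hp₀]; positivity
  have hp₀1 : p₀ ≤ 1 := by
    rw [hp₀]
    refine pow_le_one₀ (by positivity) ?_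
    rw [div_le_one (by linarith)]
    linarith
  obtain ⟨κ', hκ'⟩ : ∃ κ' : ℝ, κ' = κ * s ^ (4 * e) /
      (16 * (D * 2 ^ D) * ((a : ℝ) + 4 * r + 1) ^ 2) := ⟨_, rfl⟩
  have hDr : (0 : ℝ) < D := by
    have : 0 < D := by omega
    exact_mod_cast this
  have hκ'0 : 0 < κ' := by rw [hκ']; positivity
  obtain ⟨N₁, hN₁⟩ := prm_lim hp₀0 (x := 2 ^ (a * (C * D)) * 2) (by positivity)
    (ε := ε / 4 / (K₁ * 2 ^ E)) (by positivity)
  obtain ⟨N₄, hN₄⟩ := prm_lim hκ'0 (x := 2 ^ (a * (C * D) + 2 ^ E)) (by positivity)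
    (ε := ε / 4 / (K₁ * 2)) (by positivity)
  obtain ⟨N₂, hN₂⟩ := exists_nat_ge (K₁ * (4 * (r : ℝ)) ^ (D + 1) / (ε / 4))
  obtain ⟨N₃, hN₃⟩ := exists_nat_ge (K₁ * 2 / (ε / 4))
  -- the scale
  obtain ⟨k₀, hk₀⟩ : ∃ k₀ : ℕ, k₀ = N₁ + N₂ + N₃ + N₄ + 4 * K' + 2 + r + E := ⟨_, rfl⟩
  obtain ⟨N, hN⟩ : ∃ N : ℕ, N = 2 ^ ((k₀ + 1) * (D + 1) - E) := ⟨_, rfl⟩
  have hkE : k₀ + E ≤ (k₀ + 1) * (D + 1) := by nlinarith
  have hNk : k₀ < N := by
    rw [hN]
    calc k₀ < 2 ^ k₀ := Nat.lt_two_pow_self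
      _ ≤ 2 ^ ((k₀ + 1) * (D + 1) - E) := Nat.pow_le_pow_right (by norm_num) (by omega)
  have hM : (2 ^ (k₀ + 1)) ^ (D + 1) = 2 ^ E * N := by
    rw [hN, ← pow_mul, ← pow_add]
    congr 1
    omega
  have hN0 : 0 < N := by omega
  have hNr : (1 : ℝ) ≤ N := by exact_mod_cast hN0
  have ha4 : 4 ≤ a := by
    rw [ha, hp]
    calc 4 = 2 ^ 2 := by norm_num
      _ ≤ 2 ^ (D + 3 + 1 + t) := Nat.pow_le_pow_right (by norm_num) (by omega)
  have hkA : k₀ ≤ a * N := by nlinarith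
  have hA2 : 2 ^ (a * N - k₀) * 2 ^ k₀ = 2 ^ (a * N) := by
    rw [← pow_add]
    congr 1
    omega
  have hA2' : r * 2 ^ (a * N - k₀) * 2 ^ k₀ = r * 2 ^ (a * N) := by rw [mul_assoc, hA2]
  refine ⟨a * N - k₀, k₀, 2 ^ (2 ^ (t + 1) * N), 2 ^ (p + 1) * N, Nat.one_le_two_pow, ?_, ?_, ?_⟩
  · calc r ≤ N := by omega
      _ ≤ 2 ^ N := Nat.lt_two_pow_self.le
      _ ≤ 2 ^ (2 ^ (t + 1) * N) :=
        Nat.pow_le_pow_right (by norm_num) (Nat.le_mul_of_pos_left _ (by positivity))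
  · have h1 : (2 ^ (2 ^ (t + 1) * N)) ^ (D + 2) ≤ 2 ^ (2 ^ (p + t) * N) := by
      rw [← pow_mul]
      refine Nat.pow_le_pow_right (by norm_num) ?_
      calc 2 ^ (t + 1) * N * (D + 2) = 2 ^ t * (2 * (D + 2)) * N := by ring
        _ ≤ 2 ^ t * 2 ^ p * N := by gcongr
        _ = 2 ^ (p + t) * N := by ring
    have h2 : 2 ^ (p + t) * N + 2 ^ (p + t) * N = a * N := by rw [ha]; ring
    have h3 : 2 * N ≤ 2 ^ (p + t) * N := by
      refine Nat.mul_le_mul_right _ ?_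
      calc 2 = 2 ^ 1 := by norm_num
        _ ≤ 2 ^ (p + t) := Nat.pow_le_pow_right (by norm_num) (by omega)
    have h4 : 2 ^ (2 ^ (p + t) * N) * 2 ^ N ≤ 2 ^ (a * N - k₀) := by
      rw [← pow_add]
      refine Nat.pow_le_pow_right (by norm_num) ?_
      omega
    have h5 : 4 * K' + 2 ≤ 2 ^ N := by
      calc 4 * K' + 2 ≤ N := by omega
        _ ≤ 2 ^ N := Nat.lt_two_pow_self.le
    have h6 : 1 ≤ 2 ^ (2 ^ (p + t) * N) := Nat.one_le_two_pow
    calc 4 * (K' * (2 ^ (2 ^ (t + 1) * N)) ^ (D + 2)) + 2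
        ≤ 4 * (K' * 2 ^ (2 ^ (p + t) * N)) + 2 * 2 ^ (2 ^ (p + t) * N) := by
          have := Nat.mul_le_mul_left K' h1
          omega
      _ = 2 ^ (2 ^ (p + t) * N) * (4 * K' + 2) := by ring
      _ ≤ 2 ^ (2 ^ (p + t) * N) * 2 ^ N := Nat.mul_le_mul_left _ h5
      _ ≤ 2 ^ (a * N - k₀) := h4
      _ ≤ r * 2 ^ (a * N - k₀) := Nat.le_mul_of_pos_left _ (by omega)
  · -- the four terms
    have hX := prm_X D C r K (a * N) hr
    rw [← hK₁] at hX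
    unfold badN fineN
    rw [hA2', hM, ← he]
    obtain ⟨X, hXX⟩ : ∃ X : ℝ, X = (((K * (4 * (r * 2 ^ (a * N))) ^ C + 2 : ℕ) : ℝ) + 1) ^ D :=
      ⟨_, rfl⟩
    rw [← hXX] at hX ⊢
    have hX0 : 0 ≤ X := by rw [hXX]; positivity
    have hpow : (2 : ℝ) ^ (a * N * (C * D)) = (2 ^ (a * (C * D))) ^ N := by
      rw [← pow_mul]
      congr 1
      ring
    rw [hpow] at hX
    have h2N : (N : ℝ) ≤ 2 ^ N := by exact_mod_cast (Nat.lt_two_pow_self (n := N)).le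
    have hN2 : (1 : ℝ) ≤ (N : ℝ) ^ 2 := one_le_pow₀ hNr
    -- first term
    have T1 : X * (((2 ^ E * N : ℕ) : ℝ) * (1 - p₀) ^ ((2 ^ (a * N - k₀)) ^ (D + 1))) ≤ ε / 4 := by
      have h1 : (1 - p₀) ^ ((2 ^ (a * N - k₀)) ^ (D + 1)) ≤
          Real.exp (-(p₀ * (2 ^ N / (N : ℝ) ^ 2))) := by
        have h2 : 2 ^ N ≤ (2 ^ (a * N - k₀)) ^ (D + 1) := by
          calc 2 ^ N ≤ 2 ^ (a * N - k₀) := by
                refine Nat.pow_le_pow_right (by norm_num) ?_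
                have : 4 * N ≤ a * N := Nat.mul_le_mul_right _ ha4
                omega
            _ ≤ (2 ^ (a * N - k₀)) ^ (D + 1) := Nat.le_self_pow (by omega) _
        calc (1 - p₀) ^ ((2 ^ (a * N - k₀)) ^ (D + 1)) ≤ (1 - p₀) ^ (2 ^ N) :=
              pow_le_pow_of_le_one (by linarith) (by linarith) h2
          _ ≤ Real.exp (-p₀) ^ (2 ^ N) :=
              pow_le_pow_left₀ (by linarith) (Real.one_sub_le_exp_neg p₀) _
          _ = Real.exp (-(p₀ * 2 ^ N)) := by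
              rw [← Real.exp_nat_mul]
              congr 1
              push_cast
              ring
          _ ≤ Real.exp (-(p₀ * (2 ^ N / (N : ℝ) ^ 2))) := by
              refine Real.exp_le_exp.2 (neg_le_neg (mul_le_mul_of_nonneg_left ?_ hp₀0.le))
              exact div_le_self (by positivity) hN2
      have h3 := hN₁ N (by omega)
      rw [le_div_iff₀ (by positivity)] at h3
      calc X * (((2 ^ E * N : ℕ) : ℝ) * (1 - p₀) ^ ((2 ^ (a * N - k₀)) ^ (D + 1)))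
          ≤ (K₁ * (2 ^ (a * (C * D))) ^ N) * ((2 ^ E * 2 ^ N) *
            Real.exp (-(p₀ * (2 ^ N / (N : ℝ) ^ 2)))) := by
            have h4 : ((2 ^ E * N : ℕ) : ℝ) ≤ 2 ^ E * 2 ^ N := by
              push_cast
              exact mul_le_mul_of_nonneg_left h2N (by positivity)
            refine mul_le_mul hX (mul_le_mul h4 h1 (pow_nonneg (by linarith) _)
              (by positivity)) ?_ (by positivity)
            exact mul_nonneg (by positivity) (pow_nonneg (by linarith) _)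
        _ = (2 ^ (a * (C * D)) * 2) ^ N * Real.exp (-(p₀ * (2 ^ N / (N : ℝ) ^ 2))) *
            (K₁ * 2 ^ E) := by
            rw [mul_pow]
            ring
        _ ≤ ε / 4 := h3
    -- the power of one half
    have hhalf : ∀ (x : ℝ) (n₀ : ℕ), 0 ≤ x → x / (ε / 4) ≤ n₀ → n₀ ≤ N →
        x * (1 / 2) ^ N ≤ ε / 4 := by
      intro x n₀ hx h1 h2
      rw [div_le_iff₀ (by positivity)] at h1
      have h3 : (n₀ : ℝ) ≤ 2 ^ N := by
        have h4 : (n₀ : ℝ) ≤ N := by exact_mod_cast h2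
        exact h4.trans h2N
      rw [one_div, inv_pow, ← div_eq_mul_inv, div_le_iff₀ (by positivity)]
      calc x ≤ n₀ * (ε / 4) := h1
        _ ≤ 2 ^ N * (ε / 4) := mul_le_mul_of_nonneg_right h3 (by positivity)
        _ = ε / 4 * 2 ^ N := mul_comm _ _
    -- second term
    have T2 : X * (2 ^ (2 ^ E * N) * (((4 * (r * 2 ^ (a * N)) : ℕ) : ℝ) ^ (D + 1) *
        Real.exp (c * ((2 ^ (p + 1) * N : ℕ) : ℝ) * Real.log (Real.exp (-Y))))) ≤ ε / 4 := by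
      have h1 : Real.exp (c * ((2 ^ (p + 1) * N : ℕ) : ℝ) * Real.log (Real.exp (-Y))) ≤
          (1 / 2) ^ (L * N) := by
        rw [Real.log_exp, mul_neg]
        refine prm_two ?_
        push_cast
        have h2 : (1 : ℝ) ≤ 2 ^ (p + 1) := one_le_pow₀ (by norm_num)
        calc (L : ℝ) * N ≤ c * Y * N := mul_le_mul_of_nonneg_right hcY (by positivity)
          _ = 1 * (c * Y * N) := (one_mul _).symm
          _ ≤ 2 ^ (p + 1) * (c * Y * N) := by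
              refine mul_le_mul_of_nonneg_right h2 ?_
              have : 0 ≤ c * Y := by linarith
              positivity
          _ = c * (2 ^ (p + 1) * N) * Y := by ring
      have h2 : (((4 * (r * 2 ^ (a * N)) : ℕ) : ℝ)) ^ (D + 1) =
          (4 * (r : ℝ)) ^ (D + 1) * (2 ^ (a * (D + 1))) ^ N := by
        push_cast
        rw [← mul_assoc, mul_pow, ← pow_mul, ← pow_mul]
        congr 2
        ring
      calc X * (2 ^ (2 ^ E * N) * (((4 * (r * 2 ^ (a * N)) : ℕ) : ℝ) ^ (D + 1) *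
            Real.exp (c * ((2 ^ (p + 1) * N : ℕ) : ℝ) * Real.log (Real.exp (-Y)))))
          ≤ (K₁ * (2 ^ (a * (C * D))) ^ N) * (2 ^ (2 ^ E * N) *
            ((4 * (r : ℝ)) ^ (D + 1) * (2 ^ (a * (D + 1))) ^ N * (1 / 2) ^ (L * N))) := by
            rw [h2]
            gcongr
        _ = K₁ * (4 * (r : ℝ)) ^ (D + 1) * (1 / 2) ^ N := by
            have h3 : ((1 : ℝ) / 2) ^ (L * N) = ((2 ^ (a * (C * D))) ^ N)⁻¹ *
                (2 ^ (2 ^ E * N))⁻¹ * ((2 ^ (a * (D + 1))) ^ N)⁻¹ * (1 / 2) ^ N := by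
              rw [hL]
              rw [← pow_mul, ← pow_mul, ← inv_pow, ← inv_pow, ← inv_pow, one_div, ← pow_add,
                ← pow_add, ← pow_add]
              congr 1
              ring
            rw [h3]
            have h4 : ((2 : ℝ) ^ (a * (C * D))) ^ N ≠ 0 := by positivity
            have h5 : (2 : ℝ) ^ (2 ^ E * N) ≠ 0 := by positivity
            have h6 : ((2 : ℝ) ^ (a * (D + 1))) ^ N ≠ 0 := by positivity
            calc K₁ * (2 ^ (a * (C * D))) ^ N * (2 ^ (2 ^ E * N) *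
                ((4 * (r : ℝ)) ^ (D + 1) * (2 ^ (a * (D + 1))) ^ N *
                (((2 ^ (a * (C * D))) ^ N)⁻¹ * (2 ^ (2 ^ E * N))⁻¹ *
                  ((2 ^ (a * (D + 1))) ^ N)⁻¹ * (1 / 2) ^ N)))
                = K₁ * (4 * (r : ℝ)) ^ (D + 1) * (1 / 2) ^ N *
                  ((2 ^ (a * (C * D))) ^ N * ((2 ^ (a * (C * D))) ^ N)⁻¹) *
                  (2 ^ (2 ^ E * N) * (2 ^ (2 ^ E * N))⁻¹) *
                  ((2 ^ (a * (D + 1))) ^ N * ((2 ^ (a * (D + 1))) ^ N)⁻¹) := by ring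
              _ = K₁ * (4 * (r : ℝ)) ^ (D + 1) * (1 / 2) ^ N := by
                  rw [mul_inv_cancel₀ h4, mul_inv_cancel₀ h5, mul_inv_cancel₀ h6]
                  ring
        _ ≤ ε / 4 := hhalf _ N₂ (by positivity) hN₂ (by omega)
    -- third term
    have T3 : X * (2 ^ (2 ^ E * N) * (2 * Real.exp (-Y) ^ (2 ^ E * N / 2 ^ (2 * D + 3)))) ≤
        ε / 4 := by
      have h0 : 2 ^ E * N / 2 ^ (2 * D + 3) = 2 ^ (p + 1 + t) * N := by
        rw [hE, pow_add]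
        have : 2 ^ (p + 1 + t) * 2 ^ (2 * D + 3) * N =
            2 ^ (2 * D + 3) * (2 ^ (p + 1 + t) * N) := by ring
        rw [this]
        exact Nat.mul_div_cancel_left _ (by positivity)
      have h1 : Real.exp (-Y) ^ (2 ^ E * N / 2 ^ (2 * D + 3)) ≤ (1 / 2) ^ (L * N) := by
        rw [h0, ← Real.exp_nat_mul]
        have h2 : ((2 ^ (p + 1 + t) * N : ℕ) : ℝ) * -Y = -(((2 ^ (p + 1 + t) * N : ℕ) : ℝ) * Y) := by
          ring
        rw [h2]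
        refine prm_two ?_
        push_cast
        have h2 : (1 : ℝ) ≤ 2 ^ (p + 1 + t) := one_le_pow₀ (by norm_num)
        have hYN : 0 ≤ Y * N := by
          have : 0 ≤ Y := by linarith
          positivity
        calc (L : ℝ) * N ≤ Y * N := mul_le_mul_of_nonneg_right hY0 (by positivity)
          _ = 1 * (Y * N) := (one_mul _).symm
          _ ≤ 2 ^ (p + 1 + t) * (Y * N) := mul_le_mul_of_nonneg_right h2 hYN
          _ = 2 ^ (p + 1 + t) * N * Y := by ring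
      have h4' : ((1 : ℝ) / 2) ^ (L * N) ≤ ((2 ^ (a * (C * D))) ^ N)⁻¹ *
          (2 ^ (2 ^ E * N))⁻¹ * (1 / 2) ^ N := by
        rw [← pow_mul, ← inv_pow, ← inv_pow, one_div, ← pow_add, ← pow_add]
        refine pow_le_pow_of_le_one (by norm_num) (by norm_num) ?_
        rw [hL]
        nlinarith [Nat.zero_le (a * (D + 1) * N)]
      calc X * (2 ^ (2 ^ E * N) * (2 * Real.exp (-Y) ^ (2 ^ E * N / 2 ^ (2 * D + 3))))
          ≤ (K₁ * (2 ^ (a * (C * D))) ^ N) * (2 ^ (2 ^ E * N) * (2 *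
            (((2 ^ (a * (C * D))) ^ N)⁻¹ * (2 ^ (2 ^ E * N))⁻¹ * (1 / 2) ^ N))) := by
            refine mul_le_mul hX (mul_le_mul_of_nonneg_left (mul_le_mul_of_nonneg_left
              (h1.trans h4') (by norm_num)) (by positivity)) (by positivity) (by positivity)
        _ = K₁ * 2 * (1 / 2) ^ N := by
            have h4 : ((2 : ℝ) ^ (a * (C * D))) ^ N ≠ 0 := by positivity
            have h5 : (2 : ℝ) ^ (2 ^ E * N) ≠ 0 := by positivity
            calc K₁ * (2 ^ (a * (C * D))) ^ N * (2 ^ (2 ^ E * N) * (2 *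
                (((2 ^ (a * (C * D))) ^ N)⁻¹ * (2 ^ (2 ^ E * N))⁻¹ * (1 / 2) ^ N)))
                = K₁ * 2 * (1 / 2) ^ N *
                  ((2 ^ (a * (C * D))) ^ N * ((2 ^ (a * (C * D))) ^ N)⁻¹) *
                  (2 ^ (2 ^ E * N) * (2 ^ (2 ^ E * N))⁻¹) := by ring
              _ = K₁ * 2 * (1 / 2) ^ N := by
                  rw [mul_inv_cancel₀ h4, mul_inv_cancel₀ h5]
                  ring
        _ ≤ ε / 4 := hhalf _ N₃ (by positivity) hN₃ (by omega)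
    -- fourth term
    have T4 : X * (2 ^ (2 ^ E * N) * (2 * Real.exp (-(κ * s ^ (4 * (2 ^ (p + 1) * N + e)) *
        (((2 ^ (2 ^ (t + 1) * N) : ℕ) : ℝ) / (16 * (D * 2 ^ D) *
          ((Nat.clog 2 (4 * (r * 2 ^ (a * N))) : ℝ) + 1) ^ 2)))))) ≤ ε / 4 := by
      have hclog : (Nat.clog 2 (4 * (r * 2 ^ (a * N))) : ℝ) + 1 ≤ ((a : ℝ) + 4 * r + 1) * N := by
        have h1 : Nat.clog 2 (4 * (r * 2 ^ (a * N))) ≤ 4 * r + a * N := by
          refine Nat.clog_le_of_le_pow ?_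
          rw [pow_add, ← mul_assoc]
          exact Nat.mul_le_mul_right _ Nat.lt_two_pow_self.le
        have h2 : (Nat.clog 2 (4 * (r * 2 ^ (a * N))) : ℝ) ≤ 4 * r + a * N := by
          exact_mod_cast h1
        nlinarith
      have hclog0 : (0 : ℝ) ≤ (Nat.clog 2 (4 * (r * 2 ^ (a * N))) : ℝ) + 1 := by positivity
      have hsm : (2 : ℝ) ^ N * s ^ (4 * e) ≤
          s ^ (4 * (2 ^ (p + 1) * N + e)) * ((2 ^ (2 ^ (t + 1) * N) : ℕ) : ℝ) := by
        have h1 : (1 : ℝ) ≤ (2 ^ (2 ^ t) * s ^ (4 * 2 ^ (p + 1))) ^ N := one_le_pow₀ ht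
        have h2 : s ^ (4 * (2 ^ (p + 1) * N + e)) * ((2 ^ (2 ^ (t + 1) * N) : ℕ) : ℝ) =
            (2 ^ (2 ^ t) * s ^ (4 * 2 ^ (p + 1))) ^ N * (2 ^ (2 ^ t * N) * s ^ (4 * e)) := by
          push_cast
          have e1 : 4 * (2 ^ (p + 1) * N + e) = 4 * 2 ^ (p + 1) * N + 4 * e := by ring
          have e2 : 2 ^ (t + 1) * N = 2 ^ t * N + 2 ^ t * N := by ring
          rw [e1, e2, pow_add s, pow_add (2 : ℝ), mul_pow, ← pow_mul, ← pow_mul]
          ring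
        rw [h2]
        have h3 : (2 : ℝ) ^ N ≤ 2 ^ (2 ^ t * N) :=
          pow_le_pow_right₀ (by norm_num) (Nat.le_mul_of_pos_left _ (by positivity))
        calc (2 : ℝ) ^ N * s ^ (4 * e) ≤ 2 ^ (2 ^ t * N) * s ^ (4 * e) :=
              mul_le_mul_of_nonneg_right h3 (by positivity)
          _ = 1 * (2 ^ (2 ^ t * N) * s ^ (4 * e)) := (one_mul _).symm
          _ ≤ _ := mul_le_mul_of_nonneg_right h1 (by positivity)
      have hex : κ' * (2 ^ N / (N : ℝ) ^ 2) ≤ κ * s ^ (4 * (2 ^ (p + 1) * N + e)) *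
        (((2 ^ (2 ^ (t + 1) * N) : ℕ) : ℝ) / (16 * (D * 2 ^ D) *
          ((Nat.clog 2 (4 * (r * 2 ^ (a * N))) : ℝ) + 1) ^ 2)) := by
        have h1 : κ' * (2 ^ N / (N : ℝ) ^ 2) = κ * (2 ^ N * s ^ (4 * e)) /
            (16 * (D * 2 ^ D) * (((a : ℝ) + 4 * r + 1) * N) ^ 2) := by
          rw [hκ', mul_pow, div_mul_div_comm]
          congr 1
          · ring
          · ring
        have h2 : κ * s ^ (4 * (2 ^ (p + 1) * N + e)) *
            (((2 ^ (2 ^ (t + 1) * N) : ℕ) : ℝ) / (16 * (D * 2 ^ D) *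
              ((Nat.clog 2 (4 * (r * 2 ^ (a * N))) : ℝ) + 1) ^ 2)) =
            κ * (s ^ (4 * (2 ^ (p + 1) * N + e)) * ((2 ^ (2 ^ (t + 1) * N) : ℕ) : ℝ)) /
              (16 * (D * 2 ^ D) *
              ((Nat.clog 2 (4 * (r * 2 ^ (a * N))) : ℝ) + 1) ^ 2) := by
          ring
        rw [h1, h2]
        refine div_le_div₀ (by positivity) (mul_le_mul_of_nonneg_left hsm hκ.le) (by positivity) ?_
        refine mul_le_mul_of_nonneg_left ?_ (by positivity)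
        exact pow_le_pow_left₀ hclog0 hclog 2
      have h3 := hN₄ N (by omega)
      rw [le_div_iff₀ (by positivity)] at h3
      calc X * (2 ^ (2 ^ E * N) * (2 * Real.exp (-(κ * s ^ (4 * (2 ^ (p + 1) * N + e)) *
            (((2 ^ (2 ^ (t + 1) * N) : ℕ) : ℝ) / (16 * (D * 2 ^ D) *
              ((Nat.clog 2 (4 * (r * 2 ^ (a * N))) : ℝ) + 1) ^ 2))))))
          ≤ (K₁ * (2 ^ (a * (C * D))) ^ N) * (2 ^ (2 ^ E * N) *
            (2 * Real.exp (-(κ' * (2 ^ N / (N : ℝ) ^ 2))))) := by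
            refine mul_le_mul hX (mul_le_mul_of_nonneg_left (mul_le_mul_of_nonneg_left
              (Real.exp_le_exp.2 (neg_le_neg hex)) (by norm_num)) (by positivity)) (by positivity)
              (by positivity)
        _ = (2 ^ (a * (C * D) + 2 ^ E)) ^ N * Real.exp (-(κ' * (2 ^ N / (N : ℝ) ^ 2))) *
            (K₁ * 2) := by
            rw [pow_add (2 : ℝ) (a * (C * D)) (2 ^ E), mul_pow, ← pow_mul (2 : ℝ) (2 ^ E) N]
            ring
        _ ≤ ε / 4 := h3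
    rw [← hp₀]
    have hsum : ∀ t1 t2 t3 t4 : ℝ, X * (t1 + 2 ^ (2 ^ E * N) * (t2 + t3 + t4)) =
        X * t1 + X * (2 ^ (2 ^ E * N) * t2) + X * (2 ^ (2 ^ E * N) * t3) +
          X * (2 ^ (2 ^ E * N) * t4) := by
      intro t1 t2 t3 t4
      ring
    rw [hsum]
    linarith

end Pool.Agent.Lib.MP_31386d_pr_RQ
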