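import Pool.Agent.Lib.MP_31386d_pr_RQ.QAvg
import Pool.Agent.Lib.MP_31386d_pr_RQ.Closed
import Pool.Agent.Lib.MP_31386d_pr_RQ.Spr
import Pool.Agent.Lib.MP_31386d_pr_RQ.NOne

/-!
# Project RQ, input R1': connection of balls in the free measure

The proof is by quenching (Q1 for `q = 2`).
-/

set_option autoImplicit false

namespace Pool.Agent.Lib.MP_31386d_pr_RQ

open Finset
open Pool.Agent.Lib.MP_31386d_pr
open Pool.Agent.Lib.MP_31386d_pr_POTTS

variable {d : ℕ}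

section basic

variable {u q : ℝ} {V : Finset (Pt d)} {E : Finset (Ed d)}

private theorem roneB_ind (P : Finset (Ed d) → Prop) :
    Ex u q V E (fun ω => ind (P ω)) = Pb u q V E P := by
  classical
  unfold Pb
  refine Ex_congr fun ω _ => ?_
  by_cases h : P ω
  · rw [if_pos h, ind_of h]
  · rw [if_neg h, ind_not h]

private theorem roneB_ExB (f : Finset (Ed d) → ℝ) : ExB u q V E ∅ f = Ex u q V E f := by
  unfold ExB Ex
  rw [← Zs_one]
  congr 1
  · exact Zs_congr _ _ fun ω _ => by rw [ind_of (empty_subset ω), one_mul]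
  · exact Zs_congr _ _ fun ω _ => ind_of (empty_subset ω)

private theorem roneB_PbB (P : Finset (Ed d) → Prop) : PbB u q V E ∅ P = Pb u q V E P := by
  unfold PbB
  rw [roneB_ExB, roneB_ind]

private theorem roneB_mono_u {u' : ℝ} (hu : 0 < u) (huu : u ≤ u') (hq : 1 ≤ q)
    {P : Finset (Ed d) → Prop} (hP : ∀ s t, s ⊆ t → P s → P t) :
    Pb u q V E P ≤ Pb u' q V E P := by
  classical
  unfold Pb
  refine Ex_dom_u hu huu hq (fun ω => by split_ifs <;> norm_num) (fun s t hst => ?_)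
  split_ifs with h1 h2
  · exact le_rfl
  · exact absurd (hP _ _ hst h1) h2
  · norm_num
  · exact le_rfl

private theorem roneB_mono_V (hu : 0 < u) (hq : 1 ≤ q) {V' : Finset (Pt d)} (hV : V ⊆ V')
    {P : Finset (Ed d) → Prop} (hP : ∀ s t, s ⊆ t → P s → P t) :
    Pb u q V (EI V) P ≤ Pb u q V' (EI V') P := by
  classical
  have e1 : Pb u q (V ∪ (V' \ V)) (EI V) P = Pb u q V (EI V) P := by
    unfold Pb
    apply Ex_isol hu hq disjoint_sdiff
    intro e he
    rw [mem_EI] at he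
    simp only [mem_sdiff]
    tauto
  rw [union_sdiff_of_subset hV] at e1
  rw [← e1]
  exact Slab.Pb_mono_E hu hq (EI_mono hV) hP

private theorem roneB_CS_mono {ω ω' : Finset (Ed d)} (h : ω ⊆ ω') {Y Z : Finset (Pt d)}
    (hc : CS ω Y Z) : CS ω' Y Z := by
  obtain ⟨y, hy, z, hz, hyz⟩ := hc
  exact ⟨y, hy, z, hz, hyz.mono h⟩

/-- translation -/
private theorem roneB_shift (t : Pt d) (V : Finset (Pt d)) (a b : Pt d) (r : ℕ) :
    Pb u q (shV t V) (EI (shV t V)) (fun ω => CS ω (cub (a + t) r) (cub (b + t) r)) =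
      Pb u q V (EI V) (fun ω => CS ω (cub a r) (cub b r)) := by
  classical
  unfold Pb
  rw [EI_shV, Ex_shV]
  apply Ex_congr
  intro ω _
  have h : CS (shE t ω) (cub (a + t) r) (cub (b + t) r) ↔ CS ω (cub a r) (cub b r) := by
    unfold CS cub
    constructor
    · rintro ⟨y, hy, z, hz, h⟩
      refine ⟨y - t, ?_, z - t, ?_, ?_⟩
      · rw [mem_shV] at hy ⊢
        have e : y - t - a = y - (a + t) := by abel
        rw [e]
        exact hy
      · rw [mem_shV] at hz ⊢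
        have e : z - t - b = z - (b + t) := by abel
        rw [e]
        exact hz
      · rw [← MP_31386d_pr.conn_shE (t := t), sub_add_cancel, sub_add_cancel]
        exact h
    · rintro ⟨y, hy, z, hz, h⟩
      refine ⟨y + t, ?_, z + t, ?_, ?_⟩
      · rw [mem_shV] at hy ⊢
        have e : y + t - (a + t) = y - a := by abel
        rw [e]
        exact hy
      · rw [mem_shV] at hz ⊢
        have e : z + t - (b + t) = z - b := by abel
        rw [e]
        exact hz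
      · rw [MP_31386d_pr.conn_shE (t := t)]
        exact h
  by_cases h1 : CS ω (cub a r) (cub b r)
  · rw [if_pos h1, if_pos (h.2 h1)]
  · rw [if_neg h1, if_neg (fun h' => h1 (h.1 h'))]

end basic

/-- A ball connected far away is connected to the sphere. -/
private theorem roneB_sph {N r : ℕ} {z : Pt d} {ω : Finset (Ed d)} (hz : z ∈ cube d N)
    (h : ∃ y ∈ shV z (cube d r), Out (shV z (cube d (2 * N + 1))) ω y) :
    CS ω (cub z r) (Sph d N) := by
  classical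
  obtain ⟨y, hy, p, hp, h1⟩ := h
  by_cases hyN : y ∈ cube d N
  · by_contra hcon
    have h2 : ∀ s ∈ Sph d N, ¬ Conn ω y s := fun s hs hs' => hcon ⟨y, hy, s, hs, hs'⟩
    have h3 : ∀ a, Conn ω y a → a ∈ cube d N := by
      intro a ha
      induction ha with
      | refl => exact hyN
      | tail hab hbc ih =>
        rename_i b c
        by_contra hc
        apply h2 c ?_ (Conn.trans hab hbc.conn)
        unfold Sph
        rw [mem_sdiff]
        refine ⟨?_, hc⟩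
        obtain ⟨i, hi⟩ := hbc.lat
        rw [mem_cube] at ih ⊢
        intro j
        have h4 := ih j
        have h5 : c j - b j ≤ 1 ∧ -1 ≤ c j - b j := by
          rcases hi with hi | hi
          · rw [hi, Pi.add_apply]
            by_cases hij : j = i
            · subst hij
              rw [Pi.single_eq_same]
              constructor <;> omega
            · rw [Pi.single_eq_of_ne hij]
              constructor <;> omega
          · rw [hi, Pi.add_apply]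
            by_cases hij : j = i
            · subst hij
              rw [Pi.single_eq_same]
              constructor <;> omega
            · rw [Pi.single_eq_of_ne hij]
              constructor <;> omega
        push_cast
        constructor <;> omega
    apply hp
    have h4 := h3 p h1
    rw [mem_shV, mem_cube]
    rw [mem_cube] at h4 hz
    intro j
    have h5 := h4 j
    have h6 := hz j
    rw [Pi.sub_apply]
    push_cast
    constructor <;> omega
  · have hex : ∃ i, y i < -(N : ℤ) ∨ (N : ℤ) < y i := by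
      by_contra hne
      push Not at hne
      apply hyN
      rw [mem_cube]
      exact fun i => hne i
    obtain ⟨i, hi⟩ := hex
    have hy' : ∀ j, -(r : ℤ) ≤ y j - z j ∧ y j - z j ≤ r := by
      have := mem_cube.1 (mem_shV.1 hy)
      exact fun j => this j
    have hz' := mem_cube.1 hz
    obtain ⟨c, hc⟩ : ∃ c : ℤ, (c = N + 1 ∨ c = -(N + 1)) ∧ -(r : ℤ) ≤ c - z i ∧ c - z i ≤ r := by
      have h3 := hy' i
      have h4 := hz' i
      rcases hi with hi | hi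
      · exact ⟨-(N + 1), Or.inr rfl, by omega, by omega⟩
      · exact ⟨N + 1, Or.inl rfl, by omega, by omega⟩
    refine ⟨Function.update z i c, ?_, Function.update z i c, ?_, Conn.refl _ _⟩
    · unfold cub
      rw [mem_shV, mem_cube]
      intro j
      rw [Pi.sub_apply]
      by_cases hj : j = i
      · subst hj
        rw [Function.update_self]
        exact hc.2
      · rw [Function.update_of_ne hj]
        constructor <;> omega
    · unfold Sph
      rw [mem_sdiff, mem_cube, mem_cube]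
      constructor
      · intro j
        by_cases hj : j = i
        · subst hj
          rw [Function.update_self]
          push_cast
          rcases hc.1 with h | h <;> constructor <;> omega
        · rw [Function.update_of_ne hj]
          have := hz' j
          push_cast
          constructor <;> omega
      · intro h
        have := h i
        rw [Function.update_self] at this
        rcases hc.1 with h | h <;> omega

/-- From the ball to its centre. -/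
private theorem roneB_point {V : Finset (Pt d)} {w : Finset (Ed d)} {k r : ℕ}
    {Z : Finset (Pt d)} {y : Pt d} (hy : cub y r ⊆ V) (h : TD (EI V) w k (cub y r) Z) :
    TD (EI V) w (k + (EI (cube d r)).card) {y} Z := by
  classical
  obtain ⟨F, hF, hFk, a, ha, z, hz, h1⟩ := h
  refine ⟨F ∪ EI (cub y r), union_subset hF (EI_mono hy), ?_, y, mem_singleton_self y, z, hz, ?_⟩
  · refine (card_union_le _ _).trans ?_
    have : (EI (cub y r)).card = (EI (cube d r)).card := by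
      unfold cub
      rw [EI_shV, card_shE]
    omega
  · have h2 : Conn (EI (cub y r)) y a := by
      have h3 := conn_cube r (a - y) (mem_shV.1 ha)
      have h4 := (MP_31386d_pr.conn_shE (t := y)).2 h3
      rw [zero_add, sub_add_cancel] at h4
      unfold cub
      rw [EI_shV]
      exact h4
    refine (h2.mono ?_).trans (h1.mono ?_)
    · intro e he
      exact mem_union_right _ (mem_union_right _ he)
    · intro e he
      rcases mem_union.1 he with he | he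
      · exact mem_union_left _ he
      · exact mem_union_right _ (mem_union_left _ he)

/-- The averaged inequality. -/
private theorem roneB_avg {q u₀ u₁ o : ℝ} (hq : 1 ≤ q) (hu₀ : 0 < u₀) (ho : 0 < o)
    (h : u₀ * (1 + o) + o * q ≤ u₁) {V : Finset (Pt d)} {N n r k M : ℕ}
    (hV : cube d (N + 1) ⊆ V) (hn : 2 * (n + 2 * r) ≤ N) (hM : M + r ≤ N / 2) {x : Pt d}
    (hx : ∀ j, |x j| ≤ n) {η τ : ℝ}
    (h1 : ∀ z ∈ cube d N, Pb u₀ q V (EI V) (fun ω => ¬ CS ω (cub z r) (Sph d N)) ≤ η)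
    (h2 : ∀ y ∈ cube d N, Pb u₀ q V (EI V) (fun ω => ¬ TD (EI V) ω k {y} (Sph d N)) ≤ τ) :
    ∑ z ∈ cube d M, Pb u₁ q V (EI V) (fun ω => ¬ CS ω (cub z r) (cub (z + x) r)) ≤
      (cube d M).card * (2 * η) + (cube d M).card * ((cube d N).card * τ) + qB d o N n r k := by
  classical
  have hMN : ∀ z ∈ cube d M, z ∈ cube d N ∧ z + x ∈ cube d N := by
    intro z hz
    rw [mem_cube] at *
    rw [mem_cube]
    constructor
    · intro i
      have := hz i
      constructor <;> omega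
    · intro i
      have h3 := hz i
      have h4 := abs_le.1 (hx i)
      rw [Pi.add_apply]
      constructor <;> omega
  have hqB : 0 ≤ qB d o N n r k := by
    unfold qB
    positivity
  have h3 : ∀ z ∈ cube d M, Pb u₁ q V (EI V) (fun ω => ¬ CS ω (cub z r) (cub (z + x) r)) ≤
      Ex u₀ q V (EI V) (fun w => Pb o 1 V (EI V)
        (fun s => ¬ CS (w ∪ s) (cub z r) (cub (z + x) r))) := by
    intro z _
    have h4 := spr hu₀ ho hq h V (EI V) (empty_subset (EI V))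
      (D := fun ω => ¬ CS ω (cub z r) (cub (z + x) r))
      (fun s t hst ht hs => ht (roneB_CS_mono hst hs))
    rw [roneB_PbB, roneB_ExB] at h4
    exact h4
  refine (sum_le_sum h3).trans ?_
  rw [← Ex_sum]
  have h5 : ∀ w, w ⊆ EI V → ∑ z ∈ cube d M, Pb o 1 V (EI V)
      (fun s => ¬ CS (w ∪ s) (cub z r) (cub (z + x) r)) ≤
      (∑ z ∈ cube d M, ind (¬ CS w (cub z r) (Sph d N)) +
        ∑ z ∈ cube d M, ind (¬ CS w (cub (z + x) r) (Sph d N))) +
      ((cube d M).card * ∑ y ∈ cube d N, ind (¬ TD (EI V) w k {y} (Sph d N)) +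
        qB d o N n r k) := by
    intro w hw
    have hi1 : 0 ≤ ∑ z ∈ cube d M, ind (¬ CS w (cub z r) (Sph d N)) :=
      sum_nonneg fun _ _ => ind_nonneg _
    have hi2 : 0 ≤ ∑ z ∈ cube d M, ind (¬ CS w (cub (z + x) r) (Sph d N)) :=
      sum_nonneg fun _ _ => ind_nonneg _
    have hi3 : 0 ≤ ∑ y ∈ cube d N, ind (¬ TD (EI V) w k {y} (Sph d N)) :=
      sum_nonneg fun _ _ => ind_nonneg _
    by_cases hT : ∀ y ∈ cube d N, TD (EI V) w k {y} (Sph d N)
    · have h6 := quench_balls ho hV hw hn hM hT hx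
      rw [sum_add_distrib] at h6
      have h7 : 0 ≤ ((cube d M).card : ℝ) * ∑ y ∈ cube d N, ind (¬ TD (EI V) w k {y} (Sph d N)) :=
        mul_nonneg (Nat.cast_nonneg _) hi3
      linarith
    · push Not at hT
      obtain ⟨y, hy, hyT⟩ := hT
      have h6 : (1 : ℝ) ≤ ∑ y ∈ cube d N, ind (¬ TD (EI V) w k {y} (Sph d N)) := by
        refine le_trans (le_of_eq (ind_of hyT).symm) (single_le_sum
          (f := fun y => ind (¬ TD (EI V) w k {y} (Sph d N))) (fun _ _ => ind_nonneg _) hy)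
      have h7 : ∑ z ∈ cube d M, Pb o 1 V (EI V)
          (fun s => ¬ CS (w ∪ s) (cub z r) (cub (z + x) r)) ≤ ((cube d M).card : ℝ) * 1 := by
        refine (sum_le_sum fun z _ => Pb_le_one ho le_rfl _).trans ?_
        rw [sum_const, nsmul_eq_mul]
      have h8 : ((cube d M).card : ℝ) * 1 ≤
          (cube d M).card * ∑ y ∈ cube d N, ind (¬ TD (EI V) w k {y} (Sph d N)) :=
        mul_le_mul_of_nonneg_left h6 (Nat.cast_nonneg _)
      linarith
  refine (Ex_mono hu₀ hq h5).trans ?_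
  rw [Ex_add, Ex_add, Ex_add, Ex_const hu₀ hq, Ex_const_mul, Ex_sum, Ex_sum, Ex_sum]
  simp only [roneB_ind]
  have h9 : ∑ z ∈ cube d M, Pb u₀ q V (EI V) (fun ω => ¬ CS ω (cub z r) (Sph d N)) ≤
      (cube d M).card * η := by
    refine (sum_le_sum fun z hz => h1 z (hMN z hz).1).trans ?_
    rw [sum_const, nsmul_eq_mul]
  have h10 : ∑ z ∈ cube d M, Pb u₀ q V (EI V) (fun ω => ¬ CS ω (cub (z + x) r) (Sph d N)) ≤
      (cube d M).card * η := by
    refine (sum_le_sum fun z hz => h1 (z + x) (hMN z hz).2).trans ?_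
    rw [sum_const, nsmul_eq_mul]
  have h11 : ∑ y ∈ cube d N, Pb u₀ q V (EI V) (fun ω => ¬ TD (EI V) ω k {y} (Sph d N)) ≤
      (cube d N).card * τ := by
    refine (sum_le_sum h2).trans ?_
    rw [sum_const, nsmul_eq_mul]
  have h12 : ((cube d M).card : ℝ) * ∑ y ∈ cube d N,
      Pb u₀ q V (EI V) (fun ω => ¬ TD (EI V) ω k {y} (Sph d N)) ≤
      (cube d M).card * ((cube d N).card * τ) :=
    mul_le_mul_of_nonneg_left h11 (Nat.cast_nonneg _)
  linarith

private theorem roneB_card (d N : ℕ) : ((cube d N).card : ℝ) = (2 * N + 1 : ℝ) ^ d := by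
  unfold cube
  rw [Fintype.card_piFinset]
  simp only [Int.card_Icc, prod_const, card_univ, Fintype.card_fin]
  have h : ((N : ℤ) + 1 - -(N : ℤ)).toNat = 2 * N + 1 := by omega
  rw [h]
  push_cast
  ring

/-- The quenched error is small. -/
private theorem roneB_qB (hd : 1 ≤ d) {v : ℝ} (hv : 0 < v) (r a C : ℕ)
    (ha : 1 / ((v / 2) / (v / 2 + 2)) ≤ (2 : ℝ) ^ a) :
    ∃ C₃ : ℝ, 0 < C₃ ∧ ∀ n k₀ : ℕ, 1 ≤ n →
      qB d v (4 * n ^ 4) n r (k₀ + C) ≤ C₃ * ((n : ℝ) ^ 4) ^ d * ((2 : ℝ) ^ (4 * a * k₀) / n) := by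
  obtain ⟨θ, hθ⟩ : ∃ θ, θ = (v / 2) / (v / 2 + 2) := ⟨_, rfl⟩
  have hθ0 : 0 < θ := by
    rw [hθ]
    positivity
  rw [← hθ] at ha
  obtain ⟨C₄, hC₄⟩ : ∃ C₄ : ℝ, C₄ = (5 : ℝ) ^ d * ((1 + v) * ((2 * d * (11 : ℝ) ^ (d - 1)) *
    Real.log 2) / (v / 4)) := ⟨_, rfl⟩
  have hlog : 0 < Real.log 2 := Real.log_pos one_lt_two
  have hd0 : (0 : ℝ) < d := by exact_mod_cast hd
  have hC₄0 : 0 < C₄ := by
    rw [hC₄]
    positivity
  refine ⟨((2 * r + 1 : ℝ) ^ d) ^ 2 * (d * (1 + 2 * r)) * (Real.sqrt 2 * (2 : ℝ) ^ (4 * a * C)) *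
    Real.sqrt C₄, by positivity, fun n k₀ hn => ?_⟩
  have hn1 : (1 : ℝ) ≤ n := by exact_mod_cast hn
  have hn0 : (0 : ℝ) < n := by linarith
  have hm1 : (1 : ℝ) ≤ (n : ℝ) ^ 4 := one_le_pow₀ hn1
  obtain ⟨m, hm⟩ : ∃ m : ℝ, m = (n : ℝ) ^ 4 := ⟨_, rfl⟩
  rw [← hm] at hm1
  have hm0 : 0 < m := by linarith
  -- the two cardinalities
  have hN2 : 4 * n ^ 4 / 2 = 2 * n ^ 4 := by omega
  have hc1 : ((cube d (4 * n ^ 4 / 2)).card : ℝ) ≤ 5 ^ d * m ^ d := by
    rw [roneB_card, hN2, ← mul_pow]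
    refine pow_le_pow_left₀ (by positivity) ?_ _
    push_cast
    rw [← hm]
    linarith
  have hc2 : ((Sph d (4 * n ^ 4)).card : ℝ) ≤ 2 * d * (11 : ℝ) ^ (d - 1) * m ^ (d - 1) := by
    refine (card_Sph hd _).trans ?_
    rw [mul_assoc (2 * (d : ℝ)), ← mul_pow]
    refine mul_le_mul_of_nonneg_left ?_ (by positivity)
    refine pow_le_pow_left₀ (by positivity) ?_ _
    push_cast
    rw [← hm]
    linarith
  -- the square root
  have hmd : m ^ d * m ^ (d - 1) = (m ^ d / (n : ℝ) ^ 2) ^ 2 := by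
    obtain ⟨d', rfl⟩ : ∃ d', d = d' + 1 := ⟨d - 1, by omega⟩
    rw [Nat.add_sub_cancel, div_pow, ← pow_mul (n : ℝ), hm]
    field_simp
    ring
  have hsq : Real.sqrt ((cube d (4 * n ^ 4 / 2)).card *
      ((1 + v) * ((Sph d (4 * n ^ 4)).card * Real.log 2) / (v / 4))) ≤
      Real.sqrt C₄ * (m ^ d / (n : ℝ) ^ 2) := by
    have h1 : ((cube d (4 * n ^ 4 / 2)).card : ℝ) *
        ((1 + v) * ((Sph d (4 * n ^ 4)).card * Real.log 2) / (v / 4)) ≤
        C₄ * (m ^ d / (n : ℝ) ^ 2) ^ 2 := by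
      rw [← hmd, hC₄]
      have h2 : (1 + v) * ((Sph d (4 * n ^ 4)).card * Real.log 2) / (v / 4) ≤
          (1 + v) * ((2 * d * (11 : ℝ) ^ (d - 1) * m ^ (d - 1)) * Real.log 2) / (v / 4) := by
        gcongr
      calc ((cube d (4 * n ^ 4 / 2)).card : ℝ) *
          ((1 + v) * ((Sph d (4 * n ^ 4)).card * Real.log 2) / (v / 4))
          ≤ (5 ^ d * m ^ d) * ((1 + v) * ((2 * d * (11 : ℝ) ^ (d - 1) * m ^ (d - 1)) *
            Real.log 2) / (v / 4)) := mul_le_mul hc1 h2 (by positivity) (by positivity)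
        _ = _ := by ring
    refine (Real.sqrt_le_sqrt h1).trans (le_of_eq ?_)
    rw [Real.sqrt_mul hC₄0.le, Real.sqrt_sq (by positivity)]
  -- the constant of finite energy
  have hfe : Real.sqrt 2 / ((θ ^ (2 * (k₀ + C))) ^ 2) ≤
      Real.sqrt 2 * (2 : ℝ) ^ (4 * a * C) * (2 : ℝ) ^ (4 * a * k₀) := by
    have h1 : 1 / ((θ ^ (2 * (k₀ + C))) ^ 2) = (1 / θ) ^ (4 * (k₀ + C)) := by
      rw [one_div_pow, ← pow_mul]
      congr 2
      ring
    have h2 : (1 / θ) ^ (4 * (k₀ + C)) ≤ ((2 : ℝ) ^ a) ^ (4 * (k₀ + C)) :=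
      pow_le_pow_left₀ (by positivity) ha _
    have h3 : ((2 : ℝ) ^ a) ^ (4 * (k₀ + C)) = (2 : ℝ) ^ (4 * a * C) * (2 : ℝ) ^ (4 * a * k₀) := by
      rw [← pow_mul, ← pow_add]
      congr 1
      ring
    rw [div_eq_mul_one_div, h1, mul_assoc, ← h3]
    exact mul_le_mul_of_nonneg_left h2 (Real.sqrt_nonneg _)
  have hn2 : (d : ℝ) * (n + 2 * r) ≤ (d * (1 + 2 * r)) * n := by
    have : (n : ℝ) + 2 * r ≤ (1 + 2 * r) * n := by
      have hr : (0 : ℝ) ≤ r := Nat.cast_nonneg r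
      nlinarith
    calc (d : ℝ) * (n + 2 * r) ≤ d * ((1 + 2 * r) * n) := mul_le_mul_of_nonneg_left this hd0.le
      _ = _ := by ring
  unfold qB
  rw [← hθ, ← hm]
  have h5 : (d * (n + 2 * r) : ℝ) * (Real.sqrt 2 / (θ ^ (2 * (k₀ + C))) ^ 2 *
      Real.sqrt ((cube d (4 * n ^ 4 / 2)).card *
        ((1 + v) * ((Sph d (4 * n ^ 4)).card * Real.log 2) / (v / 4)))) ≤
      ((d * (1 + 2 * r)) * n) * ((Real.sqrt 2 * (2 : ℝ) ^ (4 * a * C) * (2 : ℝ) ^ (4 * a * k₀)) *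
        (Real.sqrt C₄ * (m ^ d / (n : ℝ) ^ 2))) := by
    refine mul_le_mul hn2 (mul_le_mul hfe hsq (Real.sqrt_nonneg _) (by positivity))
      (by positivity) (by positivity)
  refine (mul_le_mul_of_nonneg_left h5 (by positivity)).trans (le_of_eq ?_)
  field_simp

/-- The closed distance error is small. -/
private theorem roneB_tau {ρ : ℝ} (hρ : 0 < ρ) {a b : ℕ} (ha : 1 ≤ a) (hb : ρ ^ b ≤ 1 / 2)
    (D m : ℕ) (hm : 1 ≤ m) :
    ρ ^ ((Nat.log 2 m / (32 * a) + 1) * (32 * a * b * (D + 1))) ≤ (1 / (m : ℝ)) ^ (D + 1) := by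
  have h1 : ρ ^ ((Nat.log 2 m / (32 * a) + 1) * (32 * a * b * (D + 1))) =
      (ρ ^ b) ^ (((Nat.log 2 m / (32 * a) + 1) * (32 * a)) * (D + 1)) := by
    rw [← pow_mul]
    congr 1
    ring
  have h2 : Nat.log 2 m + 1 ≤ (Nat.log 2 m / (32 * a) + 1) * (32 * a) := by
    have h3 := Nat.div_add_mod (Nat.log 2 m) (32 * a)
    have h4 := Nat.mod_lt (Nat.log 2 m) (by omega : 32 * a > 0)
    rw [add_mul, one_mul, mul_comm]
    omega
  have hρb : 0 ≤ ρ ^ b := pow_nonneg hρ.le _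
  rw [h1, pow_mul]
  refine pow_le_pow_left₀ (by positivity) ?_ _
  have h5 : (ρ ^ b) ^ ((Nat.log 2 m / (32 * a) + 1) * (32 * a)) ≤
      (1 / 2 : ℝ) ^ ((Nat.log 2 m / (32 * a) + 1) * (32 * a)) := pow_le_pow_left₀ hρb hb _
  refine h5.trans ?_
  have h6 : (1 / 2 : ℝ) ^ ((Nat.log 2 m / (32 * a) + 1) * (32 * a)) ≤
      (1 / 2 : ℝ) ^ (Nat.log 2 m + 1) :=
    pow_le_pow_of_le_one (by norm_num) (by norm_num) h2
  refine h6.trans ?_
  rw [one_div_pow]
  have h7 : m < 2 ^ (Nat.log 2 m + 1) := Nat.lt_pow_succ_log_self one_lt_two m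
  have h8 : (m : ℝ) ≤ (2 : ℝ) ^ (Nat.log 2 m + 1) := by exact_mod_cast h7.le
  have h9 : (0 : ℝ) < m := by exact_mod_cast hm
  exact one_div_le_one_div_of_le h9 h8

/-- The main estimate for one scale. -/
private theorem roneB_scale {d : ℕ} (hd : 1 ≤ d) {q : ℝ} (hq : 1 < q) {u₁ u₂ : ℝ} (hu₁ : 0 < u₁)
    (hu : u₁ < u₂) (hθ : ∃ c : ℝ, 0 < c ∧ ∀ r : ℕ, c ≤ thw d u₁ q r) {δ : ℝ} (hδ : 0 < δ) :
    ∃ r₀ K₁ : ℕ, ∀ r, r₀ ≤ r → ∃ n₀ : ℕ, ∀ n : ℕ, n₀ ≤ n → ∀ x : Pt d, (∀ i, |x i| ≤ n) →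
      ∃ z ∈ cube d (n ^ 4), 1 - δ ≤
        Pb u₂ q (cube d (4 * n ^ 4 + K₁ * (8 * n ^ 4 + 1) ^ d + r + 1))
          (EI (cube d (4 * n ^ 4 + K₁ * (8 * n ^ 4 + 1) ^ d + r + 1)))
          (fun ω => CS ω (cub z r) (cub (z + x) r)) := by
  classical
  have hq1 : 1 ≤ q := hq.le
  -- the parameters
  obtain ⟨h, hh⟩ : ∃ h, h = (u₂ - u₁) / 4 := ⟨_, rfl⟩
  have hh0 : 0 < h := by
    rw [hh]
    linarith
  obtain ⟨ua, hua⟩ : ∃ ua, ua = u₁ + h := ⟨_, rfl⟩
  obtain ⟨ub, hub⟩ : ∃ ub, ub = u₁ + 2 * h := ⟨_, rfl⟩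
  obtain ⟨uc, huc⟩ : ∃ uc, uc = u₁ + 3 * h := ⟨_, rfl⟩
  have hua0 : 0 < ua := by linarith
  have hub0 : 0 < ub := by linarith
  have huc0 : 0 < uc := by linarith
  obtain ⟨o, ho⟩ : ∃ o, o = h / (uc + q) := ⟨_, rfl⟩
  have ho0 : 0 < o := by
    rw [ho]
    positivity
  have hspr : uc * (1 + o) + o * q ≤ u₂ := by
    have h1 : o * (uc + q) = h := by
      rw [ho]
      field_simp
    nlinarith
  obtain ⟨ε, hε⟩ : ∃ ε, ε = min (1 / 2) (h / (ub * (ua + 1))) := ⟨_, rfl⟩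
  have hε0 : 0 < ε := by
    rw [hε]
    positivity
  have hε1 : ε < 1 := by
    rw [hε]
    exact lt_of_le_of_lt (min_le_left _ _) (by norm_num)
  have hab : ua * (1 + ub * ε) ≤ ub * (1 - ε) := by
    have h1 : ε * (ub * (ua + 1)) ≤ h := by
      rw [← le_div_iff₀ (by positivity), hε]
      exact min_le_right _ _
    nlinarith
  have hbc : ub ≤ uc := by linarith
  -- finite energy
  obtain ⟨a, ha⟩ := pow_unbounded_of_one_lt (1 / ((o / 2) / (o / 2 + 2))) (one_lt_two : (1 : ℝ) < 2)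
  have ha1 : 1 ≤ a + 1 := by omega
  have ha' : 1 / ((o / 2) / (o / 2 + 2)) ≤ (2 : ℝ) ^ (a + 1) :=
    ha.le.trans (pow_le_pow_right₀ one_le_two (Nat.le_succ a))
  obtain ⟨A, hA⟩ : ∃ A, A = a + 1 := ⟨_, rfl⟩
  rw [← hA] at ha1 ha'
  -- the rate
  have hρ0 : 0 < ub / uc := by positivity
  have hρ1 : ub / uc < 1 := by
    rw [div_lt_one huc0]
    linarith
  obtain ⟨b, hb⟩ := exists_pow_lt_of_lt_one (by norm_num : (0 : ℝ) < 1 / 2) hρ1
  obtain ⟨R, hR⟩ : ∃ R, R = 32 * A * b * (d + 1) := ⟨_, rfl⟩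
  obtain ⟨δ', hδ'⟩ : ∃ δ', δ' = min (δ / 4) (ε ^ R / 2) := ⟨_, rfl⟩
  have hδ'0 : 0 < δ' := by
    rw [hδ']
    have : 0 < ε ^ R := pow_pos hε0 R
    positivity
  obtain ⟨r₀, K₁, hK₁, hN1⟩ := n_one hd hq hu₁ (by linarith : u₁ < ua) hθ hδ'0
  refine ⟨r₀, K₁, fun r hr => ?_⟩
  obtain ⟨C₃, hC₃, hqB⟩ := roneB_qB hd ho0 r A (EI (cube d r)).card ha'
  obtain ⟨n₁, hn₁⟩ := exists_nat_ge ((4 * C₃ / δ) ^ 2)
  obtain ⟨n₂, hn₂⟩ := exists_nat_ge (8 * 9 ^ d / δ)
  refine ⟨2 + r + n₁ + n₂, fun n hn x hx => ?_⟩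
  have hn2 : 2 ≤ n := by omega
  have hnr : r ≤ n := by omega
  have hn1 : 1 ≤ n := by omega
  obtain ⟨m, hm⟩ : ∃ m, m = n ^ 4 := ⟨_, rfl⟩
  have hmn : n ≤ m := by
    rw [hm]
    calc n = n ^ 1 := (pow_one n).symm
      _ ≤ n ^ 4 := Nat.pow_le_pow_right hn1 (by norm_num)
  have hmn8 : 8 * n ≤ m := by
    rw [hm]
    have : 2 ^ 3 ≤ n ^ 3 := Nat.pow_le_pow_left hn2 3
    calc 8 * n ≤ n ^ 3 * n := Nat.mul_le_mul_right n this
      _ = n ^ 4 := by ring
  rw [← hm]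
  obtain ⟨V, hV⟩ : ∃ V : Finset (Pt d), V = cube d (4 * m + K₁ * (8 * m + 1) ^ d + r + 1) :=
    ⟨_, rfl⟩
  rw [← hV]
  obtain ⟨k₀, hk₀⟩ : ∃ k₀, k₀ = Nat.log 2 m / (32 * A) := ⟨_, rfl⟩
  have hm1 : 1 ≤ m := by omega
  -- geometry
  have hVN : cube d (4 * m + 1) ⊆ V := by
    intro p hp
    rw [hV, mem_cube]
    rw [mem_cube] at hp
    intro i
    have := hp i
    push_cast at this ⊢
    have h1 : (0 : ℤ) ≤ (K₁ : ℤ) * (8 * m + 1) ^ d := by positivity
    constructor <;> omega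
  have hcub : ∀ y ∈ cube d (4 * m), cub y r ⊆ V := by
    intro y hy p hp
    unfold cub at hp
    rw [mem_shV, mem_cube] at hp
    rw [mem_cube] at hy
    rw [hV, mem_cube]
    intro i
    have h1 := hp i
    have h2 := hy i
    rw [Pi.sub_apply] at h1
    push_cast at h2 ⊢
    have h3 : (0 : ℤ) ≤ (K₁ : ℤ) * (8 * m + 1) ^ d := by positivity
    constructor <;> omega
  have hshV : ∀ z ∈ cube d (4 * m), shV z (cube d (K₁ * (2 * (4 * m) + 1) ^ d)) ⊆ V := by
    intro z hz p hp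
    rw [mem_shV, mem_cube] at hp
    rw [mem_cube] at hz
    rw [hV, mem_cube]
    intro i
    have h1 := hp i
    have h2 := hz i
    rw [Pi.sub_apply] at h1
    have e : 2 * (4 * m) + 1 = 8 * m + 1 := by ring
    rw [e] at h1
    push_cast at h1 h2 ⊢
    constructor <;> omega
  -- first input
  have hA1 : ∀ z ∈ cube d (4 * m), Pb ua q V (EI V) (fun ω => ¬ CS ω (cub z r) (Sph d (4 * m))) ≤
      δ' := by
    intro z hz
    have h1 := hN1 r hr (2 * (4 * m) + 1) (by omega) z V (hshV z hz)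
    have h2 := Pb_mono (V := V) (E := EI V) hua0 hq1
      (P := fun ω => ∃ y ∈ shV z (cube d r), Out (shV z (cube d (2 * (4 * m) + 1))) ω y)
      (Q := fun ω => CS ω (cub z r) (Sph d (4 * m))) (fun ω _ hω => roneB_sph hz hω)
    rw [Pb_not hua0 hq1]
    linarith
  have hA2 : ∀ z ∈ cube d (4 * m), Pb uc q V (EI V) (fun ω => ¬ CS ω (cub z r) (Sph d (4 * m))) ≤
      δ / 4 := by
    intro z hz
    have h1 := hA1 z hz
    have h2 : δ' ≤ δ / 4 := by
      rw [hδ']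
      exact min_le_left _ _
    rw [Pb_not hua0 hq1] at h1
    have h3 := roneB_mono_u (V := V) (E := EI V) hua0 (by linarith : ua ≤ uc) hq1
      (P := fun ω => CS ω (cub z r) (Sph d (4 * m))) (fun s t hst hs => roneB_CS_mono hst hs)
    rw [Pb_not huc0 hq1]
    linarith
  -- second input
  have hτ : ∀ y ∈ cube d (4 * m), Pb uc q V (EI V)
      (fun ω => ¬ TD (EI V) ω (k₀ + (EI (cube d r)).card) {y} (Sph d (4 * m))) ≤
      2 * (ub / uc) ^ ((k₀ + 1) * R) := by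
    intro y hy
    have h1 := closed_dist (k := k₀) (R := R) hua0 hub0 hq1 hε0 hε1 hab hbc V (EI V)
      (Y := cub y r) (Z := Sph d (4 * m)) ((hA1 y hy).trans (by
        rw [hδ']
        exact min_le_right _ _))
    refine le_trans (Pb_mono huc0 hq1 fun ω _ hω hT => hω (roneB_point (hcub y hy) hT)) h1
  have hk : 32 * A * k₀ ≤ Nat.log 2 m := by
    rw [hk₀]
    exact Nat.mul_div_le _ _
  have hM : m + r ≤ 4 * m / 2 := by omega
  have hN : 2 * (n + 2 * r) ≤ 4 * m := by omega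
  have havg := roneB_avg hq1 huc0 ho0 hspr hVN hN hM hx hA2 hτ
  rw [hm] at havg
  have hqB' := hqB n k₀ hn1
  rw [← hm] at havg hqB'
  -- numbers
  have hm0 : (0 : ℝ) < m := by exact_mod_cast hm1
  have hn0 : (0 : ℝ) < n := by exact_mod_cast hn1
  have hmr : ((n : ℝ) ^ 4) = m := by
    rw [hm]
    push_cast
    ring
  rw [hmr] at hqB'
  have hcard : (m : ℝ) ^ d ≤ (cube d m).card := by
    rw [roneB_card]
    exact pow_le_pow_left₀ hm0.le (by linarith) _
  have hX : ((2 : ℝ) ^ (4 * A * k₀)) ^ 2 ≤ n := by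
    have h1 : ((2 ^ (4 * A * k₀)) ^ 2) ^ 4 ≤ n ^ 4 := by
      calc ((2 ^ (4 * A * k₀)) ^ 2) ^ 4 = 2 ^ (32 * A * k₀) := by
            rw [← pow_mul, ← pow_mul]
            congr 1
            ring
        _ ≤ 2 ^ Nat.log 2 m := Nat.pow_le_pow_right two_pos hk
        _ ≤ m := Nat.pow_log_le_self 2 (by omega)
        _ = n ^ 4 := hm
    have h2 : (2 ^ (4 * A * k₀)) ^ 2 ≤ n := (Nat.pow_le_pow_iff_left (by norm_num)).1 h1
    exact_mod_cast h2
  obtain ⟨X, hXX⟩ : ∃ X, X = (2 : ℝ) ^ (4 * A * k₀) := ⟨_, rfl⟩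
  rw [← hXX] at hX hqB'
  have hX0 : 0 < X := by
    rw [hXX]
    positivity
  have hb1 : C₃ * (X / n) ≤ δ / 4 := by
    have h1 : (4 * C₃ / δ * X) ^ 2 ≤ (n : ℝ) ^ 2 := by
      have h2 : (4 * C₃ / δ) ^ 2 ≤ n := hn₁.trans (by exact_mod_cast (by omega : n₁ ≤ n))
      calc (4 * C₃ / δ * X) ^ 2 = (4 * C₃ / δ) ^ 2 * X ^ 2 := by ring
        _ ≤ (n : ℝ) * n := mul_le_mul h2 hX (by positivity) hn0.le
        _ = (n : ℝ) ^ 2 := by ring
    have h3 : 4 * C₃ / δ * X ≤ n := by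
      have := abs_le_of_sq_le_sq h1 hn0.le
      exact (abs_le.1 this).2
    rw [← mul_div_assoc, div_le_iff₀ hn0]
    have h4 : C₃ * X = δ / 4 * (4 * C₃ / δ * X) := by
      field_simp
    rw [h4]
    exact mul_le_mul_of_nonneg_left h3 (by positivity)
  have hqB2 : qB d o (4 * m) n r (k₀ + (EI (cube d r)).card) ≤ δ / 4 * (cube d m).card := by
    refine hqB'.trans ?_
    calc C₃ * (m : ℝ) ^ d * (X / n) = (C₃ * (X / n)) * (m : ℝ) ^ d := by ring
      _ ≤ δ / 4 * (cube d m).card := mul_le_mul hb1 hcard (by positivity) (by positivity)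
  have hτ2 : ((cube d (4 * m)).card : ℝ) * (2 * (ub / uc) ^ ((k₀ + 1) * R)) ≤ δ / 4 := by
    have h1 : (ub / uc) ^ ((k₀ + 1) * R) ≤ (1 / (m : ℝ)) ^ (d + 1) := by
      rw [hk₀, hR]
      exact roneB_tau hρ0 ha1 hb.le d m hm1
    have h2 : ((cube d (4 * m)).card : ℝ) ≤ 9 ^ d * (m : ℝ) ^ d := by
      rw [roneB_card, ← mul_pow]
      refine pow_le_pow_left₀ (by positivity) ?_ _
      push_cast
      have : (1 : ℝ) ≤ m := by exact_mod_cast hm1
      linarith
    have h3 : ((cube d (4 * m)).card : ℝ) * (2 * (ub / uc) ^ ((k₀ + 1) * R)) ≤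
        (9 ^ d * (m : ℝ) ^ d) * (2 * (1 / (m : ℝ)) ^ (d + 1)) :=
      mul_le_mul h2 (mul_le_mul_of_nonneg_left h1 two_pos.le) (by positivity) (by positivity)
    refine h3.trans ?_
    have h4 : (9 ^ d * (m : ℝ) ^ d) * (2 * (1 / (m : ℝ)) ^ (d + 1)) = 2 * 9 ^ d / m := by
      rw [one_div_pow, pow_succ]
      field_simp
    rw [h4, div_le_iff₀ hm0]
    have h5 : 8 * 9 ^ d / δ ≤ (m : ℝ) := hn₂.trans (by exact_mod_cast (by omega : n₂ ≤ m))
    rw [div_le_iff₀ hδ] at h5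
    linarith
  have hfin : ∑ z ∈ cube d m, Pb u₂ q V (EI V) (fun ω => ¬ CS ω (cub z r) (cub (z + x) r)) ≤
      ∑ _z ∈ cube d m, δ := by
    rw [sum_const, nsmul_eq_mul]
    refine havg.trans ?_
    have h1 : ((cube d m).card : ℝ) * ((cube d (4 * m)).card *
        (2 * (ub / uc) ^ ((k₀ + 1) * R))) ≤ (cube d m).card * (δ / 4) :=
      mul_le_mul_of_nonneg_left hτ2 (Nat.cast_nonneg _)
    nlinarith
  obtain ⟨z, hz, hzδ⟩ := exists_le_of_sum_le (⟨0, by
    rw [mem_cube]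
    intro i
    simp⟩ : (cube d m).Nonempty) hfin
  refine ⟨z, hz, ?_⟩
  have hu₂ : 0 < u₂ := hu₁.trans hu
  rw [Pb_not hu₂ hq1] at hzδ
  linarith

/-- Input R1': in the free measure on a set which contains a box of polynomial size, two large
balls at distance at most `n` are connected with probability close to one. -/
theorem r_one_ball {d : ℕ} (hd : 1 ≤ d) {q : ℝ} (hq : 1 < q) {u₁ u₂ : ℝ} (hu₁ : 0 < u₁)
    (hu : u₁ < u₂) (hθ : ∃ c : ℝ, 0 < c ∧ ∀ r : ℕ, c ≤ thw d u₁ q r) {δ : ℝ} (hδ : 0 < δ) :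
    ∃ r₀ : ℕ, ∀ r, r₀ ≤ r → ∃ K : ℕ, 1 ≤ K ∧ ∀ n : ℕ, 1 ≤ n → ∀ x y : Pt d,
      (∀ i, |x i - y i| ≤ n) → ∀ V : Finset (Pt d), shV x (cube d (K * n ^ (4 * d))) ⊆ V →
      1 - δ ≤ Pb u₂ q V (EI V)
        (fun ω => ∃ a ∈ shV x (cube d r), ∃ b ∈ shV y (cube d r), Conn ω a b) := by
  classical
  have hq1 : 1 ≤ q := hq.le
  have hu₂ : 0 < u₂ := hu₁.trans hu
  obtain ⟨r₀, K₁, hs⟩ := roneB_scale hd hq hu₁ hu hθ hδ
  refine ⟨r₀, fun r hr => ?_⟩
  obtain ⟨n₀, hn₀⟩ := hs r hr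
  obtain ⟨K', hK'⟩ : ∃ K', K' = 5 + K₁ * 9 ^ d + r + 1 := ⟨_, rfl⟩
  refine ⟨K' * (n₀ + 1) ^ (4 * d), Nat.mul_pos (by omega) (by positivity),
    fun n hn x y hxy V hV => ?_⟩
  -- the scale
  obtain ⟨n', hn'⟩ : ∃ n', n' = (n₀ + 1) * n := ⟨_, rfl⟩
  have hn'0 : n₀ ≤ n' := by
    rw [hn']
    calc n₀ ≤ (n₀ + 1) * 1 := by omega
      _ ≤ (n₀ + 1) * n := Nat.mul_le_mul_left _ hn
  have hn'n : n ≤ n' := by
    rw [hn']
    calc n = 1 * n := (one_mul n).symm
      _ ≤ (n₀ + 1) * n := Nat.mul_le_mul_right _ (by omega)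
  have hn'1 : 1 ≤ n' := by omega
  have hxy' : ∀ i, |(y - x) i| ≤ n' := by
    intro i
    rw [Pi.sub_apply, abs_sub_comm]
    exact (hxy i).trans (by exact_mod_cast hn'n)
  obtain ⟨z, hz, h1⟩ := hn₀ n' hn'0 (y - x) hxy'
  set L := 4 * n' ^ 4 + K₁ * (8 * n' ^ 4 + 1) ^ d + r + 1 with hL
  have h2 := roneB_shift (u := u₂) (q := q) (x - z) (cube d L) z (z + (y - x)) r
  have e1 : z + (x - z) = x := by abel
  have e2 : z + (y - x) + (x - z) = y := by abel
  rw [e1, e2] at h2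
  rw [← h2] at h1
  have hsub : shV (x - z) (cube d L) ⊆ V := by
    refine Subset.trans ?_ hV
    intro p hp
    rw [mem_shV, mem_cube] at hp ⊢
    rw [mem_cube] at hz
    intro i
    have h3 := hp i
    have h4 := hz i
    rw [Pi.sub_apply, Pi.sub_apply] at h3
    rw [Pi.sub_apply]
    have h5 : L + n' ^ 4 ≤ K' * (n₀ + 1) ^ (4 * d) * n ^ (4 * d) := by
      have h6 : K' * (n₀ + 1) ^ (4 * d) * n ^ (4 * d) = K' * n' ^ (4 * d) := by
        rw [hn', mul_pow]
        ring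
      rw [h6, hK', hL]
      have h7 : n' ^ 4 ≤ n' ^ (4 * d) := Nat.pow_le_pow_right hn'1 (by omega)
      have h8 : (8 * n' ^ 4 + 1) ^ d ≤ 9 ^ d * n' ^ (4 * d) := by
        rw [pow_mul, ← mul_pow]
        refine Nat.pow_le_pow_left ?_ _
        have : 1 ≤ n' ^ 4 := Nat.one_le_pow _ _ hn'1
        omega
      have h9 : 1 ≤ n' ^ (4 * d) := Nat.one_le_pow _ _ hn'1
      have h10 : K₁ * (8 * n' ^ 4 + 1) ^ d ≤ K₁ * (9 ^ d * n' ^ (4 * d)) :=
        Nat.mul_le_mul_left _ h8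
      nlinarith
    have h11 : (L : ℤ) + (n' ^ 4 : ℕ) ≤ ((K' * (n₀ + 1) ^ (4 * d) * n ^ (4 * d) : ℕ) : ℤ) := by
      exact_mod_cast h5
    constructor <;> linarith [h3.1, h3.2, h4.1, h4.2]
  refine h1.trans ?_
  exact roneB_mono_V hu₂ hq1 hsub (fun s t hst hs => roneB_CS_mono hst hs)

end Pool.Agent.Lib.MP_31386d_pr_RQ
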