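import Pool.Agent.Lib.MP_31386d_pr_RQ.FineBadRQ
import Pool.Agent.Lib.MP_31386d_pr_RQ.CoarseRQ
import Pool.Agent.Lib.MP_31386d_pr_RQ.Closed
import Pool.Agent.Lib.MP_31386d_pr_RQ.NOne
import Pool.Agent.Lib.MP_31386d_pr_RQ.ROneB
import Pool.Agent.Lib.MP_31386d_pr_POTTS.SlabTwo
import Pool.Agent.Lib.MP_31386d_pr_RQ.ParamRQ

/-!
# Project RQ: assembly
-/

set_option autoImplicit false

namespace Pool.Agent.Lib.MP_31386d_pr_RQ

open Finset
open Pool.Agent.Lib.MP_31386d_pr
open Pool.Agent.Lib.MP_31386d_pr_POTTS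

theorem FinalRQ_shV {d : ℕ} (t : Pt d) {V V' : Finset (Pt d)} (h : V ⊆ V') :
    shV t V ⊆ shV t V' := by
  intro x hx
  rw [mem_shV] at hx ⊢
  exact h hx

/-- The closed distance between a point and a seed. -/
theorem closed_seed {d : ℕ} {ua ub uc q ε : ℝ} (hua : 0 < ua) (hub : 0 < ub) (hq : 1 ≤ q)
    (hε : 0 < ε) (hε1 : ε < 1) (hab : ua * (1 + ub * ε) ≤ ub * (1 - ε)) (hbc : ub ≤ uc)
    {r r' l k R₀ : ℕ} (hr : 2 * r' + 1 ≤ r) {V : Finset (Pt d)} {b : Finset (Ed d)}
    (hb : b ⊆ EI V) {i x : Pt d} (h : (seeds r l b i).Nonempty)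
    (hxy : 1 - ε ^ R₀ / 2 ≤ Pb ua q V (EI V) (fun ω => ∃ a ∈ shV x (cube d r'),
      ∃ c ∈ shV (sctr r' (sd r l b i)) (cube d r'), Conn ω a c))
    (hxV : shV x (cube d r') ⊆ V) :
    PbB uc q V (EI V) b (fun w => ¬ ∃ F, F ⊆ EI V ∧ F.card ≤ k + (EI (Box d r)).card ∧
      Conn (w ∪ F) x (sd r l b i)) ≤ 2 * (ub / uc) ^ ((k + 1) * R₀) := by
  classical
  have huc : 0 < uc := lt_of_lt_of_le hub hbc
  have h1 := closed_dist hua hub hq hε hε1 hab hbc V (EI V) (Y := shV x (cube d r'))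
    (Z := shV (sctr r' (sd r l b i)) (cube d r')) (k := k) (R := R₀) (by
      rw [Pb_not hua hq]
      have h2 : Pb ua q V (EI V) (fun ω => CS ω (shV x (cube d r'))
          (shV (sctr r' (sd r l b i)) (cube d r'))) = Pb ua q V (EI V)
          (fun ω => ∃ a ∈ shV x (cube d r'),
            ∃ c ∈ shV (sctr r' (sd r l b i)) (cube d r'), Conn ω a c) := rfl
      rw [h2]
      linarith)
  refine le_trans ?_ h1
  have hup : ∀ s t : Finset (Ed d), s ⊆ t → TD (EI V) s k (shV x (cube d r'))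
      (shV (sctr r' (sd r l b i)) (cube d r')) → TD (EI V) t k (shV x (cube d r'))
      (shV (sctr r' (sd r l b i)) (cube d r')) := by
    rintro s t hst ⟨S, h3, h4, y, hy, z, hz, hc⟩
    exact ⟨S, h3, h4, y, hy, z, hz, hc.mono (union_subset_union_left hst)⟩
  have h2 : PbB uc q V (EI V) b (fun ω => ¬ TD (EI V) ω k (shV x (cube d r'))
      (shV (sctr r' (sd r l b i)) (cube d r'))) ≤ Pb uc q V (EI V)
      (fun ω => ¬ TD (EI V) ω k (shV x (cube d r'))
      (shV (sctr r' (sd r l b i)) (cube d r'))) := by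
    rw [PbB_not huc hq hb, Pb_not huc hq]
    have := Pb_le_PbB (V := V) huc hq hb hup
    linarith
  refine le_trans ?_ h2
  refine PbB_mono' huc hq (fun ω hbω _ hno hTD => hno ?_)
  obtain ⟨S, h3, h4, y, hy, z, hz, hc⟩ := hTD
  refine ⟨S ∪ EI (shV x (cube d r')), union_subset h3 (EI_mono hxV), ?_, ?_⟩
  · refine (card_union_le _ _).trans (Nat.add_le_add h4 ?_)
    rw [EI_shV, card_shE, ← card_shE (fun _ => -(r' : ℤ)) (EI (Box d r)), ← EI_shV]
    refine card_le_card (EI_mono ?_)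
    intro t ht
    rw [mem_cube] at ht
    have h5 : t ∈ bx (fun _ => -(r' : ℤ)) r := by
      rw [mem_bx]
      intro i
      have := ht i
      constructor <;> omega
    exact h5
  · have hxx : x ∈ shV x (cube d r') := by
      rw [mem_shV_cube]
      intro t
      rw [sub_self, abs_zero]
      exact Int.natCast_nonneg _
    have h5 : Conn (EI (shV x (cube d r'))) x y := by
      refine Slab.conn_Icc (a := fun t => x t - r') (b := fun t => x t + r') ?_ hxx hy
      intro t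
      rw [mem_shV_cube, Grid.mem_Icc']
      refine forall_congr' fun i => ?_
      rw [abs_le]
      constructor <;> intro h <;> constructor <;> linarith [h.1, h.2]
    have h6 : z ∈ bx (sd r l b i) r := by
      rw [mem_shV_cube] at hz
      rw [mem_bx]
      intro t
      have h7 := hz t
      unfold sctr at h7
      rw [abs_le] at h7
      omega
    have h7 := conn_seed (by omega) h h6
    have h8 : Conn ω (sd r l b i) z := h7.mono (inter_subset_left.trans hbω)
    exact (h5.mono (subset_union_right.trans subset_union_right)).trans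
      ((hc.mono (union_subset_union_right subset_union_left)).trans
        (h8.symm.mono subset_union_left))

/-- Uniform connectivity in thick slabs, for real `q > 1`. -/
theorem slab_rq {D : ℕ} (hD : 2 ≤ D) {q u u' : ℝ} (hq : 1 < q) (hu : 0 < u) (huu : u < u')
    (hθ : ∃ c : ℝ, 0 < c ∧ ∀ r : ℕ, c ≤ thw (D + 1) u q r) :
    ∃ L₀ : ℕ, ∀ L : ℕ, L₀ ≤ L → ∃ α : ℝ, 0 < α ∧ ∀ n : ℕ, ∀ x ∈ slab (D + 1) L n,
      α < Pb u' q (slab (D + 1) L n) (EI (slab (D + 1) L n)) (fun ω => Conn ω 0 x) := by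
  obtain ⟨ua, hua, h1⟩ := exists_between huu
  obtain ⟨ub, hub, h2⟩ := exists_between h1
  obtain ⟨u₁, hu₁, h3⟩ := exists_between h2
  obtain ⟨u₂, hu₂, h4⟩ := exists_between h3
  have ua0 : 0 < ua := hu.trans hua
  have ub0 : 0 < ub := ua0.trans hub
  have u10 : 0 < u₁ := ub0.trans hu₁
  have u20 : 0 < u₂ := u10.trans hu₂
  -- the thinning probability
  obtain ⟨ε, hεdef⟩ : ∃ ε : ℝ, ε = (ub - ua) / (ub * (ua + 1)) := ⟨_, rfl⟩
  have hε : 0 < ε := by
    rw [hεdef]
    exact div_pos (by linarith) (by positivity)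
  have hε1 : ε < 1 := by
    rw [hεdef, div_lt_one (by positivity)]
    nlinarith
  have hab : ua * (1 + ub * ε) ≤ ub * (1 - ε) := by
    have h5 : ε * (ub * (ua + 1)) = ub - ua := by
      rw [hεdef]
      field_simp
    nlinarith
  -- the parameters
  have ho : 0 < (u' - u₂) / (u₂ + q) := div_pos (by linarith) (by linarith)
  have ho1 : 0 < (u₂ - u₁) / (u₁ + q) := div_pos (by linarith) (by linarith)
  obtain ⟨o1, ho1d⟩ : ∃ o1 : ℝ, o1 = (u₂ - u₁) / (u₁ + q) := ⟨_, rfl⟩
  rw [← ho1d] at ho1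
  obtain ⟨δ, hδ, hδ1, hpar⟩ := exists_param hD (4 * (D + 1)) ho (c := 1) one_pos
    (κ := o1 / (2 * (1 + o1))) (by positivity) (s := o1 / (o1 + 4)) (by positivity) (by
      rw [div_lt_one (by positivity)]
      linarith)
  -- the rate of the closed distance
  obtain ⟨lam, hlam⟩ : ∃ lam : ℝ, lam = ub / u₁ := ⟨_, rfl⟩
  have hlam0 : 0 < lam := by rw [hlam]; positivity
  have hlam1 : lam < 1 := by
    rw [hlam, div_lt_one u10]
    exact hu₁
  obtain ⟨R₀, hR₀⟩ := exists_pow_lt_of_lt_one (show 0 < min δ (1 / 2) by positivity) hlam1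
  have hR₀δ : lam ^ R₀ ≤ δ := hR₀.le.trans (min_le_left _ _)
  have hR₀2 : lam ^ R₀ ≤ 1 / 2 := hR₀.le.trans (min_le_right _ _)
  -- the inputs
  obtain ⟨r₁, K', hK', hN⟩ := n_one (d := D + 1) (by omega) hq hu ((hua.trans hub).trans hu₁)
    hθ hδ
  obtain ⟨r₂, hR⟩ := r_one_ball (d := D + 1) (by omega) hq hu hua hθ
    (δ := ε ^ R₀ / 2) (by positivity)
  obtain ⟨r', hr'def⟩ : ∃ r', r' = max r₁ r₂ := ⟨_, rfl⟩
  have hr1 : r₁ ≤ r' := by rw [hr'def]; exact le_max_left _ _
  have hr2 : r₂ ≤ r' := by rw [hr'def]; exact le_max_right _ _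
  obtain ⟨K, hK, hR⟩ := hR r' hr2
  have hN := hN r' hr1
  obtain ⟨r, hrdef⟩ : ∃ r, r = 2 * r' + 1 := ⟨_, rfl⟩
  have hr : 1 ≤ r := by omega
  obtain ⟨l, k₀, m, k, hm1, hrm, hm, hb⟩ := hpar r K (K' * 2 ^ (D + 1) + 4) hr hK (by omega)
    ((1 / (2 * 25 ^ D * (2 ^ D + 4))) ^ (3 ^ D)) (by positivity)
  obtain ⟨n, hn⟩ : ∃ n, n = r * 2 ^ l * 2 ^ k₀ := ⟨_, rfl⟩
  have hn1 : 1 ≤ n := by rw [hn]; exact Nat.one_le_iff_ne_zero.mpr (by positivity)
  obtain ⟨R₁, hR₁⟩ : ∃ R₁, R₁ = K * (4 * n) ^ (4 * (D + 1)) := ⟨_, rfl⟩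
  obtain ⟨g, hg⟩ : ∃ g, g = R₁ + 1 := ⟨_, rfl⟩
  obtain ⟨ma, hma⟩ : ∃ ma, ma = m + r' := ⟨_, rfl⟩
  obtain ⟨R, hRdef⟩ : ∃ R, R = K' * ma ^ (D + 1) + ma + 1 + r := ⟨_, rfl⟩
  have hRl : 2 * R + 1 ≤ r * 2 ^ l := by
    have e1 : ma ^ (D + 1) ≤ 2 ^ (D + 1) * m ^ (D + 2) := by
      calc ma ^ (D + 1) ≤ (2 * m) ^ (D + 1) := Nat.pow_le_pow_left (by omega) _
        _ = 2 ^ (D + 1) * m ^ (D + 1) := mul_pow _ _ _
        _ ≤ 2 ^ (D + 1) * m ^ (D + 2) :=
            Nat.mul_le_mul_left _ (Nat.pow_le_pow_right hm1 (by omega))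
    have e2 : m ≤ m ^ (D + 2) := Nat.le_self_pow (by omega) m
    have e3 : K' * ma ^ (D + 1) ≤ K' * 2 ^ (D + 1) * m ^ (D + 2) := by
      rw [mul_assoc]
      exact Nat.mul_le_mul_left _ e1
    have e4 : ma + 1 + r ≤ 4 * m ^ (D + 2) := by
      have : ma + 1 + r ≤ 4 * m := by omega
      omega
    have e5 : R ≤ (K' * 2 ^ (D + 1) + 4) * m ^ (D + 2) := by
      rw [hRdef, add_mul]
      omega
    omega
  have hnR : 4 * n ≤ R₁ := by
    rw [hR₁]
    calc 4 * n ≤ (4 * n) ^ (4 * (D + 1)) := Nat.le_self_pow (by omega) _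
      _ ≤ K * (4 * n) ^ (4 * (D + 1)) := Nat.le_mul_of_pos_left _ hK
  have hrn : r ≤ n := by
    rw [hn, mul_assoc]
    exact Nat.le_mul_of_pos_right _ (by positivity)
  refine ⟨(2 * g + 2) * n, fun L hL => ?_⟩
  have hbad : ∀ k' : Pt D, JP ((u' - u₂) / (u₂ + q)) u₂ q (reg n g (g + 1) k')
      (fun b ω => ¬ GoodC r l k₀ g (g + 1) k' b ω) ≤
      (1 / (2 * 25 ^ D * (2 ^ D + 4))) ^ (3 ^ D) := by
    intro k'
    refine le_trans ?_ hb
    have hgw : K * (4 * (r * 2 ^ l * 2 ^ k₀)) ^ (4 * (D + 1)) + 2 = g + 1 := by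
      rw [hg, hR₁, hn]
    rw [hgw, hn]
    refine coarse_gen hq.le ho u20 hr k' ?_ ?_
    · unfold fineN
      positivity
    · intro b hbE j hj hfull
      -- the region contains large boxes around the points of `fbox`
      have hV : ∀ x ∈ fbox (r * 2 ^ l * 2 ^ k₀) j,
          shV x (cube (D + 1) R₁) ⊆ reg (r * 2 ^ l * 2 ^ k₀) g (g + 1) k' := by
        intro x hx y hy
        rw [← hn] at hx ⊢
        obtain ⟨x', hx', hxx⟩ : ∃ x' ∈ bx (fun t => (n : ℤ) * j t) (2 * n),
            ∀ i, |x i - x' i| ≤ n := by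
          unfold fbox at hx
          rw [mem_bx] at hx
          refine ⟨fun t => max ((n : ℤ) * j t) (min (x t) (n * j t + 2 * n - 1)), ?_, ?_⟩
          · rw [mem_bx]
            intro t
            have := hx t
            push_cast
            omega
          · intro t
            have h6 := hx t
            push_cast at h6
            beta_reduce
            rw [abs_le]
            omega
        refine fine_subset_reg hj hx' ?_
        rw [mem_shV_cube] at hy ⊢
        intro i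
        have h3 := hy i
        have h4 := hxx i
        have h5 : ((g * n : ℕ) : ℤ) ≥ R₁ + n := by
          have : g * n ≥ R₁ + n := by
            rw [hg, add_mul, one_mul]
            exact Nat.add_le_add_right (Nat.le_mul_of_pos_right _ hn1) n
          exact_mod_cast this
        rw [abs_le] at h3 h4 ⊢
        constructor <;> linarith [h3.1, h3.2, h4.1, h4.2]
      have hfb : fbox (r * 2 ^ l * 2 ^ k₀) j ⊆ reg (r * 2 ^ l * 2 ^ k₀) g (g + 1) k' := by
        intro x hx
        apply hV x hx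
        rw [mem_shV_cube]
        intro t
        rw [sub_self, abs_zero]
        exact Int.natCast_nonneg _
      rw [ho1d]
      refine fine_bad_N (R := R) (ma := ma) (r' := r') hD u10 hu₂ hq.le (by omega) (by omega)
        (by omega) hRl (by omega) ?_ hbE hfb hfull ?_ (Real.exp_nonneg _) hδ.le
      · intro x V hxV
        refine hN ma (by omega) x V ((FinalRQ_shV x (cube_mono ?_)).trans hxV)
        omega
      · intro i hi x hx
        have hs := hfull i hi
        have hsc : sctr r' (sd r l b i) ∈ fbox (r * 2 ^ l * 2 ^ k₀) j := by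
          refine box_seed_subset (R := 0) (by rw [hrdef]) (Nat.zero_le _) hs hi ?_
          rw [mem_shV_cube]
          intro t
          rw [sub_self, abs_zero]
          exact le_rfl
        have hdist : ∀ t, |x t - sctr r' (sd r l b i) t| ≤ ((4 * n : ℕ) : ℤ) := by
          intro t
          unfold fbox at hx hsc
          rw [mem_bx] at hx hsc
          have h6 := hx t
          have h7 := hsc t
          rw [← hn] at h6 h7
          push_cast at h6 h7 ⊢
          rw [abs_le]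
          constructor <;> linarith [h6.1, h6.2, h7.1, h7.2]
        have h5 := hR (4 * n) (by omega) x (sctr r' (sd r l b i)) hdist
          (reg (r * 2 ^ l * 2 ^ k₀) g (g + 1) k') (by
            rw [← hR₁]
            exact hV x hx)
        have h6 := closed_seed ua0 ub0 hq.le hε hε1 hab hu₁.le (k := k) (R₀ := R₀)
          (by omega : 2 * r' + 1 ≤ r) hbE hs h5 ((FinalRQ_shV x (cube_mono (by omega))).trans (hV x hx))
        refine h6.trans ?_
        rw [← hlam]
        have e1 : lam ^ ((k + 1) * R₀) = (lam ^ R₀) ^ k * lam ^ R₀ := by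
          rw [mul_comm, pow_mul, pow_succ]
        have e2 : Real.exp (1 * k * Real.log δ) = δ ^ k := by
          rw [one_mul, Real.exp_nat_mul, Real.exp_log hδ]
        rw [e1, e2]
        have e3 : (lam ^ R₀) ^ k ≤ δ ^ k := pow_le_pow_left₀ (by positivity) hR₀δ k
        have e4 : 0 ≤ (lam ^ R₀) ^ k := by positivity
        nlinarith
  have h5 := slab_final (g := g) (w := g + 1) hD u20 h4 hq.le hr le_rfl
    (by rw [← hn]; exact hbad) (L := L) (by rw [← hn]; exact hL)
  have hL1 : 1 ≤ L := by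
    refine le_trans ?_ hL
    exact Nat.one_le_iff_ne_zero.mpr (by positivity)
  exact slab_of_slb hL1 h5

end Pool.Agent.Lib.MP_31386d_pr_RQ
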