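import Pool.Agent.Lib.MP_31386d_pr_POTTS.Defs

/-!
# Project RQ: the numerical bounds

`D + 1` is the dimension, `n = r 2 ^ l 2 ^ k₀` the side of the fine cubes, `(2 ^ (k₀ + 1)) ^ (D + 1)`
the number of blocks of a fine cube.
-/

set_option autoImplicit false

namespace Pool.Agent.Lib.MP_31386d_pr_RQ

open Finset
open Pool.Agent.Lib.MP_31386d_pr
open Pool.Agent.Lib.MP_31386d_pr_POTTS

/-- Bound for the probability that a fine cube has no giant: `τ` bounds the probability that a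
point is at closed distance more than `k` from a seed, `δ` the probability that a seed has no arm of
length `m`. -/
noncomputable def fineN (D : ℕ) (τ κ s δ : ℝ) (r l k₀ m k : ℕ) : ℝ :=
  2 ^ ((2 ^ (k₀ + 1)) ^ (D + 1)) *
    (((4 * (r * 2 ^ l * 2 ^ k₀) : ℕ) : ℝ) ^ (D + 1) * τ +
      2 * δ ^ ((2 ^ (k₀ + 1)) ^ (D + 1) / 2 ^ (2 * D + 3)) +
      2 * Real.exp (-(κ * s ^ (4 * (k + (EI (Box (D + 1) r)).card)) *
        (m / (16 * (D * 2 ^ D) *
          ((Nat.clog 2 (4 * (r * 2 ^ l * 2 ^ k₀)) : ℝ) + 1) ^ 2)))))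

/-- Bound for the probability that a coarse block is bad; `fb` bounds the probability that a fine
cube has no giant. -/
noncomputable def badN (D : ℕ) (o : ℝ) (r l k₀ w : ℕ) (fb : ℝ) : ℝ :=
  ((w : ℝ) + 1) ^ D * ((((2 ^ (k₀ + 1)) ^ (D + 1) : ℕ) : ℝ) *
      (1 - (o / (o + 1)) ^ (EI (Box (D + 1) r)).card) ^ ((2 ^ l) ^ (D + 1)) + fb)

end Pool.Agent.Lib.MP_31386d_pr_RQ
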