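import Pool.Agent.Lib.MP_31386d_pr_RQ.FineSplit
import Pool.Agent.Lib.MP_31386d_pr_RQ.NumDefs

/-!
# Existence of a giant in a fine cube: the numerical form of the bound
-/

set_option autoImplicit false

namespace Pool.Agent.Lib.MP_31386d_pr_RQ

open Finset
open Pool.Agent.Lib.MP_31386d_pr
open Pool.Agent.Lib.MP_31386d_pr_POTTS

/-- **Existence of a giant in a fine cube, given the marks** (arms of length `ma`,
`m + r' ≤ ma + 1`; closed distance of vertices `k` plus the number of edges of a seed). -/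
theorem fine_bad_N {D : ℕ} (hD : 2 ≤ D) {u₁ u₂ q : ℝ} (hu₁ : 0 < u₁) (hu : u₁ < u₂) (hq : 1 ≤ q)
    {r l k₀ R ma r' k m : ℕ} {δ τ : ℝ} (hr' : 2 * r' + 1 ≤ r) (hmR : ma + 1 ≤ R)
    (hrR : r ≤ R) (hRl : 2 * R + 1 ≤ r * 2 ^ l) (hm : m + r' ≤ ma + 1)
    (hN : ∀ (x : Pt (D + 1)) (V : Finset (Pt (D + 1))), shV x (cube (D + 1) R) ⊆ V →
      1 - δ ≤ Pb u₁ q V (EI V)
        (fun ω => ∃ y ∈ shV x (cube (D + 1) r'), Out (shV x (cube (D + 1) ma)) ω y))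
    {V : Finset (Pt (D + 1))} {b : Finset (Ed (D + 1))} (hb : b ⊆ EI V) {j : Pt (D + 1)}
    (hV : fbox (r * 2 ^ l * 2 ^ k₀) j ⊆ V) (hfull : FullF r l k₀ j b)
    (hT : ∀ i ∈ blocks k₀ j, ∀ x ∈ fbox (r * 2 ^ l * 2 ^ k₀) j,
      PbB u₁ q V (EI V) b (fun w => ¬ ∃ F, F ⊆ EI V ∧ F.card ≤ k + (EI (Box (D + 1) r)).card ∧
        Conn (w ∪ F) x (sd r l b i)) ≤ τ) (hτ : 0 ≤ τ) (hδ : 0 ≤ δ) :
    PbB u₂ q V (EI V) b (fun ω => ¬ ∃ x, Big r l k₀ j b ω x) ≤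
      fineN D τ ((u₂ - u₁) / (u₁ + q) / (2 * (1 + (u₂ - u₁) / (u₁ + q))))
        ((u₂ - u₁) / (u₁ + q) / ((u₂ - u₁) / (u₁ + q) + 4)) δ r l k₀ m k := by
  refine (fine_bad_rq hD hu₁ hu hq hr' hmR hrR hRl hm hN hb hV hfull hT hτ hδ
    (n' := (2 ^ (k₀ + 1)) ^ (D + 1) / 2 ^ (2 * D + 3)) (Nat.mul_div_le _ _)).trans
    (le_of_eq ?_)
  unfold fineB1 fineN
  push_cast
  ring

end Pool.Agent.Lib.MP_31386d_pr_RQ
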