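import Pool.Agent.Lib.MP_31386d_pr_RQ.SeedArms
import Pool.Agent.Lib.MP_31386d_pr_RQ.ArmEnergy
import Pool.Agent.Lib.MP_31386d_pr_RQ.QuenchLat
import Pool.Agent.Lib.MP_31386d_pr_POTTS.Comb

/-!
# Existence of a giant in a fine cube, given the marks (real `q`)

One partition of the seeds, then the union over all the partitions.
-/

set_option autoImplicit false

namespace Pool.Agent.Lib.MP_31386d_pr_RQ

open Finset
open Pool.Agent.Lib.MP_31386d_pr
open Pool.Agent.Lib.MP_31386d_pr_POTTS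

/-- The fine cube `j` of side `2 n` enlarged by `n` on every side. -/
noncomputable def fbox {d : ℕ} (n : ℕ) (j : Pt d) : Finset (Pt d) :=
  bx (fun t => (n : ℤ) * j t - n) (4 * n)

/-- The bound for one partition. -/
noncomputable def fineB1 (D : ℕ) (o δ τ : ℝ) (n k m' n' : ℕ) : ℝ :=
  (4 * (n : ℝ)) ^ (D + 1) * τ + 2 * δ ^ n' +
    2 * Real.exp (-(o / (2 * (1 + o)) * (o / (o + 4)) ^ (4 * k) *
      ((m' : ℝ) / (16 * (D * 2 ^ D) * ((Nat.clog 2 (4 * n) : ℝ) + 1) ^ 2))))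

theorem PbB_or {d : ℕ} {u q : ℝ} (hu : 0 < u) (hq : 1 ≤ q) {V : Finset (Pt d)}
    {E b : Finset (Ed d)} (P Q : Finset (Ed d) → Prop) :
    PbB u q V E b (fun ω => P ω ∨ Q ω) ≤ PbB u q V E b P + PbB u q V E b Q := by
  unfold PbB
  rw [← ExB_add]
  refine ExB_mono hu hq fun ω _ _ => ?_
  by_cases h : P ω
  · rw [ind_of h, ind_of (Or.inl h : P ω ∨ Q ω)]
    have := ind_nonneg (Q ω)
    linarith
  · by_cases h' : Q ω
    · rw [ind_of h', ind_of (Or.inr h' : P ω ∨ Q ω)]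
      have := ind_nonneg (P ω)
      linarith
    · rw [ind_not (fun hh : P ω ∨ Q ω => hh.elim h h')]
      have := ind_nonneg (P ω)
      have := ind_nonneg (Q ω)
      linarith

section

variable {d : ℕ} {r l k₀ : ℕ} {b : Finset (Ed d)} {i j : Pt d}

/-- The corner of a seed is in the enlarged fine cube, and so is a box around the seed. -/
theorem box_seed_subset {R r' : ℕ} (hr : 2 * r' + 1 ≤ r) (hR : R ≤ r * 2 ^ l)
    (h : (seeds r l b i).Nonempty) (hi : i ∈ blocks k₀ j) :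
    shV (sctr r' (sd r l b i)) (cube d R) ⊆ fbox (r * 2 ^ l * 2 ^ k₀) j := by
  intro z hz
  rw [mem_shV_cube] at hz
  unfold fbox
  rw [mem_bx]
  intro t
  have h1 := hz t
  have h2 := seed_mem (by omega : 1 ≤ r) h t
  unfold blocks at hi
  rw [mem_bx] at hi
  have h3 := hi t
  unfold sctr at h1
  rw [abs_le] at h1
  have hR' : (R : ℤ) ≤ ((r * 2 ^ l : ℕ) : ℤ) := by exact_mod_cast hR
  have hr' : (2 * (r' : ℤ) + 1) ≤ r := by exact_mod_cast hr
  have hr0 : (0 : ℤ) ≤ r' := Int.natCast_nonneg r'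
  push_cast at h3 ⊢
  push_cast at hR' h2
  have hρ0 : (0 : ℤ) ≤ (r : ℤ) * 2 ^ l := by positivity
  generalize (r : ℤ) * 2 ^ l = ρ at *
  have hK : (1 : ℤ) ≤ 2 ^ k₀ := one_le_pow₀ (by norm_num)
  rw [pow_succ] at h3
  generalize (2 : ℤ) ^ k₀ = K at *
  have e1 : ρ * (K * j t) ≤ ρ * i t := mul_le_mul_of_nonneg_left h3.1 hρ0
  have e2 : ρ * (i t + 1) ≤ ρ * (K * j t + K * 2) := mul_le_mul_of_nonneg_left (by omega) hρ0
  have e3 : ρ ≤ ρ * K := by nlinarith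
  constructor
  · nlinarith [h1.1, h1.2, h2.1, h2.2]
  · nlinarith [h1.1, h1.2, h2.1, h2.2]

end

open Classical in
/-- **One partition of the seeds of a fine cube.** -/
theorem fine_split {D : ℕ} (hD : 2 ≤ D) {u₁ u₂ q : ℝ} (hu₁ : 0 < u₁) (hu : u₁ < u₂) (hq : 1 ≤ q)
    {r l k₀ R m r' k n' m' : ℕ} {δ τ : ℝ} (hr' : 2 * r' + 1 ≤ r) (hmR : m + 1 ≤ R)
    (hrR : r ≤ R) (hRl : 2 * R + 1 ≤ r * 2 ^ l) (hm' : m' + r' ≤ m + 1)
    (hN : ∀ (x : Pt (D + 1)) (V : Finset (Pt (D + 1))), shV x (cube (D + 1) R) ⊆ V →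
      1 - δ ≤ Pb u₁ q V (EI V)
        (fun ω => ∃ y ∈ shV x (cube (D + 1) r'), Out (shV x (cube (D + 1) m)) ω y))
    {V : Finset (Pt (D + 1))} {b : Finset (Ed (D + 1))} (hb : b ⊆ EI V) {j : Pt (D + 1)}
    (hV : fbox (r * 2 ^ l * 2 ^ k₀) j ⊆ V) (hfull : FullF r l k₀ j b)
    (hT : ∀ i ∈ blocks k₀ j, ∀ x ∈ fbox (r * 2 ^ l * 2 ^ k₀) j,
      PbB u₁ q V (EI V) b (fun w => ¬ ∃ F, F ⊆ EI V ∧ F.card ≤ k ∧
        Conn (w ∪ F) x (sd r l b i)) ≤ τ)
    {I : Finset (Pt (D + 1))} (hI : I ⊆ blocks k₀ j) (h1 : 2 ^ (D + 1) * n' ≤ I.card)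
    (h2 : 2 ^ (D + 1) * n' ≤ (blocks k₀ j \ I).card) (hIne : I.Nonempty)
    (hJne : (blocks k₀ j \ I).Nonempty) :
    PbB u₂ q V (EI V) b (fun ω => ∀ v ∈ I.image (sd r l b),
      ∀ w ∈ (blocks k₀ j \ I).image (sd r l b), ¬ Conn ω v w) ≤
      fineB1 D ((u₂ - u₁) / (u₁ + q)) δ τ (r * 2 ^ l * 2 ^ k₀) k m' n' := by
  have hr : 1 ≤ r := by omega
  obtain ⟨n, hn⟩ : ∃ n, n = r * 2 ^ l * 2 ^ k₀ := ⟨_, rfl⟩
  rw [← hn] at hV hT ⊢
  have hRn : R ≤ r * 2 ^ l := by omega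
  set A := fbox n j with hAdef
  have hbox : ∀ i ∈ blocks k₀ j, shV (sctr r' (sd r l b i)) (cube (D + 1) R) ⊆ A := by
    intro i hi
    rw [hAdef, hn]
    exact box_seed_subset hr' hRn (hfull i hi) hi
  have hsdA : ∀ i ∈ blocks k₀ j, sd r l b i ∈ A := by
    intro i hi
    apply hbox i hi
    rw [mem_shV_cube]
    intro t
    unfold sctr
    have h3 : (r : ℤ) ≤ R := by exact_mod_cast hrR
    have h4 : (2 * (r' : ℤ) + 1) ≤ r := by exact_mod_cast hr'
    have h5 : (0 : ℤ) ≤ r' := Int.natCast_nonneg r'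
    rw [abs_le]
    constructor <;> linarith
  have hsub : ∀ K : Finset (Pt (D + 1)), K ⊆ blocks k₀ j → K.image (sd r l b) ⊆ V := by
    intro K hK x hx
    rw [mem_image] at hx
    obtain ⟨i, hi, rfl⟩ := hx
    exact hV (hsdA i (hK hi))
  obtain ⟨E₀, hE₀⟩ : ∃ E₀ : ℝ, E₀ = (m' : ℝ) / (16 * (D * 2 ^ D) *
      ((Nat.clog 2 (4 * n) : ℝ) + 1) ^ 2) := ⟨_, rfl⟩
  have hE₀0 : 0 ≤ E₀ := by rw [hE₀]; positivity
  -- the good event
  have hEB : ∀ i ∈ blocks k₀ j, EB (shV (sctr r' (sd r l b i)) (cube (D + 1) m)) ⊆ EI A := by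
    intro i hi e he
    rw [mem_EB] at he
    rw [mem_EI]
    have hm : ∀ z, z ∈ shV (sctr r' (sd r l b i)) (cube (D + 1) m) → ∀ z', Lat z z' → z' ∈ A := by
      intro z hz z' hzz
      apply hbox i hi
      rw [mem_shV_cube] at hz ⊢
      intro t
      have h1 := hz t
      obtain ⟨s, hs⟩ := hzz
      have h2 : |z' t - z t| ≤ 1 := by
        rcases hs with hs | hs
        · rw [hs]
          simp only [Pi.add_apply, add_sub_cancel_left]
          by_cases hts : t = s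
          · subst hts; simp
          · rw [Pi.single_eq_of_ne hts]; simp
        · rw [hs]
          simp only [Pi.add_apply, sub_add_cancel_left, abs_neg]
          by_cases hts : t = s
          · subst hts; simp
          · rw [Pi.single_eq_of_ne hts]; simp
      rw [abs_le] at h1 h2 ⊢
      have h3 : (m : ℤ) + 1 ≤ R := by exact_mod_cast hmR
      constructor <;> linarith
    have hself : shV (sctr r' (sd r l b i)) (cube (D + 1) m) ⊆ A := by
      intro z hz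
      apply hbox i hi
      rw [mem_shV] at hz ⊢
      exact cube_mono (by omega) hz
    have hlat : Lat e.1 (tgt e) := ⟨e.2, Or.inl rfl⟩
    rcases he with he | he
    · exact ⟨hself he, hm _ he _ hlat⟩
    · exact ⟨hm _ he _ hlat.symm, hself he⟩
  obtain ⟨i₀, hi₀⟩ := hIne
  have hS := split_rq (u₁ := u₁) (u₂ := u₂) (q := q) hu₁ hu hq V hb (A := A) hV
    (I := I.image (sd r l b)) (J := (blocks k₀ j \ I).image (sd r l b)) (hsub I hI)
    (hsub _ sdiff_subset) ⟨_, mem_image_of_mem _ hi₀⟩ (hJne.image _) (k := k) hE₀0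
    (fun w => (∀ x ∈ A, ∃ F, F ⊆ EI V ∧ F.card ≤ k ∧ Conn (w ∪ F) x (sd r l b i₀)) ∧
      (∃ i ∈ I, Out (shV (sctr r' (sd r l b i)) (cube (D + 1) m)) w (sd r l b i)) ∧
      (∃ i ∈ blocks k₀ j \ I, Out (shV (sctr r' (sd r l b i)) (cube (D + 1) m)) w (sd r l b i)))
    (by
      rintro w hbw hwE ⟨hG1, ⟨i, hi, hGi⟩, ⟨i', hi', hGi'⟩⟩
      refine ⟨fun x hx => ?_, fun h hh1 hh0 => ?_⟩
      · obtain ⟨F, hF, hFk, hc⟩ := hG1 x hx
        exact ⟨F, hF, hFk, _, mem_union_left _ (mem_image_of_mem _ hi₀), hc⟩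
      · have hib : i ∈ blocks k₀ j := hI hi
        have hib' : i' ∈ blocks k₀ j := (mem_sdiff.1 hi').1
        obtain ⟨z, hz, hcz⟩ := hGi.restrict
        obtain ⟨z', hz', hcz'⟩ := hGi'.restrict
        have far : ∀ (i z : Pt (D + 1)), z ∉ shV (sctr r' (sd r l b i)) (cube (D + 1) m) →
            ∃ t, (m' : ℤ) ≤ |z t - sd r l b i t| := by
          intro i z hz
          rw [mem_shV_cube] at hz
          push Not at hz
          obtain ⟨t, ht⟩ := hz
          refine ⟨t, ?_⟩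
          unfold sctr at ht
          have h3 : (m' : ℤ) + r' ≤ m + 1 := by exact_mod_cast hm'
          have h5 : (0 : ℤ) ≤ r' := Int.natCast_nonneg r'
          have h6 : |z t - (sd r l b i t + (r' : ℤ))| ≤ |z t - sd r l b i t| + r' := by
            have h7 : z t - (sd r l b i t + (r' : ℤ)) = (z t - sd r l b i t) + (-(r' : ℤ)) := by ring
            rw [h7]
            refine (abs_add_le _ _).trans ?_
            rw [abs_neg, abs_of_nonneg h5]
          omega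
        obtain ⟨t, ht⟩ := far i z hz
        obtain ⟨t', ht'⟩ := far i' z' hz'
        have hen := arm_energy_conn hD h (fun t => (n : ℤ) * j t - n) (N := 4 * n) (m := m')
          (ω := w ∩ EB (shV (sctr r' (sd r l b i)) (cube (D + 1) m)))
          (ω' := w ∩ EB (shV (sctr r' (sd r l b i')) (cube (D + 1) m)))
          (inter_subset_right.trans (hEB i hib)) (inter_subset_right.trans (hEB i' hib'))
          (hsdA i hib) hcz (hsdA i' hib') hcz' ht ht'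
          (fun y hy => hh1 y ⟨_, mem_image_of_mem _ hi, hy.mono inter_subset_left⟩)
          (fun y hy => hh0 y ⟨_, mem_image_of_mem _ hi', hy.mono inter_subset_left⟩)
        rw [hE₀]
        exact hen)
  have hbad : PbB u₁ q V (EI V) b (fun w => ¬ ((∀ x ∈ A, ∃ F, F ⊆ EI V ∧ F.card ≤ k ∧
        Conn (w ∪ F) x (sd r l b i₀)) ∧
      (∃ i ∈ I, Out (shV (sctr r' (sd r l b i)) (cube (D + 1) m)) w (sd r l b i)) ∧
      (∃ i ∈ blocks k₀ j \ I, Out (shV (sctr r' (sd r l b i)) (cube (D + 1) m)) w (sd r l b i)))) ≤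
      (4 * (n : ℝ)) ^ (D + 1) * τ + 2 * δ ^ n' := by
    have e1 : PbB u₁ q V (EI V) b (fun w => ¬ ∀ x ∈ A, ∃ F, F ⊆ EI V ∧ F.card ≤ k ∧
        Conn (w ∪ F) x (sd r l b i₀)) ≤ (4 * (n : ℝ)) ^ (D + 1) * τ := by
      refine (PbB_union hu₁ hq A (fun w => ¬ ∀ x ∈ A, ∃ F, F ⊆ EI V ∧ F.card ≤ k ∧
        Conn (w ∪ F) x (sd r l b i₀)) (fun x w => ¬ ∃ F, F ⊆ EI V ∧ F.card ≤ k ∧
        Conn (w ∪ F) x (sd r l b i₀)) (fun w _ _ h => by
          by_contra hcon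
          push Not at hcon
          exact h fun x hx => hcon x hx)).trans ?_
      refine (Finset.sum_le_card_nsmul _ _ _ (fun x hx => hT i₀ (hI hi₀) x hx)).trans
        (le_of_eq ?_)
      rw [nsmul_eq_mul, hAdef]
      unfold fbox
      rw [card_bx]
      push_cast
      ring
    have e2 : PbB u₁ q V (EI V) b (fun w => ¬ ∃ i ∈ I,
        Out (shV (sctr r' (sd r l b i)) (cube (D + 1) m)) w (sd r l b i)) ≤ δ ^ n' := by
      refine le_trans (PbB_mono' hu₁ hq (fun w _ _ h i hi ho => h ⟨i, hi, ho⟩)) (seed_arms hu₁ hq hr'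
        hmR hrR hRl hN hb hfull hI (fun i hi => (hbox i (hI hi)).trans hV) h1)
    have e3 : PbB u₁ q V (EI V) b (fun w => ¬ ∃ i ∈ blocks k₀ j \ I,
        Out (shV (sctr r' (sd r l b i)) (cube (D + 1) m)) w (sd r l b i)) ≤ δ ^ n' := by
      refine le_trans (PbB_mono' hu₁ hq (fun w _ _ h i hi ho => h ⟨i, hi, ho⟩)) (seed_arms hu₁ hq hr'
        hmR hrR hRl hN hb hfull (I := blocks k₀ j \ I) sdiff_subset
        (fun i hi => (hbox i (mem_sdiff.1 hi).1).trans hV) h2)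
    have e4 := PbB_or (V := V) (E := EI V) (b := b) hu₁ hq (fun w => ¬ ∀ x ∈ A, ∃ F, F ⊆ EI V ∧
        F.card ≤ k ∧ Conn (w ∪ F) x (sd r l b i₀)) (fun w => (¬ ∃ i ∈ I,
        Out (shV (sctr r' (sd r l b i)) (cube (D + 1) m)) w (sd r l b i)) ∨
        (¬ ∃ i ∈ blocks k₀ j \ I,
        Out (shV (sctr r' (sd r l b i)) (cube (D + 1) m)) w (sd r l b i)))
    have e5 := PbB_or (V := V) (E := EI V) (b := b) hu₁ hq (fun w => (¬ ∃ i ∈ I,
        Out (shV (sctr r' (sd r l b i)) (cube (D + 1) m)) w (sd r l b i))) (fun w =>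
        (¬ ∃ i ∈ blocks k₀ j \ I,
        Out (shV (sctr r' (sd r l b i)) (cube (D + 1) m)) w (sd r l b i)))
    refine le_trans (PbB_mono' hu₁ hq (fun w _ _ h => ?_)) (e4.trans ?_)
    · by_cases g1 : ∀ x ∈ A, ∃ F, F ⊆ EI V ∧ F.card ≤ k ∧ Conn (w ∪ F) x (sd r l b i₀)
      · by_cases g2 : ∃ i ∈ I, Out (shV (sctr r' (sd r l b i)) (cube (D + 1) m)) w (sd r l b i)
        · exact Or.inr (Or.inr fun g3 => h ⟨g1, g2, g3⟩)
        · exact Or.inr (Or.inl g2)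
      · exact Or.inl g1
    · linarith
  refine hS.trans ?_
  unfold fineB1
  rw [← hE₀]
  linarith

open Classical in
/-- **Existence of a giant in a fine cube, given the marks.** -/
theorem fine_bad_rq {D : ℕ} (hD : 2 ≤ D) {u₁ u₂ q : ℝ} (hu₁ : 0 < u₁) (hu : u₁ < u₂) (hq : 1 ≤ q)
    {r l k₀ R m r' k n' m' : ℕ} {δ τ : ℝ} (hr' : 2 * r' + 1 ≤ r) (hmR : m + 1 ≤ R)
    (hrR : r ≤ R) (hRl : 2 * R + 1 ≤ r * 2 ^ l) (hm' : m' + r' ≤ m + 1)
    (hN : ∀ (x : Pt (D + 1)) (V : Finset (Pt (D + 1))), shV x (cube (D + 1) R) ⊆ V →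
      1 - δ ≤ Pb u₁ q V (EI V)
        (fun ω => ∃ y ∈ shV x (cube (D + 1) r'), Out (shV x (cube (D + 1) m)) ω y))
    {V : Finset (Pt (D + 1))} {b : Finset (Ed (D + 1))} (hb : b ⊆ EI V) {j : Pt (D + 1)}
    (hV : fbox (r * 2 ^ l * 2 ^ k₀) j ⊆ V) (hfull : FullF r l k₀ j b)
    (hT : ∀ i ∈ blocks k₀ j, ∀ x ∈ fbox (r * 2 ^ l * 2 ^ k₀) j,
      PbB u₁ q V (EI V) b (fun w => ¬ ∃ F, F ⊆ EI V ∧ F.card ≤ k ∧
        Conn (w ∪ F) x (sd r l b i)) ≤ τ) (hτ : 0 ≤ τ) (hδ : 0 ≤ δ)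
    (hn' : 2 ^ (2 * D + 3) * n' ≤ (2 ^ (k₀ + 1)) ^ (D + 1)) :
    PbB u₂ q V (EI V) b (fun ω => ¬ ∃ x, Big r l k₀ j b ω x) ≤
      2 ^ ((2 ^ (k₀ + 1)) ^ (D + 1)) *
        fineB1 D ((u₂ - u₁) / (u₁ + q)) δ τ (r * 2 ^ l * 2 ^ k₀) k m' n' := by
  have hu₂ : 0 < u₂ := hu₁.trans hu
  have hM : 0 < (2 ^ (k₀ + 1)) ^ (D + 1) := by positivity
  have hp : 0 < 2 ^ (D + 2) := by positivity
  have hcard : ∀ K : Finset (Pt (D + 1)), (2 ^ (k₀ + 1)) ^ (D + 1) ≤ 2 ^ (D + 2) * K.card →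
      2 ^ (D + 1) * n' ≤ K.card ∧ K.Nonempty := by
    intro K hK
    constructor
    · have h1 : 2 ^ (D + 2) * (2 ^ (D + 1) * n') ≤ 2 ^ (D + 2) * K.card := by
        refine le_trans (le_of_eq ?_) (hn'.trans hK)
        rw [← mul_assoc, ← pow_add]
        congr 2
        omega
      exact Nat.le_of_mul_le_mul_left h1 hp
    · rw [← card_pos]
      by_contra h0
      have h0' : K.card = 0 := by omega
      rw [h0', mul_zero] at hK
      omega
  have hU := PbB_union hu₂ hq (V := V) (E := EI V) (b := b)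
    ((blocks k₀ j).powerset.filter (fun I => (2 ^ (k₀ + 1)) ^ (D + 1) ≤ 2 ^ (D + 2) * I.card ∧
      (2 ^ (k₀ + 1)) ^ (D + 1) ≤ 2 ^ (D + 2) * (blocks k₀ j \ I).card))
    (fun ω => ¬ ∃ x, Big r l k₀ j b ω x)
    (fun I ω => ∀ v ∈ I.image (sd r l b),
      ∀ w ∈ (blocks k₀ j \ I).image (sd r l b), ¬ Conn ω v w) ?_
  · refine hU.trans ?_
    have hX : 0 ≤ fineB1 D ((u₂ - u₁) / (u₁ + q)) δ τ (r * 2 ^ l * 2 ^ k₀) k m' n' := by
      unfold fineB1
      positivity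
    refine (Finset.sum_le_card_nsmul _ _
      (fineB1 D ((u₂ - u₁) / (u₁ + q)) δ τ (r * 2 ^ l * 2 ^ k₀) k m' n') (fun I hI => ?_)).trans ?_
    · rw [mem_filter, mem_powerset] at hI
      obtain ⟨hI, hc1, hc2⟩ := hI
      exact fine_split hD hu₁ hu hq hr' hmR hrR hRl hm' hN hb hV hfull hT hI (hcard I hc1).1
        (hcard _ hc2).1 (hcard I hc1).2 (hcard _ hc2).2
    · rw [nsmul_eq_mul]
      refine mul_le_mul_of_nonneg_right ?_ hX
      have h3' : ((blocks k₀ j).powerset.filter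
          (fun I => (2 ^ (k₀ + 1)) ^ (D + 1) ≤ 2 ^ (D + 2) * I.card ∧
          (2 ^ (k₀ + 1)) ^ (D + 1) ≤ 2 ^ (D + 2) * (blocks k₀ j \ I).card)).card ≤
          2 ^ ((2 ^ (k₀ + 1)) ^ (D + 1)) := by
        refine (card_filter_le _ _).trans ?_
        rw [card_powerset, card_blocks]
      exact_mod_cast h3'
  · intro ω _ _ hno
    obtain ⟨I, hIS, hI1, hI2, hI3⟩ := exists_split (blocks k₀ j)
      (fun i i' => Conn ω (sd r l b i) (sd r l b i'))
      ⟨fun i => Conn.refl _ _, fun h => h.symm, fun h h' => h.trans h'⟩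
      (N := 2 ^ (D + 2)) (by
        have : 2 ^ 2 ≤ 2 ^ (D + 2) := Nat.pow_le_pow_right (by norm_num) (by omega)
        simpa using this) (fun i hi => by
          by_contra hcon
          apply hno
          refine ⟨sd r l b i, ?_⟩
          unfold Big
          push Not at hcon
          exact hcon)
    rw [card_blocks] at hI1 hI2
    have hsd : ∀ x, x ∈ blocks k₀ j \ I ↔
        x ∈ @sdiff _ (@Finset.instSDiff _ (fun a b => Classical.propDecidable (a = b)))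
          (blocks k₀ j) I := by
      intro x
      exact mem_sdiff.trans
        (@Finset.mem_sdiff _ (fun a b => Classical.propDecidable (a = b)) _ _ _).symm
    refine ⟨I, mem_filter.2 ⟨mem_powerset.2 hIS, hI1, ?_⟩, ?_⟩
    · rw [Finset.ext hsd]
      exact hI2
    · intro v hv w hw
      rw [mem_image] at hv hw
      obtain ⟨i, hi, rfl⟩ := hv
      obtain ⟨i', hi', rfl⟩ := hw
      exact hI3 i hi i' ((hsd i').1 hi')

end Pool.Agent.Lib.MP_31386d_pr_RQ
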