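import Pool.Agent.Lib.MP_31386d_pr_RQ.Defs

/-!
# Large deviations by the Hamming distance
-/

set_option autoImplicit false

namespace Pool.Agent.Lib.MP_31386d_pr_RQ

open Finset
open Pool.Agent.Lib.MP_31386d_pr
open Pool.Agent.Lib.MP_31386d_pr_POTTS

variable {d : ℕ}

open Classical in
/-- the largest number of edges of a subset of `ω` in `D` -/
private noncomputable def gD (D : Finset (Ed d) → Prop) (ω : Finset (Ed d)) : ℕ :=
  (ω.powerset.filter D).sup card

private theorem gD_le_card (D : Finset (Ed d) → Prop) (ω : Finset (Ed d)) :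
    gD D ω ≤ ω.card := by
  classical
  refine Finset.sup_le fun s hs => ?_
  exact card_le_card (mem_powerset.mp (mem_filter.mp hs).1)

private theorem le_gD {D : Finset (Ed d) → Prop} {s ω : Finset (Ed d)} (hs : s ⊆ ω) (hD : D s) :
    s.card ≤ gD D ω := by
  classical
  exact Finset.le_sup (f := card) (mem_filter.mpr ⟨mem_powerset.mpr hs, hD⟩)

private theorem exists_gD {D : Finset (Ed d) → Prop} (h0 : D ∅) (ω : Finset (Ed d)) :
    ∃ s, s ⊆ ω ∧ D s ∧ s.card = gD D ω := by
  classical
  obtain ⟨s, hs, h⟩ := Finset.exists_mem_eq_sup (ω.powerset.filter D)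
    ⟨∅, mem_filter.mpr ⟨mem_powerset.mpr (empty_subset _), h0⟩⟩ card
  exact ⟨s, mem_powerset.mp (mem_filter.mp hs).1, (mem_filter.mp hs).2, h.symm⟩

private theorem gD_mono {D : Finset (Ed d) → Prop} (h0 : D ∅) {s t : Finset (Ed d)} (h : s ⊆ t) :
    gD D s ≤ gD D t := by
  obtain ⟨w, hw, hD, hc⟩ := exists_gD h0 s
  rw [← hc]
  exact le_gD (hw.trans h) hD

private theorem gD_of {D : Finset (Ed d) → Prop} {s : Finset (Ed d)} (h : D s) :
    gD D s = s.card :=
  le_antisymm (gD_le_card D s) (le_gD (subset_refl s) h)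

private theorem hD_mono {D : Finset (Ed d) → Prop} (h0 : D ∅)
    (hD : ∀ s t, s ⊆ t → D t → D s) {s t : Finset (Ed d)} (h : s ⊆ t) :
    s.card - gD D s ≤ t.card - gD D t := by
  obtain ⟨w, hw, hDw, hc⟩ := exists_gD h0 t
  have h1 : (s ∩ w).card ≤ gD D s := le_gD inter_subset_left (hD _ _ inter_subset_right hDw)
  have h2 : (w \ s).card + (s ∩ w).card = w.card := by
    rw [inter_comm]
    exact card_sdiff_add_card_inter w s
  have h3 : (w \ s).card ≤ (t \ s).card := card_le_card (sdiff_subset_sdiff hw (subset_refl s))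
  have h4 : (t \ s).card + s.card = t.card := card_sdiff_add_card_eq_card h
  have h5 := gD_le_card D s
  have h6 := gD_le_card D t
  omega

private theorem wt_mul_u (lam u q : ℝ) (V : Finset (Pt d)) (ω : Finset (Ed d)) :
    wt (lam * u) q V ω = lam ^ ω.card * wt u q V ω := by
  unfold wt
  rw [mul_pow]
  ring

/-- If every configuration in the increasing event `G` has Hamming distance at least `R` to the
decreasing event `D`, then increasing the edge parameter by the factor `lam` makes `D` less likely
by the factor `lam ^ R * P(G)`. -/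
theorem ham {u lam q : ℝ} (hu : 0 < u) (hlam : 1 ≤ lam) (hq : 1 ≤ q) (V : Finset (Pt d))
    (E : Finset (Ed d)) {D G : Finset (Ed d) → Prop} (hD : ∀ s t, s ⊆ t → D t → D s)
    (hG : ∀ s t, s ⊆ t → G s → G t) {R : ℕ}
    (h : ∀ ω, ω ⊆ E → G ω → ∀ ω', ω' ⊆ ω → D ω' → R ≤ (ω \ ω').card) :
    Pb (lam * u) q V E D * (lam ^ R * Pb u q V E G) ≤ 1 := by
  classical
  have hlam0 : 0 < lam := zero_lt_one.trans_le hlam
  have hlu : 0 < lam * u := mul_pos hlam0 hu
  by_cases h0 : D ∅
  · have hZ := Z_pos hu hq V E
    have hA := Z_pos hlu hq V E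
    -- the five sums
    have ha : Zs (lam * u) q V E (fun ω => if D ω then (1 : ℝ) else 0) =
        Zs u q V E (fun ω => lam ^ gD D ω * (if D ω then (1 : ℝ) else 0)) := by
      unfold Zs
      refine sum_congr rfl fun ω _ => ?_
      rw [wt_mul_u]
      by_cases hω : D ω
      · simp only [if_pos hω, gD_of hω]
        ring
      · simp only [if_neg hω]
        ring
    have hA' : Z (lam * u) q V E =
        Zs u q V E (fun ω => lam ^ gD D ω * lam ^ (ω.card - gD D ω)) := by
      unfold Z Zs
      refine sum_congr rfl fun ω _ => ?_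
      rw [wt_mul_u]
      simp only [← pow_add, Nat.add_sub_cancel' (gD_le_card D ω)]
      ring
    have h1 := Zs_fkg_anti hu hq V E (f := fun ω => lam ^ gD D ω)
      (g := fun ω => if D ω then (1 : ℝ) else 0) (fun ω => by positivity)
      (fun ω => by split_ifs <;> norm_num) (fun s t hst => pow_le_pow_right₀ hlam (gD_mono h0 hst))
      (fun s t hst => by
        have := hD s t hst
        split_ifs with h1 h2
        · exact le_rfl
        · exact absurd (this h1) h2
        · norm_num
        · exact le_rfl)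
    have h2 := Zs_fkg hu hq V E (f := fun ω => lam ^ gD D ω)
      (g := fun ω => lam ^ (ω.card - gD D ω)) (fun ω => by positivity)
      (fun ω => by positivity) (fun s t hst => pow_le_pow_right₀ hlam (gD_mono h0 hst))
      (fun s t hst => pow_le_pow_right₀ hlam (hD_mono h0 hD hst))
    rw [← ha] at h1
    rw [← hA'] at h2
    have h3 : lam ^ R * Zs u q V E (fun ω => if G ω then (1 : ℝ) else 0) ≤
        Zs u q V E (fun ω => lam ^ (ω.card - gD D ω)) := by
      rw [← Zs_const_mul]
      refine Zs_mono hu hq V E fun ω hω => ?_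
      split_ifs with hGω
      · rw [mul_one]
        refine pow_le_pow_right₀ hlam ?_
        obtain ⟨w, hw, hDw, hc⟩ := exists_gD h0 ω
        have h4 := h ω hω hGω w hw hDw
        have h5 : (ω \ w).card + w.card = ω.card := card_sdiff_add_card_eq_card hw
        omega
      · rw [mul_zero]
        positivity
    have h4 : Zs u q V E (fun ω => if D ω then (1 : ℝ) else 0) ≤ Z u q V E := by
      rw [← Zs_one]
      refine Zs_mono hu hq V E fun ω _ => ?_
      split_ifs <;> norm_num
    have hann : 0 ≤ Zs (lam * u) q V E (fun ω => if D ω then (1 : ℝ) else 0) :=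
      Zs_nonneg hlu hq V E fun ω _ => by split_ifs <;> norm_num
    have henn : 0 ≤ Zs u q V E (fun ω => lam ^ (ω.card - gD D ω)) :=
      Zs_nonneg hu hq V E fun ω _ => by positivity
    unfold Pb Ex
    set a := Zs (lam * u) q V E (fun ω => if D ω then (1 : ℝ) else 0)
    set A := Z (lam * u) q V E
    set b := Zs u q V E (fun ω => if D ω then (1 : ℝ) else 0)
    set c := Zs u q V E (fun ω => lam ^ gD D ω)
    set e := Zs u q V E (fun ω => lam ^ (ω.card - gD D ω))
    set g := Zs u q V E (fun ω => if G ω then (1 : ℝ) else 0)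
    set z := Z u q V E
    have hb : 0 ≤ b := Zs_nonneg hu hq V E fun ω _ => by split_ifs <;> norm_num
    have h5 : z * (a * e) ≤ z * (z * A) := by
      calc z * (a * e) = (z * a) * e := by ring
        _ ≤ (c * b) * e := mul_le_mul_of_nonneg_right h1 henn
        _ = b * (c * e) := by ring
        _ ≤ b * (z * A) := mul_le_mul_of_nonneg_left h2 hb
        _ ≤ z * (z * A) := mul_le_mul_of_nonneg_right h4 (mul_pos hZ hA).le
    have h6 : a * e ≤ z * A := le_of_mul_le_mul_left h5 hZ
    have h7 : a / A * (lam ^ R * (g / z)) = (a * (lam ^ R * g)) / (z * A) := by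
      field_simp
    rw [h7, div_le_one (mul_pos hZ hA)]
    exact (mul_le_mul_of_nonneg_left h3 hann).trans h6
  · have h1 : Pb (lam * u) q V E D = 0 := by
      unfold Pb
      refine Eq.trans (Ex_congr fun ω _ => ?_) (Ex_const (V := V) (E := E) hlu hq 0)
      have h3 : ¬ D ω := fun h4 => h0 (hD _ _ (empty_subset ω) h4)
      rw [if_neg h3]
    rw [h1, zero_mul]
    exact zero_le_one

end Pool.Agent.Lib.MP_31386d_pr_RQ
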