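import Pool.Agent.Lib.MP_31386d_pr_RQ.NOne
import Pool.Agent.Lib.MP_31386d_pr_RQ.ROneB
import Pool.Agent.Lib.MP_31386d_pr_RQ.ArmPts

/-!
# The two inputs
-/

set_option autoImplicit false

namespace Pool.Agent.Lib.MP_31386d_pr_RQ

open Finset
open Pool.Agent.Lib.MP_31386d_pr
open Pool.Agent.Lib.MP_31386d_pr_POTTS

theorem inA {d : ℕ} (hd : 1 ≤ d) {q : ℝ} (hq : 1 < q) {u₁ u₂ : ℝ} (hu₁ : 0 < u₁) (hu : u₁ < u₂)
    (hθ : ∃ c : ℝ, 0 < c ∧ ∀ r : ℕ, c ≤ thw d u₁ q r) : InA d u₂ q := by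
  intro δ hδ
  obtain ⟨r₀, K, hK, h⟩ := n_one hd hq hu₁ hu hθ hδ
  refine ⟨r₀, K, hK, fun m hm => ?_⟩
  have h1 := h r₀ le_rfl m hm 0 (cube d (K * m ^ (d + 1))) (by
    intro x hx
    rw [Pool.Agent.Lib.MP_31386d_pr.mem_shV_cube] at hx
    rw [mem_cube]
    have h2 : K * m ^ d ≤ K * m ^ (d + 1) :=
      Nat.mul_le_mul_left _ (Nat.pow_le_pow_right hm (Nat.le_succ d))
    intro i
    have h3 := hx i
    rw [Pi.zero_apply, sub_zero, abs_le] at h3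
    have h4 : ((K * m ^ d : ℕ) : ℤ) ≤ ((K * m ^ (d + 1) : ℕ) : ℤ) := by exact_mod_cast h2
    constructor <;> linarith [h3.1, h3.2])
  have hu₂ : 0 < u₂ := hu₁.trans hu
  rw [Pb_not hu₂ hq.le]
  have h2 : Pb u₂ q (cube d (K * m ^ (d + 1))) (EI (cube d (K * m ^ (d + 1))))
      (fun ω => ∃ y ∈ shV 0 (cube d r₀), Out (shV 0 (cube d m)) ω y) ≤
      Pb u₂ q (cube d (K * m ^ (d + 1))) (EI (cube d (K * m ^ (d + 1))))
      (fun ω => Arm ω (cube d r₀) 0 m) := by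
    refine Pb_mono hu₂ hq.le ?_
    rintro ω - ⟨y, hy, z, hz, hc⟩
    rw [mem_shV, sub_zero] at hy
    exact ⟨y, hy, z, hz, hc⟩
  linarith

theorem inB {d : ℕ} (hd : 1 ≤ d) {q : ℝ} (hq : 1 < q) {u₁ u₂ : ℝ} (hu₁ : 0 < u₁) (hu : u₁ < u₂)
    (hθ : ∃ c : ℝ, 0 < c ∧ ∀ r : ℕ, c ≤ thw d u₁ q r) : InB d u₂ q := by
  refine ⟨4 * d, by omega, fun δ hδ => ?_⟩
  obtain ⟨r₀, h⟩ := r_one_ball hd hq hu₁ hu hθ hδ
  obtain ⟨K, hK, h⟩ := h r₀ le_rfl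
  refine ⟨r₀, K, hK, fun n hn x hx => ?_⟩
  have h1 := h n hn 0 x (by
    intro i
    rw [Pi.zero_apply, zero_sub, abs_neg]
    exact hx i) (cube d (K * n ^ (4 * d))) (by
    intro y hy
    rwa [mem_shV, sub_zero] at hy)
  have hu₂ : 0 < u₂ := hu₁.trans hu
  rw [Pb_not hu₂ hq.le]
  have h2 : Pb u₂ q (cube d (K * n ^ (4 * d))) (EI (cube d (K * n ^ (4 * d))))
      (fun ω => ∃ a ∈ shV 0 (cube d r₀), ∃ b ∈ shV x (cube d r₀), Conn ω a b) ≤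
      Pb u₂ q (cube d (K * n ^ (4 * d))) (EI (cube d (K * n ^ (4 * d))))
      (fun ω => CS ω (cube d r₀) (cub x r₀)) := by
    refine Pb_mono hu₂ hq.le ?_
    rintro ω - ⟨a, ha, b, hb, hc⟩
    rw [mem_shV, sub_zero] at ha
    exact ⟨a, ha, b, hb, hc⟩
  linarith

end Pool.Agent.Lib.MP_31386d_pr_RQ
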