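import Pool.Agent.Lib.MP_31386d_pr_POTTS.LatSum
import Pool.Agent.Lib.MP_31386d_pr_POTTS.EdgeOpen

set_option autoImplicit false

namespace Pool.Agent.Lib.MP_31386d_pr_RQ.NOne

open Finset
open Pool.Agent.Lib.MP_31386d_pr
open Pool.Agent.Lib.MP_31386d_pr_POTTS

variable {d : ℕ} {u q : ℝ}

section general

variable {V V' : Finset (Pt d)} {E : Finset (Ed d)}

/-- Dictionary for expectations. -/
theorem dict_aEx (hq : 1 ≤ q) (hV : V' ⊆ V) (E : Finset (Ed d)) (f : Finset (Ed d) → ℝ) :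
    aEx u q (enV V) (BW V V') E f = Ex u q V' E f := by
  classical
  have hq0 : 0 < q := by linarith
  have h1 : ∀ f : Finset (Ed d) → ℝ, aZ u q (enV V) (BW V V') E f = q * Zs u q V' E f := by
    intro f
    unfold aZ Zs wt
    rw [mul_sum]
    refine sum_congr rfl fun ω _ => ?_
    rw [dict_cc hV, pow_succ]
    ring
  unfold aEx Ex
  rw [h1, h1, mul_div_mul_left _ _ hq0.ne', Zs_one]

theorem Pb_congr {P Q : Finset (Ed d) → Prop} (h : ∀ ω, ω ⊆ E → (P ω ↔ Q ω)) :
    Pb u q V E P = Pb u q V E Q := by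
  classical
  unfold Pb
  refine Ex_congr fun ω hω => ?_
  by_cases h1 : P ω
  · rw [if_pos h1, if_pos ((h ω hω).1 h1)]
  · rw [if_neg h1, if_neg (fun h2 => h1 ((h ω hω).2 h2))]

/-- Monotonicity in the domain. -/
theorem Pb_mono_V (hu : 0 < u) (hq : 1 ≤ q) (hV : V' ⊆ V) {P : Finset (Ed d) → Prop}
    (hP : ∀ s t, s ⊆ t → P s → P t) : Pb u q V' (EI V') P ≤ Pb u q V (EI V) P := by
  classical
  have e1 : Pb u q (V' ∪ (V \ V')) (EI V') P = Pb u q V' (EI V') P := by
    unfold Pb
    apply Ex_isol hu hq disjoint_sdiff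
    intro e he
    rw [mem_EI] at he
    simp only [mem_sdiff]
    tauto
  rw [union_sdiff_of_subset hV] at e1
  rw [← e1]
  exact Slab.Pb_mono_E hu hq (EI_mono hV) hP

theorem Pb_anti_V (hu : 0 < u) (hq : 1 ≤ q) (hV : V' ⊆ V) {P : Finset (Ed d) → Prop}
    (hP : ∀ s t, s ⊆ t → P t → P s) : Pb u q V (EI V) P ≤ Pb u q V' (EI V') P := by
  have h := Pb_mono_V (u := u) (q := q) hu hq hV (P := fun ω => ¬ P ω)
    (fun s t hst h1 h2 => h1 (hP s t hst h2))
  rw [Pb_not hu hq, Pb_not hu hq] at h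
  linarith

/-- Monotonicity in the parameter. -/
theorem Pb_mono_u {u' : ℝ} (hu : 0 < u) (huu : u ≤ u') (hq : 1 ≤ q)
    {P : Finset (Ed d) → Prop} (hP : ∀ s t, s ⊆ t → P s → P t) :
    Pb u q V E P ≤ Pb u' q V E P := by
  classical
  unfold Pb
  refine Ex_dom_u hu huu hq (fun ω => by split_ifs <;> norm_num) (fun s t hst => ?_)
  have := hP s t hst
  split_ifs with h1 h2
  · exact le_rfl
  · exact absurd (this h1) h2
  · norm_num
  · exact le_rfl

/-- Wiring increases the probability of increasing events. -/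
theorem Pb_wire (hu : 0 < u) (hq : 1 ≤ q) (hV : V' ⊆ V)
    {P : Finset (Ed d) → Prop} (hP : ∀ s t, s ⊆ t → P s → P t) :
    Pb u q V E P ≤ Pb u q V' E P := by
  classical
  unfold Pb
  refine Ex_dom_V hu hq hV (fun ω => by split_ifs <;> norm_num) (fun s t hst => ?_)
  have := hP s t hst
  split_ifs with h1 h2
  · exact le_rfl
  · exact absurd (this h1) h2
  · norm_num
  · exact le_rfl

/-- Translation. -/
theorem Pb_shV (t : Pt d) (V : Finset (Pt d)) (P : Finset (Ed d) → Prop) :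
    Pb u q (shV t V) (EI (shV t V)) P = Pb u q V (EI V) (fun ω => P (shE t ω)) := by
  classical
  unfold Pb
  rw [EI_shV, Ex_shV]

theorem Pb_eq_Ex (P : Finset (Ed d) → Prop) [DecidablePred P] :
    Pb u q V E P = Ex u q V E (fun ω => if P ω then 1 else 0) := by
  unfold Pb
  refine Ex_congr fun ω _ => ?_
  by_cases h : P ω
  · rw [if_pos h, if_pos h]
  · rw [if_neg h, if_neg h]

/-- Comparison of two measures on a local increasing event. -/
theorem Pb_local (hu : 0 < u) (hq : 1 ≤ q) (hV : V' ⊆ V) {F : Finset (Ed d)}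
    {P : Finset (Ed d) → Prop} (hP : ∀ s t, s ⊆ t → P s → P t)
    (hl : ∀ ω, P ω → P (ω ∩ F)) :
    Pb u q V' E P - Pb u q V E P ≤
      ∑ e ∈ F, (Pb u q V' E (fun ω => e ∈ ω) - Pb u q V E (fun ω => e ∈ ω)) := by
  classical
  have hf : ∀ s t : Finset (Ed d), s ⊆ t →
      ((∑ e ∈ F, (if e ∈ s then (1 : ℝ) else 0)) + (1 - (if P s then (1 : ℝ) else 0))) ≤
      ((∑ e ∈ F, (if e ∈ t then (1 : ℝ) else 0)) + (1 - (if P t then (1 : ℝ) else 0))) := by
    intro s t hst
    rw [sum_ite_mem, sum_ite_mem, sum_const, sum_const, nsmul_eq_mul, nsmul_eq_mul, mul_one, mul_one]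
    have h1 : F ∩ s ⊆ F ∩ t := inter_subset_inter_left hst
    have h2 : ((F ∩ s).card : ℝ) ≤ (F ∩ t).card := by exact_mod_cast card_le_card h1
    by_cases hs : P s
    · rw [if_pos hs, if_pos (hP s t hst hs)]
      linarith
    · by_cases ht : P t
      · rw [if_neg hs, if_pos ht]
        have h3 : F ∩ s ≠ F ∩ t := by
          intro h
          apply hs
          have h4 := hl t ht
          rw [inter_comm, ← h] at h4
          exact hP _ _ inter_subset_right h4
        have h5 : (F ∩ s).card < (F ∩ t).card := card_lt_card (Finset.ssubset_iff_subset_ne.2 ⟨h1, h3⟩)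
        have h6 : ((F ∩ s).card : ℝ) + 1 ≤ (F ∩ t).card := by exact_mod_cast h5
        linarith
      · rw [if_neg hs, if_neg ht]
        linarith
  have h := Ex_dom_V (u := u) (q := q) (E := E) hu hq hV
    (f := fun s => (∑ e ∈ F, (if e ∈ s then (1 : ℝ) else 0)) + (1 - (if P s then (1 : ℝ) else 0)))
    (fun ω => by
      have : 0 ≤ ∑ e ∈ F, (if e ∈ ω then (1 : ℝ) else 0) :=
        sum_nonneg fun _ _ => by split_ifs <;> norm_num
      split_ifs <;> linarith) hf
  rw [Ex_add, Ex_add, Ex_sub, Ex_sub, Ex_sum, Ex_sum, Ex_const hu hq, Ex_const hu hq] at h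
  rw [sum_sub_distrib]
  simp only [Pb_eq_Ex]
  linarith

/-- Product bound for decreasing events in disjoint boxes. -/
theorem Pb_boxes (hu : 0 < u) (hq : 1 ≤ q) {ε : ℝ} (hε0 : 0 ≤ ε) {ι : Type} [DecidableEq ι]
    (W : ι → Finset (Pt d)) (P : ι → Finset (Ed d) → Prop)
    (hP : ∀ i s t, s ⊆ t → P i t → P i s) (hl : ∀ i ω, P i (ω ∩ EI (W i)) → P i ω)
    (hε : ∀ i, Pb u q (W i) (EI (W i)) (P i) ≤ ε) (S : Finset ι) :
    ∀ V : Finset (Pt d), (∀ j ∈ S, W j ⊆ V) →
      (∀ j ∈ S, ∀ k ∈ S, j ≠ k → Disjoint (W j) (W k)) →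
      Pb u q V (EI V) (fun ω => ∀ j ∈ S, P j ω) ≤ ε ^ S.card := by
  have hl' : ∀ i ω F, EI (W i) ⊆ F → (P i (ω ∩ F) ↔ P i ω) := by
    intro i ω F hF
    refine ⟨fun h => hl i ω (hP i _ _ ?_ h), fun h => hP i _ _ inter_subset_left h⟩
    exact inter_subset_inter_left hF
  induction S using Finset.induction_on with
  | empty =>
    intro V _ _
    rw [card_empty, pow_zero]
    exact Pb_le_one hu hq _
  | insert j S hj ih =>
    intro V hV hdis
    rw [card_insert_of_notMem hj, pow_succ']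
    have h1 : ∀ k ∈ S, W k ⊆ V \ W j := by
      intro k hk x hx
      rw [mem_sdiff]
      refine ⟨hV k (mem_insert_of_mem hk) hx, fun hx' => ?_⟩
      have := hdis j (mem_insert_self _ _) k (mem_insert_of_mem hk) (fun h => hj (h ▸ hk))
      exact Finset.disjoint_left.1 this hx' hx
    have h2 := ih _ h1 (fun a ha b hb => hdis a (mem_insert_of_mem ha) b (mem_insert_of_mem hb))
    have h3 := Slab.Pb_split (u := u) (q := q) hu hq (hV j (mem_insert_self _ _))
      (P := fun ω => P j ω) (Q := fun ω => ∀ k ∈ S, P k ω)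
      (fun s t' hst h => hP j s t' hst h)
      (fun s t' hst h k hk => hP k s t' hst (h k hk))
      (fun ω => hl' j ω _ subset_rfl)
      (fun ω => by
        constructor
        · intro h k hk
          exact (hl' k ω _ (EI_mono (h1 k hk))).1 (h k hk)
        · intro h k hk
          exact (hl' k ω _ (EI_mono (h1 k hk))).2 (h k hk))
    have h4 : (fun ω => ∀ k ∈ insert j S, P k ω) =
        fun ω : Finset (Ed d) => P j ω ∧ ∀ k ∈ S, P k ω := by
      funext ω
      simp only [forall_mem_insert]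
    rw [h4]
    refine h3.trans ?_
    exact mul_le_mul (hε j) h2 (Pb_nonneg hu hq _) hε0

end general

/-- The edge densities of the wired and the free measure. -/
theorem edge_LL (hu : 0 < u) (hq : 1 < q) {N : ℕ} {e : Ed d} (he : e ∈ EB (cube d N)) :
    Pb u q (cube d N) (EB (cube d N)) (fun ω => e ∈ ω) -
      Pb u q (cube d (N + 1)) (EB (cube d N)) (fun ω => e ∈ ω) ≤ LL u q N e := by
  classical
  have hq1 : 1 ≤ q := hq.le
  have hq0 : 0 < q := by linarith
  have hsub : cube d N ⊆ cube d (N + 1) := cube_mono (Nat.le_succ N)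
  have he2 := mem_EI.1 (EI_cube_sub N he)
  have key : ∀ V' : Finset (Pt d), V' ⊆ cube d (N + 1) →
      Pb u q V' (EB (cube d N)) (fun ω => e ∈ ω) = u / (1 + u) * (1 / q + (1 - 1 / q) *
        Pb u q V' (EB (cube d N)) (fun ω => ConnP V' ω e.1 (tgt e))) := by
    intro V' hV'
    rw [← dict_aC hu hq1 hV']
    have h1 : Pb u q V' (EB (cube d N)) (fun ω => e ∈ ω) =
        aEx u q (enV (cube d (N + 1))) (BW (cube d (N + 1)) V') (EB (cube d N))
          (fun ω => ind (e ∈ ω)) := by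
      rw [dict_aEx hq1 hV']
      unfold Pb
      refine Ex_congr fun ω _ => ?_
      by_cases h : e ∈ ω
      · rw [if_pos h, ind_of h]
      · rw [if_neg h, ind_not h]
    rw [h1]
    unfold aC aEx
    rw [edge_open hu hq0 he]
    have hZ : aZ u q (enV (cube d (N + 1))) (BW (cube d (N + 1)) V') (EB (cube d N))
        (fun _ => 1) ≠ 0 := by
      unfold aZ
      apply ne_of_gt
      refine sum_pos (fun ω _ => by positivity) ⟨∅, by simp⟩
    have h2 : enV (cube d (N + 1)) e = (pV (cube d (N + 1)) e.1, pV (cube d (N + 1)) (tgt e)) := rfl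
    rw [h2]
    field_simp
  rw [key _ hsub, key _ (subset_refl _)]
  have h3 : Pb u q (cube d (N + 1)) (EB (cube d N))
      (fun ω => ConnP (cube d (N + 1)) ω e.1 (tgt e)) = P0 u q N e.1 (tgt e) :=
    Pb_congr fun ω hω => connP_free (hω.trans (EI_cube_sub N)) he2.1 he2.2
  have h4 : Pb u q (cube d N) (EB (cube d N)) (fun ω => ConnP (cube d N) ω e.1 (tgt e)) =
      P1 u q N e.1 (tgt e) := rfl
  rw [h3, h4]
  have h5 := LL_nonneg hq1 hu he
  have h6 : u / (1 + u) * (1 / q + (1 - 1 / q) * P1 u q N e.1 (tgt e)) -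
      u / (1 + u) * (1 / q + (1 - 1 / q) * P0 u q N e.1 (tgt e)) =
      (u / (1 + u) * (1 - 1 / q)) * LL u q N e := by
    unfold LL
    ring
  rw [h6]
  have h7 : u / (1 + u) ≤ 1 := by
    rw [div_le_one (by linarith)]
    linarith
  have h8 : 0 ≤ u / (1 + u) := by positivity
  have h9 : 1 - 1 / q ≤ 1 := by
    have : 0 < 1 / q := by positivity
    linarith
  have h10 : 0 ≤ 1 - 1 / q := by
    rw [sub_nonneg, div_le_one hq0]
    exact hq1
  calc u / (1 + u) * (1 - 1 / q) * LL u q N e ≤ 1 * LL u q N e :=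
        mul_le_mul_of_nonneg_right (by nlinarith) h5
    _ = LL u q N e := one_mul _

/-- Wired against free in a cube, for a local increasing event. -/
theorem wired_sub_free (hu : 0 < u) (hq : 1 < q) {N : ℕ} {F : Finset (Ed d)}
    (hF : F ⊆ EB (cube d N)) {P : Finset (Ed d) → Prop} (hP : ∀ s t, s ⊆ t → P s → P t)
    (hl : ∀ ω, P ω → P (ω ∩ F)) :
    Pb u q (cube d N) (EB (cube d N)) P - ∑ e ∈ F, LL u q N e ≤
      Pb u q (cube d (N + 1)) (EB (cube d N)) P := by
  have h := Pb_local (u := u) (q := q) (E := EB (cube d N)) hu hq.le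
    (cube_mono (d := d) (Nat.le_succ N)) hP hl
  have h2 : ∑ e ∈ F, (Pb u q (cube d N) (EB (cube d N)) (fun ω => e ∈ ω) -
      Pb u q (cube d (N + 1)) (EB (cube d N)) (fun ω => e ∈ ω)) ≤ ∑ e ∈ F, LL u q N e :=
    sum_le_sum fun e he => edge_LL hu hq (hF he)
  linarith

end Pool.Agent.Lib.MP_31386d_pr_RQ.NOne
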