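import Pool.Agent.Lib.MP_31386d_pr_RQ.NOneA

/-!
# Good scales: the free and the wired measure are close in a translate of a given cube
-/

set_option autoImplicit false

namespace Pool.Agent.Lib.MP_31386d_pr_RQ.NOne

open Finset
open Pool.Agent.Lib.MP_31386d_pr
open Pool.Agent.Lib.MP_31386d_pr_POTTS

variable {d : ℕ} {u q : ℝ}

theorem card_cubeR (r : ℕ) : ((cube d r).card : ℝ) = (2 * r + 1 : ℝ) ^ d := by
  have : (cube d r).card = (2 * r + 1) ^ d := by
    simp only [cube, Fintype.card_piFinset, Int.card_Icc, prod_const, card_univ, Fintype.card_fin]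
    congr 1
    omega
  rw [this]
  push_cast
  ring

/-- Averaging over the translates of a cube. -/
theorem exists_translate {L : Ed d → ℝ} {N k : ℕ} (hk : 2 * k + 2 ≤ N)
    (hL : ∀ e ∈ EB (cube d N), 0 ≤ L e) {S : ℝ} (hS : ∑ e ∈ EB (cube d N), L e ≤ S) :
    ∃ v ∈ cube d (N / 2), shV v (cube d k) ⊆ cube d N ∧
      (N : ℝ) ^ d * ∑ e ∈ EB (shV v (cube d k)), L e ≤ 2 * d * (2 * k + 1 : ℝ) ^ d * S := by
  classical
  have hsub : ∀ v ∈ cube d (N / 2), shV v (cube d k) ⊆ cube d N := by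
    intro v hv x hx
    rw [mem_shV_cube] at hx
    rw [mem_cube] at hv ⊢
    intro i
    have h1 := hx i
    have h2 := hv i
    rw [abs_le] at h1
    constructor <;> omega
  have hne : (cube d (N / 2)).Nonempty := ⟨0, by rw [mem_cube]; intro i; rw [Pi.zero_apply]; omega⟩
  have h0 : 0 ≤ S := (sum_nonneg hL).trans hS
  have hv0 : ∀ v ∈ cube d (N / 2), 0 ≤ ∑ e ∈ EB (shV v (cube d k)), L e := fun v hv =>
    sum_nonneg fun e he => hL e (EB_mono (hsub v hv) he)
  have htot : ∑ v ∈ cube d (N / 2), ∑ e ∈ EB (shV v (cube d k)), L e ≤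
      2 * d * (2 * k + 1 : ℝ) ^ d * S := by
    have h1 : ∀ v ∈ cube d (N / 2), ∑ e ∈ EB (shV v (cube d k)), L e =
        ∑ f ∈ EB (cube d k), L (f.1 + v, f.2) := by
      intro v _
      rw [EB_shV]
      unfold shE
      rw [sum_map]
      rfl
    rw [sum_congr rfl h1, sum_comm]
    have h2 : ∀ f ∈ EB (cube d k), ∑ v ∈ cube d (N / 2), L (f.1 + v, f.2) ≤ S := by
      intro f hf
      refine le_trans ?_ hS
      have hinj : Set.InjOn (fun v : Pt d => ((f.1 + v, f.2) : Ed d)) (cube d (N / 2)) := by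
        intro v _ w _ h
        have := (Prod.mk.inj h).1
        exact add_left_cancel this
      rw [← sum_image (f := L) hinj]
      refine sum_le_sum_of_subset_of_nonneg ?_ (fun e he _ => hL e he)
      intro e he
      rw [mem_image] at he
      obtain ⟨v, hv, rfl⟩ := he
      apply EB_mono (hsub v hv)
      rw [EB_shV, mem_shE]
      simpa using hf
    refine (sum_le_sum h2).trans ?_
    rw [sum_const, nsmul_eq_mul]
    apply mul_le_mul_of_nonneg_right _ h0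
    have h3 := card_EI_add_EB (cube d k)
    have h4 : ((EB (cube d k)).card : ℝ) ≤ 2 * d * (cube d k).card := by
      have : (EB (cube d k)).card ≤ 2 * d * (cube d k).card := by omega
      exact_mod_cast this
    rw [card_cubeR] at h4
    exact h4
  obtain ⟨v, hv, hmin⟩ := exists_min_image (cube d (N / 2))
    (fun v => ∑ e ∈ EB (shV v (cube d k)), L e) hne
  refine ⟨v, hv, hsub v hv, le_trans ?_ htot⟩
  have h5 : ((cube d (N / 2)).card : ℝ) * ∑ e ∈ EB (shV v (cube d k)), L e ≤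
      ∑ v ∈ cube d (N / 2), ∑ e ∈ EB (shV v (cube d k)), L e := by
    rw [← nsmul_eq_mul]
    exact card_nsmul_le_sum _ _ _ hmin
  refine le_trans ?_ h5
  apply mul_le_mul_of_nonneg_right _ (hv0 v hv)
  rw [card_cubeR]
  apply pow_le_pow_left₀ (by positivity)
  have : N ≤ 2 * (N / 2) + 1 := by omega
  exact_mod_cast this

/-- Good scales. -/
theorem good_scale (hd : 1 ≤ d) (hq : 1 < q) {u₁ u₂ : ℝ} (hu₁ : 0 < u₁) (hu : u₁ < u₂) {η : ℝ}
    (hη : 0 < η) :
    ∃ K : ℕ, 4 ≤ K ∧ ∀ k : ℕ, 1 ≤ k → ∀ N : ℕ, K * k ^ d ≤ N →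
      ∃ u, u₁ < u ∧ u < u₂ ∧ ∃ v ∈ cube d (N / 2), shV v (cube d k) ⊆ cube d N ∧
        ∑ e ∈ EB (shV v (cube d k)), LL u q N e ≤ η := by
  have hq0 : 0 < q := by linarith
  have hg : 0 < (u₂ - u₁) * (1 - 1 / q) := by
    apply mul_pos (by linarith)
    rw [sub_pos, div_lt_one hq0]
    exact hq
  set g : ℝ := (u₂ - u₁) * (1 - 1 / q) with hgdef
  have hlog : 0 ≤ Real.log q := Real.log_nonneg hq.le
  have hu₂ : 0 < u₂ := by linarith
  -- `C N ^ (d - 1)` bounds the sum over all the edges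
  set C : ℝ := (1 + u₂) * (2 * d * (5 : ℝ) ^ (d - 1) * Real.log q) with hC
  have hC0 : 0 ≤ C := by positivity
  obtain ⟨K, hK⟩ := exists_nat_ge (2 * d * (3 : ℝ) ^ d * C / (g * η))
  refine ⟨K + 4, by omega, fun k hk N hN => ?_⟩
  have hkd : k ≤ k ^ d := Nat.le_self_pow (by omega) k
  have hkN : 4 * k ≤ N := by nlinarith
  have hN1 : 1 ≤ N := by omega
  obtain ⟨u, h1, h2, h3⟩ := sum_LL (d := d) hd hq hu₁ hu N
  have hu0 : 0 < u := hu₁.trans h1
  refine ⟨u, h1, h2, ?_⟩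
  have hNR : (1 : ℝ) ≤ N := by exact_mod_cast hN1
  have h4 : (2 * N + 3 : ℝ) ^ (d - 1) ≤ (5 : ℝ) ^ (d - 1) * (N : ℝ) ^ (d - 1) := by
    rw [← mul_pow]
    apply pow_le_pow_left₀ (by positivity)
    linarith
  have h5 : ∑ e ∈ EB (cube d N), LL u q N e ≤ C * (N : ℝ) ^ (d - 1) / g := by
    rw [le_div_iff₀ hg, mul_comm]
    refine h3.trans ?_
    have h6 : 2 * (d : ℝ) * (2 * N + 3 : ℝ) ^ (d - 1) * Real.log q ≤
        2 * d * (5 : ℝ) ^ (d - 1) * Real.log q * (N : ℝ) ^ (d - 1) := by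
      calc 2 * (d : ℝ) * (2 * N + 3 : ℝ) ^ (d - 1) * Real.log q ≤
            2 * (d : ℝ) * ((5 : ℝ) ^ (d - 1) * (N : ℝ) ^ (d - 1)) * Real.log q := by
            apply mul_le_mul_of_nonneg_right _ hlog
            exact mul_le_mul_of_nonneg_left h4 (by positivity)
        _ = _ := by ring
    calc (1 + u₂) * (2 * (d : ℝ) * (2 * N + 3 : ℝ) ^ (d - 1) * Real.log q) ≤
          (1 + u₂) * (2 * d * (5 : ℝ) ^ (d - 1) * Real.log q * (N : ℝ) ^ (d - 1)) :=
          mul_le_mul_of_nonneg_left h6 (by linarith)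
      _ = C * (N : ℝ) ^ (d - 1) := by
          rw [hC]
          ring
  obtain ⟨v, hv, hvs, h7⟩ := exists_translate (d := d) (L := LL u q N) (N := N) (k := k)
    (by omega) (fun e he => LL_nonneg hq.le hu0 he) h5
  refine ⟨v, hv, hvs, ?_⟩
  -- numerical conclusion
  have hNd : (N : ℝ) ^ d = N * (N : ℝ) ^ (d - 1) := by
    rw [← pow_succ', Nat.sub_add_cancel hd]
  have hNp : 0 < (N : ℝ) ^ (d - 1) := by positivity
  have h8 : (N : ℝ) * ∑ e ∈ EB (shV v (cube d k)), LL u q N e ≤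
      2 * d * (2 * k + 1 : ℝ) ^ d * C / g := by
    rw [hNd] at h7
    have h9 : (N : ℝ) ^ (d - 1) * ((N : ℝ) * ∑ e ∈ EB (shV v (cube d k)), LL u q N e) ≤
        (N : ℝ) ^ (d - 1) * (2 * d * (2 * k + 1 : ℝ) ^ d * C / g) := by
      calc _ = (N : ℝ) * (N : ℝ) ^ (d - 1) * ∑ e ∈ EB (shV v (cube d k)), LL u q N e := by ring
        _ ≤ _ := h7
        _ = _ := by ring
    exact le_of_mul_le_mul_left h9 hNp
  have hkR : (1 : ℝ) ≤ k := by exact_mod_cast hk
  have h10 : (2 * k + 1 : ℝ) ^ d ≤ (3 : ℝ) ^ d * (k : ℝ) ^ d := by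
    rw [← mul_pow]
    apply pow_le_pow_left₀ (by positivity)
    linarith
  have h11 : 2 * d * (2 * k + 1 : ℝ) ^ d * C / g ≤ (K : ℝ) * η * (k : ℝ) ^ d := by
    rw [div_le_iff₀ (by positivity)] at hK
    rw [div_le_iff₀ hg]
    calc 2 * d * (2 * k + 1 : ℝ) ^ d * C ≤ 2 * d * ((3 : ℝ) ^ d * (k : ℝ) ^ d) * C := by
          apply mul_le_mul_of_nonneg_right _ hC0
          exact mul_le_mul_of_nonneg_left h10 (by positivity)
      _ = (2 * d * (3 : ℝ) ^ d * C) * (k : ℝ) ^ d := by ring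
      _ ≤ ((K : ℝ) * (g * η)) * (k : ℝ) ^ d := mul_le_mul_of_nonneg_right hK (by positivity)
      _ = _ := by ring
  have h12 : (K : ℝ) * (k : ℝ) ^ d ≤ N := by
    have : K * k ^ d ≤ N := le_trans (Nat.mul_le_mul_right _ (by omega)) hN
    exact_mod_cast this
  have h13 : (N : ℝ) * ∑ e ∈ EB (shV v (cube d k)), LL u q N e ≤ N * η := by
    refine (h8.trans h11).trans ?_
    calc (K : ℝ) * η * (k : ℝ) ^ d = (K : ℝ) * (k : ℝ) ^ d * η := by ring
      _ ≤ N * η := mul_le_mul_of_nonneg_right h12 hη.le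
  exact le_of_mul_le_mul_left h13 (by linarith)

end Pool.Agent.Lib.MP_31386d_pr_RQ.NOne
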