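import Pool.Agent.Lib.MP_31386d_pr_RQ.NOneB

/-!
# Transfer to arbitrary regions, and the first lower bound for the free measure
-/

set_option autoImplicit false

namespace Pool.Agent.Lib.MP_31386d_pr_RQ.NOne

open Finset
open Pool.Agent.Lib.MP_31386d_pr
open Pool.Agent.Lib.MP_31386d_pr_POTTS

variable {d : ℕ} {u q : ℝ}

theorem Pb_union (hu : 0 < u) (hq : 1 ≤ q) {V : Finset (Pt d)} {E : Finset (Ed d)} {ι : Type}
    [DecidableEq ι] (A : ι → Finset (Ed d) → Prop) (S : Finset ι) :
    Pb u q V E (fun ω => ∃ i ∈ S, A i ω) ≤ ∑ i ∈ S, Pb u q V E (A i) := by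
  classical
  induction S using Finset.induction_on with
  | empty =>
    rw [sum_empty]
    have h : Pb u q V E (fun ω => ∃ i ∈ (∅ : Finset ι), A i ω) = Pb u q V E (fun _ => False) :=
      Pb_congr fun ω _ => by simp
    rw [h]
    unfold Pb
    simp only [if_false]
    rw [Ex_const hu hq]
  | insert j S hj ih =>
    rw [sum_insert hj]
    have h : Pb u q V E (fun ω => ∃ i ∈ insert j S, A i ω) =
        Pb u q V E (fun ω => A j ω ∨ ∃ i ∈ S, A i ω) :=
      Pb_congr fun ω _ => by simp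
    rw [h]
    exact (Pb_or_le hu hq _ _).trans (add_le_add le_rfl ih)

theorem Pb_diff {V : Finset (Pt d)} {E : Finset (Ed d)} {X P : Finset (Ed d) → Prop}
    (h : ∀ ω, P ω → X ω) :
    Pb u q V E (fun ω => X ω ∧ ¬ P ω) = Pb u q V E X - Pb u q V E P := by
  classical
  unfold Pb
  rw [← Ex_sub]
  refine Ex_congr fun ω _ => ?_
  by_cases h1 : X ω
  · by_cases h2 : P ω
    · rw [if_neg (fun h3 => h3.2 h2), if_pos h1, if_pos h2]
      ring
    · rw [if_pos ⟨h1, h2⟩, if_pos h1, if_neg h2]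
      ring
  · have h2 : ¬ P ω := fun h3 => h1 (h ω h3)
    rw [if_neg (fun h3 => h1 h3.1), if_neg h1, if_neg h2]
    ring

theorem Pb_out_wired (hu : 0 < u) (hq : 1 ≤ q) {V : Finset (Pt d)} {x : Pt d} {k : ℕ}
    (hV : shV x (cube d k) ⊆ V) :
    Pb u q V (EB V) (fun ω => Out (shV x (cube d k)) ω x) ≤ thw d u q k := by
  classical
  rw [thw_eq x k]
  unfold Pb
  refine Ex_wired_le hu hq hV (fun ω => by split_ifs <;> norm_num) (fun s t hst => ?_)
    (fun s t hs ht => ?_)
  · split_ifs with h1 h2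
    · exact le_rfl
    · exact absurd (h1.mono hst (subset_refl _)) h2
    · norm_num
    · exact le_rfl
  · have := out_union_irrel (s := s) ht x
    by_cases h : Out (shV x (cube d k)) s x
    · rw [if_pos h, if_pos (this.mpr h)]
    · rw [if_neg h, if_neg (fun h' => h (this.mp h'))]

theorem shV_shV (x t : Pt d) (V : Finset (Pt d)) : shV (x + t) V = shV t (shV x V) := by
  ext y
  rw [mem_shV, mem_shV, mem_shV]
  have : y - (x + t) = y - t - x := by abel
  rw [this]

/-- Transfer of an increasing equivariant event from a cube of `cube d (N + 1)` to a region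
containing a large cube. -/
theorem transfer {u' : ℝ} (hu : 0 < u) (huu : u ≤ u') (hq : 1 ≤ q)
    {Q : Pt d → Finset (Ed d) → Prop} (hQ : ∀ x s t, s ⊆ t → Q x s → Q x t)
    (hQs : ∀ x t ω, Q (x + t) (shE t ω) ↔ Q x ω) {N : ℕ} {v x : Pt d}
    (hv : v ∈ cube d (N / 2)) {V : Finset (Pt d)} (hV : shV x (cube d (2 * N + 1)) ⊆ V) :
    Pb u q (cube d (N + 1)) (EB (cube d N)) (Q v) ≤ Pb u' q V (EI V) (Q x) := by
  have h1 : Pb u q (cube d (N + 1)) (EB (cube d N)) (Q v) ≤
      Pb u q (cube d (N + 1)) (EI (cube d (N + 1))) (Q v) :=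
    Slab.Pb_mono_E hu hq (EI_cube_sub N) (hQ v)
  have h2 : Pb u q (cube d (N + 1)) (EI (cube d (N + 1))) (Q v) ≤
      Pb u' q (cube d (N + 1)) (EI (cube d (N + 1))) (Q v) := Pb_mono_u hu huu hq (hQ v)
  have h3 : Pb u' q (shV (x - v) (cube d (N + 1))) (EI (shV (x - v) (cube d (N + 1)))) (Q x) =
      Pb u' q (cube d (N + 1)) (EI (cube d (N + 1))) (Q v) := by
    rw [Pb_shV]
    refine Pb_congr fun ω _ => ?_
    have := hQs v (x - v) ω
    rw [add_sub_cancel] at this
    exact this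
  have hu' : 0 < u' := lt_of_lt_of_le hu huu
  have h4 : shV (x - v) (cube d (N + 1)) ⊆ V := by
    refine subset_trans ?_ hV
    intro y hy
    rw [mem_shV_cube] at hy ⊢
    rw [mem_cube] at hv
    intro i
    have e1 := hy i
    have e2 := hv i
    rw [Pi.sub_apply, abs_le] at e1
    rw [abs_le]
    push_cast at e1 ⊢
    constructor <;> omega
  exact (h1.trans h2).trans (h3 ▸ Pb_mono_V hu' hq h4 (hQ x))

/-- First lower bound: in the free measure the arms of length `k` have probability bounded below,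
once the region contains a cube of side `K k ^ d`. -/
theorem r_zero (hd : 1 ≤ d) (hq : 1 < q) {u₁ u₂ : ℝ} (hu₁ : 0 < u₁) (hu : u₁ < u₂) {c : ℝ}
    (hc : 0 < c) (hθ : ∀ r : ℕ, c ≤ thw d u₁ q r) :
    ∃ K : ℕ, 1 ≤ K ∧ ∀ k : ℕ, 1 ≤ k → ∀ (x : Pt d) (V : Finset (Pt d)),
      shV x (cube d (K * k ^ d)) ⊆ V →
      c / 2 ≤ Pb u₂ q V (EI V) (fun ω => Out (shV x (cube d k)) ω x) := by
  obtain ⟨K, _, hK⟩ := good_scale (d := d) hd hq hu₁ hu (η := c / 2) (by linarith)
  refine ⟨2 * K + 1, by omega, fun k hk x V hV => ?_⟩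
  obtain ⟨u, h1, h2, v, hv, hvs, hsum⟩ := hK k hk (K * k ^ d) le_rfl
  set N := K * k ^ d with hN
  have hu0 : 0 < u := hu₁.trans h1
  have hkd : 1 ≤ k ^ d := Nat.one_le_pow _ _ hk
  have hV' : shV x (cube d (2 * N + 1)) ⊆ V := by
    refine subset_trans ?_ hV
    intro y hy
    rw [mem_shV] at hy ⊢
    refine cube_mono ?_ hy
    have : (2 * K + 1) * k ^ d = 2 * N + k ^ d := by
      rw [hN]
      ring
    omega
  have h3 := wired_sub_free (u := u) (q := q) (N := N) hu0 hq (EB_mono hvs)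
    (P := fun ω => Out (shV v (cube d k)) ω v) (fun s t hst h => h.mono hst subset_rfl)
    (fun ω h => h.restrict)
  have h4 : c ≤ Pb u q (cube d N) (EB (cube d N)) (fun ω => Out (shV v (cube d k)) ω v) := by
    have e1 : cube d N ⊆ shV v (cube d (2 * N)) := by
      intro y hy
      rw [mem_shV_cube]
      rw [mem_cube] at hy hv
      intro i
      have e1 := hy i
      have e2 := hv i
      rw [abs_le]
      push_cast
      constructor <;> omega
    have e2 := thw_le_Pb_out (u := u) (q := q) hu0 hq.le e1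
    have e3 := thw_mono_u (d := d) (q := q) hu₁ h1.le hq.le (2 * N)
    have e4 : Pb u q (cube d N) (EB (cube d N)) (fun ω => Out (cube d N) ω v) ≤
        Pb u q (cube d N) (EB (cube d N)) (fun ω => Out (shV v (cube d k)) ω v) :=
      Pb_mono hu0 hq.le fun ω _ h => h.mono subset_rfl hvs
    linarith [hθ (2 * N)]
  have h5 := transfer (u := u) (u' := u₂) (q := q) hu0 h2.le hq.le
    (Q := fun x ω => Out (shV x (cube d k)) ω x) (fun x s t hst h => h.mono hst subset_rfl)
    (fun x t ω => by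
      show Out (shV (x + t) (cube d k)) (shE t ω) (x + t) ↔ Out (shV x (cube d k)) ω x
      rw [shV_shV]
      exact out_shE) hv hV'
  linarith

end Pool.Agent.Lib.MP_31386d_pr_RQ.NOne
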