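import Pool.Agent.Lib.MP_31386d_pr_RQ.NOneC

/-!
# Many long arms in the wired measure
-/

set_option autoImplicit false

namespace Pool.Agent.Lib.MP_31386d_pr_RQ.NOne

open Finset
open Pool.Agent.Lib.MP_31386d_pr
open Pool.Agent.Lib.MP_31386d_pr_POTTS

variable {d : ℕ} {u q : ℝ}

/-- Two parameters between which the limit of `thw` increases little. -/
theorem exists_flat (hq : 1 ≤ q) {a b : ℝ} (ha : 0 < a) (hab : a < b) {η : ℝ} (hη : 0 < η) :
    ∃ ua ub, a ≤ ua ∧ ua < ub ∧ ub ≤ b ∧ ∃ k : ℕ, 1 ≤ k ∧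
      ∀ r : ℕ, thw d ub q k ≤ thw d ua q r + 2 * η := by
  obtain ⟨n, hn⟩ := exists_nat_gt (1 / η)
  rw [div_lt_iff₀ hη] at hn
  have hn0 : 0 < n := by
    rcases Nat.eq_zero_or_pos n with h | h
    · rw [h, Nat.cast_zero, zero_mul] at hn
      linarith
    · exact h
  have hnR : (0 : ℝ) < n := by exact_mod_cast hn0
  set t : ℕ → ℝ := fun i => a + i * ((b - a) / n) with ht
  have hs : 0 < (b - a) / n := div_pos (by linarith) hnR
  have hta : ∀ i, a ≤ t i := fun i => by
    have : 0 ≤ (i : ℝ) * ((b - a) / n) := by positivity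
    simp only [ht]
    linarith
  have ht0 : ∀ i, 0 < t i := fun i => lt_of_lt_of_le ha (hta i)
  set θ : ℝ → ℝ := fun u => ⨅ r : ℕ, thw d u q r with hθ
  have hbdd : ∀ u, 0 < u → BddBelow (Set.range fun r : ℕ => thw d u q r) := by
    intro u hu
    refine ⟨0, ?_⟩
    rintro _ ⟨r, rfl⟩
    exact thw_nonneg hu hq r
  have h0 : ∀ u, 0 < u → 0 ≤ θ u := fun u hu => le_ciInf fun r => thw_nonneg hu hq r
  have h1 : ∀ u, 0 < u → θ u ≤ 1 := fun u hu =>
    (ciInf_le (hbdd u hu) 0).trans (thw_le_one hu hq 0)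
  have hex : ∃ i, i < n ∧ θ (t (i + 1)) ≤ θ (t i) + η := by
    by_contra hcon
    push Not at hcon
    have hind : ∀ i, i ≤ n → (i : ℝ) * η ≤ θ (t i) := by
      intro i
      induction i with
      | zero =>
        intro _
        rw [Nat.cast_zero, zero_mul]
        exact h0 _ (ht0 0)
      | succ i ih =>
        intro hi
        have := hcon i (by omega)
        have := ih (by omega)
        push_cast
        linarith
    have := hind n le_rfl
    have := h1 _ (ht0 n)
    linarith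
  obtain ⟨i, hi, hθi⟩ := hex
  have hlt : t i < t (i + 1) := by
    simp only [ht]
    push_cast
    linarith
  refine ⟨t i, t (i + 1), hta i, hlt, ?_, ?_⟩
  · have h2 : ((i + 1 : ℕ) : ℝ) ≤ n := by exact_mod_cast hi
    have h3 : ((i + 1 : ℕ) : ℝ) * ((b - a) / n) ≤ n * ((b - a) / n) :=
      mul_le_mul_of_nonneg_right h2 hs.le
    rw [mul_div_cancel₀ _ hnR.ne'] at h3
    simp only [ht]
    linarith
  · obtain ⟨k, hk⟩ := exists_lt_of_ciInf_lt (lt_add_of_pos_right (θ (t (i + 1))) hη)
    refine ⟨k + 1, by omega, fun r => ?_⟩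
    have h2 := thw_anti (d := d) (ht0 (i + 1)) hq (Nat.le_succ k)
    have h3 : θ (t i) ≤ thw d (t i) q r := ciInf_le (hbdd _ (ht0 i)) r
    have h4 : thw d (t (i + 1)) q k.succ = thw d (t (i + 1)) q (k + 1) := rfl
    linarith

/-- In the wired measure one of the points `z i` has a long arm. -/
theorem wired_arm (hu : 0 < u) (hq : 1 ≤ q) {N M k J : ℕ} (hkM : k ≤ M) {z : ℕ → Pt d}
    (hW : ∀ i ∈ range J, shV (z i) (cube d M) ⊆ cube d N)
    (hdis : ∀ i ∈ range J, ∀ j ∈ range J, i ≠ j →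
      Disjoint (shV (z i) (cube d M)) (shV (z j) (cube d M))) {c η : ℝ} (hc1 : c / 2 ≤ 1)
    (hlow : ∀ x : Pt d, c / 2 ≤ Pb u q (shV x (cube d M)) (EI (shV x (cube d M)))
      (fun ω => Out (shV x (cube d k)) ω x))
    (hflat : thw d u q k ≤ thw d u q (2 * N) + η) :
    1 - (1 - c / 2) ^ J - J * η ≤
      Pb u q (cube d N) (EB (cube d N)) (fun ω => ∃ i ∈ range J, Out (cube d N) ω (z i)) := by
  classical
  have hkW : ∀ x : Pt d, shV x (cube d k) ⊆ shV x (cube d M) := by
    intro x y hy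
    rw [mem_shV] at hy ⊢
    exact cube_mono hkM hy
  have hzN : ∀ i ∈ range J, cube d N ⊆ shV (z i) (cube d (2 * N)) := by
    intro i hi y hy
    have h1 : z i ∈ cube d N := by
      apply hW i hi
      rw [mem_shV_cube]
      intro l
      rw [sub_self, abs_zero]
      positivity
    rw [mem_shV_cube]
    rw [mem_cube] at hy h1
    intro l
    have e1 := hy l
    have e2 := h1 l
    rw [abs_le]
    push_cast
    constructor <;> omega
  -- no short arm at all
  have hA : Pb u q (cube d N) (EB (cube d N))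
      (fun ω => ∀ i ∈ range J, ¬ Out (shV (z i) (cube d k)) ω (z i)) ≤ (1 - c / 2) ^ J := by
    have h1 : Pb u q (cube d N) (EB (cube d N))
        (fun ω => ∀ i ∈ range J, ¬ Out (shV (z i) (cube d k)) ω (z i)) ≤
        Pb u q (cube d N) (EI (cube d N))
          (fun ω => ∀ i ∈ range J, ¬ Out (shV (z i) (cube d k)) ω (z i)) :=
      Slab.Pb_anti_E hu hq (EI_subset_EB _)
        (fun s t hst h i hi h2 => h i hi (h2.mono hst subset_rfl))
    have h2 : Pb u q (cube d N) (EI (cube d N))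
          (fun ω => ∀ i ∈ range J, ¬ Out (shV (z i) (cube d k)) ω (z i)) ≤
        Pb u q (cube d N) (EI (cube d N))
          (fun ω => ∀ i ∈ range J, ¬ Out (shV (z i) (cube d k))
            (ω ∩ EI (shV (z i) (cube d M))) (z i)) :=
      Pb_mono hu hq fun ω _ h i hi h2 => h i hi (h2.mono inter_subset_left subset_rfl)
    have h3 := Pb_boxes (d := d) (u := u) (q := q) hu hq (ε := 1 - c / 2) (by linarith)
      (ι := ℕ) (fun i => shV (z i) (cube d M))
      (fun i ω => ¬ Out (shV (z i) (cube d k)) (ω ∩ EI (shV (z i) (cube d M))) (z i))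
      (fun i s t hst h h2 => h (h2.mono (inter_subset_inter_right hst) subset_rfl))
      (fun i ω h => by rwa [inter_assoc, inter_self] at h)
      (fun i => by
        have e1 : Pb u q (shV (z i) (cube d M)) (EI (shV (z i) (cube d M)))
            (fun ω => ¬ Out (shV (z i) (cube d k)) (ω ∩ EI (shV (z i) (cube d M))) (z i)) =
            Pb u q (shV (z i) (cube d M)) (EI (shV (z i) (cube d M)))
            (fun ω => ¬ Out (shV (z i) (cube d k)) ω (z i)) :=
          Pb_congr fun ω hω => by rw [inter_eq_left.2 hω]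
        rw [e1, Pb_not hu hq]
        linarith [hlow (z i)]) (range J) (cube d N) hW hdis
    rw [card_range] at h3
    exact (h1.trans h2).trans h3
  -- short arms that are not long
  have hB : ∀ i ∈ range J, Pb u q (cube d N) (EB (cube d N))
      (fun ω => Out (shV (z i) (cube d k)) ω (z i) ∧ ¬ Out (cube d N) ω (z i)) ≤ η := by
    intro i hi
    have hsub : shV (z i) (cube d k) ⊆ cube d N := (hkW (z i)).trans (hW i hi)
    rw [Pb_diff (fun ω h => h.mono subset_rfl hsub)]
    have h1 := Pb_out_wired (u := u) (q := q) hu hq hsub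
    have h2 := thw_le_Pb_out (u := u) (q := q) hu hq (hzN i hi)
    linarith
  have hC : Pb u q (cube d N) (EB (cube d N)) (fun ω => ¬ ∃ i ∈ range J, Out (cube d N) ω (z i)) ≤
      Pb u q (cube d N) (EB (cube d N))
        (fun ω => (∀ i ∈ range J, ¬ Out (shV (z i) (cube d k)) ω (z i)) ∨
          ∃ i ∈ range J, (Out (shV (z i) (cube d k)) ω (z i) ∧ ¬ Out (cube d N) ω (z i))) := by
    refine Pb_mono hu hq fun ω _ h => ?_
    by_cases h1 : ∀ i ∈ range J, ¬ Out (shV (z i) (cube d k)) ω (z i)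
    · exact Or.inl h1
    · right
      push Not at h1
      obtain ⟨i, hi, h2⟩ := h1
      exact ⟨i, hi, h2, fun h3 => h ⟨i, hi, h3⟩⟩
  have hD := Pb_or_le (V := cube d N) (E := EB (cube d N)) hu hq
    (fun ω => ∀ i ∈ range J, ¬ Out (shV (z i) (cube d k)) ω (z i))
    (fun ω => ∃ i ∈ range J, (Out (shV (z i) (cube d k)) ω (z i) ∧ ¬ Out (cube d N) ω (z i)))
  have hE := Pb_union (V := cube d N) (E := EB (cube d N)) hu hq
    (fun (i : ℕ) ω => Out (shV (z i) (cube d k)) ω (z i) ∧ ¬ Out (cube d N) ω (z i)) (range J)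
  have hF : ∑ i ∈ range J, Pb u q (cube d N) (EB (cube d N))
      (fun ω => Out (shV (z i) (cube d k)) ω (z i) ∧ ¬ Out (cube d N) ω (z i)) ≤ J * η := by
    refine (sum_le_sum hB).trans ?_
    rw [sum_const, card_range, nsmul_eq_mul]
  rw [Pb_not hu hq] at hC
  linarith

end Pool.Agent.Lib.MP_31386d_pr_RQ.NOne
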