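import Pool.Agent.Lib.MP_31386d_pr_RQ.NOne
import Pool.Agent.Lib.MP_31386d_pr_RQ.Defs

/-!
# The input `InA` from N1
-/

set_option autoImplicit false

namespace Pool.Agent.Lib.MP_31386d_pr_RQ

open Finset
open Pool.Agent.Lib.MP_31386d_pr
open Pool.Agent.Lib.MP_31386d_pr_POTTS

/-- The first input of the main theorem. -/
theorem inA_of_thw {d : ℕ} (hd : 1 ≤ d) {q : ℝ} (hq : 1 < q) {u u' : ℝ} (hu : 0 < u)
    (huu : u < u') (hθ : ∃ c : ℝ, 0 < c ∧ ∀ r : ℕ, c ≤ thw d u q r) : InA d u' q := by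
  intro δ hδ
  obtain ⟨r₀, K, hK, h⟩ := n_one hd hq hu huu hθ hδ
  refine ⟨r₀, K, hK, fun m hm => ?_⟩
  have h0 : ∀ n : ℕ, shV (0 : Pt d) (cube d n) = cube d n := by
    intro n
    ext y
    rw [mem_shV, sub_zero]
  have h1 := h r₀ le_rfl m hm 0 (cube d (K * m ^ (d + 1))) (by
    rw [h0]
    exact cube_mono (Nat.mul_le_mul_left _ (Nat.pow_le_pow_right hm (Nat.le_succ d))))
  rw [Pb_not (hu.trans huu) hq.le]
  have h2 : Pb u' q (cube d (K * m ^ (d + 1))) (EI (cube d (K * m ^ (d + 1))))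
      (fun ω => ∃ y ∈ shV (0 : Pt d) (cube d r₀), Out (shV 0 (cube d m)) ω y) ≤
      Pb u' q (cube d (K * m ^ (d + 1))) (EI (cube d (K * m ^ (d + 1))))
      (fun ω => Arm ω (cube d r₀) 0 m) := by
    refine Pb_mono (hu.trans huu) hq.le fun ω _ hω => ?_
    obtain ⟨y, hy, z, hz, hc⟩ := hω
    rw [h0] at hy
    exact ⟨y, hy, z, hz, hc⟩
  linarith

end Pool.Agent.Lib.MP_31386d_pr_RQ
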