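import Pool.Agent.Lib.MP_31386d_pr_RQ.SeedC
import Pool.Agent.Lib.MP_31386d_pr_RQ.Arms
import Pool.Agent.Lib.MP_31386d_pr_POTTS.Cond
import Pool.Agent.Lib.MP_31386d_pr.Arm

/-!
# Families of seeds without arms
-/

set_option autoImplicit false

namespace Pool.Agent.Lib.MP_31386d_pr_RQ

open Finset
open Pool.Agent.Lib.MP_31386d_pr
open Pool.Agent.Lib.MP_31386d_pr_POTTS

variable {d : ℕ}

private theorem NoArm_self_mem (c : Pt d) (N : ℕ) : c ∈ cub c N := by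
  unfold cub
  rw [mem_shV_cube]
  intro i
  rw [sub_self, abs_zero]
  exact Int.natCast_nonneg _

theorem no_arm {u q : ℝ} (hu : 0 < u) (hq : 1 ≤ q) {V : Finset (Pt d)} {b : Finset (Ed d)}
    (hb : b ⊆ EI V) {r l k₀ m N : ℕ} {j : Pt d} {δ : ℝ} (hδ : δ ≤ 1)
    (h : Pb u q (cube d N) (EI (cube d N)) (fun ω => ¬ Arm ω (cube d r) 0 m) ≤ δ)
    (hN : 2 * N < (2 * r + 1) * 2 ^ l)
    (hV : ∀ x ∈ bx (fun t => (((2 * r + 1) * 2 ^ l * 2 ^ k₀ : ℕ) : ℤ) * j t)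
      (2 * ((2 * r + 1) * 2 ^ l * 2 ^ k₀)), cub x N ⊆ V)
    (hfull : FullF (2 * r + 1) l k₀ j b) {I : Finset (Pt d)} (hI : I ⊆ blocks k₀ j)
    (hcard : (2 ^ (k₀ + 1)) ^ d ≤ 2 ^ (d + 1) * I.card) :
    PbB u q V (EI V) b
      (fun ω => ∀ i ∈ I, ¬ Arm ω (cub (ctr r l b i) r) (ctr r l b i) m) ≤
      δ ^ ((2 ^ (k₀ + 1)) ^ d / 2 ^ (2 * d + 1)) := by
  classical
  obtain ⟨I', hI', hpar, hcard'⟩ := exists_parity I
  have hδ0 : 0 ≤ δ := (Pb_nonneg hu hq _).trans h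
  have hne : ∀ i ∈ I', (seeds (2 * r + 1) l b i).Nonempty := fun i hi => hfull i (hI (hI' hi))
  have hdis : ∀ i ∈ I', ∀ i' ∈ I', i ≠ i' →
      Disjoint (cub (ctr r l b i) N) (cub (ctr r l b i') N) := fun i hi i' hi' hii' =>
    ctr_disjoint (hne i hi) (hne i' hi') hN hii' (hpar i hi i' hi')
  have hinj : ∀ i ∈ I', ∀ i' ∈ I', ctr r l b i = ctr r l b i' → i = i' := by
    intro i hi i' hi' hc
    by_contra hii'
    have h1 := hdis i hi i' hi' hii'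
    exact Finset.disjoint_left.1 h1 (NoArm_self_mem _ _) (by rw [hc]; exact NoArm_self_mem _ _)
  have hT : (I'.image (ctr r l b)).card = I'.card :=
    Finset.card_image_of_injOn fun i hi i' hi' hc => hinj i hi i' hi' hc
  have h1 := arms_prod hu hq hb h (I'.image (ctr r l b)) (by
    intro c hc
    obtain ⟨i, hi, rfl⟩ := Finset.mem_image.1 hc
    exact hV _ (ctr_mem (hne i hi) (hI (hI' hi)))) (by
    intro c hc c' hc' hcc'
    obtain ⟨i, hi, rfl⟩ := Finset.mem_image.1 hc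
    obtain ⟨i', hi', rfl⟩ := Finset.mem_image.1 hc'
    exact hdis i hi i' hi' fun hii' => hcc' (by rw [hii']))
  rw [hT] at h1
  have h2 : PbB u q V (EI V) b
      (fun ω => ∀ i ∈ I, ¬ Arm ω (cub (ctr r l b i) r) (ctr r l b i) m) ≤
      PbB u q V (EI V) b (fun ω => ∀ c ∈ I'.image (ctr r l b), ¬ Arm ω (cub c r) c m) := by
    unfold PbB
    refine ExB_mono hu hq fun ω _ _ => ?_
    by_cases hP : ∀ i ∈ I, ¬ Arm ω (cub (ctr r l b i) r) (ctr r l b i) m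
    · have hQ : ∀ c ∈ I'.image (ctr r l b), ¬ Arm ω (cub c r) c m := by
        intro c hc
        obtain ⟨i, hi, rfl⟩ := Finset.mem_image.1 hc
        exact hP i (hI' hi)
      rw [ind_of hP, ind_of hQ]
    · rw [ind_not hP]
      exact ind_nonneg _
  refine (h2.trans h1).trans (pow_le_pow_of_le_one hδ0 hδ ?_)
  refine Nat.div_le_of_le_mul ?_
  calc (2 ^ (k₀ + 1)) ^ d ≤ 2 ^ (d + 1) * I.card := hcard
    _ ≤ 2 ^ (d + 1) * (2 ^ d * I'.card) := Nat.mul_le_mul_left _ hcard'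
    _ = 2 ^ (2 * d + 1) * I'.card := by
      rw [← mul_assoc, ← pow_add]
      congr 2
      omega

end Pool.Agent.Lib.MP_31386d_pr_RQ
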