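import Pool.Agent.Lib.MP_31386d_pr_RQ.ParDefs

/-!
# Parameters: geometric conditions
-/

set_option autoImplicit false

namespace Pool.Agent.Lib.MP_31386d_pr_RQ

private lemma two_mul_le_two_pow (k : ℕ) : 2 * k ≤ 2 ^ k := by
  induction k with
  | zero => simp
  | succ n ih =>
    have h1 : 1 ≤ 2 ^ n := Nat.one_le_two_pow
    rcases Nat.eq_zero_or_pos n with h0 | h0
    · subst h0; simp
    · have h2 : 2 ≤ 2 ^ n := by
        calc 2 = 2 ^ 1 := by norm_num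
          _ ≤ 2 ^ n := Nat.pow_le_pow_right (by norm_num) h0
      rw [pow_succ]
      omega

theorem par_geom (D r KA : ℕ) : ∃ k₁ : ℕ, ∀ k₀ : ℕ, k₁ ≤ k₀ →
    k₀ ≤ 2 ^ k₀ ∧ pQ D k₀ ≤ 2 ^ k₀ ∧ r < 2 ^ pQ D k₀ ∧
      2 * (KA * (2 * 4 ^ pQ D k₀) ^ (D + 2)) < (2 * r + 1) * 2 ^ lQ k₀ ∧
      4 * 4 ^ pQ D k₀ ≤ 2 ^ 2 ^ k₀ := by
  refine ⟨(r + KA + D + 3) * (2 * D + 6), fun k₀ hk => ?_⟩
  have hk2 : 2 * k₀ ≤ 2 ^ k₀ := two_mul_le_two_pow k₀
  have hl1 : k₀ ≤ lQ k₀ := by unfold lQ; omega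
  have hl2 : lQ k₀ ≤ 2 ^ k₀ := by unfold lQ; omega
  have hp1 : r + KA + D + 3 ≤ pQ D k₀ := by
    unfold pQ
    rw [Nat.le_div_iff_mul_le (by omega)]
    omega
  have hp2 : pQ D k₀ * (2 * D + 6) ≤ lQ k₀ := Nat.div_mul_le_self _ _
  have hp3 : pQ D k₀ ≤ lQ k₀ := Nat.div_le_self _ _
  generalize hp : pQ D k₀ = p at *
  generalize hl : lQ k₀ = l at *
  refine ⟨by omega, by omega, ?_, ?_, ?_⟩
  · calc r < 2 ^ r := Nat.lt_two_pow_self
      _ ≤ 2 ^ p := Nat.pow_le_pow_right (by norm_num) (by omega)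
  · have e1 : (2 * 4 ^ p) ^ (D + 2) = 2 ^ ((2 * p + 1) * (D + 2)) := by
      have : (2 * 4 ^ p : ℕ) = 2 ^ (2 * p + 1) := by
        rw [show (4 : ℕ) = 2 ^ 2 by norm_num, ← pow_mul, pow_succ]
        ring
      rw [this, ← pow_mul]
    rw [e1]
    have hKA : KA < 2 ^ KA := Nat.lt_two_pow_self
    have hpos : 0 < 2 ^ ((2 * p + 1) * (D + 2)) := by positivity
    have e3 : (2 * p + 1) * (D + 2) + (KA + 1) ≤ l := by
      have : (2 * p + 1) * (D + 2) = p * (2 * D + 4) + (D + 2) := by ring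
      have h4 : p * (2 * D + 6) = p * (2 * D + 4) + 2 * p := by ring
      omega
    calc 2 * (KA * 2 ^ ((2 * p + 1) * (D + 2)))
        < 2 * (2 ^ KA * 2 ^ ((2 * p + 1) * (D + 2))) := by
          have := Nat.mul_lt_mul_of_pos_right hKA hpos
          omega
      _ = 2 ^ ((2 * p + 1) * (D + 2) + (KA + 1)) := by
          rw [pow_add _ ((2 * p + 1) * (D + 2)), pow_succ]; ring
      _ ≤ 2 ^ l := Nat.pow_le_pow_right (by norm_num) e3
      _ ≤ (2 * r + 1) * 2 ^ l := Nat.le_mul_of_pos_left _ (by omega)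
  · have e4 : (4 * 4 ^ p : ℕ) = 2 ^ (2 * p + 2) := by
      rw [show (4 : ℕ) = 2 ^ 2 by norm_num, ← pow_mul, pow_add]
      ring
    rw [e4]
    apply Nat.pow_le_pow_right (by norm_num)
    have : p * 6 ≤ p * (2 * D + 6) := Nat.mul_le_mul_left _ (by omega)
    omega

end Pool.Agent.Lib.MP_31386d_pr_RQ
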