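import Pool.Agent.Lib.MP_31386d_pr_POTTS.SplitAbs
import Pool.Agent.Lib.MP_31386d_pr_POTTS.QTwo

/-!
# Quenched sprinkling

Comparison inequalities for the random-cluster model on an abstract finite graph, and the
exponential bound for the disconnection of two sets by independent sprinkling on top of a fixed
configuration.
-/

set_option autoImplicit false

namespace Pool.Agent.Lib.MP_31386d_pr_RQ

open Finset
open Pool.Agent.Lib.MP_31386d_pr_POTTS

section four

variable {ι : Type}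

open scoped FinsetFamily in
private theorem Quench_infs [DecidableEq ι] (E : Finset ι) :
    E.powerset ⊼ E.powerset = E.powerset := by
  ext s
  rw [Finset.mem_infs]
  constructor
  · rintro ⟨a, ha, b, hb, rfl⟩
    rw [mem_powerset] at *
    exact (inter_subset_left).trans ha
  · intro hs
    exact ⟨s, hs, s, hs, inf_idem s⟩

open scoped FinsetFamily in
private theorem Quench_sups [DecidableEq ι] (E : Finset ι) :
    E.powerset ⊻ E.powerset = E.powerset := by
  ext s
  rw [Finset.mem_sups]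
  constructor
  · rintro ⟨a, ha, b, hb, rfl⟩
    rw [mem_powerset] at *
    exact union_subset ha hb
  · intro hs
    exact ⟨s, hs, s, hs, sup_idem s⟩

theorem four_abs [DecidableEq ι] (E : Finset ι) {f₁ f₂ f₃ f₄ : Finset ι → ℝ}
    (h₁ : ∀ ω, 0 ≤ f₁ ω) (h₂ : ∀ ω, 0 ≤ f₂ ω) (h₃ : ∀ ω, 0 ≤ f₃ ω) (h₄ : ∀ ω, 0 ≤ f₄ ω)
    (h : ∀ s, s ⊆ E → ∀ t, t ⊆ E → f₁ s * f₂ t ≤ f₃ (s ∩ t) * f₄ (s ∪ t)) :
    (∑ ω ∈ E.powerset, f₁ ω) * ∑ ω ∈ E.powerset, f₂ ω ≤
      (∑ ω ∈ E.powerset, f₃ ω) * ∑ ω ∈ E.powerset, f₄ ω := by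
  have h5 := Finset.four_functions_theorem E (f₁ := f₁) (f₂ := f₂) (f₃ := f₃) (f₄ := f₄)
    h₁ h₂ h₃ h₄
    (fun s hs t ht => h s hs t ht) (𝒜 := E.powerset) (ℬ := E.powerset) (subset_refl _)
    (subset_refl _)
  rw [Quench_infs, Quench_sups] at h5
  exact h5

end four

variable {W ι : Type} {u q : ℝ} {en : ι → W × W} {B B' : W → W → Prop} {E : Finset ι}

/-- Harris-FKG inequality. -/
theorem aZ_fkg [Finite W] (hu : 0 < u) (hq : 1 ≤ q) (en : ι → W × W) (B : W → W → Prop)
    (E : Finset ι) {f g : Finset ι → ℝ} (hf0 : ∀ ω, 0 ≤ f ω) (hg0 : ∀ ω, 0 ≤ g ω)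
    (hf : ∀ s t, s ⊆ t → f s ≤ f t) (hg : ∀ s t, s ⊆ t → g s ≤ g t) :
    aZ u q en B E f * aZ u q en B E g ≤
      aZ u q en B E (fun _ => 1) * aZ u q en B E (fun ω => f ω * g ω) := by
  classical
  have hq0 : 0 < q := lt_of_lt_of_le one_pos hq
  have hw : ∀ ω : Finset ι, 0 < u ^ ω.card * q ^ cc en B ω := fun ω => by positivity
  unfold aZ
  refine four_abs E (fun ω => mul_nonneg (hw ω).le (hf0 ω)) (fun ω => mul_nonneg (hw ω).le (hg0 ω))
    (fun ω => mul_nonneg (hw ω).le zero_le_one)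
    (fun ω => mul_nonneg (hw ω).le (mul_nonneg (hf0 ω) (hg0 ω))) (fun s _ t _ => ?_)
  have h1 : u ^ s.card * u ^ t.card = u ^ (s ∩ t).card * u ^ (s ∪ t).card := by
    rw [← pow_add, ← pow_add, add_comm (s ∩ t).card, card_union_add_card_inter]
  have h2 : q ^ cc en B s * q ^ cc en B t ≤ q ^ cc en B (s ∩ t) * q ^ cc en B (s ∪ t) := by
    rw [← pow_add, ← pow_add]
    exact pow_le_pow_right₀ hq (cc_supermod (fun _ _ h => h) s t)
  have h3 : f s * g t ≤ f (s ∪ t) * g (s ∪ t) :=
    mul_le_mul (hf _ _ subset_union_left) (hg _ _ subset_union_right) (hg0 _) (hf0 _)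
  calc u ^ s.card * q ^ cc en B s * f s * (u ^ t.card * q ^ cc en B t * g t)
      = (u ^ s.card * u ^ t.card) * (q ^ cc en B s * q ^ cc en B t) * (f s * g t) := by ring
    _ ≤ (u ^ s.card * u ^ t.card) * (q ^ cc en B (s ∩ t) * q ^ cc en B (s ∪ t)) *
        (f (s ∪ t) * g (s ∪ t)) := by
        refine mul_le_mul (mul_le_mul_of_nonneg_left h2 (by positivity)) h3
          (mul_nonneg (hf0 _) (hg0 _)) (by positivity)
    _ = _ := by
        rw [h1]
        ring

theorem aEx_fkg [Finite W] (hu : 0 < u) (hq : 1 ≤ q) (en : ι → W × W) (B : W → W → Prop)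
    (E : Finset ι) {f g : Finset ι → ℝ} (hf0 : ∀ ω, 0 ≤ f ω) (hg0 : ∀ ω, 0 ≤ g ω)
    (hf : ∀ s t, s ⊆ t → f s ≤ f t) (hg : ∀ s t, s ⊆ t → g s ≤ g t) :
    aEx u q en B E f * aEx u q en B E g ≤ aEx u q en B E (fun ω => f ω * g ω) := by
  have hq0 : 0 < q := lt_of_lt_of_le one_pos hq
  have hZ := aZ_pos hu hq0 en B E
  unfold aEx
  rw [div_mul_div_comm, div_le_div_iff₀ (mul_pos hZ hZ) hZ]
  have h := aZ_fkg hu hq en B E hf0 hg0 hf hg
  calc aZ u q en B E f * aZ u q en B E g * aZ u q en B E (fun _ => 1)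
      ≤ aZ u q en B E (fun _ => 1) * aZ u q en B E (fun ω => f ω * g ω) *
        aZ u q en B E (fun _ => 1) := mul_le_mul_of_nonneg_right h hZ.le
    _ = _ := by ring

theorem aEx_const (hu : 0 < u) (hq : 0 < q) (en : ι → W × W) (B : W → W → Prop) (E : Finset ι)
    (c : ℝ) : aEx u q en B E (fun _ => c) = c := by
  unfold aEx
  have h : aZ u q en B E (fun _ => c) = c * aZ u q en B E (fun _ => 1) := by
    unfold aZ
    rw [mul_sum]
    exact sum_congr rfl fun ω _ => by ring
  rw [h, mul_div_cancel_right₀ _ (aZ_pos hu hq en B E).ne']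

theorem aEx_add (f g : Finset ι → ℝ) :
    aEx u q en B E (fun ω => f ω + g ω) = aEx u q en B E f + aEx u q en B E g := by
  unfold aEx
  rw [← add_div]
  congr 1
  unfold aZ
  rw [← sum_add_distrib]
  exact sum_congr rfl fun ω _ => by ring

theorem aEx_const_mul (c : ℝ) (f : Finset ι → ℝ) :
    aEx u q en B E (fun ω => c * f ω) = c * aEx u q en B E f := by
  unfold aEx
  rw [← mul_div_assoc]
  congr 1
  unfold aZ
  rw [mul_sum]
  exact sum_congr rfl fun ω _ => by ring

/-- Opening one edge costs at most a constant factor. -/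
theorem edge_cost [Finite W] (hu : 0 < u) (hq : 1 ≤ q) {e : ι} (he : e ∈ E)
    {f : Finset ι → ℝ} (hf0 : ∀ ω, 0 ≤ f ω) (hf : ∀ s t, s ⊆ t → f s ≤ f t) :
    u / (u + q) * aZ u q en B E f ≤ aZ u q en B E (fun ω => ind (e ∈ ω) * f ω) := by
  classical
  have hq0 : 0 < q := lt_of_lt_of_le one_pos hq
  have hsp : ∀ g : Finset ι → ℝ, aZ u q en B E g = ∑ w ∈ (E.erase e).powerset,
      (u ^ w.card * q ^ cc en B w * g w +
        u ^ (w.card + 1) * q ^ cc en B (insert e w) * g (insert e w)) := by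
    intro g
    unfold aZ
    conv_lhs => rw [← insert_erase he]
    rw [sum_powerset_insert (notMem_erase e E), ← sum_add_distrib]
    refine sum_congr rfl fun w hw => ?_
    have hew : e ∉ w := fun h => notMem_erase e E (mem_powerset.mp hw h)
    rw [card_insert_of_notMem hew]
  rw [hsp, hsp, mul_sum]
  refine sum_le_sum fun w hw => ?_
  have hew : e ∉ w := fun h => notMem_erase e E (mem_powerset.mp hw h)
  rw [ind_not hew, ind_of (mem_insert_self e w)]
  have h1 : q ^ cc en B w ≤ q * q ^ cc en B (insert e w) := by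
    by_cases hc : Cn en B w (en e).1 (en e).2
    · rw [cc_insert_of hc]
      exact le_mul_of_one_le_left (by positivity) hq
    · rw [← cc_insert_not hc, pow_succ, mul_comm]
  have h2 : f w ≤ f (insert e w) := hf _ _ (subset_insert e w)
  have h3 : u ^ w.card * q ^ cc en B w * f w ≤
      u ^ w.card * (q * q ^ cc en B (insert e w)) * f (insert e w) :=
    mul_le_mul (mul_le_mul_of_nonneg_left h1 (by positivity)) h2 (hf0 _) (by positivity)
  have h4 : 0 < u + q := by linarith
  rw [div_mul_eq_mul_div, div_le_iff₀ h4]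
  calc u * (u ^ w.card * q ^ cc en B w * f w +
        u ^ (w.card + 1) * q ^ cc en B (insert e w) * f (insert e w))
      ≤ u * (u ^ w.card * (q * q ^ cc en B (insert e w)) * f (insert e w) +
        u ^ (w.card + 1) * q ^ cc en B (insert e w) * f (insert e w)) := by
        refine mul_le_mul_of_nonneg_left ?_ hu.le
        linarith
    _ = _ := by ring

/-- Opening a set of edges costs at most a constant factor for each edge. -/
theorem edges_cost [Finite W] (hu : 0 < u) (hq : 1 ≤ q) {F : Finset ι} (hF : F ⊆ E)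
    {f : Finset ι → ℝ} (hf0 : ∀ ω, 0 ≤ f ω) (hf : ∀ s t, s ⊆ t → f s ≤ f t) :
    (u / (u + q)) ^ F.card * aZ u q en B E f ≤ aZ u q en B E (fun ω => ind (F ⊆ ω) * f ω) := by
  classical
  have hq0 : 0 < q := lt_of_lt_of_le one_pos hq
  induction F using Finset.induction_on with
  | empty =>
    rw [card_empty, pow_zero, one_mul]
    refine aZ_mono hu hq0 fun ω _ => ?_
    rw [ind_of (empty_subset ω), one_mul]
  | insert e F he ih =>
    have heE : e ∈ E := hF (mem_insert_self e F)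
    have h1 := ih ((subset_insert e F).trans hF)
    have h2 := edge_cost (en := en) (B := B) hu hq heE (f := fun ω => ind (F ⊆ ω) * f ω)
      (fun ω => mul_nonneg (ind_nonneg _) (hf0 ω))
      (fun s t hst => mul_le_mul (ind_mono fun h => h.trans hst) (hf s t hst) (hf0 _)
        (ind_nonneg _))
    rw [card_insert_of_notMem he, pow_succ]
    have h3 : 0 ≤ u / (u + q) := by positivity
    calc (u / (u + q)) ^ F.card * (u / (u + q)) * aZ u q en B E f
        = u / (u + q) * ((u / (u + q)) ^ F.card * aZ u q en B E f) := by ring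
      _ ≤ u / (u + q) * aZ u q en B E (fun ω => ind (F ⊆ ω) * f ω) :=
        mul_le_mul_of_nonneg_left h1 h3
      _ ≤ aZ u q en B E (fun ω => ind (e ∈ ω) * (ind (F ⊆ ω) * f ω)) := h2
      _ = _ := by
        refine aZ_congr fun ω _ => ?_
        by_cases h4 : e ∈ ω
        · by_cases h5 : F ⊆ ω
          · rw [ind_of h4, ind_of h5, ind_of (insert_subset h4 h5)]
            ring
          · have h6 : ¬ insert e F ⊆ ω := fun h => h5 ((subset_insert e F).trans h)
            rw [ind_not h5, ind_not h6]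
            ring
        · have h5 : ¬ insert e F ⊆ ω := fun h => h4 (h (mem_insert_self e F))
          rw [ind_not h4, ind_not h5]
          ring

/-- Finite energy. -/
theorem aC_ge_pow [Finite W] (hu : 0 < u) (hq : 1 ≤ q) {F : Finset ι} (hF : F ⊆ E) {x y : W}
    (h : Cn en B F x y) : (u / (u + q)) ^ F.card ≤ aC u q en B E x y := by
  have hq0 : 0 < q := lt_of_lt_of_le one_pos hq
  have h1 := edges_cost (en := en) (B := B) hu hq hF (f := fun _ => 1)
    (fun _ => zero_le_one) (fun _ _ _ => le_refl _)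
  unfold aC aEx
  rw [le_div_iff₀ (aZ_pos hu hq0 en B E)]
  refine le_trans h1 (aZ_mono hu hq0 fun ω _ => ?_)
  rw [mul_one]
  exact ind_mono fun h2 => Cn.mono (fun _ _ h => h) h2 h

/-- The random-cluster measure is dominated by the product measure with the same odds. -/
theorem bern_dom [Finite W] (hu : 0 < u) (hq : 1 ≤ q) (B B' : W → W → Prop)
    {f : Finset ι → ℝ} (hf0 : ∀ ω, 0 ≤ f ω) (hf : ∀ s t, s ⊆ t → f s ≤ f t) :
    aEx u q en B E f ≤ aEx u 1 en B' E f := by
  classical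
  have hq0 : 0 < q := lt_of_lt_of_le one_pos hq
  have hZ := aZ_pos hu hq0 en B E
  have hZ' := aZ_pos hu one_pos en B' E
  have hw : ∀ ω : Finset ι, 0 < u ^ ω.card * q ^ cc en B ω := fun ω => by positivity
  have hw' : ∀ ω : Finset ι, 0 < u ^ ω.card * (1 : ℝ) ^ cc en B' ω := fun ω => by positivity
  have h : aZ u q en B E f * aZ u 1 en B' E (fun _ => 1) ≤
      aZ u q en B E (fun _ => 1) * aZ u 1 en B' E f := by
    unfold aZ
    refine four_abs E (fun ω => mul_nonneg (hw ω).le (hf0 ω))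
      (fun ω => mul_nonneg (hw' ω).le zero_le_one) (fun ω => mul_nonneg (hw ω).le zero_le_one)
      (fun ω => mul_nonneg (hw' ω).le (hf0 ω)) (fun s _ t _ => ?_)
    have h1 : u ^ s.card * u ^ t.card = u ^ (s ∩ t).card * u ^ (s ∪ t).card := by
      rw [← pow_add, ← pow_add, add_comm (s ∩ t).card, card_union_add_card_inter]
    have h2 : q ^ cc en B s ≤ q ^ cc en B (s ∩ t) :=
      pow_le_pow_right₀ hq (cc_mono (fun _ _ h => h) inter_subset_left)
    simp only [one_pow, mul_one]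
    calc u ^ s.card * q ^ cc en B s * f s * u ^ t.card
        = (u ^ s.card * u ^ t.card) * q ^ cc en B s * f s := by ring
      _ ≤ (u ^ s.card * u ^ t.card) * q ^ cc en B (s ∩ t) * f (s ∪ t) := by
          refine mul_le_mul (mul_le_mul_of_nonneg_left h2 (by positivity))
            (hf _ _ subset_union_left) (hf0 _) (by positivity)
      _ = _ := by
          rw [h1]
          ring
  unfold aEx
  rw [div_le_div_iff₀ hZ hZ']
  linarith

/-- summation over the marks -/
private theorem Quench_sum {u₁ u₂ : ℝ} (hu₁ : 0 < u₁) (en : ι → W × W) (B : W → W → Prop)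
    (E : Finset ι) (h : Finset ι → ℝ) :
    ∑ b ∈ E.powerset, ((u₂ - u₁) / u₁) ^ b.card * aZ u₁ q en B E (fun ω => ind (b ⊆ ω) * h ω) =
      aZ u₂ q en B E h := by
  classical
  unfold aZ
  simp only [mul_sum]
  rw [sum_comm]
  refine sum_congr rfl fun ω hω => ?_
  rw [mem_powerset] at hω
  have h1 : ∑ b ∈ E.powerset, ((u₂ - u₁) / u₁) ^ b.card * ind (b ⊆ ω) =
      (1 + (u₂ - u₁) / u₁) ^ ω.card := by
    have h0 : (1 + (u₂ - u₁) / u₁) ^ ω.card = ∑ b ∈ ω.powerset, ((u₂ - u₁) / u₁) ^ b.card := by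
      have := Finset.sum_pow_mul_eq_add_pow ((u₂ - u₁) / u₁) 1 ω
      rw [add_comm, ← this]
      exact sum_congr rfl fun b _ => by rw [one_pow, mul_one]
    rw [h0]
    symm
    have h2 : ω.powerset ⊆ E.powerset := powerset_mono.2 hω
    rw [← sum_subset h2 (f := fun b => ((u₂ - u₁) / u₁) ^ b.card * ind (b ⊆ ω))]
    · refine sum_congr rfl fun b hb => ?_
      rw [ind_of (mem_powerset.1 hb), mul_one]
    · intro b _ hb
      rw [ind_not (fun h3 => hb (mem_powerset.2 h3)), mul_zero]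
  have h2 : u₁ * (1 + (u₂ - u₁) / u₁) = u₂ := by
    field_simp
    ring
  have h3 : u₂ ^ ω.card = u₁ ^ ω.card * (1 + (u₂ - u₁) / u₁) ^ ω.card := by
    conv_lhs => rw [← h2, mul_pow]
  rw [h3, ← h1, mul_sum, sum_mul, sum_mul]
  refine sum_congr rfl fun b _ => ?_
  ring

/-- Sprinkling: the measure with parameter `u₂` is larger than the union of the measure with
parameter `u₁` and an independent product measure. -/
theorem asprinkle [Finite W] {u₁ u₂ : ℝ} (hu₁ : 0 < u₁) (hu : u₁ < u₂) (hq : 1 ≤ q)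
    (en : ι → W × W) (B : W → W → Prop) (E : Finset ι) [DecidableEq ι] {f : Finset ι → ℝ}
    (hf0 : ∀ ω, 0 ≤ f ω) (hf : ∀ s t, s ⊆ t → f s ≤ f t) :
    aEx ((u₂ - u₁) / (u₁ + q)) 1 en B E (fun s => aEx u₁ q en B E (fun ω => f (ω ∪ s))) ≤
      aEx u₂ q en B E f := by
  have hu₂ : 0 < u₂ := hu₁.trans hu
  have hq0 : 0 < q := lt_of_lt_of_le one_pos hq
  obtain ⟨th, hth⟩ : ∃ th, th = (u₂ - u₁) / u₁ := ⟨_, rfl⟩
  obtain ⟨c, hc⟩ : ∃ c, c = u₁ / (u₁ + q) := ⟨_, rfl⟩
  obtain ⟨o, ho⟩ : ∃ o, o = (u₂ - u₁) / (u₁ + q) := ⟨_, rfl⟩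
  have hth0 : 0 < th := by rw [hth]; exact div_pos (sub_pos.2 hu) hu₁
  have hc0 : 0 < c := by rw [hc]; positivity
  have hoc : o = th * c := by
    rw [ho, hth, hc]
    field_simp
  have ho0 : 0 < o := by rw [hoc]; positivity
  rw [← ho]
  have hZ₁ := aZ_pos hu₁ hq0 en B E
  have hZ₂ := aZ_pos hu₂ hq0 en B E
  have hZo := aZ_pos ho0 one_pos en B E
  obtain ⟨z, hz⟩ : ∃ z : Finset ι → ℝ, z = fun b => aZ u₁ q en B E (fun ω => ind (b ⊆ ω)) :=
    ⟨_, rfl⟩
  obtain ⟨g, hg⟩ : ∃ g : Finset ι → ℝ, g = fun s => aEx u₁ q en B E (fun ω => f (ω ∪ s)) :=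
    ⟨_, rfl⟩
  have hz0 : ∀ b, 0 ≤ z b := by
    intro b
    rw [hz]
    show 0 ≤ aZ u₁ q en B E (fun ω => ind (b ⊆ ω))
    unfold aZ
    exact sum_nonneg fun ω _ => mul_nonneg (by positivity) (ind_nonneg _)
  have hg0 : ∀ s, 0 ≤ g s := by
    intro s
    rw [hg]
    show 0 ≤ aEx u₁ q en B E (fun ω => f (ω ∪ s))
    have h := aEx_mono (en := en) (B := B) (E := E) hu₁ hq0 (f := fun _ => 0)
      (g := fun ω => f (ω ∪ s)) (fun ω _ => hf0 _)
    rwa [aEx_const hu₁ hq0] at h
  have hgm : ∀ s t, s ⊆ t → g s ≤ g t := by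
    intro s t hst
    rw [hg]
    exact aEx_mono hu₁ hq0 (fun ω _ => hf _ _ (union_subset_union_right hst))
  have hcost : ∀ s t : Finset ι, s ⊆ E → c ^ (s \ t).card * z t ≤ z (s ∪ t) := by
    intro s t hs
    have h1 := edges_cost (en := en) (B := B) hu₁ hq (sdiff_subset.trans hs : s \ t ⊆ E)
      (f := fun ω => ind (t ⊆ ω)) (fun _ => ind_nonneg _)
      (fun a b hab => ind_mono fun h => h.trans hab)
    rw [hc, hz]
    refine le_trans h1 (aZ_mono hu₁ hq0 fun ω _ => ?_)
    by_cases ht : t ⊆ ω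
    · by_cases hs' : s \ t ⊆ ω
      · have h5 : s ∪ t ⊆ ω := by
          rw [← sdiff_union_self_eq_union]
          exact union_subset hs' ht
        rw [ind_of hs', ind_of ht, ind_of h5, mul_one]
      · rw [ind_not hs', zero_mul]
        exact ind_nonneg _
    · rw [ind_not ht, mul_zero]
      exact ind_nonneg _
  -- the two sums
  have e1 : ∑ b ∈ E.powerset, th ^ b.card * z b = aZ u₂ q en B E (fun _ => 1) := by
    rw [← Quench_sum (u₂ := u₂) hu₁ en B E, hz, hth]
    refine sum_congr rfl fun b _ => ?_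
    congr 1
    exact aZ_congr fun ω _ => (mul_one _).symm
  have e2 : ∑ b ∈ E.powerset, th ^ b.card * z b * g b ≤ aZ u₂ q en B E f := by
    rw [← Quench_sum (u₂ := u₂) hu₁ en B E]
    refine sum_le_sum fun b _ => ?_
    rw [mul_assoc, ← hth]
    refine mul_le_mul_of_nonneg_left ?_ (by positivity)
    have h1 := aZ_fkg hu₁ hq en B E (f := fun ω => ind (b ⊆ ω)) (g := fun ω => f (ω ∪ b))
      (fun _ => ind_nonneg _) (fun _ => hf0 _) (fun s t hst => ind_mono fun h => h.trans hst)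
      (fun s t hst => hf _ _ (union_subset_union_left hst))
    rw [hz, hg]
    show aZ u₁ q en B E (fun ω => ind (b ⊆ ω)) * aEx u₁ q en B E (fun ω => f (ω ∪ b)) ≤ _
    unfold aEx
    rw [← mul_div_assoc, div_le_iff₀ hZ₁, mul_comm _ (aZ u₁ q en B E fun _ => 1)]
    refine le_trans h1 (mul_le_mul_of_nonneg_left (le_of_eq (aZ_congr fun ω _ => ?_)) hZ₁.le)
    by_cases hb : b ⊆ ω
    · rw [union_eq_left.mpr hb]
    · rw [ind_not hb, zero_mul, zero_mul]
  have e3 : aZ o 1 en B E (fun _ => 1) = ∑ b ∈ E.powerset, o ^ b.card := by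
    unfold aZ
    refine sum_congr rfl fun b _ => ?_
    rw [one_pow, mul_one, mul_one]
  have e4 : aZ o 1 en B E g = ∑ b ∈ E.powerset, o ^ b.card * g b := by
    unfold aZ
    refine sum_congr rfl fun b _ => ?_
    rw [one_pow, mul_one]
  have key := four_abs E (f₁ := fun b => o ^ b.card * g b)
    (f₂ := fun b => th ^ b.card * z b) (f₃ := fun b => o ^ b.card)
    (f₄ := fun b => th ^ b.card * z b * g b)
    (fun b => mul_nonneg (by positivity) (hg0 b)) (fun b => mul_nonneg (by positivity) (hz0 b))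
    (fun b => by positivity)
    (fun b => mul_nonneg (mul_nonneg (by positivity) (hz0 b)) (hg0 b))
    (fun s hs t _ => by
      have h1 := hcost s t hs
      have h2 : o ^ s.card * th ^ t.card =
          o ^ (s ∩ t).card * th ^ (s ∪ t).card * c ^ (s \ t).card := by
        have h3 : s.card = (s ∩ t).card + (s \ t).card := (card_inter_add_card_sdiff s t).symm
        have h4 : (s ∪ t).card = (s \ t).card + t.card := by
          rw [← sdiff_union_self_eq_union, card_union_of_disjoint sdiff_disjoint]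
        rw [h3, h4, pow_add, pow_add, hoc, mul_pow, mul_pow]
        ring
      have h3 : g s ≤ g (s ∪ t) := hgm _ _ subset_union_left
      calc o ^ s.card * g s * (th ^ t.card * z t)
          = o ^ (s ∩ t).card * th ^ (s ∪ t).card * (c ^ (s \ t).card * z t) * g s := by
            rw [show o ^ s.card * g s * (th ^ t.card * z t) =
              (o ^ s.card * th ^ t.card) * z t * g s by ring, h2]
            ring
        _ ≤ o ^ (s ∩ t).card * th ^ (s ∪ t).card * z (s ∪ t) * g (s ∪ t) := by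
            refine mul_le_mul (mul_le_mul_of_nonneg_left h1 (by positivity)) h3 (hg0 _) ?_
            exact mul_nonneg (by positivity) (hz0 _)
        _ = o ^ (s ∩ t).card * (th ^ (s ∪ t).card * z (s ∪ t) * g (s ∪ t)) := by ring)
  rw [e1, ← e3, ← e4] at key
  rw [← hg]
  unfold aEx
  rw [div_le_div_iff₀ hZo hZ₂]
  refine le_trans key ?_
  rw [mul_comm]
  exact mul_le_mul_of_nonneg_right e2 hZo.le

/-- The base `B` with the edges of `w` added, `S` wired to `t` and `T` wired to `b`. -/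
def QB (en : ι → W × W) (B : W → W → Prop) (w : Finset ι) (S T : W → Prop) (t b : W)
    (x y : W) : Prop :=
  B x y ∨ (∃ e ∈ w, en e = (x, y)) ∨ (S x ∧ y = t) ∨ (T x ∧ y = b)

private theorem Quench_cn {w F : Finset ι} [DecidableEq ι] {S T : W → Prop} {t b x y : W}
    (h : Cn en B (w ∪ F) x y) : Cn en (QB en B w S T t b) F x y := by
  unfold Cn at h ⊢
  induction h with
  | rel x y h =>
    rcases h with h | ⟨e, he, h⟩
    · exact Relation.EqvGen.rel _ _ (Or.inl (Or.inl h))
    · rcases mem_union.mp he with he | he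
      · exact Relation.EqvGen.rel _ _ (Or.inl (Or.inr (Or.inl ⟨e, he, h⟩)))
      · exact Relation.EqvGen.rel _ _ (Or.inr ⟨e, he, h⟩)
  | refl x => exact Relation.EqvGen.refl _
  | symm x y _ ih => exact Relation.EqvGen.symm _ _ ih
  | trans x y z _ _ ih1 ih2 => exact Relation.EqvGen.trans _ _ _ ih1 ih2

private theorem Quench_cut {w s : Finset ι} [DecidableEq ι] {S T : W → Prop} {t b : W}
    (ht : S t) (hb : T b) (h : ∀ x y, S x → T y → ¬ Cn en B (w ∪ s) x y) :
    ¬ Cn en (QB en B w S T t b) s t b := by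
  intro hc
  let g : W → Prop := fun z => ∃ x, S x ∧ Cn en B (w ∪ s) x z
  have hedge : ∀ x y, Cn en B (w ∪ s) x y → g x = g y := by
    intro x y hxy
    apply propext
    constructor
    · rintro ⟨v, hv, hc⟩
      exact ⟨v, hv, hc.trans hxy⟩
    · rintro ⟨v, hv, hc⟩
      exact ⟨v, hv, hc.trans hxy.symm⟩
  have hgS : ∀ x, S x → g x := fun x hx => ⟨x, hx, Cn.refl _⟩
  have hgT : ∀ y, T y → ¬ g y := by
    rintro y hy ⟨x, hx, hc⟩
    exact h x y hx hy hc
  have key : g t = g b := by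
    refine Cn.const hc (g := g) ?_ ?_
    · rintro x y (h1 | ⟨e, he, h1⟩ | ⟨h1, rfl⟩ | ⟨h1, rfl⟩)
      · exact hedge x y (Cn.of_base h1)
      · refine hedge x y ?_
        have h2 := Cn.of_mem (en := en) (B := B) (mem_union_left s he)
        rw [h1] at h2
        exact h2
      · exact propext ⟨fun _ => hgS _ ht, fun _ => hgS _ h1⟩
      · exact propext ⟨fun h' => absurd h' (hgT _ h1), fun h' => absurd h' (hgT _ hb)⟩
    · intro e he
      exact hedge _ _ (Cn.of_mem (mem_union_right w he))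
  have h1 := hgS t ht
  rw [key] at h1
  exact hgT b hb h1

/-- Quenched sprinkling: on top of a fixed configuration `w`, an independent layer with odds `u`
disconnects `S` and `T` with exponentially small probability, if all points are at small closed
distance from `S` or `T` and the energy between the clusters of `S` and of `T` is large. -/
theorem quench_abs [Finite W] [DecidableEq ι] (B : W → W → Prop) (w : Finset ι) {S T : W → Prop}
    {t b : W} (ht : S t) (hb : T b) {v₀ : ℝ} (hv₀ : 0 < v₀) (hvu : v₀ ≤ u) {k : ℕ}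
    {EA : Finset ι} (hEA : EA ⊆ E)
    (hk : ∀ e ∈ EA, ∀ x, (x = (en e).1 ∨ x = (en e).2) → ∃ F, F ⊆ E ∧ F.card ≤ k ∧
      ∃ y, (S y ∨ T y) ∧ Cn en B (w ∪ F) x y) {ε : ℝ} (hε : 0 ≤ ε)
    (hen : ∀ h : W → ℝ, (∀ x y, S x → Cn en B w x y → h y = 1) →
      (∀ x y, T x → Cn en B w x y → h y = 0) → ε ≤ ∑ e ∈ EA, (h (en e).1 - h (en e).2) ^ 2) :
    aEx u 1 en B E (fun s => ind (∀ x y, S x → T y → ¬ Cn en B (w ∪ s) x y)) ≤
      2 * Real.exp (-((u - v₀) * (((v₀ / (v₀ + 2)) ^ k) ^ 4 / (1 + u)) * ε)) := by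
  have hRHS : 0 ≤ 2 * Real.exp (-((u - v₀) * (((v₀ / (v₀ + 2)) ^ k) ^ 4 / (1 + u)) * ε)) := by
    positivity
  have hu : 0 < u := lt_of_lt_of_le hv₀ hvu
  obtain ⟨B₀, hB₀⟩ : ∃ B₀, B₀ = QB en B w S T t b := ⟨_, rfl⟩
  have hcut : ∀ s : Finset ι, (∀ x y, S x → T y → ¬ Cn en B (w ∪ s) x y) → ¬ Cn en B₀ s t b := by
    intro s h
    rw [hB₀]
    exact Quench_cut ht hb h
  -- the product measure against the random-cluster measure with `q = 2`
  have h1 : aEx u 1 en B E (fun s => ind (∀ x y, S x → T y → ¬ Cn en B (w ∪ s) x y)) ≤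
      aEx u 1 en B E (fun s => ind (¬ Cn en B₀ s t b)) :=
    aEx_mono hu one_pos fun s _ => ind_mono (hcut s)
  have h2 : aEx u 1 en B E (fun s => ind (¬ Cn en B₀ s t b)) ≤
      aEx u 2 en B₀ E (fun s => ind (¬ Cn en B₀ s t b)) := by
    have h3 := bern_dom (en := en) (E := E) hu one_le_two B₀ B
      (f := fun s => ind (Cn en B₀ s t b)) (fun _ => ind_nonneg _)
      (fun s s' hs => ind_mono (Cn.mono (fun _ _ h => h) hs))
    have h4 : ∀ (q' : ℝ) (hq' : 0 < q') (B' : W → W → Prop),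
        aEx u q' en B' E (fun s => ind (¬ Cn en B₀ s t b)) =
          1 - aEx u q' en B' E (fun s => ind (Cn en B₀ s t b)) := by
      intro q' hq' B'
      have h5 : aEx u q' en B' E (fun s => ind (¬ Cn en B₀ s t b)) =
          aEx u q' en B' E (fun s => 1 + (-1) * ind (Cn en B₀ s t b)) := by
        unfold aEx
        congr 1
        refine aZ_congr fun ω _ => ?_
        by_cases h : Cn en B₀ ω t b
        · rw [ind_of h, ind_not (not_not.mpr h)]
          norm_num
        · rw [ind_not h, ind_of h]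
          norm_num
      rw [h5, aEx_add (f := fun _ => (1 : ℝ)), aEx_const hu hq', aEx_const_mul]
      ring
    rw [h4 1 one_pos, h4 2 two_pos]
    linarith
  by_cases htb : Cn en B₀ ∅ t b
  · -- the event is empty
    have h3 : aEx u 1 en B E (fun s => ind (¬ Cn en B₀ s t b)) = 0 := by
      rw [← aEx_const (q := 1) hu one_pos en B E 0]
      unfold aEx
      congr 1
      exact aZ_congr fun ω _ => ind_not (not_not.mpr
        (Cn.mono (fun _ _ h => h) (empty_subset ω) htb))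
    rw [h3] at h1
    exact h1.trans hRHS
  obtain ⟨c₁, hc₁⟩ : ∃ c₁, c₁ = (v₀ / (v₀ + 2)) ^ k := ⟨_, rfl⟩
  have hc₁0 : 0 < c₁ := by rw [hc₁]; positivity
  have h3 := split_abs (q := ((2 : ℕ) : ℝ)) (C := 2 * ((2 : ℕ) : ℝ) * (((2 : ℕ) : ℝ) - 1))
    (E := E) (en := en) (B := B₀) (by norm_num) (by norm_num) (q2_int 2 (le_refl 2)) htb hv₀
    hvu hc₁0 hEA ?_ hε ?_
  · have h4 : aZD u ((2 : ℕ) : ℝ) en B₀ E t b (fun _ => 1) =
        aZ u 2 en B₀ E (fun s => ind (¬ Cn en B₀ s t b)) := by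
      unfold aZD
      norm_num
    have h5 : aZ u ((2 : ℕ) : ℝ) en (Mrg B₀ t b) E (fun _ => 1) ≤ aZ u 2 en B₀ E (fun _ => 1) := by
      unfold aZ
      refine sum_le_sum fun ω _ => ?_
      refine mul_le_mul_of_nonneg_right (mul_le_mul_of_nonneg_left ?_ (by positivity))
        zero_le_one
      have h6 : cc en (Mrg B₀ t b) ω ≤ cc en B₀ ω :=
        cc_mono (fun _ _ h => Or.inl h) (subset_refl ω)
      calc (((2 : ℕ) : ℝ)) ^ cc en (Mrg B₀ t b) ω ≤ ((2 : ℕ) : ℝ) ^ cc en B₀ ω :=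
            pow_le_pow_right₀ (by norm_num) h6
        _ = 2 ^ cc en B₀ ω := by norm_num
    rw [h4] at h3
    refine h1.trans (h2.trans ?_)
    unfold aEx
    have hZ := aZ_pos hu (two_pos : (0 : ℝ) < 2) en B₀ E
    rw [div_le_iff₀ hZ]
    refine h3.trans ?_
    have h8 : (((2 : ℕ) : ℝ)) ^ 2 * c₁ ^ 4 / (2 * ((2 : ℕ) : ℝ) * (((2 : ℕ) : ℝ) - 1) *
        (1 + u)) = c₁ ^ 4 / (1 + u) := by
      have h9 : (((2 : ℕ) : ℝ)) ^ 2 * c₁ ^ 4 / (2 * ((2 : ℕ) : ℝ) * (((2 : ℕ) : ℝ) - 1) *
          (1 + u)) = 4 * c₁ ^ 4 / (4 * (1 + u)) := by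
        push_cast
        norm_num
      rw [h9, mul_div_mul_left _ _ (by norm_num : (4 : ℝ) ≠ 0)]
    have h7 : ((2 : ℕ) : ℝ) * Real.exp (-((u - v₀) * ((((2 : ℕ) : ℝ)) ^ 2 * c₁ ^ 4 /
        (2 * ((2 : ℕ) : ℝ) * (((2 : ℕ) : ℝ) - 1) * (1 + u))) * ε)) =
        2 * Real.exp (-((u - v₀) * (((v₀ / (v₀ + 2)) ^ k) ^ 4 / (1 + u)) * ε)) := by
      rw [h8, hc₁]
      push_cast
      rfl
    rw [h7]
    exact mul_le_mul_of_nonneg_left h5 hRHS
  · -- all points are connected to `t` with probability at least `c₁`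
    intro v hv e he
    have hv0 : 0 < v := lt_of_lt_of_le hv₀ hv.1
    have hmx : ∀ x, (x = (en e).1 ∨ x = (en e).2) →
        c₁ ≤ mm v ((2 : ℕ) : ℝ) en B₀ E t b x := by
      intro x hx
      obtain ⟨F, hF, hFk, y, hy, hc⟩ := hk e he x hx
      have hc1 : Cn en B₀ F x y := by
        rw [hB₀]
        exact Quench_cn hc
      have hyt : Cn en (Mrg B₀ t b) F y t := by
        rcases hy with hy | hy
        · refine Cn.of_base (Or.inl ?_)
          rw [hB₀]
          exact Or.inr (Or.inr (Or.inl ⟨hy, rfl⟩))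
        · have h5 : Cn en (Mrg B₀ t b) F y b := by
            refine Cn.of_base (Or.inl ?_)
            rw [hB₀]
            exact Or.inr (Or.inr (Or.inr ⟨hy, rfl⟩))
          exact h5.trans (Cn.symm (Cn.of_base (Or.inr ⟨rfl, rfl⟩)))
      have hxt : Cn en (Mrg B₀ t b) F x t :=
        (Cn.mono (fun _ _ h => Or.inl h) (subset_refl F) hc1).trans hyt
      have h5 := aC_ge_pow (E := E) (q := ((2 : ℕ) : ℝ)) hv0 (by norm_num) hF hxt
      unfold mm
      refine le_trans ?_ h5
      have h6 : v₀ / (v₀ + 2) ≤ v / (v + ((2 : ℕ) : ℝ)) := by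
        push_cast
        rw [div_le_div_iff₀ (by positivity) (by positivity)]
        nlinarith [hv.1]
      have h7 : v / (v + ((2 : ℕ) : ℝ)) ≤ 1 := by
        rw [div_le_one (by positivity)]
        push_cast
        linarith
      rw [hc₁]
      calc (v₀ / (v₀ + 2)) ^ k ≤ (v / (v + ((2 : ℕ) : ℝ))) ^ k :=
            pow_le_pow_left₀ (by positivity) h6 k
        _ ≤ (v / (v + ((2 : ℕ) : ℝ))) ^ F.card :=
            pow_le_pow_of_le_one (by positivity) h7 hFk
    exact ⟨hmx _ (Or.inl rfl), hmx _ (Or.inr rfl)⟩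
  · -- the energy
    intro h hht hhb
    have hcn : ∀ x y, Cn en B w x y → Cn en B₀ ∅ x y := by
      intro x y hxy
      rw [hB₀]
      refine Quench_cn ?_
      rw [union_empty]
      exact hxy
    refine hen h (fun x y hx hxy => hht y ?_) (fun x y hx hxy => hhb y ?_)
    · have h4 : Cn en B₀ ∅ x t := by
        refine Cn.of_base ?_
        rw [hB₀]
        exact Or.inr (Or.inr (Or.inl ⟨hx, rfl⟩))
      exact (hcn x y hxy).symm.trans h4
    · have h4 : Cn en B₀ ∅ x b := by
        refine Cn.of_base ?_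
        rw [hB₀]
        exact Or.inr (Or.inr (Or.inr ⟨hx, rfl⟩))
      exact (hcn x y hxy).symm.trans h4

end Pool.Agent.Lib.MP_31386d_pr_RQ
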