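import Pool.Agent.Lib.MP_31386d_pr_POTTS.ROne
import Pool.Agent.Lib.MP_31386d_pr_POTTS.QOne
import Pool.Agent.Lib.MP_31386d_pr_POTTS.WiredFree
import Pool.Agent.Lib.MP_31386d_pr_RQ.Defs
import Pool.Agent.Lib.MP_31386d_pr_RQ.QuenchAbs

/-!
# Project RQ: quenched comparison of the free and the wired measure (`q = 2` on a fixed environment)
-/

set_option autoImplicit false

namespace Pool.Agent.Lib.MP_31386d_pr_RQ

open Finset
open Pool.Agent.Lib.MP_31386d_pr
open Pool.Agent.Lib.MP_31386d_pr_POTTS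

variable {d : ℕ}

/-- The base given by the edges of `w`. -/
def Bf (V : Finset (Pt d)) (w : Finset (Ed d)) (a b : Option {x // x ∈ V}) : Prop :=
  BW V V a b ∨ BE V w a b

/-- The base given by the edges of `w`, the points of `S` being wired. -/
def Bw (V S : Finset (Pt d)) (w : Finset (Ed d)) (a b : Option {x // x ∈ V}) : Prop :=
  BW V (V \ S) a b ∨ BE V w a b

/-- Quenched free connection probability, `q = 2`. -/
noncomputable def Pf (v : ℝ) (V : Finset (Pt d)) (w : Finset (Ed d)) (x y : Pt d) : ℝ :=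
  aC v 2 (enV V) (Bf V w) (EI V) (pV V x) (pV V y)

/-- Quenched wired connection probability, `q = 2`. -/
noncomputable def Pw (v : ℝ) (V S : Finset (Pt d)) (w : Finset (Ed d)) (x y : Pt d) : ℝ :=
  aC v 2 (enV V) (Bw V S w) (EI V) (pV V x) (pV V y)

variable {v : ℝ} {V S : Finset (Pt d)} {w : Finset (Ed d)} {x y t : Pt d}

theorem cn_Bf {s : Finset (Ed d)} :
    Cn (enV V) (Bf V w) s (pV V x) (pV V y) ↔ ConnP V (s ∪ w) x y :=
  (cn_base _ _ _ _ _).trans (dict_cn (Subset.refl _) _ _ _)

theorem cn_Bw {s : Finset (Ed d)} :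
    Cn (enV V) (Bw V S w) s (pV V x) (pV V y) ↔ ConnP (V \ S) (s ∪ w) x y :=
  (cn_base _ _ _ _ _).trans (dict_cn sdiff_subset _ _ _)

theorem Bf_le_Bw (a b : Option {x // x ∈ V}) (h : Bf V w a b) : Bw V S w a b := by
  rcases h with h | h
  · exact absurd h (not_BW_self a b)
  · exact Or.inr h

theorem Pf_le_Pw (hv : 0 < v) : Pf v V w x y ≤ Pw v V S w x y :=
  aC_dom hv one_le_two Bf_le_Bw _ _

theorem Pf_nonneg (hv : 0 < v) : 0 ≤ Pf v V w x y := by
  unfold Pf aC
  have h := aEx_mono (en := enV V) (B := Bf V w) (E := EI V) hv two_pos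
    (f := fun _ => (0 : ℝ)) (g := fun ω => ind (Cn (enV V) (Bf V w) ω (pV V x) (pV V y)))
    (fun ω _ => ind_nonneg _)
  refine le_trans (le_of_eq ?_) h
  unfold aEx aZ
  simp

theorem Pw_eq_one (hv : 0 < v) (h : ConnP (V \ S) w x y) : Pw v V S w x y = 1 := by
  unfold Pw aC aEx
  have hZ := aZ_pos (en := enV V) (B := Bw V S w) (E := EI V) hv (two_pos : (0 : ℝ) < 2)
  rw [div_eq_one_iff_eq hZ.ne']
  refine aZ_congr fun ω _ => ?_
  refine ind_of (cn_Bw.2 ?_)
  unfold ConnP at h ⊢
  exact Relation.ReflTransGen.mono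
    (fun a b hab => hab.imp (fun h => h.mono subset_union_right) id) _ _ h

theorem Pf_self (hv : 0 < v) : Pf v V w x x = 1 := by
  unfold Pf aC aEx
  have hZ := aZ_pos (en := enV V) (B := Bf V w) (E := EI V) hv (two_pos : (0 : ℝ) < 2)
  rw [div_eq_one_iff_eq hZ.ne']
  exact aZ_congr fun ω _ => ind_of (Cn.refl _)

theorem Pw_self (hv : 0 < v) : Pw v V S w x x = 1 := Pw_eq_one hv (ConnP.refl _ _ _)

theorem Pw_le_one (hv : 0 < v) : Pw v V S w x y ≤ 1 := by
  unfold Pw aC aEx
  have hZ := aZ_pos (en := enV V) (B := Bw V S w) (E := EI V) hv (two_pos : (0 : ℝ) < 2)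
  rw [div_le_one hZ]
  exact aZ_mono hv two_pos fun ω _ => ind_le_one _

/-- The quadratic inequality. -/
theorem PfPw_sq (hv : 0 < v) : (Pw v V S w x t * Pf v V w y t - Pw v V S w y t * Pf v V w x t) ^ 2 ≤
    2 * (Pw v V S w x y - Pf v V w x y) := by
  have h := q1_int 2 le_rfl
  rw [Nat.cast_ofNat] at h
  exact h _ _ (enV V) (Bf V w) (Bw V S w) Bf_le_Bw (EI V) v hv (pV V t) (pV V x) (pV V y)

/-- Adding vertices creates at most as many clusters as there are new vertices. -/
private theorem qavg_kap {V W : Finset (Pt d)} (ω : Finset (Ed d)) :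
    kap W ω ≤ kap V ω + (W \ V).card := by
  classical
  let φ : L W ω →ₗ[ℚ] ({x // x ∈ W \ V} → ℚ) :=
    { toFun := fun g x => g.1 x.1
      map_add' := fun _ _ => rfl
      map_smul' := fun _ _ => rfl }
  have h1 := LinearMap.finrank_range_add_finrank_ker φ
  have h2 : Module.finrank ℚ (LinearMap.range φ) ≤ (W \ V).card := by
    have := Submodule.finrank_le (LinearMap.range φ)
    rw [Module.finrank_fintype_fun_eq_card, Fintype.card_coe] at this
    exact this
  have h3 : Module.finrank ℚ (LinearMap.ker φ) ≤ kap V ω := by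
    let ψ : LinearMap.ker φ →ₗ[ℚ] L V ω :=
      { toFun := fun g => ⟨g.1.1, fun x hx => by
          by_cases hW : x ∈ W
          · have := g.2
            rw [LinearMap.mem_ker] at this
            exact congrFun this ⟨x, mem_sdiff.mpr ⟨hW, hx⟩⟩
          · exact g.1.2.1 x hW, g.1.2.2⟩
        map_add' := fun _ _ => rfl
        map_smul' := fun _ _ => rfl }
    apply LinearMap.finrank_le_finrank_of_injective (f := ψ)
    intro g h hgh
    apply Subtype.ext
    apply Subtype.ext
    exact congrArg (fun k : L V ω => k.1) hgh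
  unfold kap at *
  omega

/-- At some intermediate parameter the sum of the differences is bounded by the number of wired
points. -/
theorem sum_PwPf (hS : S ⊆ V) (w : Finset (Ed d)) {v₀ v₁ : ℝ} (hv₀ : 0 < v₀) (hv : v₀ < v₁) :
    ∃ v, v₀ < v ∧ v < v₁ ∧ (v₁ - v₀) * (1 - 1 / 2) * ∑ e ∈ EI V,
      (Pw v V S w e.1 (tgt e) - Pf v V w e.1 (tgt e)) ≤ (1 + v₁) * (S.card * Real.log 2) := by
  have hK : ∀ ω, ω ⊆ EI V → cc (enV V) (Bf V w) ω ≤ cc (enV V) (Bw V S w) ω + S.card := by
    intro ω _
    unfold Bf Bw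
    rw [cc_base, cc_base, dict_cc (Subset.refl _), dict_cc sdiff_subset]
    have h := qavg_kap (V := V \ S) (W := V) (ω ∪ w)
    rw [_root_.sdiff_sdiff_eq_self hS] at h
    omega
  obtain ⟨v, h1, h2, h3⟩ := wired_free (q := 2) one_lt_two (Bf_le_Bw (S := S)) hK hv₀ hv
  exact ⟨v, h1, h2, h3⟩

/-! ### Closed distances, Bernoulli edges -/

/-- The sphere around the cube of radius `N`. -/
noncomputable def Sph (d N : ℕ) : Finset (Pt d) := cube d (N + 1) \ cube d N

/-- Finite energy. -/
theorem Pw_ge (hv : 0 < v) {F : Finset (Ed d)} (hF : F ⊆ EI V) (h : ConnP (V \ S) (F ∪ w) x y) :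
    (v / (v + 2)) ^ F.card ≤ Pw v V S w x y :=
  aC_ge_pow hv one_le_two hF (cn_Bw.2 h)

private theorem qavg_conn_mem {a b : Pt d} {ω : Finset (Ed d)} (hω : ω ⊆ EI V) (ha : a ∈ V)
    (h : Conn ω a b) : b ∈ V := by
  induction h with
  | refl => exact ha
  | tail _ hbc _ =>
    obtain ⟨e, he, h2⟩ := hbc
    have h3 := mem_EI.1 (hω he)
    rcases h2 with h2 | h2
    · rw [← h2.2]
      exact h3.2
    · rw [← h2.1]
      exact h3.1

/-- The random-cluster measure with `q = 2` is smaller than the product measure. -/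
theorem Pf_le_bern (hv : 0 < v) (hw : w ⊆ EI V) (hx : x ∈ V) (hy : y ∈ V) :
    Pf v V w x y ≤ Pb v 1 V (EI V) (fun s => Conn (w ∪ s) x y) := by
  classical
  refine le_trans (bern_dom (en := enV V) (E := EI V) hv one_le_two (Bf V w) (Bf V w)
    (fun ω => ind_nonneg _)
    (fun s t hst => ind_mono (Cn.mono (fun _ _ h => h) hst))) (le_of_eq ?_)
  have h1 : ∀ f g : Finset (Ed d) → ℝ, (∀ s, s ⊆ EI V → f s = g s) →
      aZ v 1 (enV V) (Bf V w) (EI V) f = Zs v 1 V (EI V) g := by
    intro f g hfg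
    unfold aZ Zs wt
    refine sum_congr rfl fun s hs => ?_
    rw [one_pow, one_pow, hfg s (mem_powerset.1 hs)]
  unfold aEx Pb Ex
  rw [h1 _ _ (fun s _ => rfl), ← Zs_one, h1 _ _ (fun s _ => rfl)]
  congr 1
  refine Zs_congr _ _ fun s hs => ?_
  have h2 : s ∪ w ⊆ EI V := union_subset hs hw
  by_cases h : Conn (w ∪ s) x y
  · rw [if_pos h, ind_of]
    refine cn_Bf.2 ?_
    rw [union_comm]
    exact h.connP
  · rw [if_neg h, ind_not]
    intro h3
    apply h
    have h4 := (connP_free h2 hx hy).1 (cn_Bf.1 h3)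
    rw [union_comm] at h4
    exact h4

private theorem qavg_step {c a b a' b' L : ℝ} (hc : 0 < c) (hb : c ≤ b) (hb' : c ≤ b')
    (h : (b * a' - b' * a) ^ 2 ≤ 2 * L) :
    |a / b - a' / b'| ≤ Real.sqrt 2 / c ^ 2 * Real.sqrt L := by
  have hbp : 0 < b := lt_of_lt_of_le hc hb
  have hbp' : 0 < b' := lt_of_lt_of_le hc hb'
  have e1 : a / b - a' / b' = (a * b' - a' * b) / (b * b') := by
    field_simp
  rw [e1, abs_div, abs_of_pos (mul_pos hbp hbp')]
  have h1 : |a * b' - a' * b| ≤ Real.sqrt (2 * L) := by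
    apply Real.abs_le_sqrt
    have : (a * b' - a' * b) ^ 2 = (b * a' - b' * a) ^ 2 := by ring
    rw [this]
    exact h
  rw [Real.sqrt_mul two_pos.le] at h1
  have h2 : c ^ 2 ≤ b * b' := by
    rw [pow_two]
    exact mul_le_mul hb hb' hc.le hbp.le
  have hc2 : 0 < c ^ 2 := by positivity
  have hnn : 0 ≤ Real.sqrt 2 * Real.sqrt L := mul_nonneg (Real.sqrt_nonneg _) (Real.sqrt_nonneg _)
  calc |a * b' - a' * b| / (b * b') ≤ (Real.sqrt 2 * Real.sqrt L) / (b * b') :=
        div_le_div_of_nonneg_right h1 (mul_pos hbp hbp').le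
    _ ≤ (Real.sqrt 2 * Real.sqrt L) / c ^ 2 := div_le_div_of_nonneg_left hnn hc2 h2
    _ = Real.sqrt 2 / c ^ 2 * Real.sqrt L := by ring

/-- If every point of the cube is at closed distance at most `k` from `S`, the wired connection
probabilities are not small. -/
theorem Pw_low (hv : 0 < v) {k : ℕ} (hx : TD (EI V) w k {x} S) (hy : TD (EI V) w k {y} S) :
    (v / (v + 2)) ^ (2 * k) ≤ Pw v V S w x y := by
  classical
  obtain ⟨F, hF, hFk, x', hx', z, hz, h1⟩ := hx
  obtain ⟨F', hF', hFk', y', hy', z', hz', h2⟩ := hy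
  rw [mem_singleton] at hx' hy'
  subst hx' hy'
  have h3 : ConnP (V \ S) ((F ∪ F') ∪ w) x' y' := by
    have h4 : Out (V \ S) ((F ∪ F') ∪ w) x' := by
      refine ⟨z, fun h => (mem_sdiff.1 h).2 hz, h1.mono ?_⟩
      intro e he
      rcases mem_union.1 he with he | he
      · exact mem_union_right _ he
      · exact mem_union_left _ (mem_union_left _ he)
    have h5 : Out (V \ S) ((F ∪ F') ∪ w) y' := by
      refine ⟨z', fun h => (mem_sdiff.1 h).2 hz', h2.mono ?_⟩
      intro e he
      rcases mem_union.1 he with he | he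
      · exact mem_union_right _ he
      · exact mem_union_left _ (mem_union_right _ he)
    exact connP_of_out h4 h5
  refine le_trans ?_ (Pw_ge hv (union_subset hF hF') h3)
  have h6 : v / (v + 2) ≤ 1 := by
    rw [div_le_one (by linarith)]
    linarith
  refine pow_le_pow_of_le_one (by positivity) h6 ?_
  calc (F ∪ F').card ≤ F.card + F'.card := card_union_le _ _
    _ ≤ 2 * k := by omega

/-- Averaging over translations. -/
theorem quench_path (hv : 0 < v) {N n k : ℕ} (hn : 2 * n ≤ N) (hV : cube d N ⊆ V)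
    (hT : ∀ y ∈ cube d N, TD (EI V) w k {y} S) {A : ℝ}
    (hA : ∑ e ∈ EI V, (Pw v V S w e.1 (tgt e) - Pf v V w e.1 (tgt e)) ≤ A) {p : Pt d}
    (hp : ∀ j, |p j| ≤ n) :
    ∑ x ∈ cube d (N / 2), |1 - Pf v V w x (x + p) / Pw v V S w x (x + p)| ≤
      (d * n) * (Real.sqrt 2 / ((v / (v + 2)) ^ (2 * k)) ^ 2 *
        Real.sqrt ((cube d (N / 2)).card * A)) := by
  classical
  set c : ℝ := (v / (v + 2)) ^ (2 * k) with hc
  have hcp : 0 < c := by positivity
  have hL : ∀ e : Ed d, 0 ≤ Pw v V S w e.1 (tgt e) - Pf v V w e.1 (tgt e) := fun e =>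
    sub_nonneg.2 (Pf_le_Pw hv)
  have hS' : ∑ e ∈ EI (cube d N), (Pw v V S w e.1 (tgt e) - Pf v V w e.1 (tgt e)) ≤ A :=
    le_trans (sum_le_sum_of_subset_of_nonneg (EI_mono hV) fun e _ _ => hL e) hA
  have hA0 : 0 ≤ A := le_trans (sum_nonneg fun e _ => hL e) hA
  have hsym : ∀ a b, Pf v V w a b = Pf v V w b a := by
    intro a b
    unfold Pf aC
    congr 1
    funext s
    congr 1
    exact propext ⟨Cn.symm, Cn.symm⟩
  have hsym' : ∀ a b, Pw v V S w a b = Pw v V S w b a := by
    intro a b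
    unfold Pw aC
    congr 1
    funext s
    congr 1
    exact propext ⟨Cn.symm, Cn.symm⟩
  have h := average_path (d := d) (κ := Real.sqrt 2 / c ^ 2) hn
    (fun x y => Pf v V w x y / Pw v V S w x y)
    (fun e => Pw v V S w e.1 (tgt e) - Pf v V w e.1 (tgt e)) (by positivity)
    (fun e _ => hL e) hS' (fun x hx e he => by
      have he' := mem_EI.1 he
      rw [hsym x e.1, hsym x (tgt e), hsym' x e.1, hsym' x (tgt e)]
      exact qavg_step hcp (Pw_low hv (hT _ he'.1) (hT _ hx)) (Pw_low hv (hT _ he'.2) (hT _ hx))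
        (PfPw_sq hv)) _ p hp rfl
  have h1 : ∑ x ∈ cube d (N / 2), |1 - Pf v V w x (x + p) / Pw v V S w x (x + p)| =
      ∑ x ∈ cube d (N / 2), |Pf v V w x x / Pw v V S w x x -
        Pf v V w x (x + p) / Pw v V S w x (x + p)| := by
    refine sum_congr rfl fun x _ => ?_
    rw [Pf_self hv, Pw_self hv, div_one]
  rw [h1]
  refine h.trans ?_
  refine mul_le_mul_of_nonneg_right ?_ (by positivity)
  have h2 : ∑ j, (p j).natAbs ≤ ∑ _j : Fin d, n := sum_le_sum fun j _ => by
    have := hp j
    rw [Int.abs_eq_natAbs] at this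
    exact_mod_cast this
  rw [sum_const, card_univ, Fintype.card_fin, smul_eq_mul] at h2
  exact_mod_cast h2

private theorem qavg_card (d N : ℕ) : (cube d N).card = (2 * N + 1) ^ d := by
  unfold cube
  rw [Fintype.card_piFinset]
  simp only [Int.card_Icc, prod_const, card_univ, Fintype.card_fin]
  congr 1
  omega

/-- The set of the points of the sphere is small. -/
theorem card_Sph (hd : 1 ≤ d) (N : ℕ) :
    ((Sph d N).card : ℝ) ≤ 2 * d * (2 * N + 3 : ℝ) ^ (d - 1) := by
  have h0 : cube d N ⊆ cube d (N + 1) := by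
    intro x hx
    rw [mem_cube] at *
    intro i
    have := hx i
    push_cast
    constructor <;> omega
  have h := card_cube_diff hd N
  have h1 : (Sph d N).card + (cube d N).card = (cube d (N + 1)).card := by
    unfold Sph
    exact card_sdiff_add_card_eq_card h0
  have h2 : ((Sph d N).card : ℝ) + (cube d N).card = (cube d (N + 1)).card := by
    exact_mod_cast h1
  linarith

/-- The bound in `quench_balls`. -/
noncomputable def qB (d : ℕ) (v : ℝ) (N n r k : ℕ) : ℝ :=
  ((2 * r + 1 : ℝ) ^ d) ^ 2 * ((d * (n + 2 * r)) *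
    (Real.sqrt 2 / (((v / 2) / (v / 2 + 2)) ^ (2 * k)) ^ 2 *
      Real.sqrt ((cube d (N / 2)).card * ((1 + v) * ((Sph d N).card * Real.log 2) / (v / 4)))))

/-- Quenched comparison: for a fixed environment `w` in which all points of the cube are at closed
distance at most `k` from the sphere, balls which are connected to the sphere in `w` are, for most
translates, connected with each other after adding Bernoulli edges. -/
theorem quench_balls {v : ℝ} (hv : 0 < v) {V : Finset (Pt d)} {w : Finset (Ed d)} {N n r k M : ℕ}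
    (hV : cube d (N + 1) ⊆ V) (hw : w ⊆ EI V) (hn : 2 * (n + 2 * r) ≤ N) (hM : M + r ≤ N / 2)
    (hT : ∀ y ∈ cube d N, TD (EI V) w k {y} (Sph d N)) {x : Pt d} (hx : ∀ j, |x j| ≤ n) :
    ∑ z ∈ cube d M, Pb v 1 V (EI V) (fun s => ¬ CS (w ∪ s) (cub z r) (cub (z + x) r)) ≤
      ∑ z ∈ cube d M, (ind (¬ CS w (cub z r) (Sph d N)) + ind (¬ CS w (cub (z + x) r) (Sph d N))) +
        qB d v N n r k := by
  classical
  have hVN : cube d N ⊆ V := by
    refine Subset.trans ?_ hV
    intro x hx
    rw [mem_cube] at *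
    intro i
    have := hx i
    push_cast
    constructor <;> omega
  have hS : Sph d N ⊆ V := Subset.trans sdiff_subset hV
  have hv2 : 0 < v / 2 := by positivity
  obtain ⟨v', hv'0, hv'1, hsum⟩ := sum_PwPf hS w hv2 (half_lt_self hv)
  have hv' : 0 < v' := hv2.trans hv'0
  set A : ℝ := (1 + v) * ((Sph d N).card * Real.log 2) / (v / 4) with hA
  have hA' : ∑ e ∈ EI V, (Pw v' V (Sph d N) w e.1 (tgt e) - Pf v' V w e.1 (tgt e)) ≤ A := by
    rw [hA, le_div_iff₀ (by positivity)]
    refine le_trans (le_of_eq ?_) hsum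
    ring
  set G : Pt d → Pt d → ℝ := fun a b => |1 - Pf v' V w a b / Pw v' V (Sph d N) w a b| with hG
  have hG0 : ∀ a b, 0 ≤ G a b := fun a b => abs_nonneg _
  set Q : ℝ := (d * (n + 2 * r)) * (Real.sqrt 2 / (((v / 2) / (v / 2 + 2)) ^ (2 * k)) ^ 2 *
      Real.sqrt ((cube d (N / 2)).card * A)) with hQ
  -- one pair of points
  have hpair : ∀ a' ∈ cube d r, ∀ b' ∈ cube d r,
      ∑ z ∈ cube d M, G (z + a') (z + x + b') ≤ Q := by
    intro a' ha' b' hb'
    rw [mem_cube] at ha' hb'
    have hp : ∀ j, |(x + b' - a') j| ≤ ((n + 2 * r : ℕ) : ℤ) := by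
      intro j
      have h1 := abs_le.1 (hx j)
      have h2 := ha' j
      have h3 := hb' j
      rw [Pi.sub_apply, Pi.add_apply, abs_le]
      push_cast
      constructor <;> omega
    have h1 := quench_path hv' hn hVN hT hA' hp
    have h2 : ∑ z ∈ cube d M, G (z + a') (z + x + b') ≤
        ∑ z ∈ cube d (N / 2), G z (z + (x + b' - a')) := by
      have h3 : ∑ z ∈ cube d M, G (z + a') (z + x + b') =
          ∑ z ∈ (cube d M).map (addRightEmbedding a'), G z (z + (x + b' - a')) := by
        rw [sum_map]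
        refine sum_congr rfl fun z _ => ?_
        rw [addRightEmbedding_apply]
        congr 1
        abel
      rw [h3]
      refine sum_le_sum_of_subset_of_nonneg ?_ fun z _ _ => hG0 _ _
      intro z hz
      rw [mem_map] at hz
      obtain ⟨z', hz', rfl⟩ := hz
      rw [mem_cube] at *
      intro i
      have h4 := hz' i
      have h5 := ha' i
      rw [addRightEmbedding_apply, Pi.add_apply]
      constructor <;> omega
    refine h2.trans (h1.trans ?_)
    rw [hQ]
    push_cast
    refine mul_le_mul_of_nonneg_left ?_ (by positivity)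
    refine mul_le_mul_of_nonneg_right ?_ (Real.sqrt_nonneg _)
    have h6 : (v / 2) / (v / 2 + 2) ≤ v' / (v' + 2) := by
      rw [div_le_div_iff₀ (by positivity) (by positivity)]
      nlinarith
    have h7 : 0 < (v / 2) / (v / 2 + 2) := by positivity
    refine div_le_div_of_nonneg_left (Real.sqrt_nonneg _) (by positivity) ?_
    exact pow_le_pow_left₀ (by positivity) (pow_le_pow_left₀ h7.le h6 _) _
  -- one translate
  have hone : ∀ z, Pb v 1 V (EI V) (fun s => ¬ CS (w ∪ s) (cub z r) (cub (z + x) r)) ≤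
      (ind (¬ CS w (cub z r) (Sph d N)) + ind (¬ CS w (cub (z + x) r) (Sph d N))) +
        ∑ a' ∈ cube d r, ∑ b' ∈ cube d r, G (z + a') (z + x + b') := by
    intro z
    have h0 : 0 ≤ ∑ a' ∈ cube d r, ∑ b' ∈ cube d r, G (z + a') (z + x + b') :=
      sum_nonneg fun a' _ => sum_nonneg fun b' _ => hG0 _ _
    have hle := Pb_le_one (V := V) (E := EI V) hv le_rfl
      (fun s => ¬ CS (w ∪ s) (cub z r) (cub (z + x) r))
    by_cases h1 : CS w (cub z r) (Sph d N)
    · by_cases h2 : CS w (cub (z + x) r) (Sph d N)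
      · rw [ind_not (not_not.2 h1), ind_not (not_not.2 h2), add_zero, zero_add]
        obtain ⟨a, ha, s₁, hs₁, h3⟩ := h1
        obtain ⟨b, hb, s₂, hs₂, h4⟩ := h2
        have haV : a ∈ V := qavg_conn_mem hw (hS hs₁) h3.symm
        have hbV : b ∈ V := qavg_conn_mem hw (hS hs₂) h4.symm
        have h5 : ConnP (V \ Sph d N) w a b :=
          connP_of_out ⟨s₁, fun h => (mem_sdiff.1 h).2 hs₁, h3⟩
            ⟨s₂, fun h => (mem_sdiff.1 h).2 hs₂, h4⟩
        have h6 : Pw v' V (Sph d N) w a b = 1 := Pw_eq_one hv' h5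
        have h7 := Pf_le_bern hv' hw haV hbV
        have h8 : Pb v' 1 V (EI V) (fun s => Conn (w ∪ s) a b) ≤
            Pb v 1 V (EI V) (fun s => Conn (w ∪ s) a b) := by
          unfold Pb
          refine Ex_dom_u hv' hv'1.le le_rfl (fun ω => by split_ifs <;> norm_num)
            (fun s t hst => ?_)
          split_ifs with h1 h2
          · exact le_rfl
          · exact absurd (h1.mono (union_subset_union_right hst)) h2
          · norm_num
          · exact le_rfl
        have h9 : Pb v 1 V (EI V) (fun s => ¬ CS (w ∪ s) (cub z r) (cub (z + x) r)) ≤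
            1 - Pb v 1 V (EI V) (fun s => Conn (w ∪ s) a b) := by
          rw [← Pb_not hv le_rfl]
          exact Pb_mono hv le_rfl fun s _ h10 h11 => h10 ⟨a, ha, b, hb, h11⟩
        have h10 : 1 - Pf v' V w a b ≤ G a b := by
          rw [hG]
          beta_reduce
          rw [h6, div_one]
          exact le_abs_self _
        have h11 : G a b ≤ ∑ a' ∈ cube d r, ∑ b' ∈ cube d r, G (z + a') (z + x + b') := by
          have h12 : a - z ∈ cube d r := mem_shV.1 ha
          have h13 : b - (z + x) ∈ cube d r := mem_shV.1 hb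
          have h14 : G a b ≤ ∑ b' ∈ cube d r, G (z + (a - z)) (z + x + b') := by
            refine le_trans (le_of_eq ?_) (single_le_sum
              (f := fun b' => G (z + (a - z)) (z + x + b')) (fun _ _ => hG0 _ _) h13)
            congr 1 <;> abel
          exact h14.trans (single_le_sum
            (f := fun a' => ∑ b' ∈ cube d r, G (z + a') (z + x + b'))
            (fun _ _ => sum_nonneg fun _ _ => hG0 _ _) h12)
        linarith
      · rw [ind_of h2]
        have := ind_nonneg (¬ CS w (cub z r) (Sph d N))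
        linarith
    · rw [ind_of h1]
      have := ind_nonneg (¬ CS w (cub (z + x) r) (Sph d N))
      linarith
  refine (sum_le_sum fun z _ => hone z).trans ?_
  rw [sum_add_distrib]
  refine add_le_add le_rfl ?_
  rw [sum_comm]
  have h20 : ∀ a' ∈ cube d r, ∑ z ∈ cube d M, ∑ b' ∈ cube d r, G (z + a') (z + x + b') ≤
      ((cube d r).card : ℝ) * Q := by
    intro a' ha'
    rw [sum_comm]
    refine (sum_le_sum fun b' hb' => hpair a' ha' b' hb').trans ?_
    rw [sum_const, nsmul_eq_mul]
  refine (sum_le_sum h20).trans (le_of_eq ?_)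
  rw [sum_const, nsmul_eq_mul, qavg_card]
  unfold qB
  rw [← hA, ← hQ]
  push_cast
  ring

end Pool.Agent.Lib.MP_31386d_pr_RQ
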