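import Pool.Agent.Lib.MP_31386d_pr_RQ.QuenchLat
import Pool.Agent.Lib.MP_31386d_pr_POTTS.Average
import Pool.Agent.Lib.MP_31386d_pr_POTTS.QOne
import Pool.Agent.Lib.MP_31386d_pr_POTTS.WiredFree

/-!
# Quenched comparison of translates

For a fixed configuration `w` in which all the points of a cube are at small closed distance from
the boundary layer of the cube: two points connected to the layer in `w` are connected in `w ∪ s`,
`s` Bernoulli, with probability close to one for most translates.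
-/

set_option autoImplicit false

namespace Pool.Agent.Lib.MP_31386d_pr_RQ

open Finset
open Pool.Agent.Lib.MP_31386d_pr
open Pool.Agent.Lib.MP_31386d_pr_POTTS

variable {d : ℕ}

/-- The boundary layer of the cube of radius `N`. -/
noncomputable def lay (d N : ℕ) : Finset (Pt d) := by
  classical
  exact cube d (N + 1) \ cube d N

theorem mem_lay {N : ℕ} {x : Pt d} : x ∈ lay d N ↔ x ∈ cube d (N + 1) ∧ x ∉ cube d N := by
  classical
  unfold lay
  rw [mem_sdiff]

/-- the base `BE V w` with the points of `S` wired to `none` -/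
private def ROneAux_B (V : Finset (Pt d)) (w : Finset (Ed d)) (S : Finset (Pt d))
    (x y : Option {x // x ∈ V}) : Prop :=
  BE V w x y ∨ ∃ v ∈ S, x = pV V v ∧ y = none

private theorem ROneAux_add {W ι : Type} [Finite W] (en : ι → W × W) (B : W → W → Prop)
    (ω : Finset ι) (f : Pt d → W) (t : W) (S : Finset (Pt d)) :
    cc en B ω ≤ cc en (fun x y => B x y ∨ ∃ v ∈ S, x = f v ∧ y = t) ω + S.card := by
  classical
  induction S using Finset.induction_on with
  | empty =>
    have h : (fun x y => B x y ∨ ∃ v ∈ (∅ : Finset (Pt d)), x = f v ∧ y = t) = B := by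
      funext x y
      apply propext
      constructor
      · rintro (h | ⟨v, hv, -⟩)
        · exact h
        · exact absurd hv (notMem_empty v)
      · exact Or.inl
    rw [h]
    exact Nat.le_add_right _ _
  | insert a S ha ih =>
    have h : (fun x y => B x y ∨ ∃ v ∈ insert a S, x = f v ∧ y = t) =
        Mrg (fun x y => B x y ∨ ∃ v ∈ S, x = f v ∧ y = t) (f a) t := by
      funext x y
      apply propext
      unfold Mrg
      constructor
      · rintro (h | ⟨v, hv, h1⟩)
        · exact Or.inl (Or.inl h)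
        · rcases mem_insert.mp hv with rfl | hv
          · exact Or.inr h1
          · exact Or.inl (Or.inr ⟨v, hv, h1⟩)
      · rintro ((h | ⟨v, hv, h1⟩) | h1)
        · exact Or.inl h
        · exact Or.inr ⟨v, mem_insert_of_mem hv, h1⟩
        · exact Or.inr ⟨a, mem_insert_self a S, h1⟩
    rw [h, card_insert_of_notMem ha]
    by_cases hc : Cn en (fun x y => B x y ∨ ∃ v ∈ S, x = f v ∧ y = t) ω (f a) t
    · rw [cc_mrg_of hc]
      omega
    · have := cc_mrg_not hc
      omega

/-- Step bound for the quotient. -/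
private theorem ROneAux_step {C c a b a' b' L : ℝ} (hc : 0 < c) (hC : 0 < C)
    (hb : c ^ 2 ≤ b) (hb' : c ^ 2 ≤ b') (h : (b * a' - b' * a) ^ 2 ≤ C * L) :
    |a / b - a' / b'| ≤ Real.sqrt C / c ^ 4 * Real.sqrt L := by
  have hc2 : 0 < c ^ 2 := by positivity
  have hbp : 0 < b := lt_of_lt_of_le hc2 hb
  have hbp' : 0 < b' := lt_of_lt_of_le hc2 hb'
  have e1 : a / b - a' / b' = (a * b' - a' * b) / (b * b') := by
    field_simp
  rw [e1, abs_div, abs_of_pos (mul_pos hbp hbp')]
  have h1 : |a * b' - a' * b| ≤ Real.sqrt (C * L) := by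
    apply Real.abs_le_sqrt
    have : (a * b' - a' * b) ^ 2 = (b * a' - b' * a) ^ 2 := by ring
    rw [this]
    exact h
  rw [Real.sqrt_mul hC.le] at h1
  have h2 : c ^ 4 ≤ b * b' := by
    have : c ^ 4 = c ^ 2 * c ^ 2 := by ring
    rw [this]
    exact mul_le_mul hb hb' hc2.le hbp.le
  have hc4 : 0 < c ^ 4 := by positivity
  have hnn : 0 ≤ Real.sqrt C * Real.sqrt L := mul_nonneg (Real.sqrt_nonneg _) (Real.sqrt_nonneg _)
  calc |a * b' - a' * b| / (b * b') ≤ (Real.sqrt C * Real.sqrt L) / (b * b') :=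
        div_le_div_of_nonneg_right h1 (mul_pos hbp hbp').le
    _ ≤ (Real.sqrt C * Real.sqrt L) / c ^ 4 := div_le_div_of_nonneg_left hnn hc4 h2
    _ = Real.sqrt C / c ^ 4 * Real.sqrt L := by ring

/-- Right-hand side of the quenched comparison. -/
noncomputable def qavg (d N k n : ℕ) (v₀ v₁ : ℝ) : ℝ :=
  d * n * (Real.sqrt 2 / ((v₀ / (v₀ + 2)) ^ k) ^ 4 *
    Real.sqrt ((cube d (N / 2)).card * (2 * (1 + v₁) * ((lay d N).card * Real.log 2) / (v₁ - v₀))))

private theorem ROneAux_self {W ι : Type} [Finite W] {u q : ℝ} (hu : 0 < u) (hq : 0 < q)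
    (en : ι → W × W) (B : W → W → Prop) (E : Finset ι) {x y : W} (h : Cn en B ∅ x y) :
    aC u q en B E x y = 1 := by
  unfold aC
  rw [← aEx_const hu hq en B E 1]
  unfold aEx
  congr 1
  unfold aZ
  refine sum_congr rfl fun ω _ => ?_
  beta_reduce
  rw [ind_of (Cn.mono (fun _ _ h => h) (empty_subset ω) h)]

theorem quenched_avg {v₀ v₁ : ℝ} (hv₀ : 0 < v₀) (hv : v₀ < v₁) {V : Finset (Pt d)} {N k n : ℕ}
    (hV : cube d (N + 1) ⊆ V) {w : Finset (Ed d)} (hw : w ⊆ EI V)
    (hT : ∀ x ∈ cube d N, ∃ F, F ⊆ EI V ∧ F.card ≤ k ∧ ∃ y ∈ lay d N, Conn (w ∪ F) x y)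
    (hn : 2 * n ≤ N) (p : Pt d) (hp : ∀ i, |p i| ≤ n) :
    ∑ v ∈ cube d (N / 2), ind ((∃ y ∈ lay d N, Conn w v y) ∧ (∃ y ∈ lay d N, Conn w (v + p) y)) *
      (1 - Pb v₁ 1 V (EI V) (fun s => Conn (w ∪ s) v (v + p))) ≤ qavg d N k n v₀ v₁ := by
  classical
  have hv₁ : 0 < v₁ := hv₀.trans hv
  have hlayV : ∀ y ∈ lay d N, y ∈ V := fun y hy => hV (mem_lay.1 hy).1
  have hcub : ∀ y ∈ cube d N, y ∈ V := fun y hy => hV (cube_mono (Nat.le_succ N) hy)
  set B := BE V w with hBdef
  set B' := ROneAux_B V w (lay d N) with hB'def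
  have hB : ∀ x y, B x y → B' x y := fun x y h => Or.inl h
  have hK : ∀ ω : Finset (Ed d), ω ⊆ EI V →
      cc (enV V) B ω ≤ cc (enV V) B' ω + (lay d N).card :=
    fun ω _ => ROneAux_add (enV V) B ω (pV V) none (lay d N)
  obtain ⟨u, hu1, hu2, hsum⟩ := wired_free (q := 2) (en := enV V) (E := EI V) one_lt_two hB hK hv₀ hv
  have hu : 0 < u := hv₀.trans hu1
  obtain ⟨P, hP⟩ : ∃ P : Pt d → Pt d → ℝ, P = fun v y =>
    aC u 2 (enV V) B (EI V) (pV V v) (pV V y) := ⟨_, rfl⟩
  obtain ⟨P', hP'⟩ : ∃ P' : Pt d → Pt d → ℝ, P' = fun v y =>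
    aC u 2 (enV V) B' (EI V) (pV V v) (pV V y) := ⟨_, rfl⟩
  obtain ⟨L, hL⟩ : ∃ L : Ed d → ℝ, L = fun e => P' e.1 (tgt e) - P e.1 (tgt e) := ⟨_, rfl⟩
  have hPP : ∀ v y, P v y ≤ P' v y := by
    intro v y
    rw [hP, hP']
    exact aC_dom hu one_le_two hB _ _
  have hL0 : ∀ e, 0 ≤ L e := by
    intro e
    rw [hL]
    exact sub_nonneg.2 (hPP _ _)
  obtain ⟨S, hS⟩ : ∃ S, S = 2 * (1 + v₁) * ((lay d N).card * Real.log 2) / (v₁ - v₀) := ⟨_, rfl⟩
  have hsumL : ∑ e ∈ EI (cube d N), L e ≤ S := by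
    have h1 : ∑ e ∈ EI (cube d N), L e ≤ ∑ e ∈ EI V, L e :=
      sum_le_sum_of_subset_of_nonneg
        (EI_mono fun x hx => hcub x hx) (fun e _ _ => hL0 e)
    have h2 : ∑ e ∈ EI V, L e = ∑ e ∈ EI V, (aC u 2 (enV V) B' (EI V) (enV V e).1 (enV V e).2 -
        aC u 2 (enV V) B (EI V) (enV V e).1 (enV V e).2) := by
      refine sum_congr rfl fun e _ => ?_
      rw [hL, hP, hP']
      rfl
    rw [← h2] at hsum
    rw [hS, le_div_iff₀ (sub_pos.2 hv)]
    have h3 : (∑ e ∈ EI (cube d N), L e) * (v₁ - v₀) ≤ (∑ e ∈ EI V, L e) * (v₁ - v₀) :=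
      mul_le_mul_of_nonneg_right h1 (sub_pos.2 hv).le
    refine h3.trans ?_
    have h4 : (v₁ - v₀) * (1 - 1 / 2) * ∑ e ∈ EI V, L e =
        (∑ e ∈ EI V, L e) * (v₁ - v₀) / 2 := by ring
    rw [h4] at hsum
    linarith
  -- lower bound for the wired measure
  obtain ⟨c, hc⟩ : ∃ c : ℝ, c = (v₀ / (v₀ + 2)) ^ k := ⟨_, rfl⟩
  have hc0 : 0 < c := by rw [hc]; positivity
  have hnone : ∀ y ∈ lay d N, Cn (enV V) B' ∅ (pV V y) none := fun y hy =>
    Relation.EqvGen.rel _ _ (Or.inl (Or.inr ⟨y, hy, rfl, rfl⟩))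
  have hcn : ∀ (F : Finset (Ed d)) (x y : Pt d), F ⊆ EI V → x ∈ V → y ∈ lay d N →
      Conn (w ∪ F) x y → Cn (enV V) B' F (pV V x) none := by
    intro F x y hF hx hy h
    rw [union_comm] at h
    have h1 := (cn_BE_iff hF hw hx (hlayV y hy)).2 h
    exact Relation.EqvGen.trans _ _ _ (Cn.mono hB (subset_refl _) h1)
      (Cn.mono (fun _ _ h => h) (empty_subset _) (hnone y hy))
  have hPc : ∀ x ∈ cube d N, ∀ y ∈ cube d N, c ^ 2 ≤ P' x y := by
    intro x hx y hy
    obtain ⟨F, hF, hFk, z, hz, hxz⟩ := hT x hx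
    obtain ⟨F', hF', hFk', z', hz', hyz⟩ := hT y hy
    have h1 := hcn F x z hF (hcub x hx) hz hxz
    have h2 := hcn F' y z' hF' (hcub y hy) hz' hyz
    have h3 : Cn (enV V) B' (F ∪ F') (pV V x) (pV V y) :=
      Relation.EqvGen.trans _ _ _ (Cn.mono (fun _ _ h => h) subset_union_left h1)
        (Relation.EqvGen.symm _ _ (Cn.mono (fun _ _ h => h) subset_union_right h2))
    have h4 := aC_ge_pow (E := EI V) hu one_le_two (union_subset hF hF') h3
    have h5 : (F ∪ F').card ≤ 2 * k := (card_union_le _ _).trans (by omega)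
    have h6 : u / (u + 2) ≤ 1 := by
      rw [div_le_one (by positivity)]
      linarith
    have h7 : v₀ / (v₀ + 2) ≤ u / (u + 2) := by
      rw [div_le_div_iff₀ (by positivity) (by positivity)]
      nlinarith
    rw [hP', hc, ← pow_mul, mul_comm k 2]
    calc (v₀ / (v₀ + 2)) ^ (2 * k) ≤ (u / (u + 2)) ^ (2 * k) :=
          pow_le_pow_left₀ (by positivity) h7 _
      _ ≤ (u / (u + 2)) ^ (F ∪ F').card := pow_le_pow_of_le_one (by positivity) h6 h5
      _ ≤ _ := h4
  -- the quadratic inequality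
  have hQ : Q1 (2 : ℝ) 2 := by
    have := q1_int 2 le_rfl
    exact_mod_cast this
  have hstep : ∀ v ∈ cube d N, ∀ e ∈ EI (cube d N),
      |P v e.1 / P' v e.1 - P v (tgt e) / P' v (tgt e)| ≤
        Real.sqrt 2 / c ^ 4 * Real.sqrt (L e) := by
    intro v hv' e he
    have he' := mem_EI.1 he
    refine ROneAux_step hc0 two_pos (hPc v hv' e.1 he'.1) (hPc v hv' (tgt e) he'.2) ?_
    have h1 := hQ (Option {x // x ∈ V}) (Ed d) (enV V) B B' hB (EI V) u hu (pV V v) (pV V e.1)
      (pV V (tgt e))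
    have hsymm : ∀ (B : Option {x // x ∈ V} → Option {x // x ∈ V} → Prop) (x y),
        aC u 2 (enV V) B (EI V) x y = aC u 2 (enV V) B (EI V) y x := by
      intro B x y
      unfold aC
      congr 1
      funext ω
      have : Cn (enV V) B ω x y ↔ Cn (enV V) B ω y x :=
        ⟨Relation.EqvGen.symm _ _, Relation.EqvGen.symm _ _⟩
      rw [propext this]
    rw [hL, hP, hP']
    rw [hsymm B' (pV V e.1) (pV V v), hsymm B (pV V (tgt e)) (pV V v),
      hsymm B' (pV V (tgt e)) (pV V v), hsymm B (pV V e.1) (pV V v)] at h1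
    exact h1
  have hself : ∀ v, P v v / P' v v = 1 := by
    intro v
    have h1 : P v v = 1 := by
      rw [hP]
      exact ROneAux_self hu two_pos _ _ _ (Relation.EqvGen.refl _)
    have h2 : P' v v = 1 := by
      rw [hP']
      exact ROneAux_self hu two_pos _ _ _ (Relation.EqvGen.refl _)
    rw [h1, h2, div_one]
  obtain ⟨m, hm⟩ : ∃ m, ∑ j, (p j).natAbs = m := ⟨_, rfl⟩
  have hmn : (m : ℝ) ≤ d * n := by
    have h1 : m ≤ d * n := by
      rw [← hm]
      calc ∑ j, (p j).natAbs ≤ ∑ _j : Fin d, n := sum_le_sum fun j _ => by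
            have h2 := hp j
            rw [Int.abs_eq_natAbs] at h2
            exact_mod_cast h2
        _ = d * n := by rw [sum_const, card_univ, Fintype.card_fin, smul_eq_mul]
    exact_mod_cast h1
  have hav := average_path hn (fun v y => P v y / P' v y) L (κ := Real.sqrt 2 / c ^ 4)
    (by positivity) (fun e _ => hL0 e) hsumL hstep m p hp hm
  refine le_trans (sum_le_sum fun v hvc => ?_) (hav.trans ?_)
  · -- one point
    have hvN : v ∈ cube d N := by
      have := average_mem hn hvc (p := 0) (fun j => by simp)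
      rwa [add_zero] at this
    have hvpN : v + p ∈ cube d N := average_mem hn hvc hp
    by_cases hg : (∃ y ∈ lay d N, Conn w v y) ∧ (∃ y ∈ lay d N, Conn w (v + p) y)
    · rw [ind_of hg, one_mul]
      obtain ⟨⟨y, hy, hvy⟩, y', hy', hvy'⟩ := hg
      have h1 := hcn ∅ v y (empty_subset _) (hcub v hvN) hy (by rwa [union_empty])
      have h2 := hcn ∅ (v + p) y' (empty_subset _) (hcub _ hvpN) hy' (by rwa [union_empty])
      have h3 : P' v (v + p) = 1 := by
        rw [hP']
        exact ROneAux_self hu two_pos _ _ _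
          (Relation.EqvGen.trans _ _ _ h1 (Relation.EqvGen.symm _ _ h2))
      have h4 : P v (v + p) ≤ Pb v₁ 1 V (EI V) (fun s => Conn (w ∪ s) v (v + p)) := by
        rw [hP]
        unfold aC
        have h5 := bern_dom (en := enV V) (E := EI V) hu one_le_two B B
          (f := fun s => ind (Cn (enV V) B s (pV V v) (pV V (v + p)))) (fun _ => ind_nonneg _)
          (fun s s' hs => ind_mono (Cn.mono (fun _ _ h => h) hs))
        refine h5.trans ?_
        rw [aEx_one_eq hu]
        have h6 : Ex u 1 V (EI V) (fun s => ind (Cn (enV V) B s (pV V v) (pV V (v + p)))) =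
            Ex u 1 V (EI V) (fun s => ind (Conn (w ∪ s) v (v + p))) := by
          refine Ex_congr fun s hs => ?_
          rw [propext (cn_BE_iff hs hw (hcub v hvN) (hcub _ hvpN)), union_comm]
        rw [h6]
        have h7 := Ex_dom_u (V := V) (E := EI V) hu hu2.le le_rfl
          (f := fun s => ind (Conn (w ∪ s) v (v + p))) (fun _ => ind_nonneg _)
          (fun s t hst => ind_mono fun h => h.mono (union_subset_union_right hst))
        refine h7.trans (le_of_eq ?_)
        unfold Pb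
        refine Ex_congr fun s _ => ?_
        by_cases h : Conn (w ∪ s) v (v + p)
        · rw [ind_of h, if_pos h]
        · rw [ind_not h, if_neg h]
      show _ ≤ |P v v / P' v v - P v (v + p) / P' v (v + p)|
      rw [hself v, h3, div_one]
      refine le_trans ?_ (le_abs_self _)
      linarith
    · rw [ind_not hg, zero_mul]
      exact abs_nonneg _
  · unfold qavg
    rw [← hc, ← hS]
    exact mul_le_mul_of_nonneg_right hmn (by positivity)

end Pool.Agent.Lib.MP_31386d_pr_RQ
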