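import Pool.Agent.Lib.MP_31386d_pr_RQ.Defs
import Pool.Agent.Lib.MP_31386d_pr_POTTS.SeedFacts

/-!
# Centres of the seeds
-/

set_option autoImplicit false

namespace Pool.Agent.Lib.MP_31386d_pr_RQ

open Finset
open Pool.Agent.Lib.MP_31386d_pr
open Pool.Agent.Lib.MP_31386d_pr_POTTS

variable {d : ℕ}

/-- Centre of the chosen seed (a cube of side `2 r + 1`) of the block `i`. -/
noncomputable def ctr (r l : ℕ) (b : Finset (Ed d)) (i : Pt d) : Pt d :=
  fun t => sd (2 * r + 1) l b i t + r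

private theorem SeedC_mem_cub {c x : Pt d} {m : ℕ} :
    x ∈ cub c m ↔ ∀ t, -(m : ℤ) ≤ x t - c t ∧ x t - c t ≤ m := by
  unfold cub
  rw [mem_shV, mem_cube]
  exact Iff.rfl

private theorem SeedC_conn_bx {c x y : Pt d} {l : ℕ} (hx : x ∈ bx c l) (hy : y ∈ bx c l) :
    Conn (EI (bx c l)) x y := by
  refine Slab.conn_Icc (a := c) (b := fun i => c i + (l : ℤ) - 1) ?_ hx hy
  intro z
  rw [mem_bx, Grid.mem_Icc']
  refine forall_congr' fun i => ?_
  constructor
  · intro h
    exact ⟨h.1, by have := h.2; omega⟩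
  · intro h
    exact ⟨h.1, by have := h.2; omega⟩

/-- The points of a chosen seed are connected to its corner by marked edges. -/
theorem conn_ctr {r l : ℕ} {b : Finset (Ed d)} {i x : Pt d}
    (h : (seeds (2 * r + 1) l b i).Nonempty) (hx : x ∈ cub (ctr r l b i) r) :
    Conn b (sd (2 * r + 1) l b i) x := by
  have h1 : sd (2 * r + 1) l b i ∈
      bx (fun t => ((2 * r + 1 : ℕ) : ℤ) * pick (seeds (2 * r + 1) l b i) t) (2 * r + 1) := by
    rw [mem_bx]
    intro t
    have e : sd (2 * r + 1) l b i t = ((2 * r + 1 : ℕ) : ℤ) * pick (seeds (2 * r + 1) l b i) t :=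
      rfl
    rw [e]
    constructor
    · exact le_rfl
    · push_cast
      omega
  have h2 : x ∈
      bx (fun t => ((2 * r + 1 : ℕ) : ℤ) * pick (seeds (2 * r + 1) l b i) t) (2 * r + 1) := by
    rw [mem_bx]
    intro t
    have h3 := SeedC_mem_cub.1 hx t
    have e : ctr r l b i t =
        ((2 * r + 1 : ℕ) : ℤ) * pick (seeds (2 * r + 1) l b i) t + (r : ℤ) := rfl
    rw [e] at h3
    generalize ((2 * r + 1 : ℕ) : ℤ) * pick (seeds (2 * r + 1) l b i) t = z at *
    push_cast
    omega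
  exact (SeedC_conn_bx h1 h2).mono (sd_spec h).2

/-- Bounds for the coordinates of the centre. -/
private theorem SeedC_bd {r l : ℕ} {b : Finset (Ed d)} {i : Pt d}
    (h : (seeds (2 * r + 1) l b i).Nonempty) (t : Fin d) :
    ((2 * r + 1 : ℕ) : ℤ) * 2 ^ l * i t + r ≤ ctr r l b i t ∧
      ctr r l b i t + (r + 1) ≤ ((2 * r + 1 : ℕ) : ℤ) * 2 ^ l * (i t + 1) := by
  obtain ⟨h1, -⟩ := sd_spec h
  rw [mem_bx] at h1
  obtain ⟨h2, h3⟩ := h1 t
  have e : ctr r l b i t =
      ((2 * r + 1 : ℕ) : ℤ) * pick (seeds (2 * r + 1) l b i) t + (r : ℤ) := rfl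
  rw [e]
  generalize pick (seeds (2 * r + 1) l b i) t = k at *
  push_cast at h2 h3 ⊢
  generalize (2 : ℤ) ^ l = A at *
  have hr0 : (0 : ℤ) ≤ 2 * (r : ℤ) + 1 := by omega
  constructor
  · have := mul_le_mul_of_nonneg_left h2 hr0
    nlinarith
  · have h4 : k + 1 ≤ A * i t + A := by omega
    have := mul_le_mul_of_nonneg_left h4 hr0
    nlinarith

/-- The centre of the chosen seed is inside the fine cube. -/
theorem ctr_mem {r l k₀ : ℕ} {b : Finset (Ed d)} {i j : Pt d}
    (h : (seeds (2 * r + 1) l b i).Nonempty) (hi : i ∈ blocks k₀ j) :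
    ctr r l b i ∈ bx (fun t => (((2 * r + 1) * 2 ^ l * 2 ^ k₀ : ℕ) : ℤ) * j t)
      (2 * ((2 * r + 1) * 2 ^ l * 2 ^ k₀)) := by
  rw [mem_bx]
  unfold blocks at hi
  rw [mem_bx] at hi
  intro t
  obtain ⟨h4, h5⟩ := hi t
  obtain ⟨h1, h2⟩ := SeedC_bd h t
  generalize ctr r l b i t = c at *
  push_cast at h1 h2 h4 h5 ⊢
  rw [pow_succ] at h5
  have hA : (0 : ℤ) ≤ (2 * (r : ℤ) + 1) * 2 ^ l := by positivity
  generalize (2 * (r : ℤ) + 1) * 2 ^ l = A at *
  generalize (2 : ℤ) ^ k₀ = B at *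
  have hr : (0 : ℤ) ≤ r := Int.natCast_nonneg r
  constructor
  · have := mul_le_mul_of_nonneg_left h4 hA
    nlinarith
  · have h6 : i t + 1 ≤ B * j t + B * 2 := by omega
    have := mul_le_mul_of_nonneg_left h6 hA
    nlinarith

/-- Boxes around the centres of two different blocks of the same parity are disjoint. -/
theorem ctr_disjoint {r l N : ℕ} {b : Finset (Ed d)} {i i' : Pt d}
    (h : (seeds (2 * r + 1) l b i).Nonempty) (h' : (seeds (2 * r + 1) l b i').Nonempty)
    (hN : 2 * N < (2 * r + 1) * 2 ^ l) (hne : i ≠ i') (hpar : ∀ t, i t % 2 = i' t % 2) :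
    Disjoint (cub (ctr r l b i) N) (cub (ctr r l b i') N) := by
  rw [Finset.disjoint_left]
  intro x hx hx'
  apply hne
  funext t
  by_contra hti
  have h1 := SeedC_mem_cub.1 hx t
  have h2 := SeedC_mem_cub.1 hx' t
  obtain ⟨h3, h4⟩ := SeedC_bd h t
  obtain ⟨h5, h6⟩ := SeedC_bd h' t
  have h7 := hpar t
  have hN' : 2 * (N : ℤ) < (2 * (r : ℤ) + 1) * 2 ^ l := by exact_mod_cast hN
  generalize ctr r l b i t = c at *
  generalize ctr r l b i' t = c' at *
  generalize x t = y at *
  push_cast at h3 h4 h5 h6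
  have hA : (0 : ℤ) ≤ (2 * (r : ℤ) + 1) * 2 ^ l := by positivity
  generalize (2 * (r : ℤ) + 1) * 2 ^ l = A at *
  generalize i t = p at *
  generalize i' t = p' at *
  rcases lt_or_gt_of_ne hti with hlt | hlt
  · have h8 : p + 2 ≤ p' := by omega
    have := mul_le_mul_of_nonneg_left h8 hA
    nlinarith
  · have h8 : p' + 2 ≤ p := by omega
    have := mul_le_mul_of_nonneg_left h8 hA
    nlinarith

/-- A large subfamily of constant parity. -/
theorem exists_parity (I : Finset (Pt d)) : ∃ I' : Finset (Pt d), I' ⊆ I ∧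
    (∀ i ∈ I', ∀ i' ∈ I', ∀ t, i t % 2 = i' t % 2) ∧ I.card ≤ 2 ^ d * I'.card := by
  classical
  let f : Pt d → (Fin d → Bool) := fun x t => decide (x t % 2 = 0)
  by_contra hcon
  push Not at hcon
  have h1 : ∀ c : Fin d → Bool, 2 ^ d * (I.filter (fun x => f x = c)).card < I.card := by
    intro c
    refine hcon _ (Finset.filter_subset _ _) ?_
    intro i hi i' hi' t
    have h2 := congrFun ((Finset.mem_filter.1 hi).2.trans (Finset.mem_filter.1 hi').2.symm) t
    have h3 : (i t % 2 = 0) ↔ (i' t % 2 = 0) := by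
      simpa [f] using h2
    omega
  have h2 : I.card = ∑ c : Fin d → Bool, (I.filter (fun x => f x = c)).card :=
    Finset.card_eq_sum_card_fiberwise (fun x _ => Finset.mem_univ _)
  have h3 : 2 ^ d * I.card < 2 ^ d * I.card := by
    calc 2 ^ d * I.card = ∑ c : Fin d → Bool, 2 ^ d * (I.filter (fun x => f x = c)).card := by
          rw [← Finset.mul_sum, ← h2]
      _ < ∑ _c : Fin d → Bool, I.card := by
          refine Finset.sum_lt_sum_of_nonempty Finset.univ_nonempty fun c _ => h1 c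
      _ = 2 ^ d * I.card := by
          rw [Finset.sum_const, Finset.card_univ, Fintype.card_fun, Fintype.card_bool,
            Fintype.card_fin, smul_eq_mul]
  exact lt_irrefl _ h3

end Pool.Agent.Lib.MP_31386d_pr_RQ
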